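import Pool.Agent.Helper242.KK.Defs

set_option autoImplicit false

namespace Pool.Agent.Helper242.KK

open Complex MeasureTheory Filter Topology Metric

/-- entire functions nonzero at `0` have finite order everywhere -/
theorem lnz_order_ne_top {H : ℂ → ℂ} (hH : Differentiable ℂ H) (h0 : H 0 ≠ 0) (z : ℂ) :
    meromorphicOrderAt H z ≠ ⊤ := by
  have hA : ∀ x, AnalyticAt ℂ H x := fun x => hH.analyticAt x
  have hM : MeromorphicOn H Set.univ := fun x _ => (hA x).meromorphicAt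
  refine hM.meromorphicOrderAt_ne_top_of_isPreconnected (x := 0) isPreconnected_univ
    (Set.mem_univ _) (Set.mem_univ _) ?_
  rw [(hA 0).meromorphicOrderAt_eq, (hA 0).analyticOrderAt_eq_zero.2 h0]
  simp

theorem lnz_meromorphicOn {H : ℂ → ℂ} (hH : Differentiable ℂ H) (U : Set ℂ) :
    MeromorphicOn H U := fun x _ => (hH.analyticAt x).meromorphicAt

theorem lnz_divisor_nonneg {H : ℂ → ℂ} (hH : Differentiable ℂ H) (U : Set ℂ) (z : ℂ) :
    0 ≤ MeromorphicOn.divisor H U z :=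
  (MeromorphicOn.AnalyticOnNhd.divisor_nonneg (fun x _ => hH.analyticAt x)) z

/-- the base case: no zeros -/
theorem lnz_base {F : ℂ → ℂ} (hF : Differentiable ℂ F) {ρ M : ℝ} (hρ : 0 < ρ)
    (hnz : ∀ u ∈ ball (0 : ℂ) ρ, F u ≠ 0) (hb : ∀ w ∈ ball (0 : ℂ) ρ, ‖F w‖ ≤ Real.exp M)
    {w : ℂ} (hw : ‖w‖ < ρ) :
    ‖F w‖ ≤ Real.exp (Real.log ‖F 0‖ + 2 * (M - Real.log ‖F 0‖) * ‖w‖ / (ρ - ‖w‖)) := by
  have h0 : F 0 ≠ 0 := hnz 0 (mem_ball_self hρ)
  have h0n : 0 < ‖F 0‖ := norm_pos_iff.2 h0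
  have hg : DifferentiableOn ℂ (fun z => deriv F z / F z) (ball 0 ρ) := by
    refine DifferentiableOn.div ?_ hF.differentiableOn hnz
    exact (hF.contDiff (n := 2)).differentiable_deriv_two.differentiableOn
  obtain ⟨L0, hL0⟩ := hg.isExactOn_ball
  set L : ℂ → ℂ := fun z => L0 z - L0 0 with hLdef
  have hL : ∀ z ∈ ball (0 : ℂ) ρ, HasDerivAt L (deriv F z / F z) z := fun z hz =>
    (hL0 z hz).sub_const _
  have hLz : L 0 = 0 := by simp [hLdef]
  -- `F * exp (-L)` is constant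
  have hconst : ∀ z ∈ ball (0 : ℂ) ρ, F z * cexp (-L z) = F 0 := by
    intro z hz
    have hd : ∀ x ∈ ball (0 : ℂ) ρ, HasDerivAt (fun y => F y * cexp (-L y)) 0 x := by
      intro x hx
      have h1 := (hF x).hasDerivAt.mul ((hL x hx).neg.cexp)
      have e : deriv F x * cexp (-L x) + F x * (cexp (-L x) * -(deriv F x / F x)) = 0 := by
        have hx' := hnz x hx
        field_simp
        ring
      have h1' : HasDerivAt (fun y => F y * cexp (-L y))
        (deriv F x * cexp (-L x) + F x * (cexp (-L x) * -(deriv F x / F x))) x := h1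
      rwa [e] at h1'
    have h2 := (convex_ball (0 : ℂ) ρ).is_const_of_fderivWithin_eq_zero (𝕜 := ℂ)
      (f := fun y => F y * cexp (-L y))
      (fun x hx => (hd x hx).differentiableAt.differentiableWithinAt) (by
        intro x hx
        rw [((hd x hx).hasFDerivAt.hasFDerivWithinAt (s := ball (0 : ℂ) ρ)).fderivWithin
          (isOpen_ball.uniqueDiffWithinAt hx)]
        ext
        simp) hz (mem_ball_self hρ)
    simpa [hLz] using h2
  have hFL : ∀ z ∈ ball (0 : ℂ) ρ, F z = F 0 * cexp (L z) := by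
    intro z hz
    rw [← hconst z hz, mul_assoc, ← Complex.exp_add]
    simp
  have hnorm : ∀ z ∈ ball (0 : ℂ) ρ, ‖F z‖ = Real.exp (Real.log ‖F 0‖ + (L z).re) := by
    intro z hz
    rw [hFL z hz, norm_mul, Complex.norm_exp, Real.exp_add, Real.exp_log h0n]
  set A : ℝ := M - Real.log ‖F 0‖ with hA
  have hre : ∀ z ∈ ball (0 : ℂ) ρ, (L z).re ≤ A := by
    intro z hz
    have h1 := hb z hz
    rw [hnorm z hz, Real.exp_le_exp] at h1
    linarith
  have hA0 : 0 ≤ A := by
    have := hre 0 (mem_ball_self hρ)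
    rwa [hLz] at this
  have hwb : w ∈ ball (0 : ℂ) ρ := by simpa using hw
  have hden : 0 < ρ - ‖w‖ := by linarith
  set c : ℝ := ‖w‖ / (ρ - ‖w‖) with hc
  have hc0 : 0 ≤ c := div_nonneg (norm_nonneg _) hden.le
  have hLw : ‖L w‖ ≤ 2 * A * c := by
    refine le_of_forall_pos_le_add (fun δ hδ => ?_)
    have hε : 0 < δ / (2 * c + 1) := by positivity
    have h1 := Complex.borelCaratheodory_zero (f := L) (R := ρ) (z := w)
      (M := A + δ / (2 * c + 1)) (by linarith)
      (fun z hz => (hL z hz).differentiableAt.differentiableWithinAt)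
      (fun z hz => by
        show (L z).re ≤ _
        linarith [hre z hz]) hρ hwb hLz
    refine h1.trans ?_
    have h2 : 2 * (A + δ / (2 * c + 1)) * ‖w‖ / (ρ - ‖w‖) =
        2 * A * c + (δ / (2 * c + 1)) * (2 * c) := by
      rw [hc]; ring
    rw [h2]
    have h3 : (δ / (2 * c + 1)) * (2 * c) ≤ (δ / (2 * c + 1)) * (2 * c + 1) :=
      mul_le_mul_of_nonneg_left (by linarith) hε.le
    have h4 : (δ / (2 * c + 1)) * (2 * c + 1) = δ := by
      field_simp
    linarith
  rw [hnorm w hwb, Real.exp_le_exp]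
  have h5 : (L w).re ≤ ‖L w‖ := Complex.re_le_norm _
  have h6 : 2 * A * ‖w‖ / (ρ - ‖w‖) = 2 * A * c := by rw [hc]; ring
  rw [h6]
  linarith

/-- splitting off a zero -/
theorem lnz_split {F : ℂ → ℂ} (hF : Differentiable ℂ F) {ρ M : ℝ} (hρ : 0 < ρ)
    (h0 : F 0 ≠ 0) (hb : ∀ w ∈ closedBall (0 : ℂ) (2 * ρ), ‖F w‖ ≤ Real.exp M) {u : ℂ}
    (hu : u ∈ closedBall (0 : ℂ) ρ) (hFu : F u = 0) :
    ∃ G : ℂ → ℂ, Differentiable ℂ G ∧ G 0 = F 0 ∧
      (∀ w ∈ closedBall (0 : ℂ) (2 * ρ), ‖G w‖ ≤ Real.exp M) ∧ (∀ w, F w = (1 - w / u) * G w) ∧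
      (∀ z, MeromorphicOn.divisor F (closedBall 0 ρ) z =
        (if z = u then 1 else 0) + MeromorphicOn.divisor G (closedBall 0 ρ) z) := by
  have hu0 : u ≠ 0 := by
    rintro rfl
    exact h0 hFu
  have hun : 0 < ‖u‖ := norm_pos_iff.2 hu0
  have huρ : ‖u‖ ≤ ρ := by simpa using hu
  have hds : Differentiable ℂ (dslope F u) := by
    rw [← differentiableOn_univ]
    exact (Complex.differentiableOn_dslope Filter.univ_mem).2 hF.differentiableOn
  have hds' : ∀ w, (w - u) * dslope F u w = F w := by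
    intro w
    have := sub_smul_dslope F u w
    rw [hFu, sub_zero, smul_eq_mul] at this
    exact this
  set G : ℂ → ℂ := fun z => -u * dslope F u z with hG
  have hGd : Differentiable ℂ G := hds.const_mul _
  have hFG : ∀ w, F w = (1 - w / u) * G w := by
    intro w
    rw [hG, ← hds' w]
    field_simp
    ring
  have hG0 : G 0 = F 0 := by
    have := hFG 0
    simpa using this.symm
  refine ⟨G, hGd, hG0, ?_, hFG, ?_⟩
  · -- maximum principle
    have hfr : ∀ z ∈ frontier (ball (0 : ℂ) (2 * ρ)), ‖G z‖ ≤ Real.exp M := by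
      intro z hz
      rw [frontier_ball _ (by positivity)] at hz
      have hz' : ‖z‖ = 2 * ρ := by simpa using hz
      have h1 : 1 ≤ ‖1 - z / u‖ := by
        have h2 : ‖z / u‖ - ‖(1 : ℂ)‖ ≤ ‖z / u - 1‖ := norm_sub_norm_le _ _
        rw [norm_sub_rev (z / u), norm_div, norm_one] at h2
        have h3 : 2 ≤ ‖z‖ / ‖u‖ := by
          rw [le_div_iff₀ hun, hz']
          linarith
        linarith
      have h4 : ‖F z‖ = ‖1 - z / u‖ * ‖G z‖ := by rw [hFG z, norm_mul]
      have h5 := hb z (by simp [hz'])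
      have h6 : ‖G z‖ ≤ ‖1 - z / u‖ * ‖G z‖ := le_mul_of_one_le_left (norm_nonneg _) h1
      linarith
    intro z hz
    refine Complex.norm_le_of_forall_mem_frontier_norm_le (U := ball (0 : ℂ) (2 * ρ))
      isBounded_ball ⟨hGd.differentiableOn, hGd.continuous.continuousOn⟩ hfr ?_
    rw [closure_ball _ (by positivity)]
    exact hz
  · intro z
    have e1 : F = (fun x => x - u) * dslope F u := by
      funext x
      exact (hds' x).symm
    have e2 : G = (fun _ => -u) * dslope F u := rfl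
    have hsub : Differentiable ℂ (fun x : ℂ => x - u) := differentiable_id.sub_const u
    have hcst : Differentiable ℂ (fun _ : ℂ => -u) := differentiable_const _
    have hd0 : dslope F u 0 ≠ 0 := by
      intro h
      apply h0
      rw [← hds' 0, h, mul_zero]
    have d1 : MeromorphicOn.divisor F (closedBall 0 ρ) =
        MeromorphicOn.divisor (fun x => x - u) (closedBall 0 ρ) +
          MeromorphicOn.divisor (dslope F u) (closedBall 0 ρ) := by
      conv_lhs => rw [e1]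
      exact MeromorphicOn.divisor_mul (lnz_meromorphicOn hsub _) (lnz_meromorphicOn hds _)
        (fun z _ => lnz_order_ne_top hsub (by simpa using hu0) z)
        (fun z _ => lnz_order_ne_top hds hd0 z)
    have d2 : MeromorphicOn.divisor G (closedBall 0 ρ) =
        MeromorphicOn.divisor (dslope F u) (closedBall 0 ρ) := by
      rw [e2, MeromorphicOn.divisor_mul (lnz_meromorphicOn hcst _) (lnz_meromorphicOn hds _)
        (fun z _ => lnz_order_ne_top hcst (by simpa using hu0) z)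
        (fun z _ => lnz_order_ne_top hds hd0 z), MeromorphicOn.divisor_const, zero_add]
    rw [d1, d2, Function.locallyFinsuppWithin.coe_add, Pi.add_apply]
    congr 1
    split_ifs with h
    · rw [h]
      exact MeromorphicOn.divisor_sub_const_self hu
    · exact MeromorphicOn.divisor_sub_const_of_ne h

theorem lnz_fin {F : ℂ → ℂ} (ρ : ℝ) (g : ℂ → ℝ) :
    (Function.support fun u => (MeromorphicOn.divisor F (closedBall 0 ρ) u : ℝ) * g u).Finite := by
  refine Set.Finite.subset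
    ((MeromorphicOn.divisor F (closedBall (0 : ℂ) ρ)).finiteSupport (isCompact_closedBall 0 ρ)) ?_
  intro u hu
  rw [Function.mem_support] at hu ⊢
  intro h
  apply hu
  rw [h]
  simp

theorem lnz_sum_split {F G : ℂ → ℂ} (ρ : ℝ) (u : ℂ) (g : ℂ → ℝ)
    (h : ∀ z, MeromorphicOn.divisor F (closedBall 0 ρ) z =
        (if z = u then 1 else 0) + MeromorphicOn.divisor G (closedBall 0 ρ) z) :
    ∑ᶠ z, (MeromorphicOn.divisor F (closedBall 0 ρ) z : ℝ) * g z =
      g u + ∑ᶠ z, (MeromorphicOn.divisor G (closedBall 0 ρ) z : ℝ) * g z := by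
  classical
  have h1 : (fun z => (MeromorphicOn.divisor F (closedBall 0 ρ) z : ℝ) * g z) =
      fun z => (if z = u then g u else 0) + (MeromorphicOn.divisor G (closedBall 0 ρ) z : ℝ) * g z := by
    funext z
    rw [h z]
    split_ifs with hz
    · rw [hz]; push_cast; ring
    · push_cast; ring
  rw [h1, finsum_add_distrib ?_ (lnz_fin ρ g)]
  · congr 1
    rw [finsum_eq_single _ u (fun z hz => if_neg hz), if_pos rfl]
  · refine (Set.finite_singleton u).subset ?_
    intro z hz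
    rw [Function.mem_support] at hz
    by_contra hzu
    exact hz (if_neg hzu)

theorem lnz_main {ρ M : ℝ} (hρ : 0 < ρ) {w : ℂ} (hw : ‖w‖ < ρ) (n : ℕ) :
    ∀ F : ℂ → ℂ, Differentiable ℂ F → F 0 ≠ 0 →
    (∀ w ∈ closedBall (0 : ℂ) (2 * ρ), ‖F w‖ ≤ Real.exp M) →
    (∑ᶠ u, (MeromorphicOn.divisor F (closedBall 0 ρ) u : ℝ) * 1) ≤ n →
    ‖F w‖ ≤ Real.exp
      ((∑ᶠ u, (MeromorphicOn.divisor F (closedBall 0 ρ) u : ℝ) * Real.log (1 + ‖w‖ / ‖u‖)) +
        Real.log ‖F 0‖ + 2 * (M - Real.log ‖F 0‖) * ‖w‖ / (ρ - ‖w‖)) := by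
  have base : ∀ F : ℂ → ℂ, Differentiable ℂ F → F 0 ≠ 0 →
      (∀ w ∈ closedBall (0 : ℂ) (2 * ρ), ‖F w‖ ≤ Real.exp M) →
      (∀ u ∈ closedBall (0 : ℂ) ρ, F u ≠ 0) →
      ‖F w‖ ≤ Real.exp
      ((∑ᶠ u, (MeromorphicOn.divisor F (closedBall 0 ρ) u : ℝ) * Real.log (1 + ‖w‖ / ‖u‖)) +
        Real.log ‖F 0‖ + 2 * (M - Real.log ‖F 0‖) * ‖w‖ / (ρ - ‖w‖)) := by
    intro F hF h0 hb hnz
    have h1 := lnz_base hF hρ (fun u hu => hnz u (ball_subset_closedBall hu))
      (fun z hz => hb z (ball_subset_closedBall (ball_subset_ball (by linarith) hz))) hw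
    refine h1.trans (Real.exp_le_exp.2 ?_)
    have h2 : 0 ≤ ∑ᶠ u, (MeromorphicOn.divisor F (closedBall 0 ρ) u : ℝ) *
        Real.log (1 + ‖w‖ / ‖u‖) := by
      refine finsum_nonneg (fun u => mul_nonneg ?_ (Real.log_nonneg ?_))
      · exact_mod_cast lnz_divisor_nonneg hF _ u
      · have : 0 ≤ ‖w‖ / ‖u‖ := by positivity
        linarith
    linarith
  induction n with
  | zero =>
    intro F hF h0 hb hn
    by_cases hz : ∀ u ∈ closedBall (0 : ℂ) ρ, F u ≠ 0
    · exact base F hF h0 hb hz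
    · exfalso
      push Not at hz
      obtain ⟨u, hu, hFu⟩ := hz
      obtain ⟨G, hG, hG0, hGb, hFG, hdiv⟩ := lnz_split hF hρ h0 hb hu hFu
      rw [lnz_sum_split ρ u (fun _ => 1) hdiv] at hn
      have h2 : 0 ≤ ∑ᶠ u, (MeromorphicOn.divisor G (closedBall 0 ρ) u : ℝ) * 1 := by
        refine finsum_nonneg (fun u => mul_nonneg ?_ zero_le_one)
        exact_mod_cast lnz_divisor_nonneg hG _ u
      norm_num at hn
      norm_num at h2
      linarith
  | succ n ih =>
    intro F hF h0 hb hn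
    by_cases hz : ∀ u ∈ closedBall (0 : ℂ) ρ, F u ≠ 0
    · exact base F hF h0 hb hz
    · push Not at hz
      obtain ⟨u, hu, hFu⟩ := hz
      obtain ⟨G, hG, hG0, hGb, hFG, hdiv⟩ := lnz_split hF hρ h0 hb hu hFu
      have hu0 : u ≠ 0 := by
        rintro rfl
        exact h0 hFu
      have hun : 0 < ‖u‖ := norm_pos_iff.2 hu0
      rw [lnz_sum_split ρ u (fun _ => 1) hdiv] at hn
      have ih' := ih G hG (by rw [hG0]; exact h0) hGb (by push_cast at hn; linarith)
      rw [hG0] at ih'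
      rw [lnz_sum_split ρ u (fun u => Real.log (1 + ‖w‖ / ‖u‖)) hdiv, hFG w, norm_mul]
      have h1 : ‖1 - w / u‖ ≤ 1 + ‖w‖ / ‖u‖ := by
        have := norm_sub_le (1 : ℂ) (w / u)
        rwa [norm_one, norm_div] at this
      have hpos : 0 < 1 + ‖w‖ / ‖u‖ := by positivity
      calc ‖1 - w / u‖ * ‖G w‖ ≤ (1 + ‖w‖ / ‖u‖) * ‖G w‖ :=
            mul_le_mul_of_nonneg_right h1 (norm_nonneg _)
        _ ≤ (1 + ‖w‖ / ‖u‖) * _ := mul_le_mul_of_nonneg_left ih' hpos.le
        _ = _ := by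
            nth_rewrite 1 [← Real.exp_log hpos]
            rw [← Real.exp_add]
            congr 1
            ring

/-- TARGET -/
theorem log_norm_le_of_zeros {F : ℂ → ℂ} (hF : Differentiable ℂ F) {ρ M : ℝ} (hρ : 0 < ρ)
    (h0 : F 0 ≠ 0) (hb : ∀ w ∈ closedBall (0 : ℂ) (2 * ρ), ‖F w‖ ≤ Real.exp M) {w : ℂ}
    (hw : ‖w‖ < ρ) :
    ‖F w‖ ≤ Real.exp
      ((∑ᶠ u, (MeromorphicOn.divisor F (closedBall 0 ρ) u : ℝ) * Real.log (1 + ‖w‖ / ‖u‖)) +
        Real.log ‖F 0‖ + 2 * (M - Real.log ‖F 0‖) * ‖w‖ / (ρ - ‖w‖)) := by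
  obtain ⟨n, hn⟩ := exists_nat_ge
    (∑ᶠ u, (MeromorphicOn.divisor F (closedBall 0 ρ) u : ℝ) * 1)
  exact lnz_main hρ hw n F hF h0 hb hn

end Pool.Agent.Helper242.KK
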