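import Pool.Agent.Helper242.KK.Defs

set_option autoImplicit false

namespace Pool.Agent.Helper242.KK

open Complex MeasureTheory Filter Topology

/-- TARGET -/
theorem mean_square {ι : Type*} (s : Finset ι) (γ lam : ι → ℝ) {T : ℝ} (hT : 0 < T) :
    ∫ x : ℝ, ‖∑ j ∈ s, (γ j : ℂ) * cexp (I * x * lam j)‖ ^ 2 * Real.exp (-x ^ 2 / T ^ 2) =
      Real.sqrt Real.pi * T *
        ∑ j ∈ s, ∑ k ∈ s, γ j * γ k * Real.exp (-T ^ 2 * (lam j - lam k) ^ 2 / 4) := by
  have hb : 0 < ((1 / T ^ 2 : ℝ) : ℂ).re := by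
    rw [ofReal_re]; positivity
  have hpt : ∀ x : ℝ, ((‖∑ j ∈ s, (γ j : ℂ) * cexp (I * x * lam j)‖ ^ 2 *
      Real.exp (-x ^ 2 / T ^ 2) : ℝ) : ℂ) =
      ∑ j ∈ s, ∑ k ∈ s, ((γ j * γ k : ℝ) : ℂ) *
        (cexp (I * ((lam j - lam k : ℝ) : ℂ) * x) * cexp (-((1 / T ^ 2 : ℝ) : ℂ) * x ^ 2)) := by
    intro x
    have h1 : ((‖∑ j ∈ s, (γ j : ℂ) * cexp (I * x * lam j)‖ ^ 2 : ℝ) : ℂ) =
        (∑ j ∈ s, (γ j : ℂ) * cexp (I * x * lam j)) *
          (∑ k ∈ s, (γ k : ℂ) * cexp (-(I * x * lam k))) := by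
      rw [← Complex.normSq_eq_norm_sq, ← Complex.mul_conj, map_sum]
      congr 1
      refine Finset.sum_congr rfl fun k _ => ?_
      rw [map_mul, conj_ofReal, ← Complex.exp_conj]
      congr 2
      simp
    have h2 : ((Real.exp (-x ^ 2 / T ^ 2) : ℝ) : ℂ) = cexp (-((1 / T ^ 2 : ℝ) : ℂ) * x ^ 2) := by
      rw [ofReal_exp]
      congr 1
      push_cast
      ring
    rw [ofReal_mul, h1, h2, Finset.sum_mul_sum, Finset.sum_mul]
    refine Finset.sum_congr rfl fun j _ => ?_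
    rw [Finset.sum_mul]
    refine Finset.sum_congr rfl fun k _ => ?_
    have h3 : cexp (I * ((lam j - lam k : ℝ) : ℂ) * x) =
        cexp (I * x * lam j) * cexp (-(I * x * lam k)) := by
      rw [← Complex.exp_add]
      congr 1
      push_cast
      ring
    rw [h3]
    push_cast
    ring
  have hint : ∀ D : ℝ, Integrable (fun x : ℝ =>
      cexp (I * (D : ℂ) * x) * cexp (-((1 / T ^ 2 : ℝ) : ℂ) * x ^ 2)) := by
    intro D
    have := integrable_cexp_quadratic hb (I * (D : ℂ)) 0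
    refine this.congr (Filter.Eventually.of_forall fun x => ?_)
    simp only [add_zero]
    rw [← Complex.exp_add, add_comm]
  have hval : ∀ D : ℝ, ∫ x : ℝ, cexp (I * (D : ℂ) * x) * cexp (-((1 / T ^ 2 : ℝ) : ℂ) * x ^ 2) =
      ((Real.sqrt Real.pi * T * Real.exp (-T ^ 2 * D ^ 2 / 4) : ℝ) : ℂ) := by
    intro D
    rw [fourierIntegral_gaussian hb]
    have h1 : ((Real.pi : ℂ) / ((1 / T ^ 2 : ℝ) : ℂ)) ^ (1 / 2 : ℂ) =
        ((Real.sqrt Real.pi * T : ℝ) : ℂ) := by
      rw [← ofReal_div]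
      have : (1 / 2 : ℂ) = ((1 / 2 : ℝ) : ℂ) := by push_cast; rfl
      rw [this, ← ofReal_cpow (by positivity), ← Real.sqrt_eq_rpow]
      congr 1
      have : Real.pi / (1 / T ^ 2) = Real.pi * T ^ 2 := by
        field_simp
      rw [this, Real.sqrt_mul Real.pi_pos.le, Real.sqrt_sq hT.le]
    rw [h1, ofReal_mul (Real.sqrt Real.pi * T), ofReal_exp]
    congr 2
    have hT' : (T : ℂ) ≠ 0 := by exact_mod_cast hT.ne'
    push_cast
    field_simp
  apply Complex.ofReal_injective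
  rw [← integral_complex_ofReal]
  simp_rw [hpt]
  rw [integral_finsetSum]
  · simp_rw [Finset.mul_sum]
    rw [ofReal_sum]
    refine Finset.sum_congr rfl fun j _ => ?_
    rw [integral_finsetSum]
    · rw [ofReal_sum]
      refine Finset.sum_congr rfl fun k _ => ?_
      rw [integral_const_mul, hval]
      push_cast
      ring
    · intro k _
      exact (hint _).const_mul _
  · intro j _
    exact integrable_finsetSum _ fun k _ => (hint _).const_mul _

end Pool.Agent.Helper242.KK
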