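import Pool.Agent.Helper242.KK.Defs
import Pool.Agent.Helper242.KK.MeanSq

set_option autoImplicit false

namespace Pool.Agent.Helper242.KK

open Complex MeasureTheory Filter Topology

/-- frequencies -/
noncomputable def la (p : ℕ × ℕ) : ℝ := -(Real.log p.1 - Real.log p.2)

/-- coefficients -/
noncomputable def gam (c : ℕ → ℝ) (h : ℝ) (p : ℕ × ℕ) : ℝ := c p.1 * c p.2 * Real.sinc (h * la p)

/-- off-diagonal pairs -/
def offd (N : ℕ) : Finset (ℕ × ℕ) :=
  ((Finset.Icc 1 N) ×ˢ (Finset.Icc 1 N)).filter fun p => p.1 ≠ p.2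

theorem normsq_Psum (c : ℕ → ℝ) (N : ℕ) (y : ℝ) :
    ((‖Psum c N y‖ ^ 2 : ℝ) : ℂ) = ∑ p ∈ (Finset.Icc 1 N) ×ˢ (Finset.Icc 1 N),
      ((c p.1 * c p.2 : ℝ) : ℂ) * cexp (I * y * (la p)) := by
  have h1 : ((‖Psum c N y‖ ^ 2 : ℝ) : ℂ) = Psum c N y * (starRingEnd ℂ) (Psum c N y) := by
    rw [Complex.mul_conj, Complex.normSq_eq_norm_sq]
  rw [h1, Psum, map_sum, Finset.sum_mul_sum, ← Finset.sum_product']
  apply Finset.sum_congr rfl
  intro p _
  rw [map_mul, ← Complex.exp_conj, map_neg, map_mul, map_mul, Complex.conj_I, Complex.conj_ofReal,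
    Complex.conj_ofReal, Complex.conj_ofReal, mul_mul_mul_comm, ← Complex.exp_add]
  unfold la
  push_cast
  congr 2
  ring

theorem int_exp (h x l : ℝ) :
    ∫ r in (-h)..h, cexp (I * ((x + r : ℝ) : ℂ) * l) =
      cexp (I * x * l) * (2 * h * Real.sinc (h * l)) := by
  by_cases hl : l = 0
  · subst hl
    simp
    ring
  · have h1 : ∀ r : ℝ, cexp (I * ((x + r : ℝ) : ℂ) * l) =
        cexp (I * x * l) * cexp (((l * r : ℝ) : ℂ) * I) := by
      intro r
      rw [← Complex.exp_add]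
      congr 1
      push_cast
      ring
    simp_rw [h1]
    rw [intervalIntegral.integral_const_mul,
      intervalIntegral.integral_comp_mul_left (fun t : ℝ => cexp ((t : ℂ) * I)) hl]
    have h2 : l * (-h) = -(l * h) := by ring
    rw [h2, integral_exp_mul_I_eq_sinc]
    have h3 : (l : ℂ) ≠ 0 := by exact_mod_cast hl
    rw [Complex.real_smul]
    have h4 : l * h = h * l := by ring
    rw [h4]
    push_cast
    field_simp

theorem avg_eq (c : ℕ → ℝ) (N : ℕ) (h x : ℝ) :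
    ((∫ r in (-h)..h, ‖Psum c N (x + r)‖ ^ 2 : ℝ) : ℂ) =
      2 * h * (((∑ n ∈ Finset.Icc 1 N, c n ^ 2 : ℝ) : ℂ) +
        ∑ p ∈ offd N, (gam c h p : ℂ) * cexp (I * x * (la p))) := by
  rw [← intervalIntegral.integral_ofReal]
  simp_rw [normsq_Psum]
  rw [intervalIntegral.integral_finset_sum]
  · simp_rw [intervalIntegral.integral_const_mul, int_exp]
    rw [← Finset.sum_filter_add_sum_filter_not _ (fun p : ℕ × ℕ => p.1 ≠ p.2)]
    rw [add_comm, mul_add]
    congr 1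
    · rw [Finset.sum_filter, Finset.sum_product]
      push_cast
      rw [Finset.mul_sum]
      apply Finset.sum_congr rfl
      intro m hm
      rw [Finset.sum_eq_single m]
      · simp [la]
        ring
      · intro b _ hb
        simp [Ne.symm hb]
      · intro h; exact absurd hm h
    · unfold offd
      rw [Finset.mul_sum]
      apply Finset.sum_congr rfl
      intro p _
      unfold gam
      push_cast
      ring
  · intro p _
    apply Continuous.intervalIntegrable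
    fun_prop

theorem gam_le_one (c : ℕ → ℝ) (h : ℝ) (p : ℕ × ℕ) : |gam c h p| ≤ |c p.1| * |c p.2| := by
  unfold gam
  rw [abs_mul, abs_mul]
  calc |c p.1| * |c p.2| * |Real.sinc (h * la p)| ≤ |c p.1| * |c p.2| * 1 :=
        mul_le_mul_of_nonneg_left (Real.abs_sinc_le_one _) (by positivity)
    _ = _ := mul_one _

theorem sinc_le_sb {h : ℝ} (hh : 0 < h) (p : ℕ × ℕ) (hp : la p ≠ 0) :
    |Real.sinc (h * la p)| ≤ sb h p.1 p.2 := by
  unfold sb
  refine le_min (Real.abs_sinc_le_one _) ?_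
  have h1 : h * la p ≠ 0 := mul_ne_zero hh.ne' hp
  rw [Real.sinc_of_ne_zero h1, abs_div, abs_mul, abs_of_pos hh]
  have h2 : |la p| = |Real.log p.1 - Real.log p.2| := by unfold la; rw [abs_neg]
  rw [h2]
  have h3 : 0 < |Real.log p.1 - Real.log p.2| := by rw [← h2]; exact abs_pos.mpr hp
  exact div_le_div_of_nonneg_right (Real.abs_sin_le_one _) (by positivity)

theorem gam_le_sb (c : ℕ → ℝ) {h : ℝ} (hh : 0 < h) (p : ℕ × ℕ) (hp : la p ≠ 0) :
    |gam c h p| ≤ |c p.1| * |c p.2| * sb h p.1 p.2 := by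
  unfold gam
  rw [abs_mul, abs_mul]
  exact mul_le_mul_of_nonneg_left (sinc_le_sb hh p hp) (by positivity)

theorem la_ne {N : ℕ} {p : ℕ × ℕ} (hp : p ∈ offd N) : la p ≠ 0 := by
  unfold offd at hp
  rw [Finset.mem_filter, Finset.mem_product, Finset.mem_Icc, Finset.mem_Icc] at hp
  obtain ⟨⟨⟨h1, -⟩, h2, -⟩, h3⟩ := hp
  unfold la
  rw [neg_ne_zero, sub_ne_zero]
  intro h
  apply h3
  have h4 := Real.log_injOn_pos (Set.mem_Ioi.mpr (by exact_mod_cast h1 : (0:ℝ) < p.1))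
    (Set.mem_Ioi.mpr (by exact_mod_cast h2 : (0:ℝ) < p.2)) h
  exact_mod_cast h4

theorem log_gap {a b : ℕ} {M : ℝ} (ha : 1 ≤ a) (hb : 1 ≤ b) (hab : a < b) (hbM : (b : ℝ) ≤ M) :
    1 / M ≤ Real.log b - Real.log a := by
  have ha' : (0:ℝ) < a := by exact_mod_cast ha
  have hb' : (0:ℝ) < b := by exact_mod_cast hb
  rw [← Real.log_div hb'.ne' ha'.ne']
  have h1 := Real.one_sub_inv_le_log_of_pos (div_pos hb' ha')
  rw [inv_div] at h1
  refine le_trans ?_ h1
  have h2 : (1:ℝ) / b ≤ 1 - a / b := by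
    have h3 : (a:ℝ) + 1 ≤ b := by exact_mod_cast hab
    rw [div_le_iff₀ hb', sub_mul, div_mul_cancel₀ _ hb'.ne']
    linarith
  refine le_trans ?_ h2
  exact one_div_le_one_div_of_le hb' hbM

theorem log_gap' {a b : ℕ} {M : ℝ} (ha : 1 ≤ a) (hb : 1 ≤ b) (hab : a ≠ b) (haM : (a : ℝ) ≤ M)
    (hbM : (b : ℝ) ≤ M) : (1 / M) ^ 2 ≤ (Real.log b - Real.log a) ^ 2 := by
  have hM : 0 < M := lt_of_lt_of_le (by exact_mod_cast ha : (0:ℝ) < a) haM
  have hM' : 0 ≤ 1 / M := by positivity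
  rcases lt_or_gt_of_ne hab with h | h
  · exact pow_le_pow_left₀ hM' (log_gap ha hb h hbM) 2
  · have h1 := pow_le_pow_left₀ hM' (log_gap hb ha h haM) 2
    calc (1 / M) ^ 2 ≤ _ := h1
      _ = _ := by ring

theorem term_le (c : ℕ → ℝ) {N : ℕ} {h T : ℝ} (hh : 0 < h) {j k : ℕ × ℕ} (hj : j ∈ offd N)
    (hk : k ∈ offd N) :
    gam c h j * gam c h k * Real.exp (-T ^ 2 * (la j - la k) ^ 2 / 4) ≤
      (if j.1 * k.2 = k.1 * j.2 then
        |c j.1| * |c j.2| * (|c k.1| * |c k.2|) * sb h j.1 j.2 ^ 2 else 0) +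
      |c j.1| * |c j.2| * (|c k.1| * |c k.2|) * Real.exp (-T ^ 2 / (4 * (N : ℝ) ^ 4)) := by
  have hj0 := la_ne hj
  have hk0 := la_ne hk
  have hj' := hj
  have hk' := hk
  unfold offd at hj' hk'
  rw [Finset.mem_filter, Finset.mem_product, Finset.mem_Icc, Finset.mem_Icc] at hj' hk'
  obtain ⟨⟨⟨j1, j1'⟩, j2, j2'⟩, -⟩ := hj'
  obtain ⟨⟨⟨k1, k1'⟩, k2, k2'⟩, -⟩ := hk'
  have pj1 : (0:ℝ) < j.1 := by exact_mod_cast j1
  have pj2 : (0:ℝ) < j.2 := by exact_mod_cast j2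
  have pk1 : (0:ℝ) < k.1 := by exact_mod_cast k1
  have pk2 : (0:ℝ) < k.2 := by exact_mod_cast k2
  have hla : la j - la k = Real.log ((k.1 * j.2 : ℕ) : ℝ) - Real.log ((j.1 * k.2 : ℕ) : ℝ) := by
    unfold la
    push_cast
    rw [Real.log_mul pk1.ne' pj2.ne', Real.log_mul pj1.ne' pk2.ne']
    ring
  by_cases he : j.1 * k.2 = k.1 * j.2
  · rw [if_pos he]
    have h0 : la j = la k := by
      rw [he, sub_self] at hla
      exact sub_eq_zero.mp hla
    have h1 : Real.exp (-T ^ 2 * (la j - la k) ^ 2 / 4) = 1 := by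
      rw [h0]; simp
    rw [h1, mul_one]
    have h2 : sb h k.1 k.2 = sb h j.1 j.2 := by
      unfold sb
      have h3 : Real.log k.1 - Real.log k.2 = Real.log j.1 - Real.log j.2 := by
        unfold la at h0; linarith
      rw [h3]
    have h3 := gam_le_sb c hh j hj0
    have h4 := gam_le_sb c hh k hk0
    rw [h2] at h4
    have h5 : gam c h j * gam c h k ≤ |gam c h j| * |gam c h k| := by
      rw [← abs_mul]; exact le_abs_self _
    have h6 : |gam c h j| * |gam c h k| ≤ (|c j.1| * |c j.2| * sb h j.1 j.2) *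
        (|c k.1| * |c k.2| * sb h j.1 j.2) :=
      mul_le_mul h3 h4 (abs_nonneg _) (le_trans (abs_nonneg _) h3)
    have h7 : 0 ≤ |c j.1| * |c j.2| * (|c k.1| * |c k.2|) *
        Real.exp (-T ^ 2 / (4 * (N : ℝ) ^ 4)) := by positivity
    calc gam c h j * gam c h k ≤ (|c j.1| * |c j.2| * sb h j.1 j.2) *
        (|c k.1| * |c k.2| * sb h j.1 j.2) := h5.trans h6
      _ = |c j.1| * |c j.2| * (|c k.1| * |c k.2|) * sb h j.1 j.2 ^ 2 := by ring
      _ ≤ _ := le_add_of_nonneg_right h7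
  · rw [if_neg he, zero_add]
    have hN : (1:ℝ) ≤ N := by exact_mod_cast le_trans j1 j1'
    have hb1 : ((j.1 * k.2 : ℕ) : ℝ) ≤ (N : ℝ) ^ 2 := by
      rw [pow_two]; exact_mod_cast Nat.mul_le_mul j1' k2'
    have hb2 : ((k.1 * j.2 : ℕ) : ℝ) ≤ (N : ℝ) ^ 2 := by
      rw [pow_two]; exact_mod_cast Nat.mul_le_mul k1' j2'
    have h1 := log_gap' (a := j.1 * k.2) (b := k.1 * j.2) (Nat.mul_pos j1 k2) (Nat.mul_pos k1 j2)
      he hb1 hb2
    rw [← hla] at h1
    have h2 : Real.exp (-T ^ 2 * (la j - la k) ^ 2 / 4) ≤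
        Real.exp (-T ^ 2 / (4 * (N : ℝ) ^ 4)) := by
      apply Real.exp_le_exp.mpr
      have h3 : (1 / (N : ℝ) ^ 2) ^ 2 = 1 / (N:ℝ) ^ 4 := by
        rw [div_pow, one_pow, ← pow_mul]
      rw [h3] at h1
      have h4 : -T ^ 2 / (4 * (N : ℝ) ^ 4) = -T ^ 2 * (1 / (N:ℝ) ^ 4) / 4 := by
        field_simp
      rw [h4]
      have h5 : T ^ 2 * (1 / (N:ℝ) ^ 4) ≤ T ^ 2 * (la j - la k) ^ 2 :=
        mul_le_mul_of_nonneg_left h1 (sq_nonneg T)
      linarith
    have h5 : gam c h j * gam c h k ≤ (|c j.1| * |c j.2|) * (|c k.1| * |c k.2|) := by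
      calc gam c h j * gam c h k ≤ |gam c h j| * |gam c h k| := by
            rw [← abs_mul]; exact le_abs_self _
        _ ≤ _ := mul_le_mul (gam_le_one c h j) (gam_le_one c h k) (abs_nonneg _) (by positivity)
    exact mul_le_mul h5 h2 (Real.exp_pos _).le (by positivity)

theorem sum_le (c : ℕ → ℝ) (N : ℕ) {h T : ℝ} (hh : 0 < h) :
    ∑ j ∈ offd N, ∑ k ∈ offd N, gam c h j * gam c h k *
        Real.exp (-T ^ 2 * (la j - la k) ^ 2 / 4) ≤
      (∑ p ∈ quad N, |c p.1.1| * |c p.1.2| * (|c p.2.1| * |c p.2.2|) * sb h p.1.1 p.1.2 ^ 2) +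
        (∑ n ∈ Finset.Icc 1 N, |c n|) ^ 4 * Real.exp (-T ^ 2 / (4 * (N : ℝ) ^ 4)) := by
  have h1 : ∑ j ∈ offd N, ∑ k ∈ offd N, gam c h j * gam c h k *
        Real.exp (-T ^ 2 * (la j - la k) ^ 2 / 4) ≤
      ∑ j ∈ offd N, ∑ k ∈ offd N, ((if j.1 * k.2 = k.1 * j.2 then
        |c j.1| * |c j.2| * (|c k.1| * |c k.2|) * sb h j.1 j.2 ^ 2 else 0) +
      |c j.1| * |c j.2| * (|c k.1| * |c k.2|) * Real.exp (-T ^ 2 / (4 * (N : ℝ) ^ 4))) :=
    Finset.sum_le_sum fun j hj => Finset.sum_le_sum fun k hk => term_le c hh hj hk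
  refine h1.trans ?_
  simp_rw [Finset.sum_add_distrib]
  refine add_le_add ?_ ?_
  · have hsub : ∀ j : ℕ × ℕ, ∑ k ∈ offd N, (if j.1 * k.2 = k.1 * j.2 then
        |c j.1| * |c j.2| * (|c k.1| * |c k.2|) * sb h j.1 j.2 ^ 2 else 0) ≤
        ∑ k ∈ (Finset.Icc 1 N) ×ˢ (Finset.Icc 1 N), (if j.1 * k.2 = k.1 * j.2 then
        |c j.1| * |c j.2| * (|c k.1| * |c k.2|) * sb h j.1 j.2 ^ 2 else 0) := by
      intro j
      apply Finset.sum_le_sum_of_subset_of_nonneg
      · exact Finset.filter_subset _ _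
      · intro k _ _
        split_ifs <;> positivity
    refine (Finset.sum_le_sum fun j _ => hsub j).trans (le_of_eq ?_)
    unfold offd quad
    rw [Finset.sum_filter, Finset.sum_filter, Finset.sum_product
      (s := (Finset.Icc 1 N) ×ˢ (Finset.Icc 1 N)) (t := (Finset.Icc 1 N) ×ˢ (Finset.Icc 1 N))]
    apply Finset.sum_congr rfl
    intro j _
    by_cases hj : j.1 ≠ j.2
    · rw [if_pos hj]
      apply Finset.sum_congr rfl
      intro k _
      simp [hj]
    · rw [if_neg hj]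
      symm
      apply Finset.sum_eq_zero
      intro k _
      simp [hj]
  · have h2 : ∀ j ∈ offd N, ∑ k ∈ offd N, |c j.1| * |c j.2| * (|c k.1| * |c k.2|) *
        Real.exp (-T ^ 2 / (4 * (N : ℝ) ^ 4)) ≤
        |c j.1| * |c j.2| * ((∑ n ∈ Finset.Icc 1 N, |c n|) ^ 2 *
          Real.exp (-T ^ 2 / (4 * (N : ℝ) ^ 4))) := by
      intro j _
      calc ∑ k ∈ offd N, |c j.1| * |c j.2| * (|c k.1| * |c k.2|) *
            Real.exp (-T ^ 2 / (4 * (N : ℝ) ^ 4))
          ≤ ∑ k ∈ (Finset.Icc 1 N) ×ˢ (Finset.Icc 1 N), |c j.1| * |c j.2| * (|c k.1| * |c k.2|) *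
            Real.exp (-T ^ 2 / (4 * (N : ℝ) ^ 4)) := by
            apply Finset.sum_le_sum_of_subset_of_nonneg
            · exact Finset.filter_subset _ _
            · intro k _ _; positivity
        _ = |c j.1| * |c j.2| * ((∑ n ∈ Finset.Icc 1 N, |c n|) ^ 2 *
          Real.exp (-T ^ 2 / (4 * (N : ℝ) ^ 4))) := by
            rw [pow_two (∑ n ∈ Finset.Icc 1 N, |c n|), Finset.sum_mul_sum, ← Finset.sum_product',
              Finset.sum_mul, Finset.mul_sum]
            apply Finset.sum_congr rfl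
            intro k _
            ring
    refine (Finset.sum_le_sum h2).trans ?_
    calc ∑ j ∈ offd N, |c j.1| * |c j.2| * ((∑ n ∈ Finset.Icc 1 N, |c n|) ^ 2 *
          Real.exp (-T ^ 2 / (4 * (N : ℝ) ^ 4)))
        ≤ ∑ j ∈ (Finset.Icc 1 N) ×ˢ (Finset.Icc 1 N), |c j.1| * |c j.2| *
          ((∑ n ∈ Finset.Icc 1 N, |c n|) ^ 2 * Real.exp (-T ^ 2 / (4 * (N : ℝ) ^ 4))) := by
          apply Finset.sum_le_sum_of_subset_of_nonneg
          · exact Finset.filter_subset _ _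
          · intro k _ _; positivity
      _ = (∑ n ∈ Finset.Icc 1 N, |c n|) ^ 4 * Real.exp (-T ^ 2 / (4 * (N : ℝ) ^ 4)) := by
          rw [← Finset.sum_mul, Finset.sum_product' (f := fun a b => |c a| * |c b|),
            ← Finset.sum_mul_sum]
          ring

theorem norm_F_le (c : ℕ → ℝ) (N : ℕ) (h x : ℝ) :
    ‖∑ p ∈ offd N, (gam c h p : ℂ) * cexp (I * x * (la p))‖ ≤ ∑ p ∈ offd N, |gam c h p| := by
  refine (norm_sum_le _ _).trans (Finset.sum_le_sum fun p _ => ?_)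
  rw [norm_mul, Complex.norm_real, Real.norm_eq_abs]
  have h1 : I * (x : ℂ) * (la p : ℂ) = ((x * la p : ℝ) : ℂ) * I := by push_cast; ring
  rw [h1, Complex.norm_exp_ofReal_mul_I, mul_one]

theorem integrable_G (c : ℕ → ℝ) (N : ℕ) (h : ℝ) {T : ℝ} (hT : 0 < T) :
    Integrable (fun x : ℝ => ‖∑ p ∈ offd N, (gam c h p : ℂ) * cexp (I * x * (la p))‖ ^ 2 *
      Real.exp (-x ^ 2 / T ^ 2)) := by
  have hb : 0 < 1 / T ^ 2 := by positivity
  have h1 := (integrable_exp_neg_mul_sq hb).const_mul ((∑ p ∈ offd N, |gam c h p|) ^ 2)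
  refine h1.mono' ?_ ?_
  · apply Continuous.aestronglyMeasurable
    fun_prop
  · refine Eventually.of_forall fun x => ?_
    rw [Real.norm_eq_abs, abs_mul, abs_of_nonneg (sq_nonneg _), abs_of_pos (Real.exp_pos _)]
    have h2 : -x ^ 2 / T ^ 2 = -(1 / T ^ 2) * x ^ 2 := by ring
    rw [h2]
    refine mul_le_mul_of_nonneg_right ?_ (Real.exp_pos _).le
    exact pow_le_pow_left₀ (norm_nonneg _) (norm_F_le c N h x) 2

theorem continuous_Psum (c : ℕ → ℝ) (N : ℕ) : Continuous (Psum c N) := by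
  unfold Psum
  fun_prop

/-- TARGET -/
theorem bad_measure (c : ℕ → ℝ) (N : ℕ) {h T : ℝ} (hh : 0 < h) (hT : 0 < T)
    (hV : 0 < ∑ n ∈ Finset.Icc 1 N, c n ^ 2) :
    (volume {x : ℝ | x ∈ Set.Icc T (2 * T) ∧ ∀ r : ℝ, |r| ≤ h →
        ‖Psum c N (x + r)‖ ^ 2 ≤ (∑ n ∈ Finset.Icc 1 N, c n ^ 2) / 4}).toReal *
      (∑ n ∈ Finset.Icc 1 N, c n ^ 2) ^ 2 ≤
    2 * Real.exp 4 * Real.sqrt Real.pi * T *
      ((∑ p ∈ quad N, |c p.1.1| * |c p.1.2| * (|c p.2.1| * |c p.2.2|) * sb h p.1.1 p.1.2 ^ 2) +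
        (∑ n ∈ Finset.Icc 1 N, |c n|) ^ 4 * Real.exp (-T ^ 2 / (4 * (N : ℝ) ^ 4))) := by
  set V := ∑ n ∈ Finset.Icc 1 N, c n ^ 2 with hVdef
  set B := {x : ℝ | x ∈ Set.Icc T (2 * T) ∧ ∀ r : ℝ, |r| ≤ h →
        ‖Psum c N (x + r)‖ ^ 2 ≤ V / 4} with hB
  have hcont := continuous_Psum c N
  have hBclosed : IsClosed B := by
    have h1 : B = Set.Icc T (2 * T) ∩ ⋂ r : ℝ, ⋂ _ : |r| ≤ h,
        {x : ℝ | ‖Psum c N (x + r)‖ ^ 2 ≤ V / 4} := by
      ext x; simp [hB]
    rw [h1]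
    refine isClosed_Icc.inter (isClosed_iInter fun r => isClosed_iInter fun _ => ?_)
    exact isClosed_le (by fun_prop) continuous_const
  have hBsub : B ⊆ Set.Icc T (2 * T) := fun x hx => hx.1
  have hBfin : volume B < ⊤ := lt_of_le_of_lt (measure_mono hBsub) (by simp)
  have hkey : ∀ x ∈ B, V ^ 2 / 2 ≤
      ‖∑ p ∈ offd N, (gam c h p : ℂ) * cexp (I * x * (la p))‖ ^ 2 := by
    intro x hx
    have h1 : ∫ r in (-h)..h, ‖Psum c N (x + r)‖ ^ 2 ≤ ∫ _ in (-h)..h, V / 4 := by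
      apply intervalIntegral.integral_mono_on (by linarith)
      · apply Continuous.intervalIntegrable
        fun_prop
      · exact intervalIntegrable_const
      · intro r hr
        exact hx.2 r (abs_le.mpr ⟨hr.1, hr.2⟩)
    rw [intervalIntegral.integral_const, smul_eq_mul] at h1
    have h2 := congrArg Complex.re (avg_eq c N h x)
    rw [Complex.ofReal_re] at h2
    have h3 : (2 * (h:ℂ) * (((∑ n ∈ Finset.Icc 1 N, c n ^ 2 : ℝ) : ℂ) +
        ∑ p ∈ offd N, (gam c h p : ℂ) * cexp (I * x * (la p)))).re =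
        2 * h * (V + (∑ p ∈ offd N, (gam c h p : ℂ) * cexp (I * x * (la p))).re) := by
      have h4 : (2 * (h:ℂ)) = ((2 * h : ℝ) : ℂ) := by push_cast; ring
      rw [h4, Complex.re_ofReal_mul, Complex.add_re, Complex.ofReal_re]
    rw [h3] at h2
    rw [h2] at h1
    have h5 : V + (∑ p ∈ offd N, (gam c h p : ℂ) * cexp (I * x * (la p))).re ≤ V / 4 := by
      have h6 : (h - -h) * (V / 4) = 2 * h * (V / 4) := by ring
      rw [h6] at h1
      exact le_of_mul_le_mul_left h1 (by positivity)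
    have h6 := Complex.abs_re_le_norm (∑ p ∈ offd N, (gam c h p : ℂ) * cexp (I * x * (la p)))
    have h7 := neg_abs_le (∑ p ∈ offd N, (gam c h p : ℂ) * cexp (I * x * (la p))).re
    have h8 : 3 * V / 4 ≤ ‖∑ p ∈ offd N, (gam c h p : ℂ) * cexp (I * x * (la p))‖ := by linarith
    nlinarith [hV]
  have hms := mean_square (offd N) (gam c h) la hT
  have hG := integrable_G c N h hT
  have hint : (volume B).toReal * (V ^ 2 / 2 * Real.exp (-4)) ≤
      ∫ x : ℝ, ‖∑ j ∈ offd N, (gam c h j : ℂ) * cexp (I * x * la j)‖ ^ 2 *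
        Real.exp (-x ^ 2 / T ^ 2) := by
    have h1 : (volume B).toReal * (V ^ 2 / 2 * Real.exp (-4)) =
        ∫ _ in B, (V ^ 2 / 2 * Real.exp (-4)) := by
      rw [setIntegral_const, smul_eq_mul]; rfl
    rw [h1]
    have h2 : ∫ _ in B, (V ^ 2 / 2 * Real.exp (-4)) ≤
        ∫ x in B, ‖∑ j ∈ offd N, (gam c h j : ℂ) * cexp (I * x * la j)‖ ^ 2 *
        Real.exp (-x ^ 2 / T ^ 2) := by
      apply setIntegral_mono_on
      · exact integrableOn_const hBfin.ne
      · exact hG.integrableOn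
      · exact hBclosed.measurableSet
      · intro x hx
        have h3 := hkey x hx
        have h4 : Real.exp (-4) ≤ Real.exp (-x ^ 2 / T ^ 2) := by
          apply Real.exp_le_exp.mpr
          have h5 := hx.1.1
          have h6 := hx.1.2
          rw [le_div_iff₀ (by positivity)]
          nlinarith
        exact mul_le_mul h3 h4 (Real.exp_pos _).le (sq_nonneg _)
    refine h2.trans ?_
    apply setIntegral_le_integral hG
    exact Eventually.of_forall fun x => by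
      simp only [Pi.zero_apply]
      positivity
  rw [hms] at hint
  have hsum := sum_le c N (T := T) hh
  have hpi : 0 ≤ Real.sqrt Real.pi * T := by positivity
  have h9 := hint.trans (mul_le_mul_of_nonneg_left hsum hpi)
  have h10 : (volume B).toReal * V ^ 2 =
      2 * Real.exp 4 * ((volume B).toReal * (V ^ 2 / 2 * Real.exp (-4))) := by
    rw [Real.exp_neg]
    field_simp
  rw [h10]
  calc 2 * Real.exp 4 * ((volume B).toReal * (V ^ 2 / 2 * Real.exp (-4))) ≤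
      2 * Real.exp 4 * (Real.sqrt Real.pi * T *
      ((∑ p ∈ quad N, |c p.1.1| * |c p.1.2| * (|c p.2.1| * |c p.2.2|) * sb h p.1.1 p.1.2 ^ 2) +
        (∑ n ∈ Finset.Icc 1 N, |c n|) ^ 4 * Real.exp (-T ^ 2 / (4 * (N : ℝ) ^ 4)))) :=
        mul_le_mul_of_nonneg_left h9 (by positivity)
    _ = _ := by ring

end Pool.Agent.Helper242.KK
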