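import Pool.Agent.Helper242.KK.Defs

set_option autoImplicit false

namespace Pool.Agent.Helper242.KK

open Complex MeasureTheory Filter Topology

theorem eta2_gk_term {μ b x₀ : ℝ} (hμ : 0 < μ) (a : ℝ) :
    Integrable (fun x : ℝ => cexp (-(I * x * a)) * gk μ b x₀ x) ∧
    ∫ x : ℝ, cexp (-(I * x * a)) * gk μ b x₀ x =
      (Real.sqrt (8 * Real.pi * μ) : ℂ) * (cexp (-(I * x₀ * a)) * ((Real.exp (-(2 * μ * (a - b) ^ 2)) : ℝ) : ℂ)) := by
  have hμc : (μ : ℂ) ≠ 0 := by exact_mod_cast hμ.ne'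
  set B : ℂ := ((-(1 / (8 * μ)) : ℝ) : ℂ) with hB
  set c : ℂ := (x₀ : ℂ) / (4 * μ) + I * b - I * a with hc
  set d : ℂ := -(x₀ : ℂ) ^ 2 / (8 * μ) - I * b * x₀ with hd
  have hBre : B.re < 0 := by
    rw [hB, ofReal_re]
    have : 0 < 1 / (8 * μ) := by positivity
    linarith
  have h1 : ∀ x : ℝ, cexp (-(I * x * a)) * gk μ b x₀ x = cexp (B * x ^ 2 + c * x + d) := by
    intro x
    unfold gk
    rw [← Complex.exp_add]
    congr 1
    rw [hB, hc, hd]
    push_cast
    field_simp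
    ring
  simp_rw [h1]
  refine ⟨integrable_cexp_quadratic' hBre c d, ?_⟩
  rw [integral_cexp_quadratic hBre]
  have h2 : (Real.pi / -B : ℂ) = ((8 * Real.pi * μ : ℝ) : ℂ) := by
    rw [hB]
    push_cast
    field_simp
  have h3 : d - c ^ 2 / (4 * B) = -(I * x₀ * a) + ((-(2 * μ * (a - b) ^ 2) : ℝ) : ℂ) := by
    have h4 : c ^ 2 / (4 * B) = - (2 * μ * c ^ 2) := by
      rw [hB]
      push_cast
      field_simp
      ring
    rw [h4, hc, hd]
    push_cast
    field_simp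
    ring_nf
    rw [I_sq]
    ring
  rw [h2, h3, Complex.exp_add, ← Complex.ofReal_exp]
  congr 1
  rw [Real.sqrt_eq_rpow, Complex.ofReal_cpow (by positivity)]
  norm_num

/-- TARGET -/
theorem eta2_gk {μ b x₀ : ℝ} (hμ : 0 < μ) :
    ∫ x : ℝ, eta2 x * gk μ b x₀ x = (Real.sqrt (8 * Real.pi * μ) : ℂ) * Dser μ b x₀ := by
  set F : ℕ → ℝ → ℂ := fun n x => (((-1) ^ n * Real.exp (-2 * Real.log (n + 1)) : ℝ) : ℂ) *
    (cexp (-(I * x * Real.log (n + 1))) * gk μ b x₀ x) with hF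
  have hFint : ∀ n, Integrable (F n) := fun n =>
    (eta2_gk_term (b := b) (x₀ := x₀) hμ (Real.log (n + 1))).1.const_mul _
  have hnorm1 : ∀ (t : ℝ) (x : ℝ), ‖cexp (-(I * x * t))‖ = 1 := by
    intro t x
    have : -(I * x * t) = ((-(x * t) : ℝ) : ℂ) * I := by
      push_cast; ring
    rw [this, Complex.norm_exp_ofReal_mul_I]
  have hFnorm : ∀ n x, ‖F n x‖ = Real.exp (-2 * Real.log (n + 1)) * ‖gk μ b x₀ x‖ := by
    intro n x
    simp only [hF]
    rw [norm_mul, norm_mul, hnorm1, one_mul, Complex.norm_real, norm_mul, norm_pow, norm_neg,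
      norm_one, one_pow, one_mul, Real.norm_eq_abs, abs_of_pos (Real.exp_pos _)]
  have hw : ∀ n : ℕ, Real.exp (-2 * Real.log ((n : ℝ) + 1)) = 1 / ((n : ℝ) + 1) ^ 2 := by
    intro n
    have hn : (0 : ℝ) < (n : ℝ) + 1 := by positivity
    rw [mul_comm, ← Real.rpow_def_of_pos hn, Real.rpow_neg hn.le, one_div]
    norm_num
  have hFsum : Summable fun n => ∫ x, ‖F n x‖ := by
    simp_rw [hFnorm, integral_const_mul, hw]
    apply Summable.mul_right
    have := (summable_nat_add_iff (f := fun n : ℕ => 1 / (n : ℝ) ^ 2) 1).2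
      (Real.summable_one_div_nat_pow.2 one_lt_two)
    simpa using this
  have key := (hasSum_integral_of_summable_integral_norm hFint hFsum).tsum_eq
  have hL : ∀ x : ℝ, eta2 x * gk μ b x₀ x = ∑' n, F n x := by
    intro x
    unfold eta2
    rw [← tsum_mul_right]
    apply tsum_congr
    intro n
    simp only [hF]
    ring
  simp_rw [hL]
  rw [← key]
  unfold Dser
  rw [← tsum_mul_left]
  apply tsum_congr
  intro n
  simp only [hF]
  rw [integral_const_mul, (eta2_gk_term (b := b) (x₀ := x₀) hμ (Real.log (n + 1))).2]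
  unfold wt
  have h5 : Real.exp (-2 * Real.log ((n : ℝ) + 1) - 2 * μ * (Real.log ((n : ℝ) + 1) - b) ^ 2) =
      Real.exp (-2 * Real.log ((n : ℝ) + 1)) * Real.exp (-(2 * μ * (Real.log ((n : ℝ) + 1) - b) ^ 2)) := by
    rw [← Real.exp_add]
    congr 1
  rw [h5]
  push_cast
  ring

end Pool.Agent.Helper242.KK
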