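import Pool.Agent.Helper242.KK.Defs

set_option autoImplicit false

namespace Pool.Agent.Helper242.KK

open Complex MeasureTheory Filter Topology

theorem bound_exp (c t : ℝ) :
    c * |t| + (5 * |t| - Real.pi * Real.exp (2 * |t|)) ≤ (5 + c) ^ 2 / 4 + (-1) * t ^ 2 := by
  have h1 := Real.quadratic_le_exp_of_nonneg (x := 2 * |t|) (by positivity)
  have h2 := Real.pi_gt_three
  have h3 : 3 * (1 + 2 * |t| + (2 * |t|) ^ 2 / 2) ≤ Real.pi * Real.exp (2 * |t|) := by
    have h4 : 0 ≤ 1 + 2 * |t| + (2 * |t|) ^ 2 / 2 := by positivity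
    exact mul_le_mul h2.le h1 h4 (by positivity)
  have h5 : t ^ 2 = |t| ^ 2 := (sq_abs t).symm
  have h6 : 0 ≤ |t| := abs_nonneg t
  rw [h5]
  nlinarith [sq_nonneg ((5 + c) / 2 - |t|), sq_nonneg |t|]

theorem phi_int {w : ℝ → ℝ} {A : ℝ} (hw : Continuous w)
    (hb : ∀ t, |w t| ≤ A * Real.exp (5 * |t| - Real.pi * Real.exp (2 * |t|))) (z : ℂ) :
    Integrable (fun t : ℝ => ((w t : ℝ) : ℂ) * cexp (I * z * t)) := by
  have hA : 0 ≤ A := by
    have h1 := (abs_nonneg _).trans (hb 0)
    exact nonneg_of_mul_nonneg_left h1 (Real.exp_pos _)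
  have hgi : Integrable (fun t : ℝ => Real.exp (-1 * t ^ 2)) := integrable_exp_neg_mul_sq one_pos
  refine (hgi.const_mul (A * Real.exp ((5 + |z.im|) ^ 2 / 4))).mono' ?_ ?_
  · exact (by fun_prop : Continuous (fun t : ℝ => ((w t : ℝ) : ℂ) * cexp (I * z * t))).aestronglyMeasurable
  · refine Eventually.of_forall fun t => ?_
    rw [norm_mul, Complex.norm_exp, Complex.norm_real, Real.norm_eq_abs]
    have h1 : (I * z * t).re ≤ |z.im| * |t| := by
      have : (I * z * t).re = - (z.im * t) := by simp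
      rw [this, ← abs_mul]
      exact neg_le_abs _
    calc |w t| * Real.exp (I * z * t).re
        ≤ (A * Real.exp (5 * |t| - Real.pi * Real.exp (2 * |t|))) * Real.exp (|z.im| * |t|) := by
          apply mul_le_mul (hb t) (Real.exp_le_exp.2 h1) (Real.exp_pos _).le
          positivity
      _ = A * Real.exp (|z.im| * |t| + (5 * |t| - Real.pi * Real.exp (2 * |t|))) := by
          rw [Real.exp_add]; ring
      _ ≤ A * Real.exp ((5 + |z.im|) ^ 2 / 4 + (-1) * t ^ 2) := by
          apply mul_le_mul_of_nonneg_left _ hA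
          exact Real.exp_le_exp.2 (bound_exp _ _)
      _ = A * Real.exp ((5 + |z.im|) ^ 2 / 4) * Real.exp (-1 * t ^ 2) := by
          rw [Real.exp_add]; ring

/-- TARGET -/
theorem FT_heat {w : ℝ → ℝ} {A μ : ℝ} (hμ : 0 < μ) (hw : Continuous w)
    (hb : ∀ t, |w t| ≤ A * Real.exp (5 * |t| - Real.pi * Real.exp (2 * |t|))) (z : ℂ) :
    (Real.sqrt (4 * Real.pi * μ) : ℂ) * FT w z =
      ∫ r : ℝ, (Real.exp (-r ^ 2 / (4 * μ)) : ℂ) *
        FT (fun t => w t * Real.exp (-μ * t ^ 2)) (z - r * I) := by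
  set φ : ℝ → ℂ := fun t => ((w t : ℝ) : ℂ) * cexp (I * z * t) with hφ
  have hφc : Continuous φ := by simp only [hφ]; fun_prop
  have hφi : Integrable φ := phi_int hw hb z
  have hb0 : 0 < 1 / (4 * μ) := by positivity
  let g : ℝ → ℝ := fun s => Real.exp (-(1 / (4 * μ)) * s ^ 2)
  have hgc : Continuous g := by simp only [g]; fun_prop
  have hg0 : ∀ s, 0 ≤ g s := fun s => (Real.exp_pos _).le
  have hgi : Integrable g := integrable_exp_neg_mul_sq hb0
  have hgint : ∫ s, g s = Real.sqrt (4 * Real.pi * μ) := by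
    simp only [g]
    rw [integral_gaussian]
    congr 1
    field_simp
  have key : ∀ r t : ℝ, (Real.exp (-r ^ 2 / (4 * μ)) : ℂ) *
      (((w t * Real.exp (-μ * t ^ 2) : ℝ) : ℂ) * cexp (I * (z - r * I) * t))
      = ((g (r - 2 * μ * t) : ℝ) : ℂ) * φ t := by
    intro r t
    simp only [hφ, g]
    push_cast
    have hμ' : (μ : ℂ) ≠ 0 := by exact_mod_cast hμ.ne'
    have e1 : cexp (-(r : ℂ) ^ 2 / (4 * μ)) * (w t * cexp (-μ * (t : ℂ) ^ 2) *
        cexp (I * (z - r * I) * t)) = w t * cexp (-(r : ℂ) ^ 2 / (4 * μ) + -μ * (t : ℂ) ^ 2 +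
          I * (z - r * I) * t) := by
      rw [Complex.exp_add, Complex.exp_add]; ring
    have e2 : cexp (-(1 / (4 * (μ : ℂ))) * (r - 2 * μ * t) ^ 2) * (w t * cexp (I * z * t))
        = w t * cexp (-(1 / (4 * (μ : ℂ))) * (r - 2 * μ * t) ^ 2 + I * z * t) := by
      rw [Complex.exp_add]; ring
    rw [e1, e2]
    congr 2
    field_simp
    linear_combination (-4 * μ * r * t) * Complex.I_sq
  have hFi : Integrable (Function.uncurry (fun r t : ℝ => ((g (r - 2 * μ * t) : ℝ) : ℂ) * φ t))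
      (volume.prod volume) := by
    have hcont : Continuous (Function.uncurry (fun r t : ℝ => ((g (r - 2 * μ * t) : ℝ) : ℂ) * φ t)) := by
      unfold Function.uncurry
      fun_prop
    rw [integrable_prod_iff' hcont.aestronglyMeasurable]
    constructor
    · refine Eventually.of_forall fun t => ?_
      simp only [Function.uncurry]
      exact ((hgi.comp_sub_right (2 * μ * t)).ofReal).mul_const _
    · simp only [Function.uncurry]
      have h1 : ∀ t : ℝ, ∫ r : ℝ, ‖((g (r - 2 * μ * t) : ℝ) : ℂ) * φ t‖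
          = Real.sqrt (4 * Real.pi * μ) * ‖φ t‖ := by
        intro t
        have h2 : ∀ r : ℝ, ‖((g (r - 2 * μ * t) : ℝ) : ℂ) * φ t‖ = g (r - 2 * μ * t) * ‖φ t‖ := by
          intro r
          rw [norm_mul, Complex.norm_real, Real.norm_of_nonneg (hg0 _)]
        simp only [h2]
        rw [integral_mul_const, integral_sub_right_eq_self g, hgint]
      simp only [h1]
      exact hφi.norm.const_mul _
  have hR : ∀ r : ℝ, (Real.exp (-r ^ 2 / (4 * μ)) : ℂ) *
        FT (fun t => w t * Real.exp (-μ * t ^ 2)) (z - r * I)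
        = ∫ t : ℝ, ((g (r - 2 * μ * t) : ℝ) : ℂ) * φ t := by
    intro r
    unfold FT
    rw [← integral_const_mul]
    exact integral_congr_ae (Eventually.of_forall fun t => key r t)
  simp only [hR]
  rw [integral_integral_swap hFi]
  have hI : ∀ t : ℝ, ∫ r : ℝ, ((g (r - 2 * μ * t) : ℝ) : ℂ) * φ t
      = (Real.sqrt (4 * Real.pi * μ) : ℂ) * φ t := by
    intro t
    rw [integral_mul_const]
    congr 1
    have h3 : ∫ r : ℝ, g (r - 2 * μ * t) = Real.sqrt (4 * Real.pi * μ) := by
      rw [integral_sub_right_eq_self g, hgint]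
    rw [← h3]
    exact integral_complex_ofReal
  simp only [hI]
  rw [integral_const_mul]
  rfl

end Pool.Agent.Helper242.KK
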