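import Pool.Agent.Helper242.KK.Qf

set_option autoImplicit false

namespace Pool.Agent.Helper242.KK

open Complex MeasureTheory Filter Topology

theorem eta_zeta {s : ℂ} (hs : 1 < s.re) :
    ∑' n : ℕ, (-1 : ℂ) ^ n * (1 / ((n : ℂ) + 1) ^ s) = (1 - (2 : ℂ) ^ (1 - s)) * riemannZeta s := by
  have hsum : Summable (fun n : ℕ => 1 / ((n : ℂ) + 1) ^ s) := by
    have h1 := (summable_nat_add_iff 1).2 (Complex.summable_one_div_nat_cpow.2 hs)
    refine h1.congr fun n => ?_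
    push_cast
    rfl
  have hz := zeta_eq_tsum_one_div_nat_add_one_cpow hs
  have he : Summable (fun k : ℕ => 1 / (((2 * k : ℕ) : ℂ) + 1) ^ s) :=
    hsum.comp_injective (fun a b h => by
      have h' : 2 * a = 2 * b := h
      omega)
  have ho : Summable (fun k : ℕ => 1 / (((2 * k + 1 : ℕ) : ℂ) + 1) ^ s) :=
    hsum.comp_injective (i := fun k : ℕ => 2 * k + 1) (fun a b h => by
      have h' : 2 * a + 1 = 2 * b + 1 := h
      omega)
  have h2 := tsum_even_add_odd (f := fun n : ℕ => 1 / ((n : ℂ) + 1) ^ s) he ho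
  have he' : Summable (fun k : ℕ => (-1 : ℂ) ^ (2 * k) * (1 / (((2 * k : ℕ) : ℂ) + 1) ^ s)) := by
    refine he.congr fun k => ?_
    rw [pow_mul]
    simp
  have ho' : Summable (fun k : ℕ => (-1 : ℂ) ^ (2 * k + 1) *
      (1 / (((2 * k + 1 : ℕ) : ℂ) + 1) ^ s)) := by
    refine ho.neg.congr fun k => ?_
    rw [pow_succ, pow_mul]
    simp
  have h3 := tsum_even_add_odd (f := fun n : ℕ => (-1 : ℂ) ^ n * (1 / ((n : ℂ) + 1) ^ s)) he' ho'
  have h4 : ∑' k : ℕ, (-1 : ℂ) ^ (2 * k) * (1 / (((2 * k : ℕ) : ℂ) + 1) ^ s) =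
      ∑' k : ℕ, 1 / (((2 * k : ℕ) : ℂ) + 1) ^ s := by
    refine tsum_congr fun k => ?_
    rw [pow_mul]
    simp
  have h5 : ∑' k : ℕ, (-1 : ℂ) ^ (2 * k + 1) * (1 / (((2 * k + 1 : ℕ) : ℂ) + 1) ^ s) =
      - ∑' k : ℕ, 1 / (((2 * k + 1 : ℕ) : ℂ) + 1) ^ s := by
    rw [← tsum_neg]
    refine tsum_congr fun k => ?_
    rw [pow_succ, pow_mul]
    simp
  have h6 : ∑' k : ℕ, 1 / (((2 * k + 1 : ℕ) : ℂ) + 1) ^ s = (2 : ℂ) ^ (-s) * riemannZeta s := by
    rw [hz, ← tsum_mul_left]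
    refine tsum_congr fun k => ?_
    have h7 : (((2 * k + 1 : ℕ) : ℂ) + 1) = ((2 : ℕ) : ℂ) * ((k + 1 : ℕ) : ℂ) := by
      push_cast; ring
    rw [h7, Complex.natCast_mul_natCast_cpow, Complex.cpow_neg]
    push_cast
    field_simp
  rw [← h3, h4, h5]
  rw [h6] at h2 ⊢
  have h8 : (2 : ℂ) ^ (1 - s) = 2 * (2 : ℂ) ^ (-s) := by
    rw [sub_eq_add_neg, Complex.cpow_add _ _ two_ne_zero, Complex.cpow_one]
  rw [h8, ← sub_eq_add_neg, ← hz] at *
  have h9 : ∑' k : ℕ, 1 / (((2 * k : ℕ) : ℂ) + 1) ^ s = riemannZeta s - (2 : ℂ) ^ (-s) * riemannZeta s :=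
    eq_sub_of_add_eq h2
  rw [h9]
  ring

/-- TARGET -/
theorem qf_mul_xi (x : ℝ) (z s : ℂ) (hz : z = x - 3 / 2 * I) (hs : s = 1 / 2 + I * z) :
    qf z * (1 / 2 * s * (s - 1) * completedRiemannZeta s) = eta2 x := by
  have hI : I * I = -1 := Complex.I_mul_I
  have hs2 : s = 2 + I * x := by
    rw [hs, hz]
    linear_combination (-3/2 : ℂ) * hI
  have hre : s.re = 2 := by
    rw [hs2]
    simp
  have hs1 : 1 < s.re := by rw [hre]; norm_num
  have hs0 : s ≠ 0 := by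
    intro h
    rw [h, Complex.zero_re] at hre
    norm_num at hre
  have hΓ : Complex.Gamma (s / 2) ≠ 0 := by
    apply Complex.Gamma_ne_zero_of_re_pos
    have : (s / 2).re = 1 := by
      have h2 : s / 2 = ((1/2 : ℝ) : ℂ) * s := by push_cast; ring
      rw [h2, Complex.re_ofReal_mul, hre]
      norm_num
    rw [this]
    norm_num
  have hΓ1 : Complex.Gamma (s / 2 + 1) = s / 2 * Complex.Gamma (s / 2) :=
    Complex.Gamma_add_one _ (div_ne_zero hs0 two_ne_zero)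
  have hpi : (Real.pi : ℂ) ≠ 0 := by exact_mod_cast Real.pi_ne_zero
  have hR : Gammaℝ s ≠ 0 := Gammaℝ_ne_zero_of_re_pos (by linarith)
  have hcz : completedRiemannZeta s = riemannZeta s * Gammaℝ s := by
    rw [riemannZeta_def_of_ne_zero hs0]
    field_simp
  have hq : qf z = Efun s * (Real.pi : ℂ) ^ (s / 2) * (Complex.Gamma (s / 2 + 1))⁻¹ := by
    unfold qf
    rw [← hs]
    congr 3
    rw [hs]
    ring
  have hpp : (Real.pi : ℂ) ^ (s / 2) * (Real.pi : ℂ) ^ (-s / 2) = 1 := by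
    rw [← Complex.cpow_add _ _ hpi]
    have : s / 2 + -s / 2 = 0 := by ring
    rw [this, Complex.cpow_zero]
  have h1 : qf z * (1 / 2 * s * (s - 1) * completedRiemannZeta s) =
      (Efun s * (s - 1)) * riemannZeta s := by
    rw [hq, hcz, Complex.Gammaℝ_def, hΓ1]
    have e1 : Efun s * (Real.pi : ℂ) ^ (s / 2) * (s / 2 * Complex.Gamma (s / 2))⁻¹ *
        (1 / 2 * s * (s - 1) * (riemannZeta s * ((Real.pi : ℂ) ^ (-s / 2) * Complex.Gamma (s / 2)))) =
        (Efun s * (s - 1)) * riemannZeta s *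
        ((Real.pi : ℂ) ^ (s / 2) * (Real.pi : ℂ) ^ (-s / 2)) *
        ((s / 2 * Complex.Gamma (s / 2))⁻¹ * (s / 2 * Complex.Gamma (s / 2))) := by ring
    rw [e1, hpp, inv_mul_cancel₀ (mul_ne_zero (div_ne_zero hs0 two_ne_zero) hΓ), mul_one, mul_one]
  rw [h1, Efun_mul, ← eta_zeta hs1]
  unfold eta2
  refine tsum_congr fun n => ?_
  have hn : ((n : ℂ) + 1) ≠ 0 := by exact_mod_cast Nat.succ_ne_zero n
  have hlog : Complex.log ((n : ℂ) + 1) = ((Real.log ((n : ℝ) + 1) : ℝ) : ℂ) := by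
    rw [Complex.ofReal_log (by positivity)]
    push_cast
    rfl
  rw [one_div, ← Complex.cpow_neg, Complex.cpow_def_of_ne_zero hn, hlog, hs2]
  push_cast
  rw [mul_assoc, ← Complex.exp_add]
  congr 2
  ring

end Pool.Agent.Helper242.KK
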