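import Pool.Agent.Helper242.KK.Defs

set_option autoImplicit false

namespace Pool.Agent.Helper242.KK

open Complex MeasureTheory Filter Topology

theorem shift_line_integrable {H : ℂ → ℂ} {a b K δ : ℝ} (hδ : 0 < δ)
    (hd : ∀ z : ℂ, z.im ∈ Set.uIcc a b → DifferentiableAt ℂ H z)
    (hb : ∀ z : ℂ, z.im ∈ Set.uIcc a b → ‖H z‖ ≤ K * Real.exp (-δ * z.re ^ 2)) {c : ℝ}
    (hc : c ∈ Set.uIcc a b) : Integrable (fun t : ℝ => H (t + c * I)) := by
  have him : ∀ t : ℝ, ((t : ℂ) + c * I).im = c := by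
    intro t
    simp
  have hre : ∀ t : ℝ, ((t : ℂ) + c * I).re = t := by
    intro t
    simp
  have hcont : Continuous (fun t : ℝ => H (t + c * I)) := by
    rw [continuous_iff_continuousAt]
    intro t
    have h1 : ContinuousAt H ((t : ℂ) + c * I) := by
      apply (hd _ _).continuousAt
      rw [him]
      exact hc
    have h2 : ContinuousAt (fun t : ℝ => (t : ℂ) + c * I) t := by fun_prop
    exact ContinuousAt.comp (g := H) (f := fun t : ℝ => (t : ℂ) + c * I) h1 h2
  refine Integrable.mono' ((integrable_exp_neg_mul_sq hδ).const_mul K)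
    hcont.aestronglyMeasurable (Eventually.of_forall fun t => ?_)
  have h3 := hb ((t : ℂ) + c * I) (by rw [him]; exact hc)
  rw [hre] at h3
  exact h3

theorem shift_line_vert {H : ℂ → ℂ} {a b K δ : ℝ}
    (hb : ∀ z : ℂ, z.im ∈ Set.uIcc a b → ‖H z‖ ≤ K * Real.exp (-δ * z.re ^ 2)) (T : ℝ) :
    ‖∫ y in a..b, H (T + y * I)‖ ≤ K * Real.exp (-δ * T ^ 2) * |b - a| := by
  apply intervalIntegral.norm_integral_le_of_norm_le_const
  intro y hy
  have h1 : ((T : ℂ) + y * I).im = y := by simp
  have h2 : ((T : ℂ) + y * I).re = T := by simp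
  have h3 := hb ((T : ℂ) + y * I) (by rw [h1]; exact Set.uIoc_subset_uIcc hy)
  rw [h2] at h3
  exact h3

/-- Shift of a horizontal line of integration. -/
theorem shift_line {H : ℂ → ℂ} {a b K δ : ℝ} (hδ : 0 < δ)
    (hd : ∀ z : ℂ, z.im ∈ Set.uIcc a b → DifferentiableAt ℂ H z)
    (hb : ∀ z : ℂ, z.im ∈ Set.uIcc a b → ‖H z‖ ≤ K * Real.exp (-δ * z.re ^ 2)) :
    ∫ t : ℝ, H (t + a * I) = ∫ t : ℝ, H (t + b * I) := by
  have hrect : ∀ T : ℝ, (∫ x in (-T)..T, H (x + a * I)) - (∫ x in (-T)..T, H (x + b * I)) +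
      I • (∫ y in a..b, H (T + y * I)) - I • (∫ y in a..b, H (((-T : ℝ) : ℂ) + y * I)) = 0 := by
    intro T
    have h1 := Complex.integral_boundary_rect_eq_zero_of_differentiableOn H
      (((-T : ℝ) : ℂ) + a * I) ((T : ℂ) + b * I) (by
        intro z hz
        apply (hd z _).differentiableWithinAt
        have h2 := hz.2
        simpa using h2)
    simpa using h1
  have hA : Tendsto (fun T : ℝ => ∫ x in (-T)..T, H (x + a * I)) atTop
      (𝓝 (∫ t : ℝ, H (t + a * I))) :=
    intervalIntegral_tendsto_integral (shift_line_integrable hδ hd hb Set.left_mem_uIcc)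
      tendsto_neg_atTop_atBot tendsto_id
  have hB : Tendsto (fun T : ℝ => ∫ x in (-T)..T, H (x + b * I)) atTop
      (𝓝 (∫ t : ℝ, H (t + b * I))) :=
    intervalIntegral_tendsto_integral (shift_line_integrable hδ hd hb Set.right_mem_uIcc)
      tendsto_neg_atTop_atBot tendsto_id
  have hE : Tendsto (fun T : ℝ => K * Real.exp (-δ * T ^ 2) * |b - a|) atTop (𝓝 0) := by
    have h1 : Tendsto (fun T : ℝ => -δ * T ^ 2) atTop atBot :=
      (tendsto_pow_atTop two_ne_zero).const_mul_atTop_of_neg (by linarith)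
    have h2 := Real.tendsto_exp_atBot.comp h1
    have h3 := (h2.const_mul K).mul_const |b - a|
    simpa using h3
  have hV1 : Tendsto (fun T : ℝ => I • (∫ y in a..b, H (T + y * I))) atTop (𝓝 0) := by
    apply squeeze_zero_norm (fun T => ?_) hE
    rw [norm_smul, norm_I, one_mul]
    exact shift_line_vert hb T
  have hV2 : Tendsto (fun T : ℝ => I • (∫ y in a..b, H (((-T : ℝ) : ℂ) + y * I))) atTop (𝓝 0) := by
    apply squeeze_zero_norm (fun T => ?_) hE
    rw [norm_smul, norm_I, one_mul]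
    have h1 := shift_line_vert hb (-T)
    rw [neg_sq] at h1
    exact h1
  have hlim := ((hA.sub hB).add hV1).sub hV2
  simp only [hrect] at hlim
  have h0 := tendsto_nhds_unique hlim tendsto_const_nhds
  rw [add_zero, sub_zero] at h0
  exact sub_eq_zero.1 h0

end Pool.Agent.Helper242.KK
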