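import Pool.Agent.Helper242.KK.Defs
import Pool.Agent.Helper242.KK.ShiftLine

set_option autoImplicit false

namespace Pool.Agent.Helper242.KK

open Complex MeasureTheory Filter Topology

lemma swap_shift_gauss {c : ℝ} (hc : 0 < c) (L x₀ x : ℝ) :
    L * |x| - c * (x - x₀) ^ 2 ≤ (L + 2 * c * |x₀|) ^ 2 / (2 * c) - (c / 2) * x ^ 2 := by
  set A : ℝ := L + 2 * c * |x₀| with hA
  have h1 : x * x₀ ≤ |x| * |x₀| := by
    rw [← abs_mul]; exact le_abs_self _
  have h2 : A * |x| - (c / 2) * x ^ 2 ≤ A ^ 2 / (2 * c) := by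
    rw [le_div_iff₀ (by positivity)]
    have h3 := sq_nonneg (A - c * |x|)
    have h4 : |x| ^ 2 = x ^ 2 := sq_abs x
    have h5 : A ^ 2 - (A * |x| - (c / 2) * x ^ 2) * (2 * c) = (A - c * |x|) ^ 2 := by
      rw [← h4]; ring
    linarith
  have h5 : L * |x| - c * (x - x₀) ^ 2 ≤ A * |x| - (c / 2) * x ^ 2 - (c / 2) * x ^ 2 := by
    have h6 : 0 ≤ x₀ ^ 2 := sq_nonneg _
    have h7 : c * (x * x₀) ≤ c * (|x| * |x₀|) := mul_le_mul_of_nonneg_left h1 hc.le
    have h8 : 0 ≤ c * x₀ ^ 2 := by positivity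
    rw [hA]
    nlinarith
  linarith

lemma swap_shift_gk {μ : ℝ} (b x₀ : ℝ) (z : ℂ) :
    ‖gk μ b x₀ z‖ = Real.exp (-((z.re - x₀) ^ 2 - z.im ^ 2) / (8 * μ) - b * z.im) := by
  unfold gk
  rw [Complex.norm_exp]
  congr 1
  have h1 : (8 * (μ : ℂ)) = ((8 * μ : ℝ) : ℂ) := by push_cast; ring
  rw [h1, Complex.add_re, Complex.div_ofReal_re]
  congr 1
  · congr 1
    simp [pow_two]
  · simp

lemma swap_shift_gk_diff {μ : ℝ} (b x₀ : ℝ) : Differentiable ℂ (gk μ b x₀) := by
  unfold gk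
  fun_prop

/-- TARGET -/
theorem swap_shift {μ : ℝ} (b x₀ : ℝ) (hμ : 0 < μ) {f q : ℂ → ℂ}
    (hf : Differentiable ℂ f) (hq : Differentiable ℂ q)
    (hfb : ∀ ε : ℝ, 0 < ε → ∃ C : ℝ, ∀ z : ℂ, ‖f z‖ ≤ C * Real.exp (ε * z.im ^ 2))
    (hqb : ∀ ε : ℝ, 0 < ε → ∃ C : ℝ, 0 < C ∧ ∀ x r : ℝ, ‖q (x + r * I)‖ ≤
      C * Real.exp (ε * r ^ 2) * (1 + |x|) ^ (3 / 4 + r / 2) * Real.exp (Real.pi / 4 * |x|)) :
    ∫ x : ℝ, (∫ r : ℝ, (Real.exp (-r ^ 2 / (4 * μ)) : ℂ) * f (x - 3 / 2 * I - r * I)) *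
        q (x - 3 / 2 * I) * gk μ b x₀ x =
      ∫ r : ℝ, (Real.exp (-r ^ 2 / (4 * μ)) : ℂ) *
        ∫ x : ℝ, f x * q (x + r * I) * gk μ b x₀ (x + (3 / 2 + r) * I) := by
  have hfc : Continuous f := hf.continuous
  have hqc : Continuous q := hq.continuous
  have hgc : Continuous (gk μ b x₀) := (swap_shift_gk_diff b x₀).continuous
  obtain ⟨C₁, hC₁⟩ := hfb (1 / (16 * μ)) (by positivity)
  obtain ⟨C₂, hC₂pos, hC₂⟩ := hqb 1 one_pos
  have hC₁0 : 0 ≤ C₁ := by
    have := (norm_nonneg _).trans (hC₁ 0)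
    have h2 : 0 < Real.exp (1 / (16 * μ) * (0 : ℂ).im ^ 2) := Real.exp_pos _
    exact nonneg_of_mul_nonneg_left this h2
  -- integrability on the product
  have hint : Integrable (Function.uncurry (fun (x r : ℝ) =>
      ((Real.exp (-r ^ 2 / (4 * μ)) : ℂ) * f (x - 3 / 2 * I - r * I)) *
        (q (x - 3 / 2 * I) * gk μ b x₀ x))) (volume.prod volume) := by
    have hg1 : Integrable (fun x : ℝ => Real.exp (-(1 / (16 * μ)) * x ^ 2)) :=
      integrable_exp_neg_mul_sq (by positivity)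
    have hg2 : Integrable (fun r : ℝ => Real.exp (-(1 / (8 * μ)) * r ^ 2)) :=
      integrable_exp_neg_mul_sq (by positivity)
    have hg := (hg1.mul_prod hg2).const_mul
      ((C₁ * Real.exp (9 / (32 * μ))) * ((C₂ * Real.exp (9 / 4)) *
        Real.exp ((Real.pi / 4 + 2 * (1 / (8 * μ)) * |x₀|) ^ 2 / (2 * (1 / (8 * μ))))))
    refine Integrable.mono' hg ?_ ?_
    · apply Continuous.aestronglyMeasurable
      unfold Function.uncurry
      fun_prop
    · refine Filter.Eventually.of_forall ?_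
      rintro ⟨x, r⟩
      simp only [Function.uncurry_apply_pair]
      rw [norm_mul, norm_mul, norm_mul]
      have e1 : ‖(Real.exp (-r ^ 2 / (4 * μ)) : ℂ)‖ = Real.exp (-r ^ 2 / (4 * μ)) := by
        rw [Complex.norm_real, Real.norm_eq_abs, abs_of_pos (Real.exp_pos _)]
      have e2 : ‖f (x - 3 / 2 * I - r * I)‖ ≤ C₁ * Real.exp (1 / (16 * μ) * (3 / 2 + r) ^ 2) := by
        have := hC₁ (x - 3 / 2 * I - r * I)
        have him : ((x : ℂ) - 3 / 2 * I - r * I).im = -(3 / 2 + r) := by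
          simp
          ring
        rw [him, neg_sq] at this
        exact this
      have e3 : ‖q (x - 3 / 2 * I)‖ ≤ C₂ * Real.exp (9 / 4) * Real.exp (Real.pi / 4 * |x|) := by
        have := hC₂ x (-(3 / 2))
        have h1 : (x : ℂ) + ((-(3 / 2) : ℝ) : ℂ) * I = x - 3 / 2 * I := by
          push_cast; ring
        rw [h1] at this
        have h2 : (3 / 4 + -(3 / 2) / 2 : ℝ) = 0 := by norm_num
        rw [h2, Real.rpow_zero, mul_one] at this
        have h3 : (1 * (-(3 / 2)) ^ 2 : ℝ) = 9 / 4 := by norm_num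
        rw [h3] at this
        exact this
      have e4 : ‖gk μ b x₀ x‖ = Real.exp (-(1 / (8 * μ)) * (x - x₀) ^ 2) := by
        rw [swap_shift_gk]
        congr 1
        simp
        ring
      rw [e1, e4]
      have hgauss := swap_shift_gauss (c := 1 / (8 * μ)) (by positivity) (Real.pi / 4) x₀ x
      have e5 : Real.exp (-r ^ 2 / (4 * μ)) * (C₁ * Real.exp (1 / (16 * μ) * (3 / 2 + r) ^ 2)) ≤
          (C₁ * Real.exp (9 / (32 * μ))) * Real.exp (-(1 / (8 * μ)) * r ^ 2) := by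
        have h1 : Real.exp (-r ^ 2 / (4 * μ)) * Real.exp (1 / (16 * μ) * (3 / 2 + r) ^ 2) ≤
            Real.exp (9 / (32 * μ)) * Real.exp (-(1 / (8 * μ)) * r ^ 2) := by
          rw [← Real.exp_add, ← Real.exp_add]
          apply Real.exp_le_exp.mpr
          have h2 : (3 / 2 + r) ^ 2 ≤ 9 / 2 + 2 * r ^ 2 := by nlinarith [sq_nonneg (3 / 2 - r)]
          have h3 : 1 / (16 * μ) * (3 / 2 + r) ^ 2 ≤ 1 / (16 * μ) * (9 / 2 + 2 * r ^ 2) :=
            mul_le_mul_of_nonneg_left h2 (by positivity)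
          have h4 : -r ^ 2 / (4 * μ) + 1 / (16 * μ) * (9 / 2 + 2 * r ^ 2) =
              9 / (32 * μ) + -(1 / (8 * μ)) * r ^ 2 := by
            field_simp
            ring
          linarith
        calc Real.exp (-r ^ 2 / (4 * μ)) * (C₁ * Real.exp (1 / (16 * μ) * (3 / 2 + r) ^ 2))
            = C₁ * (Real.exp (-r ^ 2 / (4 * μ)) * Real.exp (1 / (16 * μ) * (3 / 2 + r) ^ 2)) := by
              ring
          _ ≤ C₁ * (Real.exp (9 / (32 * μ)) * Real.exp (-(1 / (8 * μ)) * r ^ 2)) :=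
              mul_le_mul_of_nonneg_left h1 hC₁0
          _ = _ := by ring
      have e6 : (C₂ * Real.exp (9 / 4) * Real.exp (Real.pi / 4 * |x|)) *
          Real.exp (-(1 / (8 * μ)) * (x - x₀) ^ 2) ≤
          ((C₂ * Real.exp (9 / 4)) *
            Real.exp ((Real.pi / 4 + 2 * (1 / (8 * μ)) * |x₀|) ^ 2 / (2 * (1 / (8 * μ))))) *
            Real.exp (-(1 / (16 * μ)) * x ^ 2) := by
        rw [mul_assoc, mul_assoc (C₂ * Real.exp (9 / 4)), ← Real.exp_add, ← Real.exp_add]
        apply mul_le_mul_of_nonneg_left _ (by positivity)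
        apply Real.exp_le_exp.mpr
        have h4 : (1 / (8 * μ)) / 2 * x ^ 2 = 1 / (16 * μ) * x ^ 2 := by
          field_simp
          ring
        linarith
      calc Real.exp (-r ^ 2 / (4 * μ)) * ‖f (x - 3 / 2 * I - r * I)‖ *
            (‖q (x - 3 / 2 * I)‖ * Real.exp (-(1 / (8 * μ)) * (x - x₀) ^ 2))
          ≤ (Real.exp (-r ^ 2 / (4 * μ)) * (C₁ * Real.exp (1 / (16 * μ) * (3 / 2 + r) ^ 2))) *
            ((C₂ * Real.exp (9 / 4) * Real.exp (Real.pi / 4 * |x|)) *
              Real.exp (-(1 / (8 * μ)) * (x - x₀) ^ 2)) := by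
            gcongr
        _ ≤ ((C₁ * Real.exp (9 / (32 * μ))) * Real.exp (-(1 / (8 * μ)) * r ^ 2)) *
            (((C₂ * Real.exp (9 / 4)) *
            Real.exp ((Real.pi / 4 + 2 * (1 / (8 * μ)) * |x₀|) ^ 2 / (2 * (1 / (8 * μ))))) *
            Real.exp (-(1 / (16 * μ)) * x ^ 2)) := by
            apply mul_le_mul e5 e6 (by positivity) (by positivity)
        _ = _ := by ring
  -- the swap
  have hL : (∫ x : ℝ, (∫ r : ℝ, (Real.exp (-r ^ 2 / (4 * μ)) : ℂ) *
      f (x - 3 / 2 * I - r * I)) * q (x - 3 / 2 * I) * gk μ b x₀ x) =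
      ∫ x : ℝ, ∫ r : ℝ, ((Real.exp (-r ^ 2 / (4 * μ)) : ℂ) * f (x - 3 / 2 * I - r * I)) *
        (q (x - 3 / 2 * I) * gk μ b x₀ x) := by
    congr 1
    funext x
    rw [MeasureTheory.integral_mul_const, mul_assoc]
  rw [hL, MeasureTheory.integral_integral_swap hint]
  congr 1
  funext r
  -- shift of the contour
  have hsh : ∫ t : ℝ, (fun z : ℂ => f z * q (z + r * I) * gk μ b x₀ (z + (3 / 2 + r) * I))
        (t + ((-(3 / 2 + r) : ℝ) : ℂ) * I) =
      ∫ t : ℝ, (fun z : ℂ => f z * q (z + r * I) * gk μ b x₀ (z + (3 / 2 + r) * I))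
        (t + ((0 : ℝ) : ℂ) * I) := by
    set M : ℝ := |3 / 2 + r| with hM
    have hM0 : 0 ≤ M := abs_nonneg _
    set P : ℝ := 3 / 4 + (M + |r|) / 2 with hP
    have hP0 : 0 ≤ P := by positivity
    apply shift_line (H := fun z : ℂ => f z * q (z + r * I) *
        gk μ b x₀ (z + (3 / 2 + r) * I)) (a := -(3 / 2 + r)) (b := 0) (δ := 1 / (16 * μ)) (K := (C₁ * Real.exp (1 / (16 * μ) * M ^ 2)) *
      ((C₂ * Real.exp (1 * (M + |r|) ^ 2)) *
        (Real.exp ((2 * M) ^ 2 / (8 * μ) + |b| * (2 * M)) *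
        Real.exp (((Real.pi / 4 + P) + 2 * (1 / (8 * μ)) * |x₀|) ^ 2 / (2 * (1 / (8 * μ)))))))
      (by positivity)
    · intro z _
      have h1 : Differentiable ℂ (fun z : ℂ => f z * q (z + r * I) *
          gk μ b x₀ (z + (3 / 2 + r) * I)) := by
        have hgd := swap_shift_gk_diff (μ := μ) b x₀
        exact (hf.mul (hq.comp (by fun_prop))).mul (hgd.comp (by fun_prop))
      exact h1 z
    · intro z hz
      have hzM : |z.im| ≤ M := by
        rw [Set.mem_uIcc] at hz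
        rw [hM, abs_le]
        have h1 := neg_abs_le (3 / 2 + r)
        have h2 := le_abs_self (3 / 2 + r)
        rcases hz with hz | hz <;> constructor <;> linarith [hz.1, hz.2, abs_nonneg (3 / 2 + r)]
      rw [norm_mul, norm_mul]
      have e1 : ‖f z‖ ≤ C₁ * Real.exp (1 / (16 * μ) * M ^ 2) := by
        refine (hC₁ z).trans (mul_le_mul_of_nonneg_left ?_ hC₁0)
        apply Real.exp_le_exp.mpr
        apply mul_le_mul_of_nonneg_left _ (by positivity)
        exact sq_le_sq' (by linarith [neg_abs_le z.im, (abs_le.mp hzM).1]) (abs_le.mp hzM).2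
      have e2 : ‖q (z + r * I)‖ ≤ (C₂ * Real.exp (1 * (M + |r|) ^ 2)) *
          Real.exp ((Real.pi / 4 + P) * |z.re|) := by
        have h0 := hC₂ z.re (z.im + r)
        have h1 : (z.re : ℂ) + ((z.im + r : ℝ) : ℂ) * I = z + r * I := by
          conv_rhs => rw [← Complex.re_add_im z]
          push_cast
          ring
        rw [h1] at h0
        refine h0.trans ?_
        have h2 : |z.im + r| ≤ M + |r| := (abs_add_le _ _).trans (by linarith)
        have h3 : Real.exp (1 * (z.im + r) ^ 2) ≤ Real.exp (1 * (M + |r|) ^ 2) := by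
          apply Real.exp_le_exp.mpr
          rw [one_mul, one_mul, ← sq_abs (z.im + r)]
          exact pow_le_pow_left₀ (abs_nonneg _) h2 2
        have h4 : (1 + |z.re|) ^ (3 / 4 + (z.im + r) / 2) ≤ Real.exp (P * |z.re|) := by
          have h5 : (1 : ℝ) ≤ 1 + |z.re| := by linarith [abs_nonneg z.re]
          calc (1 + |z.re|) ^ (3 / 4 + (z.im + r) / 2) ≤ (1 + |z.re|) ^ P := by
                apply Real.rpow_le_rpow_of_exponent_le h5
                rw [hP]
                have := le_abs_self (z.im + r)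
                linarith
            _ ≤ (Real.exp |z.re|) ^ P := by
                apply Real.rpow_le_rpow (by positivity) _ hP0
                have := Real.add_one_le_exp |z.re|
                linarith
            _ = Real.exp (P * |z.re|) := by
                rw [← Real.exp_mul, mul_comm]
        have h6 : Real.exp ((Real.pi / 4 + P) * |z.re|) =
            Real.exp (P * |z.re|) * Real.exp (Real.pi / 4 * |z.re|) := by
          rw [← Real.exp_add]; congr 1; ring
        rw [h6]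
        calc C₂ * Real.exp (1 * (z.im + r) ^ 2) * (1 + |z.re|) ^ (3 / 4 + (z.im + r) / 2) *
              Real.exp (Real.pi / 4 * |z.re|)
            ≤ C₂ * Real.exp (1 * (M + |r|) ^ 2) * Real.exp (P * |z.re|) *
              Real.exp (Real.pi / 4 * |z.re|) := by
              gcongr
          _ = _ := by ring
      have e3 : ‖gk μ b x₀ (z + (3 / 2 + r) * I)‖ ≤
          Real.exp ((2 * M) ^ 2 / (8 * μ) + |b| * (2 * M)) *
            Real.exp (-(1 / (8 * μ)) * (z.re - x₀) ^ 2) := by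
        rw [swap_shift_gk, ← Real.exp_add]
        apply Real.exp_le_exp.mpr
        have hre : (z + (3 / 2 + r) * I).re = z.re := by simp
        have him : (z + (3 / 2 + r) * I).im = z.im + (3 / 2 + r) := by simp
        rw [hre, him]
        set s : ℝ := z.im + (3 / 2 + r) with hs
        have hsM : |s| ≤ 2 * M := by
          rw [hs]
          refine (abs_add_le _ _).trans ?_
          rw [← hM]
          linarith
        have h1 : s ^ 2 ≤ (2 * M) ^ 2 := by
          rw [← sq_abs s]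
          exact pow_le_pow_left₀ (abs_nonneg _) hsM 2
        have h2 : s ^ 2 / (8 * μ) ≤ (2 * M) ^ 2 / (8 * μ) := by gcongr
        have h3 : -(b * s) ≤ |b| * (2 * M) := by
          calc -(b * s) ≤ |b * s| := neg_le_abs _
            _ = |b| * |s| := abs_mul _ _
            _ ≤ _ := mul_le_mul_of_nonneg_left hsM (abs_nonneg _)
        have h4 : -((z.re - x₀) ^ 2 - s ^ 2) / (8 * μ) =
            s ^ 2 / (8 * μ) + -(1 / (8 * μ)) * (z.re - x₀) ^ 2 := by
          field_simp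
          ring
        rw [h4]
        linarith
      have hgauss := swap_shift_gauss (c := 1 / (8 * μ)) (by positivity) (Real.pi / 4 + P) x₀ z.re
      have e4 : Real.exp ((Real.pi / 4 + P) * |z.re|) *
          Real.exp (-(1 / (8 * μ)) * (z.re - x₀) ^ 2) ≤
          Real.exp (((Real.pi / 4 + P) + 2 * (1 / (8 * μ)) * |x₀|) ^ 2 / (2 * (1 / (8 * μ)))) *
            Real.exp (-(1 / (16 * μ)) * z.re ^ 2) := by
        rw [← Real.exp_add, ← Real.exp_add]
        apply Real.exp_le_exp.mpr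
        have h4 : (1 / (8 * μ)) / 2 * z.re ^ 2 = 1 / (16 * μ) * z.re ^ 2 := by
          field_simp
          ring
        linarith
      calc ‖f z‖ * ‖q (z + r * I)‖ * ‖gk μ b x₀ (z + (3 / 2 + r) * I)‖
          ≤ (C₁ * Real.exp (1 / (16 * μ) * M ^ 2)) *
            ((C₂ * Real.exp (1 * (M + |r|) ^ 2)) * Real.exp ((Real.pi / 4 + P) * |z.re|)) *
            (Real.exp ((2 * M) ^ 2 / (8 * μ) + |b| * (2 * M)) *
            Real.exp (-(1 / (8 * μ)) * (z.re - x₀) ^ 2)) := by
            gcongr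
        _ = ((C₁ * Real.exp (1 / (16 * μ) * M ^ 2)) * ((C₂ * Real.exp (1 * (M + |r|) ^ 2)) *
            Real.exp ((2 * M) ^ 2 / (8 * μ) + |b| * (2 * M)))) *
            (Real.exp ((Real.pi / 4 + P) * |z.re|) *
            Real.exp (-(1 / (8 * μ)) * (z.re - x₀) ^ 2)) := by ring
        _ ≤ ((C₁ * Real.exp (1 / (16 * μ) * M ^ 2)) * ((C₂ * Real.exp (1 * (M + |r|) ^ 2)) *
            Real.exp ((2 * M) ^ 2 / (8 * μ) + |b| * (2 * M)))) *
            (Real.exp (((Real.pi / 4 + P) + 2 * (1 / (8 * μ)) * |x₀|) ^ 2 / (2 * (1 / (8 * μ)))) *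
            Real.exp (-(1 / (16 * μ)) * z.re ^ 2)) := by
            apply mul_le_mul_of_nonneg_left e4 (by positivity)
        _ = _ := by ring
  have h1 : (∫ x : ℝ, ((Real.exp (-r ^ 2 / (4 * μ)) : ℂ) * f (x - 3 / 2 * I - r * I)) *
      (q (x - 3 / 2 * I) * gk μ b x₀ x)) =
      (Real.exp (-r ^ 2 / (4 * μ)) : ℂ) * ∫ t : ℝ,
        (fun z : ℂ => f z * q (z + r * I) * gk μ b x₀ (z + (3 / 2 + r) * I))
        (t + ((-(3 / 2 + r) : ℝ) : ℂ) * I) := by
    rw [← MeasureTheory.integral_const_mul]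
    congr 1
    funext t
    simp only
    have a1 : (t : ℂ) + ((-(3 / 2 + r) : ℝ) : ℂ) * I = t - 3 / 2 * I - r * I := by
      push_cast; ring
    have a2 : (t : ℂ) - 3 / 2 * I - r * I + r * I = t - 3 / 2 * I := by ring
    have a3 : (t : ℂ) - 3 / 2 * I - r * I + (3 / 2 + r) * I = t := by ring
    rw [a1, a2, a3]
    ring
  rw [h1, hsh]
  congr 1
  congr 1
  funext t
  simp only [Complex.ofReal_zero, zero_mul, add_zero]

end Pool.Agent.Helper242.KK
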