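import Pool.Agent.Helper242.KK.Defs

set_option autoImplicit false

namespace Pool.Agent.Helper242.KK

open Complex MeasureTheory Filter Topology

namespace WB

theorem norm_gk (μ b x₀ x s : ℝ) : ‖gk μ b x₀ (x + s * I)‖ =
    Real.exp (-((x - x₀) ^ 2 - s ^ 2) / (8 * μ) - b * s) := by
  rw [gk, Complex.norm_exp]
  congr 1
  have h1 : -((x : ℂ) + s * I - x₀) ^ 2 / (8 * μ) + I * b * ((x : ℂ) + s * I - x₀) =
      ((-((x - x₀) ^ 2 - s ^ 2) / (8 * μ) - b * s : ℝ) : ℂ) +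
        ((-(2 * (x - x₀) * s) / (8 * μ) + b * (x - x₀) : ℝ) : ℂ) * I := by
    push_cast
    have hI : I ^ 2 = -1 := I_sq
    linear_combination (-(s : ℂ) ^ 2 / (8 * μ) + b * s) * hI
  rw [h1, Complex.add_re, Complex.ofReal_re, Complex.re_ofReal_mul, Complex.I_re]
  ring

theorem log_bound {x₀ x : ℝ} (hx₀ : Real.exp 1 ≤ x₀) :
    |Real.log (1 + |x|) - Real.log x₀| ≤ 1 + (2 * Real.log x₀ / x₀) * |x - x₀| := by
  have he := Real.exp_one_gt_d9
  have h0 : 0 < x₀ := by linarith [Real.exp_pos 1]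
  have hL : 1 ≤ Real.log x₀ := by
    rw [Real.le_log_iff_exp_le h0]; exact hx₀
  have hx : 0 < 1 + |x| := by positivity
  have hκ : 0 ≤ 2 * Real.log x₀ / x₀ := by positivity
  rw [abs_le]
  constructor
  · by_cases h : |x - x₀| ≤ x₀ / 2
    · have h1 : x₀ / 2 ≤ 1 + |x| := by
        have := abs_sub_abs_le_abs_sub x₀ x
        rw [abs_sub_comm x₀ x, abs_of_pos h0] at this
        linarith
      have h2 : Real.log (x₀ / 2) ≤ Real.log (1 + |x|) := Real.log_le_log (by positivity) h1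
      rw [Real.log_div h0.ne' two_ne_zero] at h2
      have h3 : Real.log 2 < 1 := by
        have := Real.log_two_lt_d9
        linarith
      have h4 : 0 ≤ (2 * Real.log x₀ / x₀) * |x - x₀| := by positivity
      linarith
    · push Not at h
      have h1 : 0 ≤ Real.log (1 + |x|) := Real.log_nonneg (by linarith [abs_nonneg x])
      have h2 : Real.log x₀ ≤ (2 * Real.log x₀ / x₀) * |x - x₀| := by
        calc Real.log x₀ = (2 * Real.log x₀ / x₀) * (x₀ / 2) := by field_simp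
          _ ≤ _ := by
            apply mul_le_mul_of_nonneg_left h.le hκ
      linarith
  · rw [← Real.log_div hx.ne' h0.ne']
    have h1 := Real.log_le_sub_one_of_pos (div_pos hx h0)
    have h2 : (1 + |x|) / x₀ - 1 ≤ 1 + (2 * Real.log x₀ / x₀) * |x - x₀| := by
      have h3 : |x| ≤ x₀ + |x - x₀| := by
        have := abs_sub_abs_le_abs_sub x x₀
        rw [abs_of_pos h0] at this
        linarith
      have h4 : (1 + |x|) / x₀ - 1 = (1 + |x| - x₀) / x₀ := by field_simp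
      have h5 : 1 + (2 * Real.log x₀ / x₀) * |x - x₀| =
          (x₀ + 2 * Real.log x₀ * |x - x₀|) / x₀ := by field_simp
      rw [h4, h5]
      apply div_le_div_of_nonneg_right _ h0.le
      nlinarith [abs_nonneg (x - x₀)]
    linarith

theorem expo {m D θ κ δ L b r Y : ℝ} (hm : 0 < m) (hD : 0 < D) (hDm : D ≤ m * θ)
    (hκ : 0 ≤ κ) (hκD : κ ≤ D / 3) (hδ : |δ| ≤ 1 + κ * |Y|) (hb : 0 ≤ b) :
    D / 3 * r ^ 2 + (3 / 4 + r / 2) * (L + δ) - m * (Y ^ 2 - (3 / 2 + r) ^ 2) - b * (3 / 2 + r)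
      - 2 * m * r ^ 2 ≤ 3 / 4 * L + (r * (L / 2 - b) - (m - D) * r ^ 2) - (m - m * θ) * Y ^ 2 +
      (3 / 4 + D / 8 + 9 * m / 4 + 3 * (1 / 2 + 3 * m) ^ 2 / (4 * D)) := by
  have h1 : (3 / 4 + r / 2) * δ ≤ (3 / 4 + |r| / 2) * (1 + κ * |Y|) := by
    calc (3 / 4 + r / 2) * δ ≤ |(3 / 4 + r / 2) * δ| := le_abs_self _
      _ = |3 / 4 + r / 2| * |δ| := abs_mul _ _
      _ ≤ (3 / 4 + |r| / 2) * (1 + κ * |Y|) := by
        apply mul_le_mul _ hδ (abs_nonneg _) (by positivity)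
        refine (abs_add_le _ _).trans ?_
        rw [abs_div r, abs_two, abs_of_pos (by norm_num : (0 : ℝ) < 3 / 4)]
  have h2 : κ * |Y| ≤ κ * ((1 + Y ^ 2) / 2) := by
    apply mul_le_mul_of_nonneg_left _ hκ
    nlinarith [sq_nonneg (|Y| - 1), sq_abs Y]
  have h3 : κ * (|r| * |Y|) ≤ κ * ((r ^ 2 + Y ^ 2) / 2) := by
    apply mul_le_mul_of_nonneg_left _ hκ
    nlinarith [sq_nonneg (|r| - |Y|), sq_abs Y, sq_abs r]
  have h4 : (1 / 2 + 3 * m) * |r| ≤ D / 3 * r ^ 2 + 3 * (1 / 2 + 3 * m) ^ 2 / (4 * D) := by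
    have h5 : D / 3 * r ^ 2 + 3 * (1 / 2 + 3 * m) ^ 2 / (4 * D) - (1 / 2 + 3 * m) * |r| =
        (D * |r| * 2 - 3 * (1 / 2 + 3 * m)) ^ 2 / (12 * D) := by
      rw [← sq_abs r]
      field_simp
      ring
    have h6 : 0 ≤ (D * |r| * 2 - 3 * (1 / 2 + 3 * m)) ^ 2 / (12 * D) := by positivity
    linarith
  have h7 : 3 * m * r ≤ 3 * m * |r| := mul_le_mul_of_nonneg_left (le_abs_self r) (by positivity)
  have h8 : κ * Y ^ 2 ≤ D / 3 * Y ^ 2 := mul_le_mul_of_nonneg_right hκD (sq_nonneg _)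
  have h9 : κ * r ^ 2 ≤ D / 3 * r ^ 2 := mul_le_mul_of_nonneg_right hκD (sq_nonneg _)
  have h10 : D * Y ^ 2 ≤ m * θ * Y ^ 2 := mul_le_mul_of_nonneg_right hDm (sq_nonneg _)
  have h11 : 0 ≤ D * Y ^ 2 := by positivity
  have h12 : 0 ≤ D * r ^ 2 := by positivity
  nlinarith [h1, h2, h3, h4, h7, h8, h9, h10, h11, h12]

theorem gauss_integrable {a : ℝ} (ha : 0 < a) (c : ℝ) :
    Integrable (fun r : ℝ => Real.exp (r * c - a * r ^ 2)) := by
  have h1 := ((integrable_exp_neg_mul_sq ha).comp_sub_right (c / (2 * a))).const_mul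
    (Real.exp (c ^ 2 / (4 * a)))
  refine h1.congr (Eventually.of_forall fun r => ?_)
  simp only
  rw [← Real.exp_add]
  congr 1
  field_simp
  ring

theorem gauss_integral {a : ℝ} (ha : 0 < a) (c : ℝ) :
    ∫ r : ℝ, Real.exp (r * c - a * r ^ 2) = Real.sqrt (Real.pi / a) * Real.exp (c ^ 2 / (4 * a)) := by
  have h1 : ∀ r : ℝ, Real.exp (r * c - a * r ^ 2) =
      Real.exp (c ^ 2 / (4 * a)) * Real.exp (-a * (r - c / (2 * a)) ^ 2) := by
    intro r
    rw [← Real.exp_add]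
    congr 1
    field_simp
    ring
  simp_rw [h1]
  rw [integral_const_mul, integral_sub_right_eq_self (fun r : ℝ => Real.exp (-a * r ^ 2)),
    integral_gaussian, mul_comm]

theorem integ {f : ℝ → ℂ} (hf : Continuous f) {C₁ : ℝ}
    (hfb : ∀ x : ℝ, ‖f x‖ * Real.exp (Real.pi / 4 * |x|) ≤ C₁ * (1 + |x|) ^ 3) {β : ℝ}
    (hβ : 0 < β) (x₀ : ℝ) : Integrable (fun x : ℝ => ‖f x‖ * Real.exp (Real.pi / 4 * |x|) *
      Real.exp (-β * (x - x₀) ^ 2)) := by
  have hC₁ : 0 ≤ C₁ := by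
    have h1 := hfb 0
    simp at h1
    exact (norm_nonneg _).trans h1
  have h1 := (((gauss_integrable hβ (2 * β * x₀ + 1)).add
    (gauss_integrable hβ (2 * β * x₀ - 1))).const_mul
      (C₁ * 6 * Real.exp 1 * Real.exp (-β * x₀ ^ 2)))
  refine h1.mono' ?_ (Eventually.of_forall fun x => ?_)
  · apply Continuous.aestronglyMeasurable
    fun_prop
  · rw [Real.norm_of_nonneg (by positivity)]
    have h2 : (1 + |x|) ^ 3 ≤ 6 * Real.exp (1 + |x|) := by
      have := Real.pow_div_factorial_le_exp (1 + |x|) (by positivity) 3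
      have h3 : ((Nat.factorial 3 : ℕ) : ℝ) = 6 := by norm_num [Nat.factorial]
      rw [h3] at this
      linarith
    have h3 : Real.exp |x| ≤ Real.exp x + Real.exp (-x) := by
      rcases abs_choice x with h | h <;> rw [h]
      · linarith [Real.exp_pos (-x)]
      · linarith [Real.exp_pos x]
    have h4 : ‖f x‖ * Real.exp (Real.pi / 4 * |x|) ≤
        C₁ * (6 * (Real.exp 1 * (Real.exp x + Real.exp (-x)))) := by
      refine (hfb x).trans (mul_le_mul_of_nonneg_left ?_ hC₁)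
      refine h2.trans ?_
      rw [Real.exp_add]
      have := mul_le_mul_of_nonneg_left h3 (Real.exp_pos 1).le
      linarith
    refine (mul_le_mul_of_nonneg_right h4 (Real.exp_pos _).le).trans (le_of_eq ?_)
    simp only [Pi.add_apply]
    have h5 : Real.exp (x * (2 * β * x₀ + 1) - β * x ^ 2) = Real.exp x *
        Real.exp (x * (2 * β * x₀) - β * x ^ 2) := by
      rw [← Real.exp_add]; congr 1; ring
    have h6 : Real.exp (x * (2 * β * x₀ - 1) - β * x ^ 2) = Real.exp (-x) *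
        Real.exp (x * (2 * β * x₀) - β * x ^ 2) := by
      rw [← Real.exp_add]; congr 1; ring
    have h7 : Real.exp (-β * (x - x₀) ^ 2) = Real.exp (-β * x₀ ^ 2) *
        Real.exp (x * (2 * β * x₀) - β * x ^ 2) := by
      rw [← Real.exp_add]; congr 1; ring
    rw [h5, h6, h7]
    ring

end WB

/-- TARGET -/
theorem window_bound {μ θ C₁ : ℝ} (hμ : 0 < μ) (hθ : 0 < θ) (hθ1 : θ < 1) {f : ℝ → ℂ} {q : ℂ → ℂ}
    (hf : Continuous f) (hq : Continuous q)
    (hfb : ∀ x : ℝ, ‖f x‖ * Real.exp (Real.pi / 4 * |x|) ≤ C₁ * (1 + |x|) ^ 3)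
    (hqb : ∀ ε : ℝ, 0 < ε → ∃ C : ℝ, 0 < C ∧ ∀ x r : ℝ, ‖q (x + r * I)‖ ≤
      C * Real.exp (ε * r ^ 2) * (1 + |x|) ^ (3 / 4 + r / 2) * Real.exp (Real.pi / 4 * |x|)) :
    ∃ C X : ℝ, 0 < C ∧ 1 ≤ X ∧ ∀ x₀ b : ℝ, X ≤ x₀ → 0 ≤ b → b ≤ Real.log x₀ →
      ‖∫ r : ℝ, (Real.exp (-r ^ 2 / (4 * μ)) : ℂ) *
        ∫ x : ℝ, f x * q (x + r * I) * gk μ b x₀ (x + (3 / 2 + r) * I)‖ ≤
      C * x₀ * Real.exp (2 * μ * (1 + θ) * (Real.log x₀ / 2 - b) ^ 2) *
        ∫ x : ℝ, ‖f x‖ * Real.exp (Real.pi / 4 * |x|) *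
          Real.exp (-(1 - θ) * (x - x₀) ^ 2 / (8 * μ)) := by
  obtain ⟨m, hm⟩ : ∃ m, m = 1 / (8 * μ) := ⟨_, rfl⟩
  obtain ⟨D, hD⟩ : ∃ D, D = m * θ / (1 + θ) := ⟨_, rfl⟩
  have hm0 : 0 < m := by rw [hm]; positivity
  have hD0 : 0 < D := by rw [hD]; positivity
  have hDm : D ≤ m * θ := by
    rw [hD]
    apply div_le_self (by positivity)
    linarith
  have ha0 : 0 < m - D := by
    have : m * θ < m := by nlinarith
    linarith
  have haeq : m - D = 1 / (8 * μ * (1 + θ)) := by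
    rw [hD, hm]
    field_simp
    ring
  obtain ⟨Cq, hCq, hq'⟩ := hqb (D / 3) (by positivity)
  obtain ⟨X1, hX1⟩ := eventually_atTop.1 (Real.isLittleO_log_id_atTop.def
    (show (0 : ℝ) < D / 6 by positivity))
  obtain ⟨C0, hC0⟩ : ∃ C0, C0 = 3 / 4 + D / 8 + 9 * m / 4 + 3 * (1 / 2 + 3 * m) ^ 2 / (4 * D) :=
    ⟨_, rfl⟩
  refine ⟨Cq * Real.exp C0 * Real.sqrt (Real.pi / (m - D)), max X1 (Real.exp 1), by positivity,
    (Real.one_le_exp (by norm_num)).trans (le_max_right _ _), fun x₀ b hx₀ hb hbL => ?_⟩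
  have hxe : Real.exp 1 ≤ x₀ := (le_max_right _ _).trans hx₀
  have hx0 : 0 < x₀ := (Real.exp_pos 1).trans_le hxe
  have hL1 : 1 ≤ Real.log x₀ := by
    rw [Real.le_log_iff_exp_le hx0]; exact hxe
  have hlog := hX1 x₀ ((le_max_left _ _).trans hx₀)
  rw [Real.norm_of_nonneg (by linarith), id, Real.norm_of_nonneg hx0.le] at hlog
  have hκD : 2 * Real.log x₀ / x₀ ≤ D / 3 := by
    rw [div_le_iff₀ hx0]
    linarith
  have hκ0 : 0 ≤ 2 * Real.log x₀ / x₀ := by positivity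
  -- pointwise bound
  have hpt : ∀ x r : ℝ, ‖q (x + r * I)‖ * ‖gk μ b x₀ (x + (3 / 2 + r) * I)‖ ≤
      (Cq * Real.exp C0 * Real.exp (3 / 4 * Real.log x₀) *
        Real.exp (r * (Real.log x₀ / 2 - b) - (m - D) * r ^ 2) * Real.exp (r ^ 2 / (4 * μ))) *
      (Real.exp (Real.pi / 4 * |x|) * Real.exp (-(1 - θ) * (x - x₀) ^ 2 / (8 * μ))) := by
    intro x r
    have h1 : ((x : ℂ) + (3 / 2 + r) * I) = (x : ℂ) + ((3 / 2 + r : ℝ) : ℂ) * I := by push_cast; ring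
    rw [h1, WB.norm_gk]
    have hx1 : (0 : ℝ) < 1 + |x| := by positivity
    have h2 := hq' x r
    rw [Real.rpow_def_of_pos hx1] at h2
    have h3 := WB.expo (L := Real.log x₀) (r := r) hm0 hD0 hDm hκ0 hκD (WB.log_bound (x := x) hxe) hb
    rw [add_sub_cancel] at h3
    refine (mul_le_mul_of_nonneg_right h2 (Real.exp_pos _).le).trans ?_
    have h4 : Cq * Real.exp (D / 3 * r ^ 2) * Real.exp (Real.log (1 + |x|) * (3 / 4 + r / 2)) *
        Real.exp (Real.pi / 4 * |x|) *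
        Real.exp (-((x - x₀) ^ 2 - (3 / 2 + r) ^ 2) / (8 * μ) - b * (3 / 2 + r)) =
        Cq * Real.exp (Real.pi / 4 * |x|) * Real.exp (D / 3 * r ^ 2 +
          Real.log (1 + |x|) * (3 / 4 + r / 2) +
          (-((x - x₀) ^ 2 - (3 / 2 + r) ^ 2) / (8 * μ) - b * (3 / 2 + r))) := by
      rw [Real.exp_add, Real.exp_add]
      ring
    have h5 : (Cq * Real.exp C0 * Real.exp (3 / 4 * Real.log x₀) *
        Real.exp (r * (Real.log x₀ / 2 - b) - (m - D) * r ^ 2) * Real.exp (r ^ 2 / (4 * μ))) *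
      (Real.exp (Real.pi / 4 * |x|) * Real.exp (-(1 - θ) * (x - x₀) ^ 2 / (8 * μ))) =
      Cq * Real.exp (Real.pi / 4 * |x|) * Real.exp (C0 + 3 / 4 * Real.log x₀ +
        (r * (Real.log x₀ / 2 - b) - (m - D) * r ^ 2) + r ^ 2 / (4 * μ) +
        -(1 - θ) * (x - x₀) ^ 2 / (8 * μ)) := by
      rw [Real.exp_add, Real.exp_add, Real.exp_add, Real.exp_add]
      ring
    rw [h4, h5]
    apply mul_le_mul_of_nonneg_left _ (by positivity)
    apply Real.exp_le_exp.2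
    have e1 : r ^ 2 / (4 * μ) = 2 * m * r ^ 2 := by rw [hm]; field_simp; try ring
    have e2 : -(1 - θ) * (x - x₀) ^ 2 / (8 * μ) = -((m - m * θ) * (x - x₀) ^ 2) := by
      rw [hm]; field_simp; try ring
    have e3 : -((x - x₀) ^ 2 - (3 / 2 + r) ^ 2) / (8 * μ) =
      -(m * ((x - x₀) ^ 2 - (3 / 2 + r) ^ 2)) := by rw [hm]; field_simp
    rw [e1, e2, e3, hC0]
    linarith
  -- integrability
  have hβ : 0 < (1 - θ) / (8 * μ) := by
    have : 0 < 1 - θ := by linarith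
    positivity
  have hJ : Integrable (fun x : ℝ => ‖f x‖ * Real.exp (Real.pi / 4 * |x|) *
      Real.exp (-(1 - θ) * (x - x₀) ^ 2 / (8 * μ))) := by
    refine (WB.integ hf hfb hβ x₀).congr (Eventually.of_forall fun x => ?_)
    simp only
    congr 2
    ring
  obtain ⟨J, hJd⟩ : ∃ J, J = ∫ x : ℝ, ‖f x‖ * Real.exp (Real.pi / 4 * |x|) *
      Real.exp (-(1 - θ) * (x - x₀) ^ 2 / (8 * μ)) := ⟨_, rfl⟩
  have hJ0 : 0 ≤ J := by
    rw [hJd]
    exact integral_nonneg fun x => by positivity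
  rw [← hJd]
  obtain ⟨K, hK⟩ : ∃ K, K = Cq * Real.exp C0 * Real.exp (3 / 4 * Real.log x₀) := ⟨_, rfl⟩
  have hK0 : 0 < K := by rw [hK]; positivity
  have hinner : ∀ r : ℝ, ‖∫ x : ℝ, f x * q (x + r * I) * gk μ b x₀ (x + (3 / 2 + r) * I)‖ ≤
      (K * Real.exp (r * (Real.log x₀ / 2 - b) - (m - D) * r ^ 2) *
        Real.exp (r ^ 2 / (4 * μ))) * J := by
    intro r
    rw [hJd, ← integral_const_mul]
    refine norm_integral_le_of_norm_le (hJ.const_mul _) (Eventually.of_forall fun x => ?_)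
    rw [norm_mul, norm_mul, mul_assoc]
    refine (mul_le_mul_of_nonneg_left (hpt x r) (norm_nonneg _)).trans (le_of_eq ?_)
    rw [← hK]
    ring
  have houter : ‖∫ r : ℝ, (Real.exp (-r ^ 2 / (4 * μ)) : ℂ) *
        ∫ x : ℝ, f x * q (x + r * I) * gk μ b x₀ (x + (3 / 2 + r) * I)‖ ≤
      ∫ r : ℝ, (K * J) * Real.exp (r * (Real.log x₀ / 2 - b) - (m - D) * r ^ 2) := by
    refine norm_integral_le_of_norm_le ((WB.gauss_integrable ha0 _).const_mul _)
      (Eventually.of_forall fun r => ?_)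
    rw [norm_mul, Complex.norm_real, Real.norm_of_nonneg (Real.exp_pos _).le]
    refine (mul_le_mul_of_nonneg_left (hinner r) (Real.exp_pos _).le).trans (le_of_eq ?_)
    have h1 : Real.exp (-r ^ 2 / (4 * μ)) * Real.exp (r ^ 2 / (4 * μ)) = 1 := by
      rw [← Real.exp_add, neg_div, neg_add_cancel, Real.exp_zero]
    linear_combination (K * Real.exp (r * (Real.log x₀ / 2 - b) - (m - D) * r ^ 2) * J) * h1
  refine houter.trans ?_
  rw [integral_const_mul, WB.gauss_integral ha0]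
  have h1 : (Real.log x₀ / 2 - b) ^ 2 / (4 * (m - D)) =
      2 * μ * (1 + θ) * (Real.log x₀ / 2 - b) ^ 2 := by
    rw [haeq]
    field_simp
    ring
  rw [h1]
  have h2 : Real.exp (3 / 4 * Real.log x₀) ≤ x₀ := by
    calc Real.exp (3 / 4 * Real.log x₀) ≤ Real.exp (Real.log x₀) := by
          apply Real.exp_le_exp.2
          linarith
      _ = x₀ := Real.exp_log hx0
  have h3 : K ≤ Cq * Real.exp C0 * x₀ := by
    rw [hK]
    exact mul_le_mul_of_nonneg_left h2 (by positivity)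
  have h4 : 0 ≤ J * (Real.sqrt (Real.pi / (m - D)) *
    Real.exp (2 * μ * (1 + θ) * (Real.log x₀ / 2 - b) ^ 2)) := by positivity
  have h5 := mul_le_mul_of_nonneg_right h3 h4
  linarith

end Pool.Agent.Helper242.KK
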