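import Pool.Agent.Helper242.KK.Defs

set_option autoImplicit false

namespace Pool.Agent.Helper242.KK

open Complex MeasureTheory Filter Topology

private lemma win_int {b : ℝ} (hb : 0 < b) :
    Integrable (fun y : ℝ => (1 + |y|) ^ 3 * Real.exp (-b * y ^ 2)) := by
  have h1 : Integrable (fun y : ℝ => Real.exp (-b * y ^ 2)) := integrable_exp_neg_mul_sq hb
  have h2 : Integrable (fun y : ℝ => y ^ (4 : ℝ) * Real.exp (-b * y ^ 2)) :=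
    integrable_rpow_mul_exp_neg_mul_sq hb (by norm_num)
  have h3 : Integrable (fun y : ℝ => 8 * (Real.exp (-b * y ^ 2) + y ^ (4 : ℝ) * Real.exp (-b * y ^ 2))) :=
    (h1.add h2).const_mul 8
  refine Integrable.mono' h3 (by fun_prop) (Eventually.of_forall fun y => ?_)
  have hE := Real.exp_pos (-b * y ^ 2)
  rw [Real.norm_of_nonneg (by positivity)]
  have e : y ^ (4 : ℝ) = y ^ 4 := by
    rw [show (4 : ℝ) = ((4 : ℕ) : ℝ) by norm_num, Real.rpow_natCast]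
  rw [e]
  have h4 : (1 + |y|) ^ 3 ≤ 8 * (1 + y ^ 4) := by
    have h5 : y ^ 4 = |y| ^ 4 := by rw [← abs_pow, abs_of_nonneg (by positivity)]
    rw [h5]
    have h6 := abs_nonneg y
    set t := |y|
    rcases le_total t 1 with h | h
    · have : (1 + t) ^ 3 ≤ 2 ^ 3 := pow_le_pow_left₀ (by positivity) (by linarith) 3
      have h7 : 0 ≤ t ^ 4 := by positivity
      linarith
    · have h7 : (1 + t) ^ 3 ≤ (2 * t) ^ 3 := pow_le_pow_left₀ (by positivity) (by linarith) 3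
      have h8 : t ^ 3 ≤ t ^ 4 := pow_le_pow_right₀ h (by norm_num)
      nlinarith
  nlinarith

/-- TARGET -/
theorem window_cor {μ θ C₁ C₂ X : ℝ} (hμ : 0 < μ) (hθ : 0 < θ) (hθ1 : θ < 1) {f : ℝ → ℂ}
    {D : ℝ → ℝ → ℂ} (hf : Continuous f) (hC₂ : 0 < C₂) (hX : 1 ≤ X)
    (hfb : ∀ x : ℝ, ‖f x‖ * Real.exp (Real.pi / 4 * |x|) ≤ C₁ * (1 + |x|) ^ 3)
    (hD : ∀ x₀ b : ℝ, X ≤ x₀ → 0 ≤ b → b ≤ Real.log x₀ → ‖D b x₀‖ ≤
      C₂ * x₀ * Real.exp (2 * μ * (1 + θ) * (Real.log x₀ / 2 - b) ^ 2) *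
        ∫ x : ℝ, ‖f x‖ * Real.exp (Real.pi / 4 * |x|) *
          Real.exp (-(1 - θ) * (x - x₀) ^ 2 / (8 * μ))) :
    ∃ C : ℝ, 0 < C ∧ ∀ x₀ b ρ m : ℝ, X ≤ x₀ → 0 ≤ b → b ≤ Real.log x₀ → 0 ≤ ρ → 0 ≤ m →
      (∀ x : ℝ, |x - x₀| ≤ ρ → ‖f x‖ * Real.exp (Real.pi / 4 * |x|) ≤ m) →
      ‖D b x₀‖ ≤ C * x₀ ^ 4 * Real.exp (2 * μ * (1 + θ) * (Real.log x₀ / 2 - b) ^ 2) *
        (m + Real.exp (-(1 - θ) ^ 2 * ρ ^ 2 / (8 * μ))) := by
  have hC₁ : 0 ≤ C₁ := by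
    have h := hfb 0
    simp at h
    exact (norm_nonneg _).trans h
  set β₁ : ℝ := (1 - θ) / (8 * μ) with hβ₁
  set β₂ : ℝ := θ * (1 - θ) / (8 * μ) with hβ₂
  have hθ' : 0 < 1 - θ := by linarith
  have hβ₁0 : 0 < β₁ := by positivity
  have hβ₂0 : 0 < β₂ := by positivity
  set I₁ : ℝ := ∫ y : ℝ, Real.exp (-β₁ * y ^ 2) with hI₁
  set I₂ : ℝ := ∫ y : ℝ, (1 + |y|) ^ 3 * Real.exp (-β₂ * y ^ 2) with hI₂
  have hI₁0 : 0 ≤ I₁ := integral_nonneg fun y => (Real.exp_pos _).le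
  have hI₂0 : 0 ≤ I₂ := integral_nonneg fun y => by positivity
  have hi1 : Integrable (fun y : ℝ => Real.exp (-β₁ * y ^ 2)) := integrable_exp_neg_mul_sq hβ₁0
  have hi2 := win_int hβ₂0
  refine ⟨C₂ * (I₁ + 8 * C₁ * I₂) + 1, by positivity, ?_⟩
  intro x₀ b ρ m hx hb hb' hρ hm hmx
  have hx1 : 1 ≤ x₀ := hX.trans hx
  set E : ℝ := Real.exp (-(1 - θ) ^ 2 * ρ ^ 2 / (8 * μ)) with hE
  have hE0 : 0 < E := Real.exp_pos _
  set G : ℝ := Real.exp (2 * μ * (1 + θ) * (Real.log x₀ / 2 - b) ^ 2) with hG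
  have hG0 : 0 < G := Real.exp_pos _
  have hint : ∫ x : ℝ, ‖f x‖ * Real.exp (Real.pi / 4 * |x|) *
      Real.exp (-(1 - θ) * (x - x₀) ^ 2 / (8 * μ)) ≤ m * I₁ + 8 * C₁ * x₀ ^ 3 * E * I₂ := by
    have hi3 : Integrable (fun x : ℝ => m * Real.exp (-β₁ * (x - x₀) ^ 2) +
        8 * C₁ * x₀ ^ 3 * E * ((1 + |x - x₀|) ^ 3 * Real.exp (-β₂ * (x - x₀) ^ 2))) :=
      ((hi1.comp_sub_right x₀).const_mul m).add ((hi2.comp_sub_right x₀).const_mul _)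
    have hval : ∫ x : ℝ, (m * Real.exp (-β₁ * (x - x₀) ^ 2) +
        8 * C₁ * x₀ ^ 3 * E * ((1 + |x - x₀|) ^ 3 * Real.exp (-β₂ * (x - x₀) ^ 2))) =
        m * I₁ + 8 * C₁ * x₀ ^ 3 * E * I₂ := by
      rw [integral_add ((hi1.comp_sub_right x₀).const_mul m) ((hi2.comp_sub_right x₀).const_mul _),
        integral_const_mul, integral_const_mul]
      rw [integral_sub_right_eq_self (fun y : ℝ => Real.exp (-β₁ * y ^ 2)) x₀,
        integral_sub_right_eq_self (fun y : ℝ => (1 + |y|) ^ 3 * Real.exp (-β₂ * y ^ 2)) x₀]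
    rw [← hval]
    refine integral_mono_of_nonneg (Eventually.of_forall fun x => by positivity) hi3
      (Eventually.of_forall fun x => ?_)
    simp only
    have hexp1 : Real.exp (-(1 - θ) * (x - x₀) ^ 2 / (8 * μ)) = Real.exp (-β₁ * (x - x₀) ^ 2) := by
      congr 1; rw [hβ₁]; ring
    rw [hexp1]
    have hnn : 0 ≤ Real.exp (-β₁ * (x - x₀) ^ 2) := (Real.exp_pos _).le
    rcases le_or_gt |x - x₀| ρ with h | h
    · have h1 := mul_le_mul_of_nonneg_right (hmx x h) hnn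
      have h2 : 0 ≤ 8 * C₁ * x₀ ^ 3 * E * ((1 + |x - x₀|) ^ 3 * Real.exp (-β₂ * (x - x₀) ^ 2)) := by
        positivity
      linarith
    · have h1 : 0 ≤ m * Real.exp (-β₁ * (x - x₀) ^ 2) := by positivity
      have h2 : ‖f x‖ * Real.exp (Real.pi / 4 * |x|) ≤ 8 * C₁ * x₀ ^ 3 * (1 + |x - x₀|) ^ 3 := by
        refine (hfb x).trans ?_
        have h3 : 1 + |x| ≤ 2 * x₀ * (1 + |x - x₀|) := by
          have h4 : |x| ≤ x₀ + |x - x₀| := by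
            calc |x| = |x₀ + (x - x₀)| := by ring_nf
              _ ≤ |x₀| + |x - x₀| := abs_add_le _ _
              _ = x₀ + |x - x₀| := by rw [abs_of_pos (by linarith)]
          have h5 := abs_nonneg (x - x₀)
          nlinarith
        have h6 : (1 + |x|) ^ 3 ≤ (2 * x₀ * (1 + |x - x₀|)) ^ 3 :=
          pow_le_pow_left₀ (by positivity) h3 3
        calc C₁ * (1 + |x|) ^ 3 ≤ C₁ * (2 * x₀ * (1 + |x - x₀|)) ^ 3 :=
              mul_le_mul_of_nonneg_left h6 hC₁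
          _ = _ := by ring
      have h3 : Real.exp (-β₁ * (x - x₀) ^ 2) ≤ E * Real.exp (-β₂ * (x - x₀) ^ 2) := by
        rw [hE, ← Real.exp_add]
        refine Real.exp_le_exp.2 ?_
        have h4 : ρ ^ 2 ≤ (x - x₀) ^ 2 := by
          rw [← sq_abs (x - x₀)]
          exact pow_le_pow_left₀ hρ h.le 2
        have h5 : -β₁ * (x - x₀) ^ 2 - (-(1 - θ) ^ 2 * ρ ^ 2 / (8 * μ) + -β₂ * (x - x₀) ^ 2) =
            -((1 - θ) ^ 2 / (8 * μ) * ((x - x₀) ^ 2 - ρ ^ 2)) := by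
          rw [hβ₁, hβ₂]
          field_simp
          ring
        have h6 : 0 ≤ (1 - θ) ^ 2 / (8 * μ) * ((x - x₀) ^ 2 - ρ ^ 2) :=
          mul_nonneg (by positivity) (by linarith)
        linarith
      calc ‖f x‖ * Real.exp (Real.pi / 4 * |x|) * Real.exp (-β₁ * (x - x₀) ^ 2) ≤
          (8 * C₁ * x₀ ^ 3 * (1 + |x - x₀|) ^ 3) * (E * Real.exp (-β₂ * (x - x₀) ^ 2)) :=
            mul_le_mul h2 h3 hnn (by positivity)
        _ = 8 * C₁ * x₀ ^ 3 * E * ((1 + |x - x₀|) ^ 3 * Real.exp (-β₂ * (x - x₀) ^ 2)) := by ring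
        _ ≤ _ := by linarith
  have h7 := hD x₀ b hx hb hb'
  refine h7.trans ?_
  have hx0 : 0 < x₀ := by linarith
  have h8 : C₂ * x₀ * G * ∫ x : ℝ, ‖f x‖ * Real.exp (Real.pi / 4 * |x|) *
      Real.exp (-(1 - θ) * (x - x₀) ^ 2 / (8 * μ)) ≤
      C₂ * x₀ * G * (m * I₁ + 8 * C₁ * x₀ ^ 3 * E * I₂) :=
    mul_le_mul_of_nonneg_left hint (by positivity)
  refine h8.trans ?_
  have hx3 : 1 ≤ x₀ ^ 3 := one_le_pow₀ hx1
  have h9 : m * I₁ + 8 * C₁ * x₀ ^ 3 * E * I₂ ≤ x₀ ^ 3 * ((I₁ + 8 * C₁ * I₂) * (m + E)) := by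
    have a1 : m * I₁ ≤ x₀ ^ 3 * (I₁ * m) := by
      have : 0 ≤ I₁ * m := by positivity
      nlinarith
    have a2 : 0 ≤ x₀ ^ 3 * (I₁ * E + 8 * C₁ * I₂ * m) := by positivity
    nlinarith
  calc C₂ * x₀ * G * (m * I₁ + 8 * C₁ * x₀ ^ 3 * E * I₂) ≤
      C₂ * x₀ * G * (x₀ ^ 3 * ((I₁ + 8 * C₁ * I₂) * (m + E))) :=
        mul_le_mul_of_nonneg_left h9 (by positivity)
    _ = (C₂ * (I₁ + 8 * C₁ * I₂)) * x₀ ^ 4 * G * (m + E) := by ring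
    _ ≤ (C₂ * (I₁ + 8 * C₁ * I₂) + 1) * x₀ ^ 4 * G * (m + E) := by
        gcongr
        linarith

end Pool.Agent.Helper242.KK
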