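import Pool.Agent.Helper242.KK.Kernel
import Pool.Agent.Helper242.KK.EtaGk
import Pool.Agent.Helper242.KK.Heat
import Pool.Agent.Helper242.KK.QXi
import Pool.Agent.Helper242.KK.Swap
import Pool.Agent.Helper242.KK.WinB
import Pool.Agent.Helper242.KK.WinC

set_option autoImplicit false

/-!
# The window bound for the Dirichlet series in terms of `Ξ_{-μ}`
-/

namespace Pool.Agent.Helper242.KK

open Complex MeasureTheory Filter Topology

lemma eta2_eq (x : ℝ) : eta2 x = qf (x - 3 / 2 * I) * FT Ph (x - 3 / 2 * I) := by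
  set z : ℂ := x - 3 / 2 * I with hz
  set s : ℂ := 1 / 2 + I * z with hs
  have hre : s.re = 2 := by
    rw [hs, hz]; simp; norm_num
  have h0 : s ≠ 0 := by
    intro h; rw [h] at hre; simp at hre
  have h1 : s ≠ 1 := by
    intro h; rw [h] at hre; simp at hre
  rw [FT_Ph s z hs h0 h1, ← qf_mul_xi x z s hz hs]

lemma heat_Ph {μ : ℝ} (hμ : 0 < μ) (z : ℂ) :
    (Real.sqrt (4 * Real.pi * μ) : ℂ) * FT Ph z =
      ∫ r : ℝ, (Real.exp (-r ^ 2 / (4 * μ)) : ℂ) * XiM μ (z - r * I) := by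
  obtain ⟨A, -, hA⟩ := Ph_upper
  exact FT_heat hμ continuous_Ph hA z

lemma XiM_gauss {μ : ℝ} (hμ : 0 ≤ μ) (ε : ℝ) (hε : 0 < ε) : ∃ C : ℝ, ∀ z : ℂ,
    ‖XiM μ z‖ ≤ C * Real.exp (ε * z.im ^ 2) := by
  obtain ⟨C, hC, h⟩ := XiM_upper hμ
  set K : ℝ := C + |ε - (1 + Real.log ε) / 2| with hK
  refine ⟨Real.exp (C + K ^ 2 / (2 * ε)), fun z => (h z).trans ?_⟩
  rw [← Real.exp_add]
  refine Real.exp_le_exp.2 ?_
  set y := |z.im| with hy
  have hy0 : 0 ≤ y := abs_nonneg _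
  have e1 : z.im ^ 2 = y ^ 2 := by rw [hy, sq_abs]
  rw [e1]
  have e2 : Real.log (2 + y) ≤ ε * (2 + y) - 1 - Real.log ε := by
    have h1 := Real.log_le_sub_one_of_pos (by positivity : 0 < ε * (2 + y))
    rw [Real.log_mul hε.ne' (by positivity)] at h1
    linarith
  have e3 : y / 2 * Real.log (2 + y) ≤ y / 2 * (ε * (2 + y) - 1 - Real.log ε) :=
    mul_le_mul_of_nonneg_left e2 (by positivity)
  have e4 : (ε - (1 + Real.log ε) / 2) * y ≤ |ε - (1 + Real.log ε) / 2| * y :=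
    mul_le_mul_of_nonneg_right (le_abs_self _) hy0
  have e5 : K * y ≤ ε / 2 * y ^ 2 + K ^ 2 / (2 * ε) := by
    have h2 : 0 ≤ (ε * y - K) ^ 2 / (2 * ε) := by positivity
    have h3 : (ε * y - K) ^ 2 / (2 * ε) = ε / 2 * y ^ 2 - K * y + K ^ 2 / (2 * ε) := by
      field_simp; ring
    linarith
  have e6 : K * y = C * y + |ε - (1 + Real.log ε) / 2| * y := by rw [hK]; ring
  nlinarith

lemma Dser_identity {μ : ℝ} (hμ : 0 < μ) (b x₀ : ℝ) :
    (Real.sqrt (4 * Real.pi * μ) : ℂ) * ((Real.sqrt (8 * Real.pi * μ) : ℂ) * Dser μ b x₀) =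
      ∫ r : ℝ, (Real.exp (-r ^ 2 / (4 * μ)) : ℂ) *
        ∫ x : ℝ, XiM μ x * qf (x + r * I) * gk μ b x₀ (x + (3 / 2 + r) * I) := by
  rw [← swap_shift b x₀ hμ (differentiable_XiM hμ.le) differentiable_qf
    (fun ε hε => XiM_gauss hμ.le ε hε) (fun ε hε => norm_qf_le hε), ← eta2_gk hμ,
    ← integral_const_mul]
  refine integral_congr_ae (Eventually.of_forall fun x => ?_)
  simp only []
  rw [eta2_eq, ← heat_Ph hμ]
  ring

lemma XiM_real_bound {μ : ℝ} (hμ : 0 < μ) : ∃ C : ℝ, ∀ x : ℝ,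
    ‖XiM μ x‖ * Real.exp (Real.pi / 4 * |x|) ≤ C * (1 + |x|) ^ 3 := by
  obtain ⟨C, hC, h⟩ := XiM_strip hμ
  obtain ⟨C2, hC2, h2⟩ := XiM_upper hμ.le
  have key : ∀ x : ℝ, 0 ≤ x → ‖XiM μ x‖ * Real.exp (Real.pi / 4 * |x|) ≤
      (C + Real.exp (C2 + Real.pi / 2)) * (1 + |x|) ^ 3 := by
    intro x hx
    rw [abs_of_nonneg hx]
    rcases le_total 2 x with h3 | h3
    · have h4 := h x 0 h3
      simp only [ofReal_zero, zero_mul, add_zero, ne_eq, OfNat.ofNat_ne_zero, not_false_eq_true,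
        zero_pow, zero_div] at h4
      calc ‖XiM μ x‖ * Real.exp (Real.pi / 4 * x)
          ≤ (C * x ^ 3 * Real.exp (-(Real.pi / 4) * x)) * Real.exp (Real.pi / 4 * x) := by gcongr
        _ = C * x ^ 3 := by
            rw [mul_assoc, ← Real.exp_add]; ring_nf; simp
        _ ≤ (C + Real.exp (C2 + Real.pi / 2)) * (1 + x) ^ 3 := by
            have : x ^ 3 ≤ (1 + x) ^ 3 := by gcongr; linarith
            have h5 := Real.exp_pos (C2 + Real.pi / 2)
            have h6 : 0 ≤ (1 + x) ^ 3 := by positivity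
            nlinarith
    · have h4 := h2 x
      simp only [ofReal_im, abs_zero, zero_div, zero_mul, zero_add, add_zero, mul_one] at h4
      calc ‖XiM μ x‖ * Real.exp (Real.pi / 4 * x)
          ≤ Real.exp C2 * Real.exp (Real.pi / 2) := by
            gcongr
            nlinarith [Real.pi_pos]
        _ = Real.exp (C2 + Real.pi / 2) := by rw [Real.exp_add]
        _ ≤ (C + Real.exp (C2 + Real.pi / 2)) * (1 + x) ^ 3 := by
            have h5 := Real.exp_pos (C2 + Real.pi / 2)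
            have h6 : 1 ≤ (1 + x) ^ 3 := one_le_pow₀ (by linarith)
            nlinarith
  refine ⟨C + Real.exp (C2 + Real.pi / 2), fun x => ?_⟩
  rcases le_total 0 x with h3 | h3
  · exact key x h3
  · have h4 := key (-x) (by linarith)
    rw [abs_neg] at h4
    have h5 : XiM μ ((-x : ℝ) : ℂ) = XiM μ x := by
      rw [ofReal_neg, XiM_neg]
    rwa [h5] at h4

/-- The window bound for `Ξ_{-μ}`. -/
theorem Dser_window {μ : ℝ} (hμ : 0 < μ) : ∃ C X : ℝ, 0 < C ∧ 1 ≤ X ∧ ∀ x₀ b ρ m : ℝ, X ≤ x₀ →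
      0 ≤ b → b ≤ Real.log x₀ → 0 ≤ ρ → 0 ≤ m →
      (∀ x : ℝ, |x - x₀| ≤ ρ → ‖XiM μ x‖ * Real.exp (Real.pi / 4 * |x|) ≤ m) →
      ‖Dser μ b x₀‖ ≤ C * x₀ ^ 4 *
        Real.exp (2 * μ * (1 + 1 / 20) * (Real.log x₀ / 2 - b) ^ 2) *
        (m + Real.exp (-(1 - 1 / 20) ^ 2 * ρ ^ 2 / (8 * μ))) := by
  obtain ⟨C₁, h1⟩ := XiM_real_bound hμ
  have hfc : Continuous fun x : ℝ => XiM μ x :=
    (differentiable_XiM hμ.le).continuous.comp continuous_ofReal
  obtain ⟨C₂, X, hC₂, hX, h2⟩ := window_bound (θ := 1 / 20) hμ (by norm_num) (by norm_num) hfc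
    differentiable_qf.continuous h1 (fun ε hε => norm_qf_le hε)
  have hs1 : 0 < Real.sqrt (4 * Real.pi * μ) := Real.sqrt_pos.2 (by positivity)
  have hs2 : 0 < Real.sqrt (8 * Real.pi * μ) := Real.sqrt_pos.2 (by positivity)
  set K := (Real.sqrt (4 * Real.pi * μ) * Real.sqrt (8 * Real.pi * μ))⁻¹ with hK
  have hK0 : 0 < K := by positivity
  obtain ⟨C, hC, h3⟩ := window_cor (θ := 1 / 20) (C₂ := K * C₂) (X := X) (D := Dser μ) hμ
    (by norm_num) (by norm_num) hfc (by positivity) hX h1 (by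
      intro x₀ b hx hb0 hb1
      have h4 := h2 x₀ b hx hb0 hb1
      rw [← Dser_identity hμ, norm_mul, norm_mul, norm_real, norm_real,
        Real.norm_of_nonneg hs1.le, Real.norm_of_nonneg hs2.le] at h4
      have h5 : ‖Dser μ b x₀‖ = K * (Real.sqrt (4 * Real.pi * μ) *
          (Real.sqrt (8 * Real.pi * μ) * ‖Dser μ b x₀‖)) := by
        rw [hK]; field_simp
      rw [h5]
      calc K * (Real.sqrt (4 * Real.pi * μ) * (Real.sqrt (8 * Real.pi * μ) * ‖Dser μ b x₀‖))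
          ≤ K * _ := mul_le_mul_of_nonneg_left h4 hK0.le
        _ = _ := by ring)
  exact ⟨C, X, hC, hX, h3⟩

/-- The series for `b = 0` is bounded away from zero. -/
theorem Dser_zero_lower {μ : ℝ} (hμ : 0 ≤ μ) (x : ℝ) : 1 / 4 ≤ ‖Dser μ 0 x‖ := by
  set T : ℕ → ℂ := fun n => (((-1) ^ n * wt μ 0 n : ℝ) : ℂ) *
    cexp (-(I * x * Real.log (n + 1))) with hT
  have hn : ∀ n, ‖T n‖ ≤ 1 / ((n : ℝ) + 1) ^ 2 := by
    intro n
    have hp : (0 : ℝ) < n + 1 := by positivity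
    simp only [hT]
    rw [norm_mul, norm_real, norm_mul, norm_pow, norm_neg, norm_one, one_pow, one_mul, norm_exp]
    have e1 : (-(I * x * Real.log (n + 1))).re = 0 := by
      have : I * x * (Real.log (n + 1) : ℂ) = ((x * Real.log (n + 1) : ℝ) : ℂ) * I := by
        push_cast; ring
      rw [this]; simp
    rw [e1, Real.exp_zero, mul_one]
    unfold wt
    rw [Real.norm_of_nonneg (Real.exp_pos _).le]
    have e2 : Real.exp (-2 * Real.log (n + 1)) = 1 / ((n : ℝ) + 1) ^ 2 := by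
      rw [show -2 * Real.log ((n : ℝ) + 1) = -(2 * Real.log ((n : ℝ) + 1)) by ring, Real.exp_neg,
        one_div]
      congr 1
      rw [← Real.log_rpow hp, Real.exp_log (by positivity)]
      norm_cast
    rw [← e2]
    refine Real.exp_le_exp.2 ?_
    have : 0 ≤ 2 * μ * (Real.log (n + 1) - 0) ^ 2 := by positivity
    linarith
  have hz : HasSum (fun n : ℕ => 1 / ((n : ℝ) + 1) ^ 2) (Real.pi ^ 2 / 6) := by
    have h := hasSum_zeta_two
    have h2 := (hasSum_nat_add_iff' (f := fun n : ℕ => 1 / (n : ℝ) ^ 2) 1).2 h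
    simpa using h2
  have hz1 : HasSum (fun n : ℕ => 1 / (((n + 1 : ℕ) : ℝ) + 1) ^ 2) (Real.pi ^ 2 / 6 - 1) := by
    have h2 := (hasSum_nat_add_iff' (f := fun n : ℕ => 1 / ((n : ℝ) + 1) ^ 2) 1).2 hz
    simpa using h2
  have hs : Summable T := Summable.of_norm_bounded hz.summable hn
  have e3 : Dser μ 0 x = T 0 + ∑' n : ℕ, T (n + 1) := by
    rw [← hs.tsum_eq_zero_add]; rfl
  have e4 : ‖∑' n : ℕ, T (n + 1)‖ ≤ Real.pi ^ 2 / 6 - 1 :=
    tsum_of_norm_bounded hz1 (fun n => hn (n + 1))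
  have e5 : ‖T 0‖ = 1 := by
    simp [hT, wt]
  have e6 : Real.pi ^ 2 / 6 - 1 ≤ 3 / 4 := by
    have := Real.pi_lt_d2
    have h0 := Real.pi_pos
    nlinarith
  have e7 : ‖T 0‖ - ‖∑' n : ℕ, T (n + 1)‖ ≤ ‖Dser μ 0 x‖ := by
    rw [e3]
    have := norm_sub_norm_le (T 0) (-∑' n : ℕ, T (n + 1))
    rw [norm_neg, sub_neg_eq_add] at this
    exact this
  rw [e5] at e7
  linarith

end Pool.Agent.Helper242.KK
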