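import Pool.Agent.Helper242.KK.Defs

set_option autoImplicit false

namespace Pool.Agent.Helper242.KK

open Complex MeasureTheory Filter Topology

theorem isl_inv (b : ℕ) (hb : 1 ≤ b) :
    1 / (((b + 1 : ℕ) : ℝ)) ≤ Real.log ((b + 1 : ℕ) : ℝ) - Real.log b := by
  have hb0 : (0 : ℝ) < b := by exact_mod_cast hb
  push_cast
  rw [← Real.log_div (by positivity) hb0.ne']
  have h1 := Real.one_sub_inv_le_log_of_pos (show (0 : ℝ) < ((b : ℝ) + 1) / b by positivity)
  have h2 : 1 - (((b : ℝ) + 1) / b)⁻¹ = 1 / ((b : ℝ) + 1) := by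
    field_simp
    ring
  rwa [h2] at h1

theorem isl_ioc (A N : ℕ) (hA : 1 ≤ A) (h : A ≤ N) :
    ∑ b ∈ Finset.Ioc A N, 1 / (b : ℝ) ≤ Real.log N - Real.log A := by
  induction N, h using Nat.le_induction with
  | base => simp
  | succ n hn ih =>
    rw [Finset.sum_Ioc_succ_top (by omega)]
    have := isl_inv n (by omega)
    linarith

theorem isl_icc (A : ℕ) (hA : 1 ≤ A) :
    ∑ b ∈ Finset.Ioc 0 A, 1 / (b : ℝ) ≤ 1 + Real.log A := by
  induction A, hA using Nat.le_induction with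
  | base => simp
  | succ n hn ih =>
    rw [Finset.sum_Ioc_succ_top (by omega)]
    have := isl_inv n hn
    linarith

theorem isl_tel (F : ℕ → ℝ) (b : ℕ) (hb : 1 ≤ b) :
    ∑ a ∈ Finset.Ico 1 b, (F (a + 1) - F a) = F b - F 1 := by
  induction b, hb using Nat.le_induction with
  | base => simp
  | succ n hn ih =>
    rw [Finset.sum_Ico_succ_top hn, ih]
    ring

theorem isl_sb_nonneg {h : ℝ} (hh : 0 < h) (a b : ℕ) : 0 ≤ sb h a b := by
  unfold sb
  positivity

theorem isl_term {h : ℝ} (hh : 1 ≤ h) (a b : ℕ) (ha : 1 ≤ a) (hab : a < b) :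
    sb h a b ^ 2 / a ≤ (8 / h) * ((((b : ℝ) - a) / (b / h + ((b : ℝ) - a))) -
      (((b : ℝ) - (a + 1)) / (b / h + ((b : ℝ) - (a + 1))))) +
      (1 / (h * Real.log 2)) ^ 2 * (1 / a) := by
  have hh0 : 0 < h := by linarith
  have ha0 : (0 : ℝ) < a := by exact_mod_cast ha
  have hb0 : (0 : ℝ) < b := by exact_mod_cast (by omega : 0 < b)
  have hab1 : (a : ℝ) + 1 ≤ b := by exact_mod_cast hab
  have hlog2 : 0 < Real.log 2 := Real.log_pos (by norm_num)
  obtain ⟨c, hc⟩ : ∃ c : ℝ, c = b / h := ⟨_, rfl⟩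
  have hc0 : 0 < c := by rw [hc]; positivity
  obtain ⟨j, hj⟩ : ∃ j : ℝ, j = (b : ℝ) - a := ⟨_, rfl⟩
  have hj1 : 1 ≤ j := by linarith
  rw [← hc, show (b : ℝ) - (a + 1) = j - 1 by rw [hj]; ring, ← hj]
  have hG : j / (c + j) - (j - 1) / (c + (j - 1)) = c / ((c + j) * (c + (j - 1))) := by
    have e1 : c + j ≠ 0 := by positivity
    have e2 : c + (j - 1) ≠ 0 := by
      have : 0 < c + (j - 1) := by linarith
      exact this.ne'
    field_simp
    ring
  rw [hG]
  have hpos : 0 < c + (j - 1) := by linarith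
  have hs0 := isl_sb_nonneg hh0 a b
  have habs : |Real.log a - Real.log b| = Real.log b - Real.log a := by
    rw [abs_sub_comm, abs_of_nonneg]
    have : Real.log a ≤ Real.log b := Real.log_le_log ha0 (by linarith)
    linarith
  by_cases h2a : (b : ℝ) ≤ 2 * a
  · have h1 : sb h a b ≤ 2 * c / (c + j) := by
      have hle1 : sb h a b ≤ 1 := min_le_left _ _
      have hle2 : sb h a b ≤ c / j := by
        refine (min_le_right _ _).trans ?_
        rw [habs]
        have h3 : j / b ≤ Real.log b - Real.log a := by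
          rw [← Real.log_div hb0.ne' ha0.ne']
          have h4 := Real.one_sub_inv_le_log_of_pos (show (0 : ℝ) < (b : ℝ) / a by positivity)
          have h5 : 1 - ((b : ℝ) / a)⁻¹ = j / b := by
            rw [hj]
            field_simp
          rwa [h5] at h4
        have h6 : 0 < j / b := by positivity
        calc 1 / (h * (Real.log b - Real.log a)) ≤ 1 / (h * (j / b)) := by
              apply one_div_le_one_div_of_le (by positivity)
              exact mul_le_mul_of_nonneg_left h3 hh0.le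
          _ = c / j := by
              rw [hc]
              field_simp
      rcases le_total j c with hjc | hjc
      · refine hle1.trans ?_
        rw [le_div_iff₀ (by positivity)]
        linarith
      · refine hle2.trans ?_
        rw [div_le_div_iff₀ (by positivity) (by positivity)]
        nlinarith
    have h2 : sb h a b ^ 2 ≤ (2 * c / (c + j)) ^ 2 := pow_le_pow_left₀ hs0 h1 2
    have h3 : sb h a b ^ 2 / a ≤ (2 * c / (c + j)) ^ 2 * (2 / b) := by
      rw [div_eq_mul_inv]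
      refine mul_le_mul h2 ?_ (by positivity) (by positivity)
      rw [inv_eq_one_div, div_le_div_iff₀ ha0 hb0]
      linarith
    have h4 : (2 * c / (c + j)) ^ 2 * (2 / b) = (8 / h) * (c / ((c + j) * (c + j))) := by
      have : (b : ℝ) = c * h := by rw [hc]; field_simp
      rw [this]
      field_simp
      ring
    have h5 : c / ((c + j) * (c + j)) ≤ c / ((c + j) * (c + (j - 1))) := by
      apply div_le_div_of_nonneg_left hc0.le (by positivity)
      apply mul_le_mul_of_nonneg_left _ (by positivity)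
      linarith
    have h6 : 0 ≤ (1 / (h * Real.log 2)) ^ 2 * (1 / (a : ℝ)) := by positivity
    have h7 : (8 / h) * (c / ((c + j) * (c + j))) ≤ (8 / h) * (c / ((c + j) * (c + (j - 1)))) :=
      mul_le_mul_of_nonneg_left h5 (by positivity)
    linarith
  · push Not at h2a
    have h1 : sb h a b ≤ 1 / (h * Real.log 2) := by
      refine (min_le_right _ _).trans ?_
      rw [habs]
      apply one_div_le_one_div_of_le (by positivity)
      apply mul_le_mul_of_nonneg_left _ hh0.le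
      have h3 : Real.log (2 * a) ≤ Real.log b := Real.log_le_log (by positivity) h2a.le
      rw [Real.log_mul (by norm_num) ha0.ne'] at h3
      linarith
    have h2 : sb h a b ^ 2 ≤ (1 / (h * Real.log 2)) ^ 2 := pow_le_pow_left₀ hs0 h1 2
    have h3 : sb h a b ^ 2 / a ≤ (1 / (h * Real.log 2)) ^ 2 * (1 / a) := by
      rw [div_eq_mul_one_div]
      exact mul_le_mul_of_nonneg_right h2 (by positivity)
    have h6 : 0 ≤ (8 / h) * (c / ((c + j) * (c + (j - 1)))) := by positivity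
    linarith

/-- TARGET 1 -/
theorem inner_sum_le {h : ℝ} (hh : 1 ≤ h) (b : ℕ) (hb : 1 ≤ b) (hbh : Real.log b ≤ h) :
    ∑ a ∈ Finset.Ico 1 b, sb h a b ^ 2 / a ≤ 20 / h := by
  have hh0 : 0 < h := by linarith
  have hb0 : (0 : ℝ) < b := by exact_mod_cast hb
  have hlog2 : 0 < Real.log 2 := Real.log_pos (by norm_num)
  have hlog2' : (0.69 : ℝ) < Real.log 2 := by
    have := Real.log_two_gt_d9
    linarith
  have h1 : ∑ a ∈ Finset.Ico 1 b, sb h a b ^ 2 / a ≤ ∑ a ∈ Finset.Ico 1 b,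
      ((8 / h) * ((((b : ℝ) - a) / (b / h + ((b : ℝ) - a))) -
      (((b : ℝ) - (a + 1)) / (b / h + ((b : ℝ) - (a + 1))))) +
      (1 / (h * Real.log 2)) ^ 2 * (1 / a)) := by
    refine Finset.sum_le_sum fun a ha => ?_
    rw [Finset.mem_Ico] at ha
    exact isl_term hh a b ha.1 ha.2
  rw [Finset.sum_add_distrib, ← Finset.mul_sum, ← Finset.mul_sum] at h1
  have h2 := isl_tel (fun a : ℕ => -(((b : ℝ) - a) / (b / h + ((b : ℝ) - a)))) b hb
  have h3 : ∑ a ∈ Finset.Ico 1 b, ((((b : ℝ) - a) / (b / h + ((b : ℝ) - a))) -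
      (((b : ℝ) - (a + 1)) / (b / h + ((b : ℝ) - (a + 1))))) ≤ 1 := by
    have e1 : ∑ a ∈ Finset.Ico 1 b, ((((b : ℝ) - a) / (b / h + ((b : ℝ) - a))) -
      (((b : ℝ) - (a + 1)) / (b / h + ((b : ℝ) - (a + 1))))) =
        ((b : ℝ) - 1) / (b / h + ((b : ℝ) - 1)) := by
      calc _ = _ := by
            refine Finset.sum_congr rfl fun a _ => ?_
            rw [show ((((b : ℝ) - a) / (b / h + ((b : ℝ) - a))) -
              (((b : ℝ) - (a + 1)) / (b / h + ((b : ℝ) - (a + 1))))) =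
              -(((b : ℝ) - ((a + 1 : ℕ) : ℝ)) / (b / h + ((b : ℝ) - ((a + 1 : ℕ) : ℝ)))) -
              -(((b : ℝ) - a) / (b / h + ((b : ℝ) - a))) by push_cast; ring]
        _ = _ := h2
        _ = _ := by simp
    rw [e1]
    have hb1 : (1 : ℝ) ≤ b := by exact_mod_cast hb
    have : 0 < (b : ℝ) / h := by positivity
    apply div_le_one_of_le₀
    · linarith
    · linarith
  have h4 : ∑ a ∈ Finset.Ico 1 b, 1 / (a : ℝ) ≤ 2 * h := by
    have h5 : ∑ a ∈ Finset.Ico 1 b, 1 / (a : ℝ) ≤ ∑ a ∈ Finset.Ioc 0 b, 1 / (a : ℝ) := by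
      refine Finset.sum_le_sum_of_subset_of_nonneg ?_ fun a _ _ => by positivity
      intro a ha
      rw [Finset.mem_Ico] at ha
      rw [Finset.mem_Ioc]
      omega
    have := isl_icc b hb
    linarith
  have h5 : (8 / h) * ∑ a ∈ Finset.Ico 1 b, ((((b : ℝ) - a) / (b / h + ((b : ℝ) - a))) -
      (((b : ℝ) - (a + 1)) / (b / h + ((b : ℝ) - (a + 1))))) ≤ (8 / h) * 1 :=
    mul_le_mul_of_nonneg_left h3 (by positivity)
  have h6 : (1 / (h * Real.log 2)) ^ 2 * ∑ a ∈ Finset.Ico 1 b, 1 / (a : ℝ) ≤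
      (1 / (h * Real.log 2)) ^ 2 * (2 * h) := mul_le_mul_of_nonneg_left h4 (by positivity)
  have h7 : (1 / (h * Real.log 2)) ^ 2 * (2 * h) ≤ 12 / h := by
    have e1 : (1 / (h * Real.log 2)) ^ 2 * (2 * h) = (2 / (Real.log 2) ^ 2) / h := by
      field_simp
    rw [e1]
    apply div_le_div_of_nonneg_right _ hh0.le
    rw [div_le_iff₀ (by positivity)]
    nlinarith
  have h8 : (8 / h) * 1 + 12 / h = 20 / h := by ring
  linarith

theorem isl_sb_comm (h : ℝ) (a b : ℕ) : sb h a b = sb h b a := by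
  unfold sb
  rw [abs_sub_comm]

/-- TARGET 2 -/
theorem double_sum_le {S : ℕ → ℝ} {N A : ℕ} {h V K₁ K₂ : ℝ} (hh : 1 ≤ h) (hN : 1 ≤ N)
    (hNh : Real.log N ≤ h) (hA : 1 ≤ A) (hAN : A ≤ N) (hV : 0 ≤ V) (hK₁ : 0 ≤ K₁) (hK : K₁ ≤ K₂)
    (hS0 : ∀ a ∈ Finset.Icc 1 N, 0 ≤ S a)
    (hS1 : ∀ a ∈ Finset.Icc 1 A, S a * a ≤ K₁ * V)
    (hS2 : ∀ a ∈ Finset.Icc 1 N, S a * a ≤ K₂ * V) :
    ∑ a ∈ Finset.Icc 1 N, ∑ b ∈ (Finset.Icc 1 N).erase a, sb h a b ^ 2 * (S a * S b) ≤
      40 * V ^ 2 / h * (K₁ ^ 2 * (1 + Real.log A) + K₂ ^ 2 * (1 + Real.log (N / A))) := by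
  have hh0 : 0 < h := by linarith
  have hI : Finset.Icc 1 N = Finset.Ioc 0 N := by
    ext x
    rw [Finset.mem_Icc, Finset.mem_Ioc]
    omega
  -- symmetry
  have hsym : ∑ a ∈ Finset.Icc 1 N, ∑ b ∈ (Finset.Icc 1 N).erase a, sb h a b ^ 2 * (S a * S b) =
      2 * ∑ b ∈ Finset.Ioc 0 N, ∑ a ∈ Finset.Ico 1 b, sb h a b ^ 2 * (S a * S b) := by
    have e1 : ∑ a ∈ Finset.Icc 1 N, ∑ b ∈ (Finset.Icc 1 N).erase a, sb h a b ^ 2 * (S a * S b) =
        ∑ a ∈ Finset.Icc 1 N, (∑ b ∈ Finset.Ico 1 a, sb h a b ^ 2 * (S a * S b) +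
          ∑ b ∈ Finset.Ioc a N, sb h a b ^ 2 * (S a * S b)) := by
      refine Finset.sum_congr rfl fun a ha => ?_
      rw [Finset.mem_Icc] at ha
      rw [← Finset.sum_union]
      · refine Finset.sum_congr ?_ fun _ _ => rfl
        ext x
        rw [Finset.mem_erase, Finset.mem_Icc, Finset.mem_union, Finset.mem_Ico, Finset.mem_Ioc]
        omega
      · rw [Finset.disjoint_left]
        intro x hx hx2
        rw [Finset.mem_Ico] at hx
        rw [Finset.mem_Ioc] at hx2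
        omega
    rw [e1, Finset.sum_add_distrib]
    have e2 : ∑ a ∈ Finset.Icc 1 N, ∑ b ∈ Finset.Ico 1 a, sb h a b ^ 2 * (S a * S b) =
        ∑ b ∈ Finset.Ioc 0 N, ∑ a ∈ Finset.Ico 1 b, sb h a b ^ 2 * (S a * S b) := by
      rw [hI]
      refine Finset.sum_congr rfl fun a _ => Finset.sum_congr rfl fun b _ => ?_
      rw [isl_sb_comm]
      ring
    have e3 : ∑ a ∈ Finset.Icc 1 N, ∑ b ∈ Finset.Ioc a N, sb h a b ^ 2 * (S a * S b) =
        ∑ b ∈ Finset.Ioc 0 N, ∑ a ∈ Finset.Ico 1 b, sb h a b ^ 2 * (S a * S b) := by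
      refine Finset.sum_comm' ?_
      intro x y
      simp only [Finset.mem_Icc, Finset.mem_Ioc, Finset.mem_Ico]
      omega
    rw [e2, e3]
    ring
  rw [hsym]
  have hstep : ∀ (K : ℝ) (b : ℕ), 0 ≤ K → 1 ≤ b → b ≤ N → (∀ a, 1 ≤ a → a ≤ b → S a * a ≤ K * V) →
      ∑ a ∈ Finset.Ico 1 b, sb h a b ^ 2 * (S a * S b) ≤ 20 * V ^ 2 / h * K ^ 2 * (1 / b) := by
    intro K b hK0 hb1 hbN hS
    have hb0 : (0 : ℝ) < b := by exact_mod_cast hb1
    have hSb : S b ≤ K * V / b := by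
      rw [le_div_iff₀ hb0]
      exact hS b hb1 le_rfl
    have hSb0 : 0 ≤ S b := hS0 b (Finset.mem_Icc.2 ⟨hb1, hbN⟩)
    have h1 : ∑ a ∈ Finset.Ico 1 b, sb h a b ^ 2 * (S a * S b) ≤
        ∑ a ∈ Finset.Ico 1 b, (K * V * (K * V / b)) * (sb h a b ^ 2 / a) := by
      refine Finset.sum_le_sum fun a ha => ?_
      rw [Finset.mem_Ico] at ha
      have ha0 : (0 : ℝ) < a := by exact_mod_cast ha.1
      have hSa : S a ≤ K * V / a := by
        rw [le_div_iff₀ ha0]
        exact hS a ha.1 ha.2.le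
      have hKVa : 0 ≤ K * V / a := by positivity
      calc sb h a b ^ 2 * (S a * S b) ≤ sb h a b ^ 2 * ((K * V / a) * (K * V / b)) := by
            apply mul_le_mul_of_nonneg_left _ (by positivity)
            exact mul_le_mul hSa hSb hSb0 hKVa
        _ = _ := by
            field_simp
    rw [← Finset.mul_sum] at h1
    have h2 := inner_sum_le hh b hb1 ((Real.log_le_log hb0 (by exact_mod_cast hbN)).trans hNh)
    have h3 : (K * V * (K * V / b)) * ∑ a ∈ Finset.Ico 1 b, sb h a b ^ 2 / a ≤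
        (K * V * (K * V / b)) * (20 / h) := mul_le_mul_of_nonneg_left h2 (by positivity)
    have h4 : (K * V * (K * V / b)) * (20 / h) = 20 * V ^ 2 / h * K ^ 2 * (1 / b) := by
      field_simp
    linarith
  have hK2 : 0 ≤ K₂ := hK₁.trans hK
  rw [← Finset.sum_Ioc_consecutive _ (Nat.zero_le A) hAN]
  have p1 : ∑ b ∈ Finset.Ioc 0 A, ∑ a ∈ Finset.Ico 1 b, sb h a b ^ 2 * (S a * S b) ≤
      20 * V ^ 2 / h * K₁ ^ 2 * (1 + Real.log A) := by
    have h1 : ∑ b ∈ Finset.Ioc 0 A, ∑ a ∈ Finset.Ico 1 b, sb h a b ^ 2 * (S a * S b) ≤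
        ∑ b ∈ Finset.Ioc 0 A, 20 * V ^ 2 / h * K₁ ^ 2 * (1 / (b : ℝ)) := by
      refine Finset.sum_le_sum fun b hb => ?_
      rw [Finset.mem_Ioc] at hb
      refine hstep K₁ b hK₁ (by omega) (by omega) fun a ha1 ha2 => ?_
      exact hS1 a (Finset.mem_Icc.2 ⟨ha1, by omega⟩)
    rw [← Finset.mul_sum] at h1
    exact h1.trans (mul_le_mul_of_nonneg_left (isl_icc A hA) (by positivity))
  have p2 : ∑ b ∈ Finset.Ioc A N, ∑ a ∈ Finset.Ico 1 b, sb h a b ^ 2 * (S a * S b) ≤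
      20 * V ^ 2 / h * K₂ ^ 2 * (Real.log N - Real.log A) := by
    have h1 : ∑ b ∈ Finset.Ioc A N, ∑ a ∈ Finset.Ico 1 b, sb h a b ^ 2 * (S a * S b) ≤
        ∑ b ∈ Finset.Ioc A N, 20 * V ^ 2 / h * K₂ ^ 2 * (1 / (b : ℝ)) := by
      refine Finset.sum_le_sum fun b hb => ?_
      rw [Finset.mem_Ioc] at hb
      refine hstep K₂ b hK2 (by omega) (by omega) fun a ha1 ha2 => ?_
      exact hS2 a (Finset.mem_Icc.2 ⟨ha1, by omega⟩)
    rw [← Finset.mul_sum] at h1
    exact h1.trans (mul_le_mul_of_nonneg_left (isl_ioc A N hA hAN) (by positivity))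
  have hA0 : (0 : ℝ) < A := by exact_mod_cast hA
  have hN0 : (0 : ℝ) < N := by exact_mod_cast hN
  have hlog : Real.log ((N : ℝ) / A) = Real.log N - Real.log A := Real.log_div hN0.ne' hA0.ne'
  rw [hlog]
  have h9 : 0 ≤ 20 * V ^ 2 / h * K₂ ^ 2 := by positivity
  have h10 : 40 * V ^ 2 / h * (K₁ ^ 2 * (1 + Real.log A) +
      K₂ ^ 2 * (1 + (Real.log N - Real.log A))) =
      2 * (20 * V ^ 2 / h * K₁ ^ 2 * (1 + Real.log A)) +
      2 * (20 * V ^ 2 / h * K₂ ^ 2 * (Real.log N - Real.log A)) +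
      2 * (20 * V ^ 2 / h * K₂ ^ 2) := by ring
  rw [h10]
  linarith

end Pool.Agent.Helper242.KK
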