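import Mathlib

set_option autoImplicit false

/-!
# Definitions for the disproof of the Ki-Kim question
-/

namespace Pool.Agent.Helper242.KK

open Complex MeasureTheory Filter Topology

/-- The Fourier transform of a kernel. -/
noncomputable def FT (w : ℝ → ℝ) (z : ℂ) : ℂ := ∫ t : ℝ, ((w t : ℝ) : ℂ) * cexp (I * z * t)

/-- The Gaussian weights `(n+1)^{-2} exp(-2μ (log (n+1) - b)^2)`. -/
noncomputable def wt (μ b : ℝ) (n : ℕ) : ℝ :=
  Real.exp (-2 * Real.log (n + 1) - 2 * μ * (Real.log (n + 1) - b) ^ 2)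

/-- The Dirichlet series with Gaussian weights. -/
noncomputable def Dser (μ b x : ℝ) : ℂ :=
  ∑' n : ℕ, (((-1) ^ n * wt μ b n : ℝ) : ℂ) * cexp (-(I * x * Real.log (n + 1)))

/-- The alternating Dirichlet series on the line `Re s = 2`. -/
noncomputable def eta2 (x : ℝ) : ℂ :=
  ∑' n : ℕ, (((-1) ^ n * Real.exp (-2 * Real.log (n + 1)) : ℝ) : ℂ) *
    cexp (-(I * x * Real.log (n + 1)))

/-- The Gaussian window. -/
noncomputable def gk (μ b x₀ : ℝ) (z : ℂ) : ℂ :=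
  cexp (-(z - x₀) ^ 2 / (8 * μ) + I * b * (z - x₀))

/-- The entire function `(1 - 2^{1-s})/(s-1)`. -/
noncomputable def Efun (s : ℂ) : ℂ := dslope (fun s : ℂ => -(2 : ℂ) ^ (1 - s)) 1 s

/-- The entire function `(1 - 2^{1-s}) / ((s-1) π^{-s/2} Γ(s/2+1))`, `s = 1/2 + i z`. -/
noncomputable def qf (z : ℂ) : ℂ :=
  Efun (1 / 2 + I * z) * (Real.pi : ℂ) ^ ((1 / 2 + I * z) / 2) * (Complex.Gamma (5 / 4 + I * z / 2))⁻¹

/-- A finite Dirichlet polynomial. -/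
noncomputable def Psum (c : ℕ → ℝ) (N : ℕ) (x : ℝ) : ℂ :=
  ∑ n ∈ Finset.Icc 1 N, (c n : ℂ) * cexp (-(I * x * Real.log n))

/-- The bound of the sinc factor. -/
noncomputable def sb (h : ℝ) (m n : ℕ) : ℝ := min 1 (1 / (h * |Real.log m - Real.log n|))

/-- `∑_j v(j a)^2` over the multiples of `a` up to `N`. -/
noncomputable def Smul (v : ℕ → ℝ) (N a : ℕ) : ℝ := ∑ j ∈ Finset.Icc 1 (N / a), v (j * a) ^ 2

/-- The quadruples `(m,n,m',n')` in `[1,N]^4`, `m ≠ n`, `m n' = m' n`. -/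
def quad (N : ℕ) : Finset ((ℕ × ℕ) × (ℕ × ℕ)) :=
  (((Finset.Icc 1 N) ×ˢ (Finset.Icc 1 N)) ×ˢ ((Finset.Icc 1 N) ×ˢ (Finset.Icc 1 N))).filter
    fun p => p.1.1 ≠ p.1.2 ∧ p.1.1 * p.2.2 = p.2.1 * p.1.2

/-- The Gaussian weights at the integer `n`. -/
noncomputable def vw (μ b : ℝ) (n : ℕ) : ℝ :=
  Real.exp (-2 * Real.log n - 2 * μ * (Real.log n - b) ^ 2)

/-- The number of zeros of `f` in `S`, counted with multiplicity. -/
noncomputable def zc (f : ℂ → ℂ) (S : Set ℂ) : ENNReal :=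
  ∑' z : S, ((analyticOrderAt f (z : ℂ) : ℕ∞) : ENNReal)

/-- A segment of the real axis, as a subset of `ℂ`. -/
def rseg (a b : ℝ) : Set ℂ := {z | z.im = 0 ∧ a ≤ z.re ∧ z.re ≤ b}

end Pool.Agent.Helper242.KK
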