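import Pool.Agent.Helper242.KK.BC

set_option autoImplicit false

namespace Pool.Agent.Helper242.KK

open Complex MeasureTheory Filter Topology Metric

theorem sr_13091 : ∃ s : ℂ → ℂ, ∀ w, s w ^ 2 = w := by
  refine ⟨fun w => w ^ (((2 : ℕ) : ℂ)⁻¹), fun w => ?_⟩
  exact Complex.cpow_nat_inv_pow w two_ne_zero

theorem ev_13091 {f : ℂ → ℂ} (he : ∀ z, f (-z) = f z) {a b : ℂ} (h : a ^ 2 = b ^ 2) :
    f a = f b := by
  rcases sq_eq_sq_iff_eq_or_eq_neg.mp h with h | h
  · rw [h]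
  · rw [h, he]

/-- TARGET 1 -/
theorem exists_even_sq {f : ℂ → ℂ} (hf : Differentiable ℂ f) (he : ∀ z, f (-z) = f z) :
    ∃ F : ℂ → ℂ, Differentiable ℂ F ∧ ∀ z, F (z ^ 2) = f z := by
  obtain ⟨s, hs⟩ := sr_13091
  refine ⟨fun w => f (s w), ?_, fun z => ev_13091 he (hs _)⟩
  have hdiff : ∀ w0 : ℂ, w0 ≠ 0 → DifferentiableAt ℂ (fun w => f (s w)) w0 := by
    intro w0 hw0
    have e : (fun w => f (s w)) = fun w => f (s w0 * (w / w0) ^ (((2 : ℕ) : ℂ)⁻¹)) := by
      funext w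
      apply ev_13091 he
      rw [hs, mul_pow, hs, Complex.cpow_nat_inv_pow _ two_ne_zero]
      field_simp
    rw [e]
    have h1 : DifferentiableAt ℂ (fun w : ℂ => (w / w0) ^ (((2 : ℕ) : ℂ)⁻¹)) w0 := by
      apply DifferentiableAt.cpow (by fun_prop) (by fun_prop)
      rw [div_self hw0]
      exact Complex.one_mem_slitPlane
    exact (hf _).comp w0 ((differentiableAt_const _).mul h1)
  have hcont : ContinuousAt (fun w => f (s w)) 0 := by
    have h0 : s 0 = 0 := by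
      have := hs 0
      exact pow_eq_zero_iff two_ne_zero |>.mp this
    have h1 : Tendsto s (𝓝 0) (𝓝 0) := by
      rw [tendsto_zero_iff_norm_tendsto_zero]
      have h2 : ∀ w, ‖s w‖ = Real.sqrt ‖w‖ := by
        intro w
        have h3 : ‖s w‖ ^ 2 = ‖w‖ := by rw [← norm_pow, hs]
        rw [← h3, Real.sqrt_sq (norm_nonneg _)]
      have h4 : Tendsto (fun w : ℂ => Real.sqrt ‖w‖) (𝓝 0) (𝓝 (Real.sqrt ‖(0 : ℂ)‖)) :=
        (Real.continuous_sqrt.comp continuous_norm).continuousAt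
      rw [norm_zero, Real.sqrt_zero] at h4
      exact h4.congr fun w => (h2 w).symm
    have h5 : Tendsto (fun w => f (s w)) (𝓝 0) (𝓝 (f (s 0))) := by
      rw [h0]
      exact ((hf 0).continuousAt.tendsto).comp h1
    exact h5
  rw [← differentiableOn_univ]
  rw [← Complex.differentiableOn_compl_singleton_and_continuousAt_iff (c := 0) Filter.univ_mem]
  refine ⟨fun w hw => (hdiff w ?_).differentiableWithinAt, hcont⟩
  exact hw.2

theorem div_13091 {f F : ℂ → ℂ} (hf : Differentiable ℂ f) (hF : Differentiable ℂ F)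
    (hFf : ∀ z, F (z ^ 2) = f z) {R : ℝ} (hR : 0 < R) (v : ℂ) (hv : v ≠ 0) :
    MeromorphicOn.divisor F (closedBall 0 (R ^ 2)) (v ^ 2) =
      MeromorphicOn.divisor f (closedBall 0 R) v := by
  have hfm : MeromorphicOn f (closedBall 0 R) := fun x _ => (hf.analyticAt x).meromorphicAt
  have hFm : MeromorphicOn F (closedBall 0 (R ^ 2)) := fun x _ => (hF.analyticAt x).meromorphicAt
  have hmem : v ^ 2 ∈ closedBall (0 : ℂ) (R ^ 2) ↔ v ∈ closedBall (0 : ℂ) R := by
    rw [mem_closedBall_zero_iff, mem_closedBall_zero_iff, norm_pow]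
    exact pow_le_pow_iff_left₀ (norm_nonneg _) hR.le two_ne_zero
  have hord : meromorphicOrderAt f v = meromorphicOrderAt F (v ^ 2) := by
    have e : f = F ∘ (fun z => z ^ 2) := funext fun z => (hFf z).symm
    rw [e]
    have hd : deriv (fun z : ℂ => z ^ 2) v ≠ 0 := by
      simp [hv]
    exact meromorphicOrderAt_comp_of_deriv_ne_zero (by fun_prop) hd
  rw [MeromorphicOn.divisor_def, MeromorphicOn.divisor_def]
  by_cases hm : v ∈ closedBall (0 : ℂ) R
  · rw [if_pos ⟨hFm, hmem.mpr hm⟩, if_pos ⟨hfm, hm⟩, hord]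
  · rw [if_neg (fun h => hm (hmem.mp h.2)), if_neg (fun h => hm h.2)]

theorem zero_13091 {f : ℂ → ℂ} (hf : Differentiable ℂ f) (h0 : f 0 ≠ 0) (S : Set ℂ) :
    MeromorphicOn.divisor f S 0 = 0 := by
  by_cases hm : MeromorphicOn f S ∧ (0 : ℂ) ∈ S
  · rw [MeromorphicOn.divisor_apply hm.1 hm.2, (hf.analyticAt 0).meromorphicOrderAt_eq,
      (hf.analyticAt 0).analyticOrderAt_eq_zero.mpr h0]
    simp
  · rw [MeromorphicOn.divisor_def, if_neg hm]

/-- TARGET 2 -/
theorem log_norm_le_of_zeros_even {f : ℂ → ℂ} (hf : Differentiable ℂ f) (he : ∀ z, f (-z) = f z)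
    {R M : ℝ} (hR : 0 < R) (h0 : f 0 ≠ 0)
    (hb : ∀ w ∈ closedBall (0 : ℂ) (2 * R), ‖f w‖ ≤ Real.exp M) {z : ℂ} (hz : ‖z‖ < R) :
    ‖f z‖ ≤ Real.exp
      ((∑ᶠ u, (MeromorphicOn.divisor f (closedBall 0 R) u : ℝ) *
        Real.log (1 + ‖z‖ ^ 2 / ‖u‖ ^ 2)) +
        Real.log ‖f 0‖ + 2 * (M - Real.log ‖f 0‖) * ‖z‖ ^ 2 / (R ^ 2 - ‖z‖ ^ 2)) := by
  obtain ⟨F, hF, hFf⟩ := exists_even_sq hf he
  obtain ⟨s, hs⟩ := sr_13091
  have hF0 : F 0 = f 0 := by
    have := hFf 0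
    simpa using this
  have hbF : ∀ w ∈ closedBall (0 : ℂ) (2 * R ^ 2), ‖F w‖ ≤ Real.exp M := by
    intro w hw
    have e : F w = f (s w) := by rw [← hFf, hs]
    rw [e]
    apply hb
    rw [mem_closedBall_zero_iff] at hw ⊢
    have h3 : ‖s w‖ ^ 2 = ‖w‖ := by rw [← norm_pow, hs]
    have h4 : ‖s w‖ ^ 2 ≤ (2 * R) ^ 2 := by rw [h3]; nlinarith
    exact (pow_le_pow_iff_left₀ (norm_nonneg _) (by positivity) two_ne_zero).mp h4
  have hz2 : ‖z ^ 2‖ < R ^ 2 := by
    rw [norm_pow]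
    exact pow_lt_pow_left₀ hz (norm_nonneg _) two_ne_zero
  have key := log_norm_le_of_zeros hF (ρ := R ^ 2) (M := M) (by positivity) (by rw [hF0]; exact h0)
    hbF hz2
  rw [hFf, hF0] at key
  refine key.trans (Real.exp_le_exp.mpr ?_)
  rw [norm_pow]
  have hmain : ∑ᶠ u, (MeromorphicOn.divisor F (closedBall 0 (R ^ 2)) u : ℝ) *
      Real.log (1 + ‖z‖ ^ 2 / ‖u‖) ≤ ∑ᶠ u, (MeromorphicOn.divisor f (closedBall 0 R) u : ℝ) *
        Real.log (1 + ‖z‖ ^ 2 / ‖u‖ ^ 2) := by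
    have hsinj : Function.Injective s := by
      intro a b hab
      rw [← hs a, hab, hs b]
    have hterm : ∀ v, (MeromorphicOn.divisor F (closedBall 0 (R ^ 2)) v : ℝ) *
      Real.log (1 + ‖z‖ ^ 2 / ‖v‖) = (MeromorphicOn.divisor f (closedBall 0 R) (s v) : ℝ) *
        Real.log (1 + ‖z‖ ^ 2 / ‖s v‖ ^ 2) := by
      intro v
      have h3 : ‖s v‖ ^ 2 = ‖v‖ := by rw [← norm_pow, hs]
      rw [h3]
      rcases eq_or_ne v 0 with rfl | hv
      · have hs0 : s 0 = 0 := pow_eq_zero_iff two_ne_zero |>.mp (hs 0)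
        rw [hs0, zero_13091 hF (by rw [hF0]; exact h0), zero_13091 hf h0]
      · have hsv : s v ≠ 0 := by
          intro h
          apply hv
          rw [← hs v, h]
          norm_num
        rw [← div_13091 hf hF hFf hR (s v) hsv, hs]
    have hnn : ∀ u, 0 ≤ (MeromorphicOn.divisor f (closedBall 0 R) u : ℝ) *
        Real.log (1 + ‖z‖ ^ 2 / ‖u‖ ^ 2) := by
      intro u
      apply mul_nonneg
      · have := (MeromorphicOn.AnalyticOnNhd.divisor_nonneg
          (fun x _ => hf.analyticAt x : AnalyticOnNhd ℂ f (closedBall 0 R))) u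
        exact_mod_cast this
      · apply Real.log_nonneg
        have : 0 ≤ ‖z‖ ^ 2 / ‖u‖ ^ 2 := by positivity
        linarith
    have hfin : (Function.support (fun u => (MeromorphicOn.divisor f (closedBall 0 R) u : ℝ) *
        Real.log (1 + ‖z‖ ^ 2 / ‖u‖ ^ 2))).Finite := by
      apply ((MeromorphicOn.divisor f (closedBall (0 : ℂ) R)).finiteSupport
        (isCompact_closedBall 0 R)).subset
      intro u hu
      rw [Function.mem_support] at hu ⊢
      intro h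
      apply hu
      rw [h]
      simp
    rw [finsum_congr hterm]
    have hfin2 : (Function.support (fun v => (MeromorphicOn.divisor f (closedBall 0 R) (s v) : ℝ) *
        Real.log (1 + ‖z‖ ^ 2 / ‖s v‖ ^ 2))).Finite :=
      Set.Finite.preimage hsinj.injOn hfin
    classical
    rw [finsum_eq_sum _ hfin, finsum_eq_sum _ hfin2]
    rw [← Finset.sum_image (s := hfin2.toFinset) (g := s) (f := fun u =>
      (MeromorphicOn.divisor f (closedBall 0 R) u : ℝ) * Real.log (1 + ‖z‖ ^ 2 / ‖u‖ ^ 2))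
      (fun a _ b _ h => hsinj h)]
    apply Finset.sum_le_sum_of_subset_of_nonneg
    · intro u hu
      obtain ⟨v, hv, rfl⟩ := Finset.mem_image.mp hu
      rw [Set.Finite.mem_toFinset] at hv ⊢
      exact hv
    · intro u _ _
      exact hnn u
  linarith

end Pool.Agent.Helper242.KK
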