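import Pool.Agent.Helper242.KK.Defs

set_option autoImplicit false

namespace Pool.Agent.Helper242.KK

open Complex MeasureTheory Filter Topology

theorem FT_aux_exp (M t : ℝ) :
    M * |t| + (5 * |t| - Real.pi * Real.exp (2 * |t|)) ≤ (M + 5) ^ 2 - t ^ 2 := by
  have h1 := Real.quadratic_le_exp_of_nonneg (show 0 ≤ 2 * |t| by positivity)
  have h2 := Real.pi_gt_three
  have h3 : Real.pi * (1 + 2 * |t| + (2 * |t|) ^ 2 / 2) ≤ Real.pi * Real.exp (2 * |t|) :=
    mul_le_mul_of_nonneg_left h1 Real.pi_pos.le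
  have h4 : t ^ 2 = |t| ^ 2 := (sq_abs t).symm
  have h5 : 3 * (2 * |t| ^ 2) ≤ Real.pi * (1 + 2 * |t| + (2 * |t|) ^ 2 / 2) := by
    have : 3 * (1 + 2 * |t| + (2 * |t|) ^ 2 / 2) ≤ Real.pi * (1 + 2 * |t| + (2 * |t|) ^ 2 / 2) :=
      mul_le_mul_of_nonneg_right h2.le (by positivity)
    have h6 := abs_nonneg t
    nlinarith
  rw [h4]
  nlinarith [sq_nonneg (|t| - (M + 5)), sq_nonneg (|t|), sq_nonneg (M + 5),
    sq_nonneg (2 * |t| - (M + 5))]

theorem FT_aux_A {w : ℝ → ℝ} {A : ℝ}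
    (hb : ∀ t, |w t| ≤ A * Real.exp (5 * |t| - Real.pi * Real.exp (2 * |t|))) : 0 ≤ A := by
  by_contra h
  have h1 := hb 0
  have h2 : A * Real.exp (5 * |(0 : ℝ)| - Real.pi * Real.exp (2 * |(0 : ℝ)|)) < 0 :=
    mul_neg_of_neg_of_pos (not_le.1 h) (Real.exp_pos _)
  linarith [abs_nonneg (w 0)]

theorem FT_aux_bd {w : ℝ → ℝ} {A : ℝ}
    (hb : ∀ t, |w t| ≤ A * Real.exp (5 * |t| - Real.pi * Real.exp (2 * |t|))) (M t : ℝ) :
    |w t| * Real.exp (M * |t|) ≤ A * Real.exp ((M + 5) ^ 2) * Real.exp (-1 * t ^ 2) := by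
  have hA := FT_aux_A hb
  calc |w t| * Real.exp (M * |t|)
      ≤ A * Real.exp (5 * |t| - Real.pi * Real.exp (2 * |t|)) * Real.exp (M * |t|) := by
        gcongr
        exact hb t
    _ = A * Real.exp (M * |t| + (5 * |t| - Real.pi * Real.exp (2 * |t|))) := by
        rw [mul_assoc, ← Real.exp_add]; congr 2; ring
    _ ≤ A * Real.exp ((M + 5) ^ 2 - t ^ 2) := by
        gcongr
        exact FT_aux_exp M t
    _ = _ := by rw [mul_assoc, ← Real.exp_add]; congr 2; ring

theorem FT_aux_int (A M : ℝ) :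
    Integrable (fun t : ℝ => A * Real.exp ((M + 5) ^ 2) * Real.exp (-1 * t ^ 2)) :=
  (integrable_exp_neg_mul_sq one_pos).const_mul _

theorem FT_aux_norm (w : ℝ → ℝ) (z : ℂ) (t : ℝ) :
    ‖((w t : ℝ) : ℂ) * cexp (I * z * t)‖ = |w t| * Real.exp (-z.im * t) := by
  rw [norm_mul, Complex.norm_real, Real.norm_eq_abs, Complex.norm_exp]
  congr 2
  simp

theorem FT_aux_norm_le (w : ℝ → ℝ) (z : ℂ) (t : ℝ) :
    ‖((w t : ℝ) : ℂ) * cexp (I * z * t)‖ ≤ |w t| * Real.exp (|z.im| * |t|) := by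
  rw [FT_aux_norm]
  refine mul_le_mul_of_nonneg_left (Real.exp_le_exp.2 ?_) (abs_nonneg _)
  rw [← abs_mul, neg_mul]
  exact neg_le_abs _

theorem FT_aux_cont {w : ℝ → ℝ} (hw : Continuous w) (z : ℂ) :
    Continuous (fun t : ℝ => ((w t : ℝ) : ℂ) * cexp (I * z * t)) := by fun_prop

/-- TARGET 1 -/
theorem integrable_FT {w : ℝ → ℝ} {A : ℝ} (hw : Continuous w)
    (hb : ∀ t, |w t| ≤ A * Real.exp (5 * |t| - Real.pi * Real.exp (2 * |t|))) (z : ℂ) :
    Integrable (fun t : ℝ => ((w t : ℝ) : ℂ) * cexp (I * z * t)) := by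
  refine Integrable.mono' (FT_aux_int A |z.im|) (FT_aux_cont hw z).aestronglyMeasurable ?_
  exact Eventually.of_forall fun t => (FT_aux_norm_le w z t).trans (FT_aux_bd hb _ t)

/-- TARGET 2 -/
theorem differentiable_FT {w : ℝ → ℝ} {A : ℝ} (hw : Continuous w)
    (hb : ∀ t, |w t| ≤ A * Real.exp (5 * |t| - Real.pi * Real.exp (2 * |t|))) :
    Differentiable ℂ (FT w) := by
  intro z0
  have h := hasDerivAt_integral_of_dominated_loc_of_deriv_le (μ := volume) (𝕜 := ℂ)
    (F := fun (z : ℂ) (t : ℝ) => ((w t : ℝ) : ℂ) * cexp (I * z * t))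
    (F' := fun (z : ℂ) (t : ℝ) => ((w t : ℝ) : ℂ) * (cexp (I * z * t) * (I * t)))
    (x₀ := z0) (s := Metric.ball z0 1)
    (bound := fun t => A * Real.exp (((|z0.im| + 2) + 5) ^ 2) * Real.exp (-1 * t ^ 2))
    (Metric.ball_mem_nhds z0 one_pos)
    (Eventually.of_forall fun z => (FT_aux_cont hw z).aestronglyMeasurable)
    (integrable_FT hw hb z0)
    (by
      have : Continuous (fun t : ℝ => ((w t : ℝ) : ℂ) * (cexp (I * z0 * t) * (I * t))) := by fun_prop
      exact this.aestronglyMeasurable)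
    (Eventually.of_forall fun t z hz => ?_) (FT_aux_int A _)
    (Eventually.of_forall fun t z hz => ?_)
  · exact h.2.differentiableAt
  · have e : ((w t : ℝ) : ℂ) * (cexp (I * z * t) * (I * t)) =
        (((w t : ℝ) : ℂ) * cexp (I * z * t)) * (I * t) := by ring
    rw [e, norm_mul]
    have h1 : ‖I * (t : ℂ)‖ ≤ Real.exp |t| := by
      rw [norm_mul, norm_I, one_mul, Complex.norm_real, Real.norm_eq_abs]
      linarith [Real.add_one_le_exp |t|]
    have h2 : |z.im| ≤ |z0.im| + 1 := by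
      have h3 : |(z - z0).im| < 1 := lt_of_le_of_lt (Complex.abs_im_le_norm _) (by
        rw [Metric.mem_ball, dist_eq_norm] at hz; exact hz)
      rw [Complex.sub_im] at h3
      have h4 : z.im = z0.im + (z.im - z0.im) := by ring
      rw [h4]
      exact (abs_add_le _ _).trans (by linarith)
    calc ‖((w t : ℝ) : ℂ) * cexp (I * z * t)‖ * ‖I * (t : ℂ)‖
        ≤ (|w t| * Real.exp (|z.im| * |t|)) * Real.exp |t| := by
          gcongr
          exact FT_aux_norm_le w z t
      _ ≤ (|w t| * Real.exp ((|z0.im| + 1) * |t|)) * Real.exp |t| := by gcongr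
      _ = |w t| * Real.exp ((|z0.im| + 2) * |t|) := by
          rw [mul_assoc, ← Real.exp_add]; congr 2; ring
      _ ≤ _ := FT_aux_bd hb _ t
  · refine HasDerivAt.const_mul _ ?_
    have h1 : HasDerivAt (fun z : ℂ => I * z * t) (I * t) z := by
      have := ((hasDerivAt_id z).const_mul I).mul_const (t : ℂ)
      simpa using this
    exact h1.cexp

/-- TARGET 3 -/
theorem FT_neg {w : ℝ → ℝ} (he : ∀ t, w (-t) = w t) (z : ℂ) : FT w (-z) = FT w z := by
  unfold FT
  rw [← integral_neg_eq_self (fun t : ℝ => ((w t : ℝ) : ℂ) * cexp (I * z * t))]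
  refine integral_congr_ae (Eventually.of_forall fun t => ?_)
  simp only []
  rw [he]
  congr 2
  push_cast
  ring

/-- TARGET 4 -/
theorem norm_FT_le_im {w : ℝ → ℝ} {A : ℝ} (hw : Continuous w) (hpos : ∀ t, 0 ≤ w t)
    (hb : ∀ t, |w t| ≤ A * Real.exp (5 * |t| - Real.pi * Real.exp (2 * |t|))) (z : ℂ) :
    ‖FT w z‖ ≤ ‖FT w (z.im * I)‖ := by
  have h1 : FT w (z.im * I) = ((∫ t : ℝ, w t * Real.exp (-z.im * t) : ℝ) : ℂ) := by
    unfold FT
    rw [← integral_complex_ofReal]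
    refine integral_congr_ae (Eventually.of_forall fun t => ?_)
    simp only []
    push_cast
    congr 2
    linear_combination ((z.im : ℂ) * t) * I_mul_I
  rw [h1, Complex.norm_real, Real.norm_of_nonneg (integral_nonneg fun t =>
    mul_nonneg (hpos t) (Real.exp_pos _).le)]
  refine (norm_integral_le_integral_norm _).trans (le_of_eq ?_)
  refine integral_congr_ae (Eventually.of_forall fun t => ?_)
  simp only []
  rw [FT_aux_norm, abs_of_nonneg (hpos t)]

/-- TARGET 7 -/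
theorem FT_zero_ne {w : ℝ → ℝ} {A : ℝ} (hw : Continuous w)
    (hb : ∀ t, |w t| ≤ A * Real.exp (5 * |t| - Real.pi * Real.exp (2 * |t|)))
    (hpos : ∀ t, 0 < w t) : FT w 0 ≠ 0 := by
  have h1 : FT w 0 = ((∫ t : ℝ, w t : ℝ) : ℂ) := by
    unfold FT
    rw [← integral_complex_ofReal]
    refine integral_congr_ae (Eventually.of_forall fun t => ?_)
    simp
  have hint : Integrable w := by
    refine Integrable.mono' (FT_aux_int A 0) hw.aestronglyMeasurable ?_
    refine Eventually.of_forall fun t => ?_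
    have := FT_aux_bd hb 0 t
    rw [zero_mul, Real.exp_zero, mul_one] at this
    exact this
  rw [h1]
  have h2 : 0 < ∫ t : ℝ, w t := by
    rw [integral_pos_iff_support_of_nonneg (fun t => (hpos t).le) hint]
    have : Function.support w = Set.univ := by
      ext t
      simp [(hpos t).ne']
    rw [this]
    simp
  exact_mod_cast h2.ne'

end Pool.Agent.Helper242.KK
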