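import Pool.Agent.Helper242.KK.FTa

set_option autoImplicit false

namespace Pool.Agent.Helper242.KK

open Complex MeasureTheory Filter Topology

theorem integrable_exp_neg_abs_aux : Integrable (fun t : ℝ => Real.exp (-|t|)) := by
  have h1 : IntegrableOn (fun t : ℝ => Real.exp (-|t|)) (Set.Ioi 0) := by
    refine (integrableOn_exp_neg_Ioi 0).congr_fun (fun t ht => ?_) measurableSet_Ioi
    try simp only
    rw [abs_of_pos ht]
  have h2 : IntegrableOn (fun t : ℝ => Real.exp (-|t|)) (Set.Iic 0) := by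
    refine (integrableOn_exp_Iic 0).congr_fun (fun t ht => ?_) measurableSet_Iic
    try simp only
    rw [abs_of_nonpos ht, neg_neg]
  rw [← integrableOn_univ, ← Set.Iic_union_Ioi (a := (0:ℝ))]
  exact h2.union h1

theorem young_aux {a : ℝ} (ha : 0 < a) (s : ℝ) :
    a * s - Real.pi * Real.exp (2 * s) ≤ a / 2 * Real.log a := by
  have h1 := Real.add_one_le_exp (2 * s - Real.log a)
  rw [Real.exp_sub, Real.exp_log ha, le_div_iff₀ ha] at h1
  have h2 : (1:ℝ) * Real.exp (2 * s) ≤ Real.pi * Real.exp (2 * s) :=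
    mul_le_mul_of_nonneg_right (by linarith [Real.pi_gt_three]) (Real.exp_pos _).le
  nlinarith [Real.exp_pos (2 * s)]

theorem norm_kernel (w : ℝ → ℝ) (z : ℂ) (t : ℝ) :
    ‖((w t : ℝ) : ℂ) * cexp (I * z * t)‖ = |w t| * Real.exp (-(z.im * t)) := by
  rw [norm_mul, Complex.norm_real, Complex.norm_exp, Real.norm_eq_abs]
  congr 2
  simp

/-- TARGET 5 -/
theorem FT_upper {w : ℝ → ℝ} {A : ℝ} (hw : Continuous w)
    (hb : ∀ t, |w t| ≤ A * Real.exp (5 * |t| - Real.pi * Real.exp (2 * |t|))) :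
    ∃ C : ℝ, 0 < C ∧ ∀ z : ℂ,
      ‖FT w z‖ ≤ Real.exp (|z.im| / 2 * Real.log (2 + |z.im|) + C * (1 + |z.im|)) := by
  have hA : 0 ≤ A := by
    have h0 := (abs_nonneg _).trans (hb 0)
    exact nonneg_of_mul_nonneg_left h0 (Real.exp_pos _)
  obtain ⟨K, hK⟩ : ∃ K : ℝ, K = ∫ t : ℝ, Real.exp (-|t|) := ⟨_, rfl⟩
  have hK0 : 0 ≤ K := by
    rw [hK]; exact integral_nonneg fun t => (Real.exp_pos _).le
  refine ⟨A * K + 16, by positivity, fun z => ?_⟩
  obtain ⟨Y, hY⟩ : ∃ Y : ℝ, Y = |z.im| := ⟨_, rfl⟩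
  have hY0 : 0 ≤ Y := by rw [hY]; exact abs_nonneg _
  rw [← hY]
  have hbd : ∀ t : ℝ, ‖((w t : ℝ) : ℂ) * cexp (I * z * t)‖ ≤
      (A * Real.exp ((6 + Y) / 2 * Real.log (6 + Y))) * Real.exp (-|t|) := by
    intro t
    rw [norm_kernel]
    have h1 : Real.exp (-(z.im * t)) ≤ Real.exp (Y * |t|) := by
      apply Real.exp_le_exp.2
      rw [hY, ← abs_mul]
      exact neg_le_abs _
    have h2 : |w t| * Real.exp (-(z.im * t)) ≤
        (A * Real.exp (5 * |t| - Real.pi * Real.exp (2 * |t|))) * Real.exp (Y * |t|) :=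
      mul_le_mul (hb t) h1 (Real.exp_pos _).le (mul_nonneg hA (Real.exp_pos _).le)
    refine h2.trans ?_
    rw [mul_assoc, mul_assoc, ← Real.exp_add, ← Real.exp_add]
    apply mul_le_mul_of_nonneg_left _ hA
    apply Real.exp_le_exp.2
    have h3 := young_aux (a := 6 + Y) (by linarith) |t|
    linarith
  have hint : Integrable (fun t : ℝ =>
      (A * Real.exp ((6 + Y) / 2 * Real.log (6 + Y))) * Real.exp (-|t|)) :=
    integrable_exp_neg_abs_aux.const_mul _
  have h4 : ‖FT w z‖ ≤ (A * Real.exp ((6 + Y) / 2 * Real.log (6 + Y))) * K := by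
    rw [hK, ← integral_const_mul]
    exact norm_integral_le_of_norm_le hint (Filter.Eventually.of_forall hbd)
  refine h4.trans ?_
  have h5 : A * K ≤ Real.exp (A * K) := by
    have := Real.add_one_le_exp (A * K)
    linarith
  have h6 : (A * Real.exp ((6 + Y) / 2 * Real.log (6 + Y))) * K ≤
      Real.exp (A * K) * Real.exp ((6 + Y) / 2 * Real.log (6 + Y)) := by
    have := mul_le_mul_of_nonneg_right h5 (Real.exp_pos ((6 + Y) / 2 * Real.log (6 + Y))).le
    linarith
  refine h6.trans ?_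
  rw [← Real.exp_add]
  apply Real.exp_le_exp.2
  have h7 : Real.log (6 + Y) ≤ Real.log (2 + Y) + 2 := by
    have h8 : Real.log (6 + Y) ≤ Real.log (3 * (2 + Y)) :=
      Real.log_le_log (by linarith) (by linarith)
    rw [Real.log_mul (by norm_num) (by linarith)] at h8
    have h9 : Real.log 3 ≤ 3 - 1 := Real.log_le_sub_one_of_pos (by norm_num)
    linarith
  have h10 : Real.log (6 + Y) ≤ 5 + Y := by
    have := Real.log_le_sub_one_of_pos (show (0:ℝ) < 6 + Y by linarith)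
    linarith
  have h11 : Y / 2 * Real.log (6 + Y) ≤ Y / 2 * (Real.log (2 + Y) + 2) :=
    mul_le_mul_of_nonneg_left h7 (by linarith)
  have h12 : 0 ≤ A * K * Y := by positivity
  nlinarith

/-- TARGET 6 -/
theorem FT_lower {w : ℝ → ℝ} {A μ : ℝ} (hμ : 0 ≤ μ) (hw : Continuous w)
    (hb : ∀ t, |w t| ≤ A * Real.exp (5 * |t| - Real.pi * Real.exp (2 * |t|)))
    (hpos : ∀ t, 0 ≤ w t) (he : ∀ t, w (-t) = w t)
    (hlow : ∀ t, 0 ≤ t → Real.exp (-Real.pi * Real.exp (2 * t) - μ * t ^ 2) ≤ w t) :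
    ∃ C : ℝ, 0 < C ∧ ∀ y : ℝ, 1 ≤ y →
      Real.exp (y / 2 * Real.log y - C * y) ≤ ‖FT w (y * I)‖ := by
  refine ⟨Real.pi * Real.exp 2 + μ, by positivity, fun y hy => ?_⟩
  obtain ⟨t0, ht0⟩ : ∃ t0 : ℝ, t0 = Real.log y / 2 := ⟨_, rfl⟩
  have hy0 : 0 < y := by linarith
  have ht00 : 0 ≤ t0 := by
    rw [ht0]; exact div_nonneg (Real.log_nonneg hy) (by norm_num)
  have hreal : FT w (y * I) = ((∫ t : ℝ, w t * Real.exp (-(y * t)) : ℝ) : ℂ) := by
    unfold FT
    rw [← integral_complex_ofReal]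
    congr 1
    funext t
    push_cast
    congr 2
    have : I * I = -1 := Complex.I_mul_I
    linear_combination (y * t : ℂ) * this
  have hint : Integrable (fun t : ℝ => w t * Real.exp (-(y * t))) := by
    have h1 := (integrable_FT hw hb (y * I)).norm
    refine h1.congr (Filter.Eventually.of_forall fun t => ?_)
    simp only
    rw [norm_kernel, abs_of_nonneg (hpos t)]
    congr 3
    simp
  have hnn : ∀ t : ℝ, 0 ≤ w t * Real.exp (-(y * t)) := fun t =>
    mul_nonneg (hpos t) (Real.exp_pos _).le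
  rw [hreal, Complex.norm_real, Real.norm_eq_abs, abs_of_nonneg (integral_nonneg hnn)]
  have hsub : ∫ t in Set.Icc (-t0 - 1) (-t0), w t * Real.exp (-(y * t)) ≤
      ∫ t : ℝ, w t * Real.exp (-(y * t)) :=
    setIntegral_le_integral hint (Filter.Eventually.of_forall hnn)
  refine le_trans ?_ hsub
  have hsq : (t0 + 1) ^ 2 ≤ y := by
    have h1 : t0 + 1 ≤ Real.sqrt y := by
      have h2 : Real.log (Real.sqrt y) ≤ Real.sqrt y - 1 :=
        Real.log_le_sub_one_of_pos (Real.sqrt_pos.2 hy0)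
      rw [Real.log_sqrt hy0.le] at h2
      rw [ht0]; linarith
    calc (t0 + 1) ^ 2 ≤ (Real.sqrt y) ^ 2 := pow_le_pow_left₀ (by linarith) h1 2
      _ = y := Real.sq_sqrt hy0.le
  have hlb : ∀ t ∈ Set.Icc (-t0 - 1) (-t0),
      Real.exp (y / 2 * Real.log y - (Real.pi * Real.exp 2 + μ) * y) ≤
        w t * Real.exp (-(y * t)) := by
    intro t ht
    obtain ⟨hta, htb⟩ := ht
    have hs0 : 0 ≤ -t := by linarith
    have h1 := hlow (-t) hs0
    rw [he] at h1
    have h2 : Real.exp (-Real.pi * Real.exp (2 * (-t)) - μ * (-t) ^ 2) * Real.exp (-(y * t)) ≤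
        w t * Real.exp (-(y * t)) := mul_le_mul_of_nonneg_right h1 (Real.exp_pos _).le
    refine le_trans ?_ h2
    rw [← Real.exp_add]
    apply Real.exp_le_exp.2
    have h3 : Real.exp (2 * (-t)) ≤ y * Real.exp 2 := by
      calc Real.exp (2 * (-t)) ≤ Real.exp (Real.log y + 2) := by
            apply Real.exp_le_exp.2
            rw [ht0] at hta
            linarith
        _ = y * Real.exp 2 := by rw [Real.exp_add, Real.exp_log hy0]
    have h4 : Real.pi * Real.exp (2 * (-t)) ≤ Real.pi * (y * Real.exp 2) :=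
      mul_le_mul_of_nonneg_left h3 Real.pi_pos.le
    have h5 : (-t) ^ 2 ≤ y := by
      calc (-t) ^ 2 ≤ (t0 + 1) ^ 2 := pow_le_pow_left₀ hs0 (by linarith) 2
        _ ≤ y := hsq
    have h6 : μ * (-t) ^ 2 ≤ μ * y := mul_le_mul_of_nonneg_left h5 hμ
    have h7 : y * t0 ≤ -(y * t) := by nlinarith
    have h8 : y / 2 * Real.log y = y * t0 := by rw [ht0]; ring
    rw [h8]
    nlinarith
  have h9 := setIntegral_ge_of_const_le_real (μ := volume) measurableSet_Icc
    (by simp) hlb hint.integrableOn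
  have h10 : volume.real (Set.Icc (-t0 - 1) (-t0)) = 1 := by
    rw [Real.volume_real_Icc_of_le (by linarith)]
    ring
  rw [h10, mul_one] at h9
  exact h9

end Pool.Agent.Helper242.KK
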