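import Pool.Agent.Helper242.KK.ZC

set_option autoImplicit false

namespace Pool.Agent.Helper242.KK

open Complex MeasureTheory Filter Topology Metric

theorem not_tendsto_one_half {f : ℂ → ℂ} {q T1 : ℝ} (hq : 0 < q) (hT1 : 3 ≤ T1)
    (hdy : ∀ T : ℝ, T1 ≤ T → zc f (rseg T (2 * T)) ≤ ENNReal.ofReal (48 * q * T * Real.log T)) (n : ℕ) :
    ∀ R : ℝ, T1 ≤ R → R ≤ 2 ^ n * (2 * T1) →
      zc f (rseg 0 R) ≤ zc f (rseg 0 (2 * T1)) + ENNReal.ofReal (48 * q * R * Real.log R) := by
  have base : ∀ R : ℝ, R ≤ 2 * T1 →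
      zc f (rseg 0 R) ≤ zc f (rseg 0 (2 * T1)) + ENNReal.ofReal (48 * q * R * Real.log R) := by
    intro R hR
    refine (zc_mono f ?_).trans le_self_add
    rintro z ⟨h1, h2, h3⟩
    exact ⟨h1, h2, h3.trans hR⟩
  induction n with
  | zero =>
    intro R _ hR
    exact base R (by simpa using hR)
  | succ n ih =>
    intro R hR1 hR2
    rcases le_or_gt R (2 * T1) with h | h
    · exact base R h
    · have h1 : T1 ≤ R / 2 := by linarith
      have h2 : R / 2 ≤ 2 ^ n * (2 * T1) := by rw [pow_succ] at hR2; linarith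
      have h3 := ih (R / 2) h1 h2
      have h4 := hdy (R / 2) h1
      rw [show 2 * (R / 2) = R by ring] at h4
      have hlog : 0 ≤ Real.log (R / 2) := Real.log_nonneg (by linarith)
      have hlog2 : Real.log (R / 2) ≤ Real.log R := Real.log_le_log (by linarith) (by linarith)
      have hnn : 0 ≤ 48 * q * (R / 2) * Real.log (R / 2) := by
        have : 0 ≤ R / 2 := by linarith
        positivity
      calc zc f (rseg 0 R) ≤ zc f (rseg 0 (R / 2) ∪ rseg (R / 2) R) := by
            apply zc_mono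
            rintro z ⟨h1, h2, h3⟩
            rcases le_total z.re (R / 2) with h5 | h5
            · exact Or.inl ⟨h1, h2, h5⟩
            · exact Or.inr ⟨h1, h5, h3⟩
        _ ≤ zc f (rseg 0 (R / 2)) + zc f (rseg (R / 2) R) := zc_union_le _ _ _
        _ ≤ (zc f (rseg 0 (2 * T1)) + ENNReal.ofReal (48 * q * (R / 2) * Real.log (R / 2))) +
            ENNReal.ofReal (48 * q * (R / 2) * Real.log (R / 2)) := add_le_add h3 h4
        _ = zc f (rseg 0 (2 * T1)) + ENNReal.ofReal (48 * q * R * Real.log (R / 2)) := by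
            rw [add_assoc, ← ENNReal.ofReal_add hnn hnn]
            congr 2
            ring
        _ ≤ _ := by
            have hR0 : 0 ≤ R := by linarith
            gcongr

/-- Few real zeros, many zeros: the proportion of the real zeros is small infinitely often. -/
theorem frequently_few_real {f : ℂ → ℂ} (hf : Differentiable ℂ f) (he : ∀ z, f (-z) = f z)
    (h0 : f 0 ≠ 0) {q ε : ℝ} (hq : 0 < q) (hε : 0 < ε) (hq1 : q ≤ ε / 4000000)
    (hmany : ¬ ∃ R₁ : ℝ, ∀ R : ℝ, R₁ ≤ R →
      zc f (closedBall 0 R) ≤ ENNReal.ofReal (1 / 10000 * R * Real.log R))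
    (hdy : ∃ T₀ : ℝ, ∀ T : ℝ, T₀ ≤ T →
      zc f (rseg T (2 * T)) ≤ ENNReal.ofReal (48 * q * T * Real.log T)) :
    ∃ᶠ R : ℝ in atTop, zc f {z | z.im = 0 ∧ ‖z‖ ≤ R} <
      ENNReal.ofReal ε * zc f (closedBall 0 R) := by
  obtain ⟨T₀, hT₀⟩ := hdy
  set T1 : ℝ := max T₀ 3 with hT1
  have hT1a : T₀ ≤ T1 := le_max_left _ _
  have hT1b : 3 ≤ T1 := le_max_right _ _
  have hseg : ∀ R : ℝ, T1 ≤ R →
      zc f (rseg 0 R) ≤ zc f (rseg 0 (2 * T1)) + ENNReal.ofReal (48 * q * R * Real.log R) := by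
    intro R hR
    obtain ⟨n, hn⟩ := pow_unbounded_of_one_lt R (one_lt_two)
    apply not_tendsto_one_half hq hT1b (fun T hT => hT₀ T (hT1a.trans hT)) n R hR
    have : (0:ℝ) < 2 ^ n := by positivity
    nlinarith
  set N1 := zc f (rseg 0 (2 * T1)) with hN1
  have hN1t : N1 ≠ ⊤ := by
    have h1 : N1 ≤ zc f (closedBall 0 (2 * T1)) := by
      apply zc_mono
      rintro z ⟨h1, h2, h3⟩
      rw [mem_closedBall, dist_zero_right]
      have : ‖z‖ = |z.re| := by
        rw [Complex.norm_eq_sqrt_sq_add_sq, h1]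
        simp [Real.sqrt_sq_eq_abs]
      rw [this, abs_of_nonneg h2]
      exact h3
    rw [zc_closedBall hf ⟨0, h0⟩ 0 (by linarith : (0:ℝ) < 2 * T1)] at h1
    exact ne_top_of_le_ne_top ENNReal.ofReal_ne_top h1
  have hA : ∀ R : ℝ, T1 ≤ R → zc f {z | z.im = 0 ∧ ‖z‖ ≤ R} ≤
      2 * (N1 + ENNReal.ofReal (48 * q * R * Real.log R)) := by
    intro R hR
    calc zc f {z | z.im = 0 ∧ ‖z‖ ≤ R} ≤ zc f (rseg 0 R ∪ (fun z => -z) '' (rseg 0 R)) := by
          apply zc_mono
          rintro z ⟨h1, h2⟩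
          have h3 : |z.re| ≤ R := (Complex.abs_re_le_norm z).trans h2
          rw [abs_le] at h3
          rcases le_total 0 z.re with h5 | h5
          · exact Or.inl ⟨h1, h5, h3.2⟩
          · refine Or.inr ⟨-z, ⟨?_, ?_, ?_⟩, neg_neg z⟩
            · simp [h1]
            · simpa using h5
            · simp only [Complex.neg_re]; linarith
      _ ≤ zc f (rseg 0 R) + zc f ((fun z => -z) '' (rseg 0 R)) := zc_union_le _ _ _
      _ = 2 * zc f (rseg 0 R) := by rw [zc_neg he, two_mul]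
      _ ≤ _ := by
          gcongr
          exact hseg R hR
  have hreal : ∀ R : ℝ, max T1 (100000 / ε * N1.toReal) ≤ R →
      zc f {z | z.im = 0 ∧ ‖z‖ ≤ R} ≤ ENNReal.ofReal (ε * (1 / 10000 * R * Real.log R)) := by
    intro R hR
    have hRb : T1 ≤ R := (le_max_left _ _).trans hR
    have hRc : 100000 / ε * N1.toReal ≤ R := (le_max_right _ _).trans hR
    have hlog : 1 ≤ Real.log R := by
      rw [Real.le_log_iff_exp_le (by linarith)]
      have := Real.exp_one_lt_d9
      linarith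
    have hR0 : 0 < R := by linarith
    have hN1r : N1 = ENNReal.ofReal N1.toReal := (ENNReal.ofReal_toReal hN1t).symm
    have hNn : 0 ≤ N1.toReal := ENNReal.toReal_nonneg
    have hnn : 0 ≤ 48 * q * R * Real.log R := by positivity
    calc zc f {z | z.im = 0 ∧ ‖z‖ ≤ R} ≤ 2 * (N1 + ENNReal.ofReal (48 * q * R * Real.log R)) :=
          hA R hRb
      _ = ENNReal.ofReal (2 * (N1.toReal + 48 * q * R * Real.log R)) := by
          conv_lhs => rw [hN1r]
          rw [← ENNReal.ofReal_add hNn hnn]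
          rw [ENNReal.ofReal_mul (by norm_num)]
          simp
      _ ≤ _ := by
          apply ENNReal.ofReal_le_ofReal
          have e1 : q * (R * Real.log R) ≤ ε / 4000000 * (R * Real.log R) := by
            apply mul_le_mul_of_nonneg_right hq1 (by positivity)
          have e2 : R ≤ R * Real.log R := by nlinarith
          have e3 : N1.toReal ≤ ε / 100000 * R := by
            have := mul_le_mul_of_nonneg_left hRc (by positivity : 0 ≤ ε / 100000)
            have e4 : ε / 100000 * (100000 / ε * N1.toReal) = N1.toReal := by field_simp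
            rwa [e4] at this
          have e5 : ε / 100000 * R ≤ ε / 100000 * (R * Real.log R) :=
            mul_le_mul_of_nonneg_left e2 (by positivity)
          have e6 : 0 ≤ ε * (R * Real.log R) := by positivity
          nlinarith
  rw [frequently_atTop]
  intro R0
  push Not at hmany
  obtain ⟨R, hR1, hR2⟩ := hmany (max R0 (max T1 (100000 / ε * N1.toReal)))
  refine ⟨R, (le_max_left _ _).trans hR1, ?_⟩
  refine (hreal R ((le_max_right _ _).trans hR1)).trans_lt ?_
  rw [ENNReal.ofReal_mul hε.le]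
  exact (ENNReal.mul_lt_mul_iff_right (by simpa using hε) ENNReal.ofReal_ne_top).2 hR2

/-- The count in a ball is finite. -/
theorem zc_ball_lt_top {f : ℂ → ℂ} (hf : Differentiable ℂ f) (h0 : f 0 ≠ 0) (R : ℝ) :
    zc f (closedBall 0 R) < ⊤ := by
  refine lt_of_le_of_lt (zc_mono f (closedBall_subset_closedBall (le_max_left R 1))) ?_
  rw [zc_closedBall hf ⟨0, h0⟩ 0 (lt_of_lt_of_le one_pos (le_max_right R 1))]
  exact ENNReal.ofReal_lt_top

/-- If the proportion is small infinitely often then it does not tend to one. -/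
theorem not_tendsto_of_frequently {f : ℂ → ℂ} {ε : ℝ} (hε1 : ε ≤ 1 / 2)
    (h : ∃ᶠ R : ℝ in atTop, zc f {z | z.im = 0 ∧ ‖z‖ ≤ R} <
      ENNReal.ofReal ε * zc f (closedBall 0 R)) :
    ¬ Tendsto (fun T : ℝ => zc f {z | z.im = 0 ∧ ‖z‖ ≤ T} / zc f {z | |z.re| ≤ T})
      atTop (𝓝 1) := by
  intro htend
  have hev : ∀ᶠ T : ℝ in atTop, 1 / 2 < zc f {z | z.im = 0 ∧ ‖z‖ ≤ T} / zc f {z | |z.re| ≤ T} :=
    htend.eventually_const_lt (by
      rw [one_div, ENNReal.inv_lt_one]
      exact ENNReal.one_lt_two)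
  obtain ⟨R, hR, h1⟩ := (h.and_eventually hev).exists
  rw [ENNReal.lt_div_iff_mul_lt (Or.inr (by simp)) (Or.inr (by simp))] at h1
  have h3 : zc f (closedBall 0 R) ≤ zc f {z | |z.re| ≤ R} := by
    apply zc_mono
    intro z hz
    rw [mem_closedBall, dist_zero_right] at hz
    exact (Complex.abs_re_le_norm z).trans hz
  have h4 : ENNReal.ofReal ε ≤ 1 / 2 := by
    have : ENNReal.ofReal ε ≤ ENNReal.ofReal (1 / 2) := ENNReal.ofReal_le_ofReal hε1
    refine this.trans_eq ?_
    rw [ENNReal.ofReal_div_of_pos (by norm_num)]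
    simp
  have h5 : ENNReal.ofReal ε * zc f (closedBall 0 R) ≤ 1 / 2 * zc f {z | |z.re| ≤ R} :=
    mul_le_mul' h4 h3
  exact absurd (hR.trans_le h5) (not_lt.2 h1.le)

end Pool.Agent.Helper242.KK
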