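import Pool.Agent.Helper242.KK.Defs

set_option autoImplicit false

namespace Pool.Agent.Helper242.KK

open Complex MeasureTheory Filter Topology

open Set in
private lemma int_rpow_exp {s b : ℝ} (hs : -1 < s) (hb : 0 < b) :
    IntegrableOn (fun x : ℝ => x ^ s * Real.exp (-(b * x))) (Ioi 0) := by
  have h := integrableOn_rpow_mul_exp_neg_mul_rpow hs one_pos hb
  refine h.congr_fun (fun x _ => ?_) measurableSet_Ioi
  simp only [Real.rpow_one, neg_mul]

open Set in
private lemma cpow_exp_meas (a r : ℂ) :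
    AEStronglyMeasurable (fun t : ℝ => (t : ℂ) ^ (a - 1) * Complex.exp (-(r * t)))
      (volume.restrict (Ioi 0)) := by
  refine ContinuousOn.aestronglyMeasurable ?_ measurableSet_Ioi
  refine ContinuousOn.mul ?_ (by fun_prop)
  intro t ht
  exact (Complex.continuousAt_ofReal_cpow_const t (a - 1) (Or.inr (ne_of_gt ht))).continuousWithinAt

open Set in
private lemma rot_deriv {a r : ℂ} (ha : 0 < a.re) (hr : 0 < r.re) :
    HasDerivAt (fun r : ℂ => ∫ t : ℝ in Ioi 0, (t : ℂ) ^ (a - 1) * Complex.exp (-(r * t)))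
      (∫ t : ℝ in Ioi 0, (t : ℂ) ^ (a - 1) * (Complex.exp (-(r * t)) * (-(1 * t)))) r := by
  have hpos : 0 < r.re / 2 := by positivity
  refine (hasDerivAt_integral_of_dominated_loc_of_deriv_le (μ := volume.restrict (Ioi (0:ℝ)))
    (F := fun (r : ℂ) (t : ℝ) => (t : ℂ) ^ (a - 1) * Complex.exp (-(r * t)))
    (F' := fun (r : ℂ) (t : ℝ) => (t : ℂ) ^ (a - 1) * (Complex.exp (-(r * t)) * (-(1 * t))))
    (s := Metric.ball r (r.re / 2)) (bound := fun t : ℝ => t ^ a.re * Real.exp (-(r.re / 2 * t)))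
    (Metric.ball_mem_nhds r hpos) ?_ ?_ ?_ ?_ ?_ ?_).2
  · exact Eventually.of_forall fun r => cpow_exp_meas a r
  · refine Integrable.mono' (int_rpow_exp (s := a.re - 1) (b := r.re) (by linarith) hr)
      (cpow_exp_meas a r) ?_
    refine (ae_restrict_iff' measurableSet_Ioi).2 (Eventually.of_forall fun t ht => ?_)
    have ht0 : (0:ℝ) < t := ht
    rw [norm_mul, Complex.norm_cpow_eq_rpow_re_of_pos ht0, Complex.norm_exp]
    simp
  · have h := (cpow_exp_meas a r).mul (f := fun t : ℝ => (t : ℂ) ^ (a - 1) * Complex.exp (-(r * t)))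
      (g := fun t : ℝ => (-(1 * (t : ℂ)))) (by fun_prop)
    refine h.congr (Eventually.of_forall fun t => ?_)
    simp only [Pi.mul_apply]
    ring
  · refine (ae_restrict_iff' measurableSet_Ioi).2 (Eventually.of_forall fun t ht z hz => ?_)
    have ht0 : (0:ℝ) < t := ht
    have hz' : r.re / 2 ≤ z.re := by
      have h1 : ‖z - r‖ < r.re / 2 := by simpa [dist_eq_norm] using hz
      have h2 := (abs_le.1 ((Complex.abs_re_le_norm (z - r)).trans h1.le)).1
      rw [Complex.sub_re] at h2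
      linarith
    rw [norm_mul, Complex.norm_cpow_eq_rpow_re_of_pos ht0, norm_mul, Complex.norm_exp]
    have e1 : ‖(-(1 * (t : ℂ)))‖ = t := by
      rw [one_mul, norm_neg, Complex.norm_real, Real.norm_of_nonneg ht0.le]
    have e2 : (a - 1).re = a.re - 1 := by simp
    have e3 : (-(z * (t : ℂ))).re = -(z.re * t) := by simp
    rw [e1, e2, e3]
    have e4 : t ^ a.re = t ^ (a.re - 1) * t := by
      rw [← Real.rpow_add_one ht0.ne']; congr 1; ring
    rw [e4]
    have h5 : Real.exp (-(z.re * t)) ≤ Real.exp (-(r.re / 2 * t)) :=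
      Real.exp_le_exp.2 (neg_le_neg (mul_le_mul_of_nonneg_right hz' ht0.le))
    have h6 : 0 ≤ t ^ (a.re - 1) * t := by positivity
    calc t ^ (a.re - 1) * (Real.exp (-(z.re * t)) * t) =
        t ^ (a.re - 1) * t * Real.exp (-(z.re * t)) := by ring
      _ ≤ _ := mul_le_mul_of_nonneg_left h5 h6
  · exact int_rpow_exp (by linarith) hpos
  · refine Eventually.of_forall fun t z _ => ?_
    exact ((((hasDerivAt_id z).mul_const (t : ℂ)).neg).cexp).const_mul _

open Set in
private lemma rot_formula {a r : ℂ} (ha : 0 < a.re) (hr : 0 < r.re) :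
    ∫ t : ℝ in Ioi 0, (t : ℂ) ^ (a - 1) * Complex.exp (-(r * t)) = (1 / r) ^ a * Complex.Gamma a := by
  have hU : IsOpen {z : ℂ | 0 < z.re} := isOpen_lt continuous_const Complex.continuous_re
  have hpre : IsPreconnected {z : ℂ | 0 < z.re} := (convex_halfSpace_re_gt 0).isPreconnected
  have h1 : AnalyticOnNhd ℂ (fun r : ℂ => ∫ t : ℝ in Ioi 0, (t : ℂ) ^ (a - 1) * Complex.exp (-(r * t)))
      {z : ℂ | 0 < z.re} := by
    refine DifferentiableOn.analyticOnNhd (fun z hz => ?_) hU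
    exact (rot_deriv ha hz).differentiableAt.differentiableWithinAt
  have h2 : AnalyticOnNhd ℂ (fun r : ℂ => (1 / r) ^ a * Complex.Gamma a) {z : ℂ | 0 < z.re} := by
    refine DifferentiableOn.analyticOnNhd (fun z hz => ?_) hU
    have hz0 : z ≠ 0 := by
      rintro rfl
      simp at hz
    have hz1 : 0 < (1 / z).re := by
      rw [one_div, Complex.inv_re]
      exact div_pos hz (Complex.normSq_pos.2 hz0)
    have h3 : DifferentiableAt ℂ (fun r : ℂ => 1 / r) z := by
      simp only [one_div]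
      exact differentiableAt_inv hz0
    exact ((h3.cpow_const (Or.inl hz1)).mul_const _).differentiableWithinAt
  refine h1.eqOn_of_preconnected_of_frequently_eq h2 hpre (z₀ := 1) (by simp) ?_ hr
  have ht : Tendsto (fun x : ℝ => (x : ℂ)) (𝓝[≠] 1) (𝓝[≠] (1 : ℂ)) := by
    refine tendsto_nhdsWithin_iff.2 ⟨?_, ?_⟩
    · exact (Complex.continuous_ofReal.tendsto' (1:ℝ) (1:ℂ) (by simp)).mono_left nhdsWithin_le_nhds
    · filter_upwards [self_mem_nhdsWithin] with x hx
      simp only [mem_compl_iff, mem_singleton_iff] at hx ⊢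
      exact_mod_cast hx
  refine ht.frequently (Eventually.frequently ?_)
  have h0 : ∀ᶠ x : ℝ in 𝓝[≠] 1, 0 < x := nhdsWithin_le_nhds (lt_mem_nhds one_pos)
  filter_upwards [h0] with x hx
  exact Complex.integral_cpow_mul_exp_neg_mul_Ioi ha hx

theorem norm_Gamma_le_of_angle {σ v θ : ℝ} (hσ : 0 < σ) (hθ0 : 0 ≤ θ) (hθ : θ < Real.pi / 2) :
    ‖Complex.Gamma (σ + v * I)‖ ≤
      Real.exp (-θ * |v|) * Real.Gamma σ / (Real.cos θ) ^ σ := by
  have hc : 0 < Real.cos θ := Real.cos_pos_of_mem_Ioo ⟨by linarith [Real.pi_pos], hθ⟩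
  obtain ⟨φ, hφ1, hφ2, hφ3⟩ : ∃ φ : ℝ, |φ| = θ ∧ φ * v = -(θ * |v|) ∧ Real.cos φ = Real.cos θ := by
    rcases le_total 0 v with h | h
    · exact ⟨-θ, by rw [abs_neg, abs_of_nonneg hθ0], by rw [abs_of_nonneg h]; ring, Real.cos_neg θ⟩
    · exact ⟨θ, abs_of_nonneg hθ0, by rw [abs_of_nonpos h]; ring, rfl⟩
  have hφ4 : -(Real.pi / 2) < φ ∧ φ < Real.pi / 2 := by
    rw [← abs_lt, hφ1]; exact hθ
  set a : ℂ := (σ : ℂ) + v * I with ha
  have hare : a.re = σ := by simp [ha]
  have haim : a.im = v := by simp [ha]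
  set r : ℂ := Complex.exp (-(φ * I)) with hr
  have hrre : r.re = Real.cos θ := by
    rw [hr, Complex.exp_re]
    simp [hφ3]
  have hinv : 1 / r = Complex.exp (φ * I) := by
    rw [hr, Complex.exp_neg, one_div, inv_inv]
  have hlog : Complex.log (Complex.exp (φ * I)) = φ * I := by
    apply Complex.log_exp
    · simp; linarith [Real.pi_pos]
    · simp; linarith [Real.pi_pos]
  have hnorm : ‖(1 / r) ^ a‖ = Real.exp (θ * |v|) := by
    rw [hinv, Complex.cpow_def_of_ne_zero (Complex.exp_ne_zero _), hlog, Complex.norm_exp]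
    congr 1
    have : ((φ : ℂ) * I * a).re = -(φ * v) := by
      rw [Complex.mul_re]
      simp [haim]
    rw [this, hφ2, neg_neg]
  have key := rot_formula (a := a) (r := r) (by rw [hare]; exact hσ)
    (by rw [hrre]; exact hc)
  have hb : ‖∫ t : ℝ in Set.Ioi 0, (t : ℂ) ^ (a - 1) * Complex.exp (-(r * t))‖ ≤
      (1 / Real.cos θ) ^ σ * Real.Gamma σ := by
    refine (norm_integral_le_integral_norm _).trans ?_
    rw [← Real.integral_rpow_mul_exp_neg_mul_Ioi hσ hc]
    refine le_of_eq (setIntegral_congr_fun measurableSet_Ioi fun t ht => ?_)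
    have ht0 : (0:ℝ) < t := ht
    rw [norm_mul, Complex.norm_cpow_eq_rpow_re_of_pos ht0, Complex.norm_exp]
    congr 2
    · simp [hare]
    · simp [hrre]
  rw [key, norm_mul, hnorm] at hb
  have hE : 0 < Real.exp (θ * |v|) := Real.exp_pos _
  have h1 : ‖Complex.Gamma a‖ ≤ (1 / Real.cos θ) ^ σ * Real.Gamma σ / Real.exp (θ * |v|) := by
    rw [le_div_iff₀ hE, mul_comm]; exact hb
  refine h1.trans (le_of_eq ?_)
  rw [neg_mul, Real.exp_neg, one_div, Real.inv_rpow hc.le]
  field_simp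

theorem norm_Gamma_le {σ : ℝ} (v : ℝ) (hσ : 0 < σ) :
    ‖Complex.Gamma (σ + v * I)‖ ≤
      Real.exp (1 - Real.pi / 2 * |v|) * Real.Gamma σ * (Real.pi / 2 * (1 + |v|)) ^ σ := by
  have hv := abs_nonneg v
  have hpi := Real.pi_gt_three
  have h1 : 1 / (1 + |v|) ≤ 1 := by
    rw [div_le_one (by positivity)]; linarith
  have h0 : 0 < 1 / (1 + |v|) := by positivity
  have h := norm_Gamma_le_of_angle (σ := σ) (v := v) (θ := Real.pi / 2 - 1 / (1 + |v|)) hσ
    (by linarith) (by linarith)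
  refine h.trans ?_
  rw [Real.cos_pi_div_two_sub]
  have h2 := Real.mul_le_sin h0.le (by linarith : 1 / (1 + |v|) ≤ Real.pi / 2)
  have h3 : 0 < 2 / Real.pi * (1 / (1 + |v|)) := by positivity
  have h4 : (2 / Real.pi * (1 / (1 + |v|))) ^ σ ≤ (Real.sin (1 / (1 + |v|))) ^ σ :=
    Real.rpow_le_rpow h3.le h2 hσ.le
  have h5 : (Real.pi / 2 * (1 + |v|)) ^ σ = 1 / (2 / Real.pi * (1 / (1 + |v|))) ^ σ := by
    rw [one_div, ← Real.inv_rpow h3.le]
    congr 1
    field_simp
  have h6 : Real.exp (-(Real.pi / 2 - 1 / (1 + |v|)) * |v|) ≤ Real.exp (1 - Real.pi / 2 * |v|) := by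
    refine Real.exp_le_exp.2 ?_
    have : 1 / (1 + |v|) * |v| ≤ 1 := by
      rw [one_div, inv_mul_le_iff₀ (by positivity)]; linarith
    nlinarith
  have hG := Real.Gamma_pos_of_pos hσ
  rw [h5, div_eq_mul_one_div]
  have h7 : 1 / (Real.sin (1 / (1 + |v|))) ^ σ ≤ 1 / (2 / Real.pi * (1 / (1 + |v|))) ^ σ :=
    one_div_le_one_div_of_le (Real.rpow_pos_of_pos h3 _) h4
  have h8 : 0 < (Real.sin (1 / (1 + |v|))) ^ σ := lt_of_lt_of_le (Real.rpow_pos_of_pos h3 _) h4
  gcongr

end Pool.Agent.Helper242.KK
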