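import Pool.Agent.Helper242.KK.Gam1

set_option autoImplicit false

namespace Pool.Agent.Helper242.KK

open Complex MeasureTheory Filter Topology

theorem ig_cos_bound (z : ℂ) : ‖Complex.cos z‖ ≤ Real.exp |z.im| := by
  have h1 : Complex.cos z = (Complex.exp (z * I) + Complex.exp (-z * I)) / 2 := rfl
  rw [h1, norm_div]
  have h2 : ‖Complex.exp (z * I)‖ ≤ Real.exp |z.im| := by
    rw [Complex.norm_exp]
    apply Real.exp_le_exp.mpr
    have : (z * I).re = -z.im := by simp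
    rw [this]; exact neg_le_abs _
  have h3 : ‖Complex.exp (-z * I)‖ ≤ Real.exp |z.im| := by
    rw [Complex.norm_exp]
    apply Real.exp_le_exp.mpr
    have : (-z * I).re = z.im := by simp
    rw [this]; exact le_abs_self _
  have h4 := norm_add_le (Complex.exp (z * I)) (Complex.exp (-z * I))
  have h5 : ‖(2 : ℂ)‖ = 2 := by simp
  rw [h5, div_le_iff₀ (by norm_num)]
  linarith

theorem ig_sin_bound (z : ℂ) : ‖Complex.sin z‖ ≤ Real.exp |z.im| * ‖z‖ := by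
  have h := Convex.norm_image_sub_le_of_norm_deriv_le (𝕜 := ℂ) (f := Complex.sin) (C := Real.exp |z.im|)
    (s := segment ℝ (0:ℂ) z) (x := 0) (y := z)
    (fun x _ => Complex.differentiable_sin x)
    (fun x hx => by
      rw [Complex.deriv_sin]
      refine (ig_cos_bound x).trans (Real.exp_le_exp.mpr ?_)
      obtain ⟨a, b, ha, hb, hab, rfl⟩ := hx
      have : (a • (0:ℂ) + b • z).im = b * z.im := by simp
      rw [this, abs_mul, abs_of_nonneg hb]
      have hb1 : b ≤ 1 := by linarith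
      exact mul_le_of_le_one_left (abs_nonneg _) hb1)
    (convex_segment _ _) (left_mem_segment _ _ _) (right_mem_segment _ _ _)
  simpa using h

theorem ig_step1 (w : ℂ) (hw : w.re < 2) :
    ‖(Complex.Gamma w)⁻¹‖ ≤ Real.exp (Real.pi * |w.im|) * ‖Complex.Gamma (2 - w)‖ := by
  by_cases hG : Complex.Gamma w = 0
  · rw [hG, inv_zero, norm_zero]; positivity
  by_cases hw1 : w = 1
  · subst hw1
    have : (2 : ℂ) - 1 = 1 := by norm_num
    rw [this, Complex.Gamma_one]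
    simp
  have hpi : (Real.pi : ℂ) ≠ 0 := by exact_mod_cast Real.pi_ne_zero
  have hsin : Complex.sin (Real.pi * w) ≠ 0 := by
    intro h0
    obtain ⟨k, hk⟩ := Complex.sin_eq_zero_iff.mp h0
    have hwk : w = k := by
      have : (Real.pi : ℂ) * w = Real.pi * k := by rw [hk]; ring
      exact mul_left_cancel₀ hpi this
    have hk2 : (k : ℝ) < 2 := by
      have : w.re = k := by rw [hwk]; simp
      rw [← this]; exact hw
    have hk2' : k < 2 := by exact_mod_cast hk2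
    have hk1 : k ≠ 1 := by
      rintro rfl
      apply hw1
      rw [hwk]; simp
    have hk0 : k ≤ 0 := by omega
    obtain ⟨n, hn⟩ := Int.eq_ofNat_of_zero_le (by omega : 0 ≤ -k)
    apply hG
    have : w = -(n : ℂ) := by
      rw [hwk]
      have : k = -(n : ℤ) := by omega
      rw [this]; push_cast; ring
    rw [this]
    exact Complex.Gamma_neg_nat_eq_zero n
  have hrefl := Complex.Gamma_mul_Gamma_one_sub w
  have h1w : (1 : ℂ) - w ≠ 0 := sub_ne_zero.mpr (fun h => hw1 h.symm)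
  have hG2 : Complex.Gamma (2 - w) = (1 - w) * Complex.Gamma (1 - w) := by
    rw [← Complex.Gamma_add_one _ h1w]
    congr 1; ring
  have hinv : (Complex.Gamma w)⁻¹ = Complex.Gamma (1 - w) * Complex.sin (Real.pi * w) / Real.pi := by
    have h2 : Complex.Gamma (1 - w) = Real.pi / Complex.sin (Real.pi * w) / Complex.Gamma w := by
      rw [← hrefl]; field_simp
    rw [h2]; field_simp
  have hs : Complex.sin (Real.pi * w) = Complex.sin (Real.pi * (1 - w)) := by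
    rw [mul_sub, mul_one, Complex.sin_pi_sub]
  have hsb := ig_sin_bound (Real.pi * (1 - w))
  have him : ((Real.pi : ℂ) * (1 - w)).im = -(Real.pi * w.im) := by
    rw [Complex.im_ofReal_mul]
    simp
  rw [him, abs_neg, abs_mul, abs_of_pos Real.pi_pos, norm_mul, Complex.norm_real, Real.norm_eq_abs,
    abs_of_pos Real.pi_pos] at hsb
  rw [hinv, hG2, norm_div, norm_mul, norm_mul, hs, Complex.norm_real, Real.norm_eq_abs,
    abs_of_pos Real.pi_pos, div_le_iff₀ Real.pi_pos]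
  calc ‖Complex.Gamma (1 - w)‖ * ‖Complex.sin (Real.pi * (1 - w))‖
      ≤ ‖Complex.Gamma (1 - w)‖ * (Real.exp (Real.pi * |w.im|) * (Real.pi * ‖1 - w‖)) :=
        mul_le_mul_of_nonneg_left hsb (norm_nonneg _)
    _ = _ := by ring

theorem ig_const : ∃ C0 : ℝ, 0 < C0 ∧ ∀ x : ℝ, 1 / 2 ≤ x → x ≤ 3 / 2 →
    Real.exp 1 * Real.Gamma x * (Real.pi / 2) ^ x ≤ C0 := by
  have hcont : ContinuousOn (fun x : ℝ => Real.exp 1 * Real.Gamma x * (Real.pi / 2) ^ x) (Set.Icc (1/2) (3/2)) := by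
    intro x hx
    have hx0 : 0 < x := by linarith [hx.1]
    have h1 : ContinuousAt Real.Gamma x := by
      refine (Real.differentiableAt_Gamma (fun m => ?_)).continuousAt
      have : (0:ℝ) ≤ m := Nat.cast_nonneg m
      linarith
    have h2 : ContinuousAt (fun x : ℝ => (Real.pi / 2) ^ x) x :=
      (Real.continuous_const_rpow (by positivity)).continuousAt
    exact ((continuousAt_const.mul h1).mul h2).continuousWithinAt
  obtain ⟨C, hC⟩ := isCompact_Icc.exists_bound_of_continuousOn hcont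
  refine ⟨|C| + 1, by positivity, fun x h1 h2 => ?_⟩
  have := hC x ⟨h1, h2⟩
  rw [Real.norm_eq_abs] at this
  linarith [le_abs_self (Real.exp 1 * Real.Gamma x * (Real.pi / 2) ^ x), le_abs_self C]

theorem ig_base (C0 : ℝ) (hC0 : ∀ x : ℝ, 1 / 2 ≤ x → x ≤ 3 / 2 →
    Real.exp 1 * Real.Gamma x * (Real.pi / 2) ^ x ≤ C0) (σ v : ℝ) (h1 : 1 / 2 ≤ σ) (h2 : σ < 3 / 2) :
    ‖(Complex.Gamma (σ + v * I))⁻¹‖ ≤ C0 * (1 + |v|) ^ (2 - σ) * Real.exp (Real.pi / 2 * |v|) := by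
  have hw := ig_step1 (σ + v * I) (by simp; linarith)
  have him : ((σ : ℂ) + v * I).im = v := by simp
  rw [him] at hw
  have h2w : (2 : ℂ) - (σ + v * I) = ((2 - σ : ℝ) : ℂ) + ((-v : ℝ) : ℂ) * I := by
    push_cast; ring
  rw [h2w] at hw
  have hG := norm_Gamma_le (σ := 2 - σ) (-v) (by linarith)
  rw [abs_neg] at hG
  refine hw.trans ?_
  have hx := hC0 (2 - σ) (by linarith) (by linarith)
  have hv : (0:ℝ) < 1 + |v| := by positivity
  have hmr : (Real.pi / 2 * (1 + |v|)) ^ (2 - σ) = (Real.pi / 2) ^ (2 - σ) * (1 + |v|) ^ (2 - σ) :=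
    Real.mul_rpow (by positivity) hv.le
  rw [hmr] at hG
  have hexp : Real.exp (Real.pi * |v|) * Real.exp (1 - Real.pi / 2 * |v|) = Real.exp 1 * Real.exp (Real.pi / 2 * |v|) := by
    rw [← Real.exp_add, ← Real.exp_add]; congr 1; ring
  calc Real.exp (Real.pi * |v|) * ‖Complex.Gamma (((2 - σ : ℝ) : ℂ) + ((-v : ℝ) : ℂ) * I)‖
      ≤ Real.exp (Real.pi * |v|) * (Real.exp (1 - Real.pi / 2 * |v|) * Real.Gamma (2 - σ) *
        ((Real.pi / 2) ^ (2 - σ) * (1 + |v|) ^ (2 - σ))) :=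
        mul_le_mul_of_nonneg_left hG (Real.exp_pos _).le
    _ = (Real.exp (Real.pi * |v|) * Real.exp (1 - Real.pi / 2 * |v|)) * Real.Gamma (2 - σ) *
        (Real.pi / 2) ^ (2 - σ) * (1 + |v|) ^ (2 - σ) := by ring
    _ = (Real.exp 1 * Real.Gamma (2 - σ) * (Real.pi / 2) ^ (2 - σ)) * (1 + |v|) ^ (2 - σ) *
        Real.exp (Real.pi / 2 * |v|) := by rw [hexp]; ring
    _ ≤ _ := by gcongr

theorem ig_right (C0 : ℝ) (hC0 : ∀ x : ℝ, 1 / 2 ≤ x → x ≤ 3 / 2 →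
    Real.exp 1 * Real.Gamma x * (Real.pi / 2) ^ x ≤ C0) (hC0p : 0 < C0) (v : ℝ) (n : ℕ) :
    ∀ σ : ℝ, 1 / 2 + n ≤ σ → σ < 3 / 2 + n →
    ‖(Complex.Gamma (σ + v * I))⁻¹‖ ≤ C0 * 3 ^ n * (1 + |v|) ^ (2 - σ) * Real.exp (Real.pi / 2 * |v|) := by
  induction n with
  | zero =>
    intro σ h1 h2
    simpa using ig_base C0 hC0 σ v (by simpa using h1) (by simpa using h2)
  | succ n ih =>
    intro σ h1 h2
    push_cast at h1 h2
    have h3 := ih (σ - 1) (by linarith) (by linarith)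
    have hn : (0:ℝ) ≤ n := Nat.cast_nonneg n
    have hre : 1 / 2 ≤ σ - 1 := by linarith
    set w : ℂ := ((σ - 1 : ℝ) : ℂ) + v * I with hw
    have hwre : w.re = σ - 1 := by simp [hw]
    have hwim : w.im = v := by simp [hw]
    have hw0 : w ≠ 0 := by
      intro h0
      rw [h0] at hwre
      simp at hwre
      linarith
    have hw1 : (σ : ℂ) + v * I = w + 1 := by rw [hw]; push_cast; ring
    rw [hw1, Complex.Gamma_add_one w hw0, mul_inv, norm_mul]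
    have hv : (0:ℝ) < 1 + |v| := by positivity
    have hnorm : (1 + |v|) / 3 ≤ ‖w‖ := by
      have h4 : ‖w‖ ^ 2 = (σ - 1) ^ 2 + v ^ 2 := by
        rw [← Complex.normSq_eq_norm_sq, Complex.normSq_apply, hwre, hwim]; ring
      have h5 : ((1 + |v|) / 3) ^ 2 ≤ ‖w‖ ^ 2 := by
        rw [h4]
        have := sq_abs v
        nlinarith [sq_nonneg (|v| - 1 / 8), mul_self_nonneg (σ - 1 - 1 / 2)]
      exact (sq_le_sq₀ (by positivity) (norm_nonneg _)).mp h5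
    have hinv : ‖w⁻¹‖ ≤ 3 * (1 + |v|)⁻¹ := by
      rw [norm_inv]
      calc ‖w‖⁻¹ ≤ ((1 + |v|) / 3)⁻¹ := inv_anti₀ (by positivity) hnorm
        _ = 3 * (1 + |v|)⁻¹ := by rw [inv_div]; ring
    calc ‖w⁻¹‖ * ‖(Complex.Gamma w)⁻¹‖
        ≤ (3 * (1 + |v|)⁻¹) * (C0 * 3 ^ n * (1 + |v|) ^ (2 - (σ - 1)) * Real.exp (Real.pi / 2 * |v|)) :=
          mul_le_mul hinv h3 (norm_nonneg _) (by positivity)
      _ = C0 * 3 ^ (n + 1) * ((1 + |v|)⁻¹ * (1 + |v|) ^ (2 - (σ - 1))) * Real.exp (Real.pi / 2 * |v|) := by ring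
      _ = _ := by
        have : (1 + |v|)⁻¹ * (1 + |v|) ^ (2 - (σ - 1)) = (1 + |v|) ^ (2 - σ) := by
          rw [← Real.rpow_neg_one, ← Real.rpow_add hv]; congr 1; ring
        rw [this]

theorem ig_left (C0 : ℝ) (hC0 : ∀ x : ℝ, 1 / 2 ≤ x → x ≤ 3 / 2 →
    Real.exp 1 * Real.Gamma x * (Real.pi / 2) ^ x ≤ C0) (hC0p : 0 < C0) (v : ℝ) (n : ℕ) :
    ∀ σ : ℝ, 1 / 2 - n ≤ σ → σ < 3 / 2 - n →
    ‖(Complex.Gamma (σ + v * I))⁻¹‖ ≤
      C0 * ((n : ℝ) + 2) ^ n * (1 + |v|) ^ (2 - σ) * Real.exp (Real.pi / 2 * |v|) := by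
  induction n with
  | zero =>
    intro σ h1 h2
    simpa using ig_base C0 hC0 σ v (by simpa using h1) (by simpa using h2)
  | succ n ih =>
    intro σ h1 h2
    push_cast at h1 h2
    have h3 := ih (σ + 1) (by linarith) (by linarith)
    have hn : (0:ℝ) ≤ n := Nat.cast_nonneg n
    set w : ℂ := (σ : ℂ) + v * I with hw
    have hwre : w.re = σ := by simp [hw]
    have hwim : w.im = v := by simp [hw]
    have hv : (0:ℝ) < 1 + |v| := by positivity
    by_cases hw0 : w = 0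
    · rw [hw0, Complex.Gamma_zero, inv_zero, norm_zero]; positivity
    have hw1 : ((σ + 1 : ℝ) : ℂ) + v * I = w + 1 := by rw [hw]; push_cast; ring
    rw [hw1, Complex.Gamma_add_one w hw0, mul_inv, norm_mul, norm_inv] at h3
    have hwn : 0 < ‖w‖ := norm_pos_iff.mpr hw0
    rw [inv_mul_le_iff₀ hwn] at h3
    have hnorm : ‖w‖ ≤ ((n : ℝ) + 2) * (1 + |v|) := by
      refine (Complex.norm_le_abs_re_add_abs_im w).trans ?_
      rw [hwre, hwim]
      have h4 : |σ| ≤ n + 1 / 2 := by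
        rw [abs_le]; constructor <;> linarith
      nlinarith [abs_nonneg v, mul_nonneg hn (abs_nonneg v)]
    refine h3.trans ?_
    calc ‖w‖ * (C0 * ((n : ℝ) + 2) ^ n * (1 + |v|) ^ (2 - (σ + 1)) * Real.exp (Real.pi / 2 * |v|))
        ≤ (((n : ℝ) + 2) * (1 + |v|)) * (C0 * ((n : ℝ) + 2) ^ n * (1 + |v|) ^ (2 - (σ + 1)) * Real.exp (Real.pi / 2 * |v|)) :=
          mul_le_mul_of_nonneg_right hnorm (by positivity)
      _ = C0 * ((n : ℝ) + 2) ^ (n + 1) * ((1 + |v|) * (1 + |v|) ^ (2 - (σ + 1))) * Real.exp (Real.pi / 2 * |v|) := by ring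
      _ = C0 * ((n : ℝ) + 2) ^ (n + 1) * (1 + |v|) ^ (2 - σ) * Real.exp (Real.pi / 2 * |v|) := by
        have : (1 + |v|) * (1 + |v|) ^ (2 - (σ + 1)) = (1 + |v|) ^ (2 - σ) := by
          nth_rewrite 1 [← Real.rpow_one (1 + |v|)]
          rw [← Real.rpow_add hv]; congr 1; ring
        rw [this]
      _ ≤ _ := by
        have : ((n : ℝ) + 2) ^ (n + 1) ≤ (((n + 1 : ℕ) : ℝ) + 2) ^ (n + 1) := by
          apply pow_le_pow_left₀ (by positivity)
          push_cast; linarith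
        gcongr

theorem ig_absorb {ε : ℝ} (hε : 0 < ε) : ∃ K : ℝ, ∀ x : ℝ, 0 ≤ x →
    (x + 2) * Real.log (x + 5) ≤ ε * x ^ 2 + K := by
  set L : ℝ := |Real.log (ε / 4)| with hL
  refine ⟨25 * ε / 4 + L ^ 2 / (2 * ε) + 2 * L, fun x hx => ?_⟩
  have hL0 : 0 ≤ L := abs_nonneg _
  have h1 : Real.log (x + 5) ≤ ε / 4 * (x + 5) + L := by
    have h2 := Real.log_le_sub_one_of_pos (show 0 < ε / 4 * (x + 5) by positivity)
    rw [Real.log_mul (by positivity) (by positivity)] at h2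
    have h3 : -Real.log (ε / 4) ≤ L := neg_le_abs _
    linarith
  have h4 : (x + 2) * Real.log (x + 5) ≤ (x + 2) * (ε / 4 * (x + 5) + L) :=
    mul_le_mul_of_nonneg_left h1 (by linarith)
  refine h4.trans ?_
  have h5 : L * x ≤ ε / 2 * x ^ 2 + L ^ 2 / (2 * ε) := by
    have h6 : 0 ≤ (ε * x - L) ^ 2 / (2 * ε) := by positivity
    have h7 : (ε * x - L) ^ 2 / (2 * ε) = ε / 2 * x ^ 2 - L * x + L ^ 2 / (2 * ε) := by
      field_simp
      ring
    linarith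
  have h8 : 7 * x ≤ x ^ 2 + 49 / 4 := by nlinarith [sq_nonneg (x - 7 / 2)]
  nlinarith

theorem ig_pow (σ K ε : ℝ) (hK : ∀ x : ℝ, 0 ≤ x → (x + 2) * Real.log (x + 5) ≤ ε * x ^ 2 + K)
    (n : ℕ) (hn : (n : ℝ) ≤ |σ| + 2) : ((n : ℝ) + 3) ^ n ≤ Real.exp (ε * σ ^ 2 + K) := by
  have h1 : ((n : ℝ) + 3) ^ n = Real.exp (n * Real.log (n + 3)) := by
    rw [Real.exp_nat_mul, Real.exp_log (by positivity)]
  rw [h1]
  apply Real.exp_le_exp.mpr
  have h2 := hK |σ| (abs_nonneg _)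
  rw [sq_abs] at h2
  refine le_trans ?_ h2
  have h3 : Real.log ((n : ℝ) + 3) ≤ Real.log (|σ| + 5) :=
    Real.log_le_log (by positivity) (by linarith)
  exact mul_le_mul hn h3 (Real.log_nonneg (by linarith [(Nat.cast_nonneg n : (0:ℝ) ≤ n)])) (by positivity)

/-- TARGET -/
theorem inv_Gamma_bound {ε : ℝ} (hε : 0 < ε) : ∃ C : ℝ, 0 < C ∧ ∀ σ v : ℝ,
    ‖(Complex.Gamma (σ + v * I))⁻¹‖ ≤
      C * Real.exp (ε * σ ^ 2) * (1 + |v|) ^ (2 - σ) * Real.exp (Real.pi / 2 * |v|) := by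
  obtain ⟨C0, hC0p, hC0⟩ := ig_const
  obtain ⟨K, hK⟩ := ig_absorb hε
  refine ⟨C0 * Real.exp K, by positivity, fun σ v => ?_⟩
  have hv : (0:ℝ) < 1 + |v| := by positivity
  have key : ∃ n : ℕ, (n : ℝ) ≤ |σ| + 2 ∧ ‖(Complex.Gamma (σ + v * I))⁻¹‖ ≤
      C0 * ((n : ℝ) + 3) ^ n * (1 + |v|) ^ (2 - σ) * Real.exp (Real.pi / 2 * |v|) := by
    rcases le_or_gt (1 / 2) σ with h | h
    · refine ⟨⌊σ - 1 / 2⌋₊, ?_, ?_⟩
      · have h1 := Nat.floor_le (show 0 ≤ σ - 1 / 2 by linarith)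
        linarith [le_abs_self σ]
      · have h1 := Nat.floor_le (show 0 ≤ σ - 1 / 2 by linarith)
        have h2 := Nat.lt_floor_add_one (σ - 1 / 2)
        refine (ig_right C0 hC0 hC0p v ⌊σ - 1 / 2⌋₊ σ (by linarith) (by linarith)).trans ?_
        have h3 : (3:ℝ) ^ ⌊σ - 1 / 2⌋₊ ≤ ((⌊σ - 1 / 2⌋₊ : ℝ) + 3) ^ ⌊σ - 1 / 2⌋₊ := by
          apply pow_le_pow_left₀ (by norm_num)
          linarith [(Nat.cast_nonneg _ : (0:ℝ) ≤ (⌊σ - 1 / 2⌋₊ : ℝ))]
        gcongr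
    · refine ⟨⌈1 / 2 - σ⌉₊, ?_, ?_⟩
      · have h1 := Nat.ceil_lt_add_one (show 0 ≤ 1 / 2 - σ by linarith)
        linarith [neg_le_abs σ]
      · have h1 := Nat.ceil_lt_add_one (show 0 ≤ 1 / 2 - σ by linarith)
        have h2 := Nat.le_ceil (1 / 2 - σ)
        refine (ig_left C0 hC0 hC0p v ⌈1 / 2 - σ⌉₊ σ (by linarith) (by linarith)).trans ?_
        have h3 : ((⌈1 / 2 - σ⌉₊ : ℝ) + 2) ^ ⌈1 / 2 - σ⌉₊ ≤ ((⌈1 / 2 - σ⌉₊ : ℝ) + 3) ^ ⌈1 / 2 - σ⌉₊ := by
          apply pow_le_pow_left₀ (by positivity)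
          linarith
        gcongr
  obtain ⟨n, hn, hle⟩ := key
  refine hle.trans ?_
  have hp := ig_pow σ K ε hK n hn
  rw [Real.exp_add] at hp
  calc C0 * ((n : ℝ) + 3) ^ n * (1 + |v|) ^ (2 - σ) * Real.exp (Real.pi / 2 * |v|)
      ≤ C0 * (Real.exp (ε * σ ^ 2) * Real.exp K) * (1 + |v|) ^ (2 - σ) * Real.exp (Real.pi / 2 * |v|) := by
        gcongr
    _ = _ := by ring

end Pool.Agent.Helper242.KK
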