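import Pool.Agent.Helper242.RK.Theta

set_option autoImplicit false

namespace Pool.Agent.Helper242.RK

open Complex Filter Topology

end Pool.Agent.Helper242.RK

namespace Pool.Agent.Helper242.KK

open Complex Filter Topology Pool.Agent.Helper242.RK

/-- TARGET 1 -/
theorem norm_P_le_pow (k : ℕ) : ∃ C : ℝ, 0 < C ∧ ∀ s : ℂ, 0 < s.re →
    ‖P k s‖ ≤ C / s.re ^ (k + 1) := by
  have hsum : Summable (fun n : ℕ => 1 / ((n : ℝ) + 1) ^ 2) := by
    have := (summable_nat_add_iff (f := fun n : ℕ => 1 / (n : ℝ) ^ 2) 1).mpr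
      (Real.summable_one_div_nat_pow.mpr one_lt_two)
    simpa using this
  have hpos : 0 < ∑' n : ℕ, 1 / ((n : ℝ) + 1) ^ 2 :=
    hsum.tsum_pos (fun n => by positivity) 0 (by norm_num)
  refine ⟨((k + 1).factorial : ℝ) * ∑' n : ℕ, 1 / ((n : ℝ) + 1) ^ 2, by positivity, ?_⟩
  intro s hs
  have h1 : HasSum (fun n : ℕ => ((k + 1).factorial : ℝ) / s.re ^ (k + 1) * (1 / ((n : ℝ) + 1) ^ 2))
      (((k + 1).factorial : ℝ) / s.re ^ (k + 1) * ∑' n : ℕ, 1 / ((n : ℝ) + 1) ^ 2) :=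
    hsum.hasSum.mul_left _
  have h2 := tsum_of_norm_bounded (f := fun n : ℕ => ((n : ℂ) + 1) ^ (2 * k) *
    cexp (-(((n : ℂ) + 1) ^ 2) * s)) h1 (fun n => by
      rw [norm_term]
      have hN : (0 : ℝ) < ((n : ℝ) + 1) ^ 2 := by positivity
      have hu : 0 < ((n : ℝ) + 1) ^ 2 * s.re := by positivity
      have h3 := Real.pow_div_factorial_le_exp (((n : ℝ) + 1) ^ 2 * s.re) hu.le (k + 1)
      have h4 : Real.exp (-(((n : ℝ) + 1) ^ 2) * s.re) ≤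
          ((k + 1).factorial : ℝ) / ((((n : ℝ) + 1) ^ 2) ^ (k + 1) * s.re ^ (k + 1)) := by
        rw [neg_mul, Real.exp_neg, ← mul_pow, ← inv_div]
        exact inv_anti₀ (by positivity) h3
      calc ((n : ℝ) + 1) ^ (2 * k) * Real.exp (-(((n : ℝ) + 1) ^ 2) * s.re)
          ≤ ((n : ℝ) + 1) ^ (2 * k) *
            (((k + 1).factorial : ℝ) / ((((n : ℝ) + 1) ^ 2) ^ (k + 1) * s.re ^ (k + 1))) :=
            mul_le_mul_of_nonneg_left h4 (by positivity)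
        _ = ((k + 1).factorial : ℝ) / s.re ^ (k + 1) * (1 / ((n : ℝ) + 1) ^ 2) := by
            rw [pow_mul, pow_succ (((n : ℝ) + 1) ^ 2) k]
            field_simp)
  refine h2.trans (le_of_eq ?_)
  ring

theorem PhiC_strip_aux : ∃ C : ℝ, 0 < C ∧ ∀ t : ℂ, t ∈ S → 0 ≤ t.re →
    ‖PhiC t‖ ≤ C / (Real.cos (4 * t.im)) ^ 3 := by
  obtain ⟨C1, hC1, h1⟩ := norm_P_le_pow 1
  obtain ⟨C2, hC2, h2⟩ := norm_P_le_pow 2
  refine ⟨2 * C2 + 3 * C1, by positivity, ?_⟩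
  intro t ht htr
  have hc : 0 < Real.cos (4 * t.im) := by
    have ht' : |t.im| < Real.pi / 8 := ht
    rw [abs_lt] at ht'
    apply Real.cos_pos_of_mem_Ioo
    constructor <;> linarith [ht'.1, ht'.2]
  have hc1 : Real.cos (4 * t.im) ≤ 1 := Real.cos_le_one _
  set c := Real.cos (4 * t.im) with hcdef
  set s : ℂ := (Real.pi : ℂ) * cexp (4 * t) with hsdef
  have hns : ‖s‖ = Real.pi * Real.exp (4 * t.re) := by
    rw [hsdef, norm_mul, Complex.norm_exp, Complex.norm_real, Real.norm_eq_abs,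
      abs_of_pos Real.pi_pos]
    simp
  have hre : s.re = ‖s‖ * c := by rw [hsdef, re_exp4, ← hsdef, hns]
  have hspos : 0 < ‖s‖ := by rw [hns]; positivity
  have hrepos : 0 < s.re := by rw [hre]; positivity
  have h3 := h1 s hrepos
  have h4 := h2 s hrepos
  rw [hre] at h3 h4
  have hg : ‖g s‖ ≤ (2 * C2 + 3 * C1) / (‖s‖ * c ^ 3) := by
    have h5 : ‖g s‖ ≤ 2 * ‖s‖ ^ 2 * ‖P 2 s‖ + 3 * ‖s‖ * ‖P 1 s‖ := by
      rw [g]
      refine (norm_sub_le _ _).trans (le_of_eq ?_)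
      rw [norm_mul, norm_mul, norm_mul, norm_mul, norm_pow]
      norm_num
    have h6 : 2 * ‖s‖ ^ 2 * ‖P 2 s‖ ≤ 2 * C2 / (‖s‖ * c ^ 3) := by
      calc 2 * ‖s‖ ^ 2 * ‖P 2 s‖ ≤ 2 * ‖s‖ ^ 2 * (C2 / (‖s‖ * c) ^ (2 + 1)) :=
            mul_le_mul_of_nonneg_left h4 (by positivity)
        _ = 2 * C2 / (‖s‖ * c ^ 3) := by rw [mul_pow]; field_simp; try ring
    have h7 : 3 * ‖s‖ * ‖P 1 s‖ ≤ 3 * C1 / (‖s‖ * c ^ 3) := by
      calc 3 * ‖s‖ * ‖P 1 s‖ ≤ 3 * ‖s‖ * (C1 / (‖s‖ * c) ^ (1 + 1)) :=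
            mul_le_mul_of_nonneg_left h3 (by positivity)
        _ = 3 * C1 / (‖s‖ * c ^ 2) := by rw [mul_pow]; field_simp; try ring
        _ ≤ 3 * C1 / (‖s‖ * c ^ 3) := by
            apply div_le_div_of_nonneg_left (by positivity) (by positivity)
            apply mul_le_mul_of_nonneg_left _ hspos.le
            exact pow_le_pow_of_le_one hc.le hc1 (by norm_num)
    calc ‖g s‖ ≤ 2 * ‖s‖ ^ 2 * ‖P 2 s‖ + 3 * ‖s‖ * ‖P 1 s‖ := h5
      _ ≤ 2 * C2 / (‖s‖ * c ^ 3) + 3 * C1 / (‖s‖ * c ^ 3) := add_le_add h6 h7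
      _ = (2 * C2 + 3 * C1) / (‖s‖ * c ^ 3) := by rw [add_div]
  have h8 : Real.exp t.re ≤ ‖s‖ := by
    rw [hns]
    calc Real.exp t.re ≤ Real.exp (4 * t.re) := Real.exp_le_exp.mpr (by linarith)
      _ = 1 * Real.exp (4 * t.re) := (one_mul _).symm
      _ ≤ Real.pi * Real.exp (4 * t.re) := by
          apply mul_le_mul_of_nonneg_right _ (Real.exp_pos _).le
          linarith [Real.pi_gt_three]
  calc ‖PhiC t‖ = Real.exp t.re * ‖g s‖ := by rw [PhiC, norm_mul, Complex.norm_exp, ← hsdef]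
    _ ≤ ‖s‖ * ((2 * C2 + 3 * C1) / (‖s‖ * c ^ 3)) := mul_le_mul h8 hg (norm_nonneg _) hspos.le
    _ = (2 * C2 + 3 * C1) / c ^ 3 := by field_simp

/-- TARGET 2 -/
theorem PhiC_strip : ∃ C : ℝ, 0 < C ∧ ∀ t : ℂ, t ∈ S →
    ‖PhiC t‖ ≤ C / (Real.cos (4 * t.im)) ^ 3 := by
  obtain ⟨C, hC, h⟩ := PhiC_strip_aux
  refine ⟨C, hC, fun t ht => ?_⟩
  rcases le_total 0 t.re with h0 | h0
  · exact h t ht h0
  · have ht' : -t ∈ S := by
      have h1 : |t.im| < Real.pi / 8 := ht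
      show |(-t).im| < Real.pi / 8
      rw [Complex.neg_im, abs_neg]
      exact h1
    have h2 := h (-t) ht' (by rw [Complex.neg_re]; linarith)
    rw [PhiC_even ht, Complex.neg_im, mul_neg, Real.cos_neg] at h2
    exact h2

end Pool.Agent.Helper242.KK
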