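import Pool.Agent.Helper242.KK.ShiftLine

set_option autoImplicit false

namespace Pool.Agent.Helper242.KK

open Complex MeasureTheory Filter Topology

theorem strip_norm1 (μ : ℝ) (z : ℂ) :
    ‖cexp (-(μ : ℂ) * z ^ 2)‖ = Real.exp (-μ * z.re ^ 2 + μ * z.im ^ 2) := by
  rw [Complex.norm_exp]
  congr 1
  simp [pow_two, Complex.mul_re, Complex.mul_im]
  ring

theorem strip_norm2 (x y : ℝ) (z : ℂ) :
    ‖cexp (I * (x + y * I) * z)‖ = Real.exp (-x * z.im - y * z.re) := by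
  rw [Complex.norm_exp]
  congr 1
  simp [Complex.mul_re, Complex.mul_im]
  ring

/-- TARGET -/
theorem strip_bound {μ C₀ : ℝ} (hμ : 0 < μ) {G : ℂ → ℂ}
    (hG : ∀ t : ℂ, |t.im| < Real.pi / 4 → DifferentiableAt ℂ G t)
    (hGb : ∀ t : ℂ, |t.im| < Real.pi / 4 → ‖G t‖ ≤ C₀ / (Real.cos (2 * t.im)) ^ 3) :
    ∃ C : ℝ, 0 < C ∧ ∀ x y : ℝ, 2 ≤ x →
      ‖∫ t : ℝ, G t * (Real.exp (-μ * t ^ 2) : ℂ) * cexp (I * (x + y * I) * t)‖ ≤
        C * x ^ 3 * Real.exp (-(Real.pi / 4) * x + y ^ 2 / (4 * μ)) := by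
  have hpi : 3 < Real.pi := Real.pi_gt_three
  have hpi4 : Real.pi ≤ 4 := Real.pi_le_four
  have hC₀ : 0 ≤ C₀ := by
    have h := hGb 0 (by simp; positivity)
    simp at h
    exact (norm_nonneg _).trans h
  refine ⟨C₀ * (Real.pi / 4) ^ 3 * Real.exp μ * Real.exp 1 * √(Real.pi / μ) + 1, by positivity, ?_⟩
  intro x y hx
  have hx0 : 0 < x := by linarith
  obtain ⟨c, hc⟩ : ∃ c : ℝ, c = Real.pi / 4 - 1 / x := ⟨_, rfl⟩
  have h1x : 1 / x ≤ 1 / 2 := one_div_le_one_div_of_le (by norm_num) hx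
  have h1x0 : 0 < 1 / x := by positivity
  have hc0 : 0 < c := by rw [hc]; linarith
  have hc1 : c < Real.pi / 4 := by rw [hc]; linarith
  have hcos : ∀ v, 0 ≤ v → v ≤ c → Real.cos (2 * c) ≤ Real.cos (2 * v) := by
    intro v hv hvc
    apply Real.cos_le_cos_of_nonneg_of_le_pi (by linarith) (by linarith) (by linarith)
  have hcosc : 4 / (Real.pi * x) ≤ Real.cos (2 * c) := by
    have h1 : Real.cos (2 * c) = Real.sin (2 / x) := by
      rw [← Real.cos_pi_div_two_sub]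
      congr 1
      rw [hc]
      ring
    rw [h1]
    have h2 := Real.mul_le_sin (x := 2 / x) (by positivity) (by
      have : 2 / x = 2 * (1 / x) := by ring
      rw [this]; linarith)
    calc 4 / (Real.pi * x) = 2 / Real.pi * (2 / x) := by field_simp; norm_num
      _ ≤ _ := h2
  have hcosc0 : 0 < Real.cos (2 * c) := lt_of_lt_of_le (by positivity) hcosc
  obtain ⟨A, hA⟩ : ∃ A : ℝ, A = C₀ / (Real.cos (2 * c)) ^ 3 := ⟨_, rfl⟩
  have hA0 : 0 ≤ A := by rw [hA]; positivity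
  have hA1 : A ≤ C₀ * (Real.pi / 4) ^ 3 * x ^ 3 := by
    rw [hA, div_le_iff₀ (by positivity)]
    have h3 : (4 / (Real.pi * x)) ^ 3 ≤ (Real.cos (2 * c)) ^ 3 :=
      pow_le_pow_left₀ (by positivity) hcosc 3
    calc C₀ = C₀ * (Real.pi / 4) ^ 3 * x ^ 3 * (4 / (Real.pi * x)) ^ 3 := by
          field_simp
      _ ≤ _ := mul_le_mul_of_nonneg_left h3 (by positivity)
  have him : ∀ z : ℂ, z.im ∈ Set.uIcc 0 c → |z.im| < Real.pi / 4 ∧ 0 ≤ z.im ∧ z.im ≤ c := by
    intro z hz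
    rw [Set.uIcc_of_le hc0.le] at hz
    refine ⟨?_, hz.1, hz.2⟩
    rw [abs_of_nonneg hz.1]
    linarith [hz.2]
  obtain ⟨H, hH⟩ : ∃ H : ℂ → ℂ, H = fun z => G z * cexp (-(μ : ℂ) * z ^ 2) *
    cexp (I * (x + y * I) * z) := ⟨_, rfl⟩
  have hHn : ∀ z : ℂ, z.im ∈ Set.uIcc 0 c →
      ‖H z‖ ≤ A * Real.exp (-μ * z.re ^ 2 + μ * z.im ^ 2) * Real.exp (-x * z.im - y * z.re) := by
    intro z hz
    obtain ⟨h1, h2, h3⟩ := him z hz
    rw [hH]
    simp only [norm_mul]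
    rw [strip_norm1, strip_norm2]
    gcongr
    refine (hGb z h1).trans ?_
    rw [hA]
    have h4 := hcos z.im h2 h3
    gcongr
  have hd : ∀ z : ℂ, z.im ∈ Set.uIcc 0 c → DifferentiableAt ℂ H z := by
    intro z hz
    rw [hH]
    have h1 := hG z (him z hz).1
    fun_prop
  have hshift := shift_line (H := H) (a := 0) (b := c)
    (K := A * Real.exp (μ * c ^ 2 + y ^ 2 / (2 * μ))) (δ := μ / 2) (by positivity) hd (by
      intro z hz
      refine (hHn z hz).trans ?_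
      obtain ⟨h1, h2, h3⟩ := him z hz
      rw [mul_assoc, mul_assoc, ← Real.exp_add, ← Real.exp_add]
      apply mul_le_mul_of_nonneg_left _ hA0
      apply Real.exp_le_exp.2
      have h4 : z.im ^ 2 ≤ c ^ 2 := pow_le_pow_left₀ h2 h3 2
      have h5 : μ * z.im ^ 2 ≤ μ * c ^ 2 := mul_le_mul_of_nonneg_left h4 hμ.le
      have h6 : 0 ≤ x * z.im := mul_nonneg hx0.le h2
      have h7 : -(y * z.re) ≤ μ / 2 * z.re ^ 2 + y ^ 2 / (2 * μ) := by
        have h8 : 0 ≤ (μ * z.re + y) ^ 2 / (2 * μ) := by positivity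
        have h9 : (μ * z.re + y) ^ 2 / (2 * μ) =
            μ / 2 * z.re ^ 2 + y ^ 2 / (2 * μ) + y * z.re := by
          field_simp
          ring
        linarith
      nlinarith)
  have hLHS : ∫ t : ℝ, G t * (Real.exp (-μ * t ^ 2) : ℂ) * cexp (I * (x + y * I) * t) =
      ∫ t : ℝ, H (t + (0 : ℝ) * I) := by
    congr 1
    ext t
    rw [hH]
    simp
  rw [hLHS, hshift]
  have hbd : ∀ t : ℝ, ‖H (t + c * I)‖ ≤ A * Real.exp (μ * c ^ 2 - x * c + y ^ 2 / (4 * μ)) *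
      Real.exp (-μ * (t + y / (2 * μ)) ^ 2) := by
    intro t
    have h1 := hHn (t + c * I) (by
      rw [Set.uIcc_of_le hc0.le]
      simp
      exact hc0.le)
    refine h1.trans (le_of_eq ?_)
    rw [mul_assoc, mul_assoc, ← Real.exp_add, ← Real.exp_add]
    congr 2
    simp
    field_simp
    ring
  have hint : Integrable (fun t : ℝ => A * Real.exp (μ * c ^ 2 - x * c + y ^ 2 / (4 * μ)) *
      Real.exp (-μ * (t + y / (2 * μ)) ^ 2)) :=
    ((integrable_exp_neg_mul_sq hμ).comp_add_right (y / (2 * μ))).const_mul _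
  have hval : ∫ t : ℝ, A * Real.exp (μ * c ^ 2 - x * c + y ^ 2 / (4 * μ)) *
      Real.exp (-μ * (t + y / (2 * μ)) ^ 2) =
      A * Real.exp (μ * c ^ 2 - x * c + y ^ 2 / (4 * μ)) * √(Real.pi / μ) := by
    rw [integral_const_mul]
    congr 1
    rw [integral_add_right_eq_self (fun t : ℝ => Real.exp (-μ * t ^ 2)), integral_gaussian]
  have h1 := norm_integral_le_of_norm_le hint (Eventually.of_forall hbd)
  rw [hval] at h1
  refine h1.trans ?_
  have hexp : Real.exp (μ * c ^ 2 - x * c + y ^ 2 / (4 * μ)) ≤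
      Real.exp μ * Real.exp 1 * Real.exp (-(Real.pi / 4) * x + y ^ 2 / (4 * μ)) := by
    rw [← Real.exp_add, ← Real.exp_add]
    apply Real.exp_le_exp.2
    have h2 : x * c = Real.pi / 4 * x - 1 := by
      rw [hc]
      field_simp
    have h3 : c ^ 2 ≤ 1 := by
      apply pow_le_one₀ hc0.le
      linarith
    have h4 : μ * c ^ 2 ≤ μ * 1 := mul_le_mul_of_nonneg_left h3 hμ.le
    linarith
  calc A * Real.exp (μ * c ^ 2 - x * c + y ^ 2 / (4 * μ)) * √(Real.pi / μ)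
      ≤ (C₀ * (Real.pi / 4) ^ 3 * x ^ 3) *
        (Real.exp μ * Real.exp 1 * Real.exp (-(Real.pi / 4) * x + y ^ 2 / (4 * μ))) *
          √(Real.pi / μ) := by
        gcongr
    _ = (C₀ * (Real.pi / 4) ^ 3 * Real.exp μ * Real.exp 1 * √(Real.pi / μ)) * x ^ 3 *
        Real.exp (-(Real.pi / 4) * x + y ^ 2 / (4 * μ)) := by ring
    _ ≤ _ := by
        gcongr
        linarith

end Pool.Agent.Helper242.KK
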