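import Pool.Agent.Helper242.RK.RHeq
import Pool.Agent.Helper242.KK.Kern1
import Pool.Agent.Helper242.KK.Strip
import Pool.Agent.Helper242.KK.FTb

set_option autoImplicit false

/-!
# The kernel of the Ki-Kim problem in terms of the Riemann kernel of `RK`
-/

namespace Pool.Agent.Helper242.KK

open Complex MeasureTheory Filter Topology

/-- The kernel of the problem. -/
noncomputable def Ph (t : ℝ) : ℝ := 2 * RK.Phi (t / 2)

/-- The complex extension of the kernel. -/
noncomputable def PhC (t : ℂ) : ℂ := 2 * RK.PhiC (t / 2)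

lemma Ph_even (t : ℝ) : Ph (-t) = Ph t := by
  unfold Ph
  rw [show -t / 2 = -(t / 2) by ring, RK.Phi_even]

lemma Ph_pos (t : ℝ) : 0 < Ph t := by
  have := RK.Phi_pos (t / 2)
  unfold Ph; positivity

lemma continuous_Ph : Continuous Ph := by
  unfold Ph
  exact continuous_const.mul (RK.continuous_Phi.comp (continuous_id.div_const 2))

lemma PhC_ofReal (t : ℝ) : PhC t = Ph t := by
  unfold PhC Ph
  rw [show (t : ℂ) / 2 = ((t / 2 : ℝ) : ℂ) by push_cast; rfl, RK.PhiC_ofReal]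
  push_cast; rfl

lemma Ph_upper : ∃ A : ℝ, 0 < A ∧ ∀ t : ℝ,
    |Ph t| ≤ A * Real.exp (5 * |t| - Real.pi * Real.exp (2 * |t|)) := by
  obtain ⟨A, hA, h⟩ := RK.PhiC_bound le_rfl (by positivity : (0 : ℝ) < Real.pi / 8)
  refine ⟨2 * A, by positivity, fun t => ?_⟩
  have h1 := h ((t / 2 : ℝ) : ℂ) (by simp)
  rw [RK.PhiC_ofReal, norm_real, Real.norm_eq_abs] at h1
  simp only [mul_zero, Real.cos_zero, mul_one, ofReal_re] at h1
  unfold Ph
  rw [abs_mul, abs_of_pos (by norm_num : (0 : ℝ) < 2)]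
  have e1 : |t / 2| = |t| / 2 := by rw [abs_div]; norm_num
  rw [e1] at h1
  have h2 : A * Real.exp (9 * (|t| / 2) - Real.pi * Real.exp (4 * (|t| / 2))) ≤
      A * Real.exp (5 * |t| - Real.pi * Real.exp (2 * |t|)) := by
    refine mul_le_mul_of_nonneg_left (Real.exp_le_exp.2 ?_) hA.le
    rw [show 4 * (|t| / 2) = 2 * |t| by ring]
    have := abs_nonneg t
    linarith
  calc 2 * |RK.Phi (t / 2)| ≤ 2 * (A * Real.exp (5 * |t| - Real.pi * Real.exp (2 * |t|))) := by
        gcongr; exact h1.trans h2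
    _ = _ := by ring

lemma Ph_lower {t : ℝ} (ht : 0 ≤ t) : Real.exp (-Real.pi * Real.exp (2 * t)) ≤ Ph t := by
  have h := RK.Phi_lower (t := t / 2) (by positivity)
  rw [show 4 * (t / 2) = 2 * t by ring] at h
  unfold Ph
  have h2 : Real.exp (-Real.pi * Real.exp (2 * t)) = Real.exp (-(Real.pi * Real.exp (2 * t))) := by
    congr 1; ring
  rw [h2]
  have := Real.exp_pos (-(Real.pi * Real.exp (2 * t)))
  linarith

/-- The kernel with the Gaussian factor. -/
noncomputable def wk (μ t : ℝ) : ℝ := Ph t * Real.exp (-μ * t ^ 2)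

/-- The function `Ξ_{-μ}`. -/
noncomputable def XiM (μ : ℝ) : ℂ → ℂ := FT (wk μ)

lemma wk_even (μ t : ℝ) : wk μ (-t) = wk μ t := by
  unfold wk
  rw [Ph_even]; ring_nf

lemma wk_pos (μ t : ℝ) : 0 < wk μ t := mul_pos (Ph_pos t) (Real.exp_pos _)

lemma continuous_wk (μ : ℝ) : Continuous (wk μ) := by
  unfold wk
  exact continuous_Ph.mul (by fun_prop)

lemma wk_upper {μ : ℝ} (hμ : 0 ≤ μ) : ∃ A : ℝ, 0 < A ∧ ∀ t : ℝ,
    |wk μ t| ≤ A * Real.exp (5 * |t| - Real.pi * Real.exp (2 * |t|)) := by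
  obtain ⟨A, hA, h⟩ := Ph_upper
  refine ⟨A, hA, fun t => ?_⟩
  unfold wk
  rw [abs_mul, abs_of_pos (Real.exp_pos _)]
  have h1 : Real.exp (-μ * t ^ 2) ≤ 1 := by
    rw [Real.exp_le_one_iff]
    nlinarith [mul_nonneg hμ (sq_nonneg t)]
  calc |Ph t| * Real.exp (-μ * t ^ 2) ≤ |Ph t| * 1 := by gcongr
    _ = |Ph t| := mul_one _
    _ ≤ _ := h t

lemma wk_lower {μ t : ℝ} (ht : 0 ≤ t) :
    Real.exp (-Real.pi * Real.exp (2 * t) - μ * t ^ 2) ≤ wk μ t := by
  unfold wk
  rw [show -Real.pi * Real.exp (2 * t) - μ * t ^ 2 =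
    -Real.pi * Real.exp (2 * t) + -μ * t ^ 2 by ring, Real.exp_add]
  exact mul_le_mul_of_nonneg_right (Ph_lower ht) (Real.exp_pos _).le

lemma differentiable_XiM {μ : ℝ} (hμ : 0 ≤ μ) : Differentiable ℂ (XiM μ) := by
  obtain ⟨A, -, h⟩ := wk_upper hμ
  exact differentiable_FT (continuous_wk μ) h

lemma XiM_neg (μ : ℝ) (z : ℂ) : XiM μ (-z) = XiM μ z := FT_neg (wk_even μ) z

lemma XiM_zero_ne {μ : ℝ} (hμ : 0 ≤ μ) : XiM μ 0 ≠ 0 := by
  obtain ⟨A, -, h⟩ := wk_upper hμ
  exact FT_zero_ne (continuous_wk μ) h (wk_pos μ)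

lemma XiM_upper {μ : ℝ} (hμ : 0 ≤ μ) : ∃ C : ℝ, 0 < C ∧ ∀ z : ℂ,
      ‖XiM μ z‖ ≤ Real.exp (|z.im| / 2 * Real.log (2 + |z.im|) + C * (1 + |z.im|)) := by
  obtain ⟨A, -, h⟩ := wk_upper hμ
  exact FT_upper (continuous_wk μ) h

lemma XiM_lower {μ : ℝ} (hμ : 0 ≤ μ) : ∃ C : ℝ, 0 < C ∧ ∀ y : ℝ, 1 ≤ y →
      Real.exp (y / 2 * Real.log y - C * y) ≤ ‖XiM μ (y * I)‖ := by
  obtain ⟨A, -, h⟩ := wk_upper hμ
  exact FT_lower hμ (continuous_wk μ) h (fun t => (wk_pos μ t).le) (wk_even μ)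
    (fun t ht => wk_lower ht)

/-- The main upper bound in the right half plane. -/
lemma XiM_strip {μ : ℝ} (hμ : 0 < μ) : ∃ C : ℝ, 0 < C ∧ ∀ x y : ℝ, 2 ≤ x →
      ‖XiM μ (x + y * I)‖ ≤ C * x ^ 3 * Real.exp (-(Real.pi / 4) * x + y ^ 2 / (4 * μ)) := by
  obtain ⟨C₀, hC₀, hb⟩ := PhiC_strip
  have hmem : ∀ t : ℂ, |t.im| < Real.pi / 4 → t / 2 ∈ RK.S := by
    intro t ht
    simp only [RK.S, Set.mem_ofPred_eq]
    have e : (t / 2).im = t.im / 2 := by simp
    rw [e, abs_div, abs_of_pos (by norm_num : (0 : ℝ) < 2)]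
    linarith
  have h := strip_bound (μ := μ) (C₀ := 2 * C₀) hμ (G := PhC) ?_ ?_
  · obtain ⟨C, hC, h⟩ := h
    refine ⟨C, hC, fun x y hx => ?_⟩
    have h1 := h x y hx
    have e : XiM μ (x + y * I) = ∫ t : ℝ, PhC t * (Real.exp (-μ * t ^ 2) : ℂ) *
        cexp (I * (x + y * I) * t) := by
      unfold XiM FT
      refine integral_congr_ae (Eventually.of_forall fun t => ?_)
      simp only [PhC_ofReal, wk]
      push_cast
      rfl
    rw [e]
    exact h1
  · intro t ht
    unfold PhC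
    have h1 := RK.differentiableAt_PhiC (hmem t ht)
    have h2 : DifferentiableAt ℂ (fun t : ℂ => RK.PhiC (t / 2)) t :=
      DifferentiableAt.comp (f := fun t : ℂ => t / 2) (g := RK.PhiC) t h1
        (differentiableAt_id.div_const 2)
    exact h2.const_mul 2
  · intro t ht
    unfold PhC
    have h1 := hb (t / 2) (hmem t ht)
    have e : 4 * (t / 2).im = 2 * t.im := by simp; ring
    rw [e] at h1
    rw [norm_mul]
    simp only [norm_ofNat]
    calc 2 * ‖RK.PhiC (t / 2)‖ ≤ 2 * (C₀ / Real.cos (2 * t.im) ^ 3) := by gcongr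
      _ = _ := by ring

/-- The transform of the kernel is the Riemann xi function. -/
lemma FT_Ph (s z : ℂ) (hs : s = 1 / 2 + I * z) (h0 : s ≠ 0) (h1 : s ≠ 1) :
    FT Ph z = 1 / 2 * s * (s - 1) * completedRiemannZeta s := by
  have e1 : FT Ph z = 8 * RK.F 1 (2 * z) := by
    obtain ⟨A, -, hA⟩ := Ph_upper
    have hi := fun z => integrable_FT continuous_Ph hA z
    set G : ℝ → ℂ := fun t => (Ph t : ℂ) * Complex.cos (z * t) with hG
    have hGi : Integrable G := by
      have h := ((hi z).add (hi (-z))).div_const 2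
      refine h.congr (Eventually.of_forall fun t => ?_)
      simp only [Pi.add_apply, hG, Complex.cos]
      rw [show I * z * t = z * t * I by ring, show I * -z * t = -(z * t) * I by ring]
      ring
    have a1 : FT Ph z = ∫ t : ℝ, G t := by
      have h1 : FT Ph z = (FT Ph z + FT Ph (-z)) / 2 := by
        rw [FT_neg Ph_even]; ring
      rw [h1]
      unfold FT
      rw [← integral_add (hi z) (hi (-z)), ← integral_div]
      refine integral_congr_ae (Eventually.of_forall fun t => ?_)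
      simp only [hG, Complex.cos]
      rw [show I * z * t = z * t * I by ring, show I * -z * t = -(z * t) * I by ring]
      ring
    have hGe : ∀ t, G (-t) = G t := by
      intro t
      simp only [hG, Ph_even]
      push_cast
      rw [mul_neg, Complex.cos_neg]
    have a2 : ∫ t : ℝ, G t = 2 * ∫ t in Set.Ioi (0 : ℝ), G t := by
      rw [← intervalIntegral.integral_Iic_add_Ioi (b := 0) hGi.integrableOn hGi.integrableOn]
      have := integral_comp_neg_Ioi (0 : ℝ) G
      rw [neg_zero] at this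
      rw [← this]
      simp only [hGe]
      ring
    have a3 : ∫ t in Set.Ioi (0 : ℝ), G t = 2 * ∫ u in Set.Ioi (0 : ℝ), G (2 * u) := by
      have := integral_comp_mul_left_Ioi G (0 : ℝ) (b := 2) (by norm_num)
      rw [mul_zero] at this
      rw [this]
      simp
    rw [a1, a2, a3]
    unfold RK.F
    rw [← integral_const_mul, ← integral_const_mul, ← integral_const_mul]
    refine setIntegral_congr_fun measurableSet_Ioi fun u _ => ?_
    simp only [hG, Ph, Real.rpow_one]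
    rw [show 2 * u / 2 = u by ring]
    push_cast
    rw [show z * (2 * (u : ℂ)) = 2 * z * u by ring]
    ring
  have e2 := RK.F_one (2 * z)
  have e3 : (1 - I * (2 * z)) / 2 = 1 - s := by rw [hs]; ring
  rw [e3, completedRiemannZeta₀_one_sub] at e2
  have e4 : ((1 : ℕ) : ℝ) = 1 := by norm_num
  rw [e4] at e2
  rw [e1, completedRiemannZeta_eq]
  have h1' : (1 - s) ≠ 0 := sub_ne_zero.2 (Ne.symm h1)
  field_simp
  linear_combination (1 - s) * e2

end Pool.Agent.Helper242.KK
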