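import Pool.Agent.Helper242.KK.ZC
import Pool.Agent.Helper242.KK.Even

set_option autoImplicit false

namespace Pool.Agent.Helper242.KK

open Complex MeasureTheory Filter Topology Metric

/-- the divisor on a closed disc -/
noncomputable def many_zeros_D (f : ℂ → ℂ) (R : ℝ) (u : ℂ) : ℝ :=
  (MeromorphicOn.divisor f (closedBall 0 R) u : ℝ)

noncomputable def many_zeros_N (f : ℂ → ℂ) (R : ℝ) : ℝ := ∑ᶠ u, many_zeros_D f R u

noncomputable def many_zeros_T (f : ℂ → ℂ) (R : ℝ) : ℝ :=
  ∑ᶠ u, many_zeros_D f R u * Real.log (1 + R ^ 2 / ‖u‖ ^ 2)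

theorem many_zeros_an {f : ℂ → ℂ} (hf : Differentiable ℂ f) (S : Set ℂ) : AnalyticOnNhd ℂ f S :=
  fun z _ => hf.analyticAt z

theorem many_zeros_D_nonneg {f : ℂ → ℂ} (hf : Differentiable ℂ f) (R : ℝ) (u : ℂ) :
    0 ≤ many_zeros_D f R u := by
  unfold many_zeros_D
  have h := MeromorphicOn.AnalyticOnNhd.divisor_nonneg (many_zeros_an hf (closedBall 0 R)) u
  have h' : (0 : ℤ) ≤ MeromorphicOn.divisor f (closedBall 0 R) u := h
  exact_mod_cast h'

theorem many_zeros_D_out {f : ℂ → ℂ} {R : ℝ} {u : ℂ} (hu : R < ‖u‖) :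
    many_zeros_D f R u = 0 := by
  unfold many_zeros_D
  have : u ∉ closedBall (0 : ℂ) R := by
    rw [mem_closedBall_zero_iff]; exact not_le.2 hu
  rw [Function.locallyFinsuppWithin.apply_eq_zero_of_notMem _ this]
  simp

theorem many_zeros_D_eq {f : ℂ → ℂ} (hf : Differentiable ℂ f) {R R' : ℝ} (hR : R ≤ R') {u : ℂ}
    (hu : ‖u‖ ≤ R) : many_zeros_D f R u = many_zeros_D f R' u := by
  unfold many_zeros_D
  rw [MeromorphicOn.divisor_apply (many_zeros_an hf _).meromorphicOn
      (mem_closedBall_zero_iff.2 hu),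
    MeromorphicOn.divisor_apply (many_zeros_an hf _).meromorphicOn
      (mem_closedBall_zero_iff.2 (hu.trans hR))]

theorem many_zeros_fin (f : ℂ → ℂ) (R : ℝ) : (Function.support (many_zeros_D f R)).Finite := by
  have h := (MeromorphicOn.divisor f (closedBall (0 : ℂ) R)).finiteSupport (isCompact_closedBall 0 R)
  refine h.subset ?_
  intro u hu
  rw [Function.mem_support] at hu ⊢
  intro h0
  apply hu
  unfold many_zeros_D
  rw [h0]; simp

theorem many_zeros_sum (f : ℂ → ℂ) (R : ℝ) (g : ℂ → ℝ) (s : Finset ℂ)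
    (hs : Function.support (many_zeros_D f R) ⊆ s) :
    ∑ᶠ u, many_zeros_D f R u * g u = ∑ u ∈ s, many_zeros_D f R u * g u := by
  apply finsum_eq_sum_of_support_subset
  intro u hu
  apply hs
  rw [Function.mem_support] at hu ⊢
  intro h0
  apply hu
  rw [h0, zero_mul]

theorem many_zeros_log4 : Real.log 4 ≤ 1.4 := by
  have h : Real.log 4 = 2 * Real.log 2 := by
    rw [show (4 : ℝ) = 2 ^ 2 by norm_num, Real.log_pow]; norm_num
  rw [h]
  have := Real.log_two_lt_d9
  linarith

/-- one doubling step -/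
theorem many_zeros_step {f : ℂ → ℂ} (hf : Differentiable ℂ f) {R : ℝ} (hR : 0 < R) :
    many_zeros_T f (2 * R) ≤ many_zeros_T f R + 3 * many_zeros_N f (2 * R) := by
  classical
  set s := (many_zeros_fin f (2 * R)).toFinset with hs
  have hs1 : Function.support (many_zeros_D f (2 * R)) ⊆ s := by rw [hs]; simp
  have hs2 : Function.support (many_zeros_D f R) ⊆ s := by
    intro u hu
    apply hs1
    rw [Function.mem_support] at hu ⊢
    by_cases h : ‖u‖ ≤ R
    · rwa [← many_zeros_D_eq hf (by linarith : R ≤ 2 * R) h]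
    · exact absurd (many_zeros_D_out (not_le.1 h)) hu
  have hN : many_zeros_N f (2 * R) = ∑ u ∈ s, many_zeros_D f (2 * R) u := by
    unfold many_zeros_N
    exact finsum_eq_sum_of_support_subset _ hs1
  unfold many_zeros_T
  rw [many_zeros_sum f (2 * R) _ s hs1, many_zeros_sum f R _ s hs2, hN, Finset.mul_sum,
    ← Finset.sum_add_distrib]
  apply Finset.sum_le_sum
  intro u _
  have hd := many_zeros_D_nonneg hf (2 * R) u
  have h4 := many_zeros_log4
  have h4' : 0 ≤ Real.log 4 := Real.log_nonneg (by norm_num)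
  by_cases h : ‖u‖ ≤ R
  · rw [many_zeros_D_eq hf (by linarith : R ≤ 2 * R) h]
    have hx : 0 ≤ R ^ 2 / ‖u‖ ^ 2 := by positivity
    have key : Real.log (1 + (2 * R) ^ 2 / ‖u‖ ^ 2) ≤ Real.log (1 + R ^ 2 / ‖u‖ ^ 2) + 3 := by
      have e : (2 * R) ^ 2 / ‖u‖ ^ 2 = 4 * (R ^ 2 / ‖u‖ ^ 2) := by ring
      rw [e]
      calc Real.log (1 + 4 * (R ^ 2 / ‖u‖ ^ 2)) ≤ Real.log (4 * (1 + R ^ 2 / ‖u‖ ^ 2)) :=
            Real.log_le_log (by positivity) (by linarith)
        _ = Real.log 4 + Real.log (1 + R ^ 2 / ‖u‖ ^ 2) :=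
            Real.log_mul (by norm_num) (by positivity)
        _ ≤ _ := by linarith
    nlinarith
  · rw [many_zeros_D_out (not_le.1 h), zero_mul, zero_add]
    have hu : R < ‖u‖ := not_le.1 h
    have key : Real.log (1 + (2 * R) ^ 2 / ‖u‖ ^ 2) ≤ 3 := by
      have hu0 : 0 < ‖u‖ := by linarith
      have e : (2 * R) ^ 2 / ‖u‖ ^ 2 ≤ 4 := by
        rw [div_le_iff₀ (by positivity)]
        nlinarith
      calc Real.log (1 + (2 * R) ^ 2 / ‖u‖ ^ 2) ≤ Real.log (4 * 4) :=
            Real.log_le_log (by positivity) (by linarith)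
        _ = Real.log 4 + Real.log 4 := Real.log_mul (by norm_num) (by norm_num)
        _ ≤ 3 := by linarith
    nlinarith

/-- iterate -/
theorem many_zeros_iter {f : ℂ → ℂ} (hf : Differentiable ℂ f) {r ε : ℝ} (hr : 1 ≤ r) (hε : 0 ≤ ε)
    (hN : ∀ R : ℝ, r ≤ R → many_zeros_N f R ≤ ε * R * Real.log R) (k : ℕ) :
    many_zeros_T f (2 ^ k * r) ≤ many_zeros_T f r + 6 * ε * (2 ^ k * r) * Real.log (2 ^ k * r) := by
  induction k with
  | zero =>
    have : 0 ≤ Real.log r := Real.log_nonneg hr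
    have h2 : 0 ≤ 6 * ε * r * Real.log r := by positivity
    simpa using h2
  | succ k ih =>
    have hk : (1 : ℝ) ≤ 2 ^ k := one_le_pow₀ (by norm_num)
    have hkr : 1 ≤ (2 : ℝ) ^ k * r := by nlinarith
    have e : (2 : ℝ) ^ (k + 1) * r = 2 * (2 ^ k * r) := by ring
    rw [e]
    have h1 := many_zeros_step hf (R := 2 ^ k * r) (by linarith)
    have h2 := hN (2 * (2 ^ k * r)) (by nlinarith)
    have h3 : Real.log (2 ^ k * r) ≤ Real.log (2 * (2 ^ k * r)) :=
      Real.log_le_log (by linarith) (by linarith)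
    have h4 : 6 * ε * (2 ^ k * r) * Real.log (2 ^ k * r) ≤
        6 * ε * (2 ^ k * r) * Real.log (2 * (2 ^ k * r)) :=
      mul_le_mul_of_nonneg_left h3 (by positivity)
    nlinarith

theorem many_zeros_arith (R L t A c : ℝ) (hR : 16 ≤ R) (hL : 0 ≤ L) (ht : 0 ≤ t) (hA : 0 ≤ A)
    (hc : 0 ≤ c) (h : R * L / 32 - 3 * R / 32 - c * R / 16 ≤
        t + 6 * (1 / 10000) * R * L + A + 2 / 255 * (R * L + 2 * R + 3 * c * R + A)) :
    1 / 50 * L ≤ t + 2 * A + 4 * c + 4 := by
  have hRpos : 0 < R := by linarith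
  refine le_of_mul_le_mul_left (a := R) ?_ hRpos
  have h1 : 0 ≤ (R - 1) * t := mul_nonneg (by linarith) ht
  have h2 : 0 ≤ (R - 1) * A := mul_nonneg (by linarith) hA
  have h3 : 0 ≤ R * L := mul_nonneg hRpos.le hL
  have h4 : 0 ≤ R * c := mul_nonneg hRpos.le hc
  linarith

/-- TARGET -/
theorem many_zeros {f : ℂ → ℂ} {C : ℝ} (hf : Differentiable ℂ f) (he : ∀ z, f (-z) = f z)
    (h0 : f 0 ≠ 0)
    (hup : ∀ z : ℂ, ‖f z‖ ≤ Real.exp (|z.im| / 2 * Real.log (2 + |z.im|) + C * (1 + |z.im|)))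
    (hlow : ∀ y : ℝ, 1 ≤ y → Real.exp (y / 2 * Real.log y - C * y) ≤ ‖f (y * I)‖) :
    ¬ ∃ R₁ : ℝ, ∀ R : ℝ, R₁ ≤ R →
      zc f (closedBall 0 R) ≤ ENNReal.ofReal (1 / 10000 * R * Real.log R) := by
  rintro ⟨R₁, hR₁⟩
  set r : ℝ := max R₁ 16 with hr
  have hr16 : 16 ≤ r := le_max_right _ _
  have hN : ∀ R : ℝ, r ≤ R → many_zeros_N f R ≤ 1 / 10000 * R * Real.log R := by
    intro R hR
    have hR16 : 16 ≤ R := hr16.trans hR
    have h1 := hR₁ R ((le_max_left _ _).trans hR)
    rw [zc_closedBall hf ⟨0, h0⟩ 0 (by linarith : 0 < R)] at h1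
    have hlog : 0 ≤ Real.log R := Real.log_nonneg (by linarith)
    rw [ENNReal.ofReal_le_ofReal_iff (by positivity)] at h1
    exact h1
  have hT := many_zeros_iter hf (r := r) (ε := 1 / 10000) (by linarith) (by norm_num) hN
  -- main inequality for R = 2 ^ k * r
  set A : ℝ := |Real.log ‖f 0‖| with hA
  have hA1 : Real.log ‖f 0‖ ≤ A := le_abs_self _
  have hA2 : -A ≤ Real.log ‖f 0‖ := neg_abs_le _
  have main : ∀ k : ℕ, 1 / 50 * Real.log (2 ^ k * r) ≤
      |many_zeros_T f r| + 2 * A + 4 * |C| + 4 := by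
    intro k
    set R : ℝ := 2 ^ k * r with hRdef
    have hk : (1 : ℝ) ≤ 2 ^ k := one_le_pow₀ (by norm_num)
    have hR16 : 16 ≤ R := by rw [hRdef]; nlinarith
    have hlogR : 0 ≤ Real.log R := Real.log_nonneg (by linarith)
    have hTk : many_zeros_T f R ≤ many_zeros_T f r + 6 * (1 / 10000) * R * Real.log R := hT k
    set M : ℝ := R * Real.log (2 + 2 * R) + |C| * (1 + 2 * R) with hM
    have hb : ∀ w ∈ closedBall (0 : ℂ) (2 * R), ‖f w‖ ≤ Real.exp M := by
      intro w hw
      refine (hup w).trans (Real.exp_le_exp.2 ?_)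
      rw [mem_closedBall_zero_iff] at hw
      have him : |w.im| ≤ 2 * R := (Complex.abs_im_le_norm w).trans hw
      have h1 : |w.im| / 2 * Real.log (2 + |w.im|) ≤ R * Real.log (2 + 2 * R) := by
        apply mul_le_mul
        · linarith
        · exact Real.log_le_log (by positivity) (by linarith)
        · exact Real.log_nonneg (by have := abs_nonneg w.im; linarith)
        · linarith
      have h2 : C * (1 + |w.im|) ≤ |C| * (1 + 2 * R) := by
        apply mul_le_mul (le_abs_self C) (by linarith) (by positivity) (abs_nonneg C)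
      rw [hM]; linarith
    have hz : ‖((R / 16 : ℝ) : ℂ) * I‖ = R / 16 := by
      rw [norm_mul, Complex.norm_I, mul_one, Complex.norm_real, Real.norm_of_nonneg (by linarith)]
    have hU := log_norm_le_of_zeros_even hf he (R := R) (M := M) (by linarith) h0 hb
      (z := ((R / 16 : ℝ) : ℂ) * I) (by rw [hz]; linarith)
    rw [hz] at hU
    have hL := hlow (R / 16) (by linarith)
    have hLU := Real.exp_le_exp.1 (hL.trans hU)
    -- the sum over the zeros
    have hS : (∑ᶠ u, (MeromorphicOn.divisor f (closedBall 0 R) u : ℝ) *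
        Real.log (1 + (R / 16) ^ 2 / ‖u‖ ^ 2)) ≤ many_zeros_T f R := by
      classical
      set s := (many_zeros_fin f R).toFinset with hs
      have hs1 : Function.support (many_zeros_D f R) ⊆ s := by rw [hs]; simp
      have e1 := many_zeros_sum f R (fun u => Real.log (1 + (R / 16) ^ 2 / ‖u‖ ^ 2)) s hs1
      have e2 := many_zeros_sum f R (fun u => Real.log (1 + R ^ 2 / ‖u‖ ^ 2)) s hs1
      unfold many_zeros_T
      rw [e2]
      refine le_trans (le_of_eq e1) ?_
      apply Finset.sum_le_sum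
      intro u _
      apply mul_le_mul_of_nonneg_left _ (many_zeros_D_nonneg hf R u)
      apply Real.log_le_log (by positivity)
      have : (R / 16) ^ 2 / ‖u‖ ^ 2 ≤ R ^ 2 / ‖u‖ ^ 2 := by
        apply div_le_div_of_nonneg_right _ (by positivity)
        nlinarith
      linarith
    have hq : (R / 16) ^ 2 / (R ^ 2 - (R / 16) ^ 2) = 1 / 255 := by
      have : R ≠ 0 := by linarith
      have h2 : R ^ 2 - (R / 16) ^ 2 = 255 * (R / 16) ^ 2 := by ring
      rw [h2]
      field_simp
    have hlast : 2 * (M - Real.log ‖f 0‖) * (R / 16) ^ 2 / (R ^ 2 - (R / 16) ^ 2) =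
        2 / 255 * (M - Real.log ‖f 0‖) := by
      rw [mul_div_assoc, hq]; ring
    rw [hlast] at hLU
    have hlogdiv : Real.log (R / 16) = Real.log R - Real.log 16 :=
      Real.log_div (by linarith) (by norm_num)
    have hlog16 : Real.log 16 ≤ 3 := by
      have e : Real.log 16 = Real.log 4 + Real.log 4 := by
        rw [← Real.log_mul (by norm_num) (by norm_num)]; norm_num
      have := many_zeros_log4
      linarith
    have hlogM : Real.log (2 + 2 * R) ≤ Real.log R + 2 := by
      have h1 : Real.log (2 + 2 * R) ≤ Real.log (4 * R) :=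
        Real.log_le_log (by linarith) (by linarith)
      rw [Real.log_mul (by norm_num) (by linarith)] at h1
      have := many_zeros_log4
      linarith
    rw [hlogdiv] at hLU
    have hCa : C ≤ |C| := le_abs_self C
    have hC0 : 0 ≤ |C| := abs_nonneg C
    have hTa : many_zeros_T f r ≤ |many_zeros_T f r| := le_abs_self _
    have hT0 : 0 ≤ |many_zeros_T f r| := abs_nonneg _
    have hA0 : 0 ≤ A := abs_nonneg _
    -- collect
    have hRpos : 0 < R := by linarith
    have hMle : M ≤ R * Real.log R + 2 * R + 3 * |C| * R := by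
      rw [hM]
      have h1 : R * Real.log (2 + 2 * R) ≤ R * (Real.log R + 2) :=
        mul_le_mul_of_nonneg_left hlogM hRpos.le
      have h2 : |C| * (1 + 2 * R) ≤ |C| * (3 * R) :=
        mul_le_mul_of_nonneg_left (by linarith) hC0
      nlinarith
    have hleft : R * Real.log R / 32 - 3 * R / 32 - |C| * R / 16 ≤
        R / 16 / 2 * (Real.log R - Real.log 16) - C * (R / 16) := by
      have h1 : R * Real.log 16 ≤ R * 3 := mul_le_mul_of_nonneg_left hlog16 hRpos.le
      have h2 : C * R ≤ |C| * R := mul_le_mul_of_nonneg_right hCa hRpos.le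
      nlinarith
    have hfin : R * Real.log R / 32 - 3 * R / 32 - |C| * R / 16 ≤
        |many_zeros_T f r| + 6 * (1 / 10000) * R * Real.log R + A +
          2 / 255 * (R * Real.log R + 2 * R + 3 * |C| * R + A) := by
      clear_value A M R
      linarith
    exact many_zeros_arith R (Real.log R) |many_zeros_T f r| A |C| hR16 hlogR hT0 hA0 hC0 hfin
  -- contradiction
  have hlim : Tendsto (fun k : ℕ => Real.log (2 ^ k * r)) atTop atTop := by
    apply Real.tendsto_log_atTop.comp
    apply Tendsto.atTop_mul_const (by linarith)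
    exact tendsto_pow_atTop_atTop_of_one_lt (by norm_num)
  obtain ⟨k, hk⟩ := (hlim.eventually_gt_atTop
    (50 * (|many_zeros_T f r| + 2 * A + 4 * |C| + 4))).exists
  have := main k
  linarith

end Pool.Agent.Helper242.KK
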