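import Pool.Agent.Helper242.KK.ZC

set_option autoImplicit false

namespace Pool.Agent.Helper242.KK

open Complex MeasureTheory Filter Topology Metric

theorem zc_real_centre {f : ℂ → ℂ} (hf : Differentiable ℂ f) {μ C : ℝ} (hμ : 0 < μ)
    (hb : ∀ x y : ℝ, 2 ≤ x →
      ‖f (x + y * I)‖ ≤ C * x ^ 3 * Real.exp (-(Real.pi / 4) * x + y ^ 2 / (4 * μ))) :
    ∃ C' : ℝ, 0 < C' ∧ ∀ c r R : ℝ, 4 ≤ c → 0 < r → r < R → R ≤ c / 2 → f c ≠ 0 →
      zc f (closedBall (c : ℂ) r) ≤ ENNReal.ofReal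
        ((R ^ 2 / (4 * μ) + C' * Real.log c - Real.log (‖f c‖ * Real.exp (Real.pi / 4 * c))) /
          Real.log (R / r)) := by
  have hC0 : (1 : ℝ) ≤ max 1 C := le_max_left _ _
  have hlC0 : 0 ≤ Real.log (max 1 C) := Real.log_nonneg hC0
  have hl2 : 0 < Real.log 2 := Real.log_pos (by norm_num)
  refine ⟨Real.log (max 1 C) + 3 * Real.log 2 + 3, by positivity, ?_⟩
  intro c r R hc hr hrR hR hfc
  have hR0 : 0 < R := hr.trans hrR
  have hc0 : 0 < c := by linarith
  set a : ℂ := ((Real.pi / 4 : ℝ) : ℂ) with ha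
  have hF : Differentiable ℂ (fun z => f z * cexp (a * z)) := by fun_prop
  have hnorm : ∀ z : ℂ, ‖cexp (a * z)‖ = Real.exp (Real.pi / 4 * z.re) := by
    intro z
    rw [Complex.norm_exp, ha, Complex.re_ofReal_mul]
  have hFc : (fun z => f z * cexp (a * z)) (c : ℂ) ≠ 0 := mul_ne_zero hfc (Complex.exp_ne_zero _)
  set M : ℝ := max 1 C * (2 * c) ^ 3 * Real.exp (R ^ 2 / (4 * μ)) with hM
  have hexp1 : 1 ≤ Real.exp (R ^ 2 / (4 * μ)) := Real.one_le_exp (by positivity)
  have h2c : (1 : ℝ) ≤ (2 * c) ^ 3 := one_le_pow₀ (by linarith)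
  have hM1 : 1 ≤ M := by
    rw [hM]
    have h1 : 1 ≤ max 1 C * (2 * c) ^ 3 := one_le_mul_of_one_le_of_one_le hC0 h2c
    exact one_le_mul_of_one_le_of_one_le h1 hexp1
  have hsph : ∀ z ∈ sphere (c : ℂ) R, ‖(fun z => f z * cexp (a * z)) z‖ ≤ M := by
    intro z hz
    rw [mem_sphere, Complex.dist_eq] at hz
    have hre : |z.re - c| ≤ R := by
      have := Complex.abs_re_le_norm (z - c)
      rw [hz] at this
      simpa using this
    have him : |z.im| ≤ R := by
      have := Complex.abs_im_le_norm (z - c)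
      rw [hz] at this
      simpa using this
    have hre' := abs_le.mp hre
    have hx2 : 2 ≤ z.re := by linarith [hre'.1]
    have hx3 : z.re ≤ 2 * c := by linarith [hre'.2]
    have hb' := hb z.re z.im hx2
    rw [Complex.re_add_im] at hb'
    show ‖f z * cexp (a * z)‖ ≤ M
    rw [norm_mul, hnorm]
    have himsq : z.im ^ 2 ≤ R ^ 2 := by
      rw [← sq_abs z.im]
      exact pow_le_pow_left₀ (abs_nonneg _) him 2
    calc ‖f z‖ * Real.exp (Real.pi / 4 * z.re)
        ≤ (C * z.re ^ 3 * Real.exp (-(Real.pi / 4) * z.re + z.im ^ 2 / (4 * μ))) *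
          Real.exp (Real.pi / 4 * z.re) := by gcongr
      _ = C * z.re ^ 3 * Real.exp (z.im ^ 2 / (4 * μ)) := by
          rw [mul_assoc, ← Real.exp_add]
          congr 2
          ring
      _ ≤ max 1 C * (2 * c) ^ 3 * Real.exp (R ^ 2 / (4 * μ)) := by
          have h1 : C ≤ max 1 C := le_max_right _ _
          have h2 : z.re ^ 3 ≤ (2 * c) ^ 3 := pow_le_pow_left₀ (by linarith) hx3 3
          have h3 : Real.exp (z.im ^ 2 / (4 * μ)) ≤ Real.exp (R ^ 2 / (4 * μ)) := by
            apply Real.exp_le_exp.mpr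
            gcongr
          have h4 : 0 ≤ z.re ^ 3 := by positivity
          have h5 : C * z.re ^ 3 ≤ max 1 C * (2 * c) ^ 3 := by
            calc C * z.re ^ 3 ≤ max 1 C * z.re ^ 3 := mul_le_mul_of_nonneg_right h1 h4
              _ ≤ max 1 C * (2 * c) ^ 3 := mul_le_mul_of_nonneg_left h2 (by linarith)
          calc C * z.re ^ 3 * Real.exp (z.im ^ 2 / (4 * μ))
              ≤ max 1 C * (2 * c) ^ 3 * Real.exp (z.im ^ 2 / (4 * μ)) :=
                mul_le_mul_of_nonneg_right h5 (Real.exp_pos _).le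
            _ ≤ _ := mul_le_mul_of_nonneg_left h3 (by positivity)
  have key := zc_ball_le hF hr hrR hM1 hFc hsph
  rw [zc_mul_exp hf] at key
  refine key.trans (ENNReal.ofReal_le_ofReal ?_)
  have hlog : 0 < Real.log (R / r) := Real.log_pos (by rw [one_lt_div hr]; exact hrR)
  apply div_le_div_of_nonneg_right _ hlog.le
  have hnFc : ‖(fun z => f z * cexp (a * z)) (c : ℂ)‖ = ‖f c‖ * Real.exp (Real.pi / 4 * c) := by
    show ‖f c * cexp (a * c)‖ = _
    rw [norm_mul, hnorm, Complex.ofReal_re]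
  have hpos : 0 < ‖f c‖ * Real.exp (Real.pi / 4 * c) :=
    mul_pos (norm_pos_iff.mpr hfc) (Real.exp_pos _)
  rw [hnFc, Real.log_div (by positivity) hpos.ne', hM, Real.log_mul (by positivity) (by positivity),
    Real.log_exp, Real.log_mul (by positivity) (by positivity), Real.log_pow,
    Real.log_mul (by norm_num) hc0.ne']
  have hlc : 1 ≤ Real.log c := by
    rw [Real.le_log_iff_exp_le hc0]
    linarith [Real.exp_one_lt_d9]
  push_cast
  nlinarith [mul_nonneg hlC0 (sub_nonneg.mpr hlc), mul_nonneg hl2.le (sub_nonneg.mpr hlc)]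

end Pool.Agent.Helper242.KK
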