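import Pool.Agent.Helper242.KK.Defs

set_option autoImplicit false

namespace Pool.Agent.Helper242.KK

open Complex MeasureTheory Filter Topology

/-- TARGET -/
theorem quad_sum_le (v : ℕ → ℝ) (hv : ∀ n, 0 ≤ v n) (N : ℕ) {h : ℝ} (hh : 0 < h) :
    ∑ p ∈ quad N, v p.1.1 * v p.1.2 * (v p.2.1 * v p.2.2) * sb h p.1.1 p.1.2 ^ 2 ≤
      ∑ a ∈ Finset.Icc 1 N, ∑ b ∈ (Finset.Icc 1 N).erase a,
        sb h a b ^ 2 * (Smul v N a * Smul v N b) := by
  classical
  set U := Finset.Icc 1 N with hU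
  -- `q = (a, (b, (j, k)))`
  let f : ℕ → ℕ → ℝ := fun a j => if j * a ≤ N then v (j * a) else 0
  have hf0 : ∀ a j, 0 ≤ f a j := by
    intro a j
    simp only [f]
    split_ifs
    · exact hv _
    · exact le_rfl
  let F : ℕ × ℕ × ℕ × ℕ → ℝ := fun q =>
    (if q.1 = q.2.1 then 0 else sb h q.1 q.2.1 ^ 2) *
      ((f q.1 q.2.2.1 * f q.2.1 q.2.2.1) * (f q.1 q.2.2.2 * f q.2.1 q.2.2.2))
  have hF0 : ∀ q, 0 ≤ F q := by
    intro q
    refine mul_nonneg ?_ (mul_nonneg (mul_nonneg (hf0 _ _) (hf0 _ _))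
      (mul_nonneg (hf0 _ _) (hf0 _ _)))
    split_ifs
    · exact le_rfl
    · exact sq_nonneg _
  have key : ∀ p ∈ quad N, ∃ q : ℕ × ℕ × ℕ × ℕ, q ∈ U ×ˢ U ×ˢ U ×ˢ U ∧
      p = ((q.2.2.1 * q.1, q.2.2.1 * q.2.1), (q.2.2.2 * q.1, q.2.2.2 * q.2.1)) ∧
      v p.1.1 * v p.1.2 * (v p.2.1 * v p.2.2) * sb h p.1.1 p.1.2 ^ 2 = F q := by
    rintro ⟨⟨m, n⟩, ⟨m', n'⟩⟩ hp
    simp only [quad, Finset.mem_filter, Finset.mem_product, Finset.mem_Icc] at hp
    obtain ⟨⟨⟨⟨hm1, hmN⟩, ⟨hn1, hnN⟩⟩, ⟨⟨hm1', hmN'⟩, ⟨hn1', hnN'⟩⟩⟩, hne, heq⟩ := hp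
    obtain ⟨a, b, hcop, hma, hnb⟩ := Nat.exists_coprime m n
    set g := Nat.gcd m n with hg
    have hg0 : 0 < g := Nat.gcd_pos_of_pos_left _ hm1
    have ha0 : 0 < a := by
      rcases Nat.eq_zero_or_pos a with h0 | h0
      · rw [h0] at hma; omega
      · exact h0
    have hb0 : 0 < b := by
      rcases Nat.eq_zero_or_pos b with h0 | h0
      · rw [h0] at hnb; omega
      · exact h0
    have heq2 : a * n' = m' * b := by
      have h1 : g * (a * n') = g * (m' * b) := by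
        calc g * (a * n') = a * g * n' := by ring
          _ = m * n' := by rw [← hma]
          _ = m' * n := heq
          _ = m' * (b * g) := by rw [← hnb]
          _ = g * (m' * b) := by ring
      exact Nat.eq_of_mul_eq_mul_left hg0 h1
    have hdvd : a ∣ m' := by
      have h1 : a ∣ m' * b := ⟨n', heq2.symm⟩
      exact hcop.dvd_of_dvd_mul_right h1
    obtain ⟨k, hk⟩ := hdvd
    have hn'k : n' = k * b := by
      have h1 : a * n' = a * (k * b) := by rw [heq2, hk]; ring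
      exact Nat.eq_of_mul_eq_mul_left ha0 h1
    have hk0 : 0 < k := by
      rcases Nat.eq_zero_or_pos k with h0 | h0
      · rw [h0] at hk; omega
      · exact h0
    have hm'k : m' = k * a := by rw [hk]; ring
    have hmg : m = g * a := by rw [hma]; ring
    have hng : n = g * b := by rw [hnb]; ring
    have e1 : g ≤ N := (Nat.le_mul_of_pos_right g ha0).trans (hmg ▸ hmN)
    have e2 : a ≤ N := (Nat.le_mul_of_pos_left a hg0).trans (hmg ▸ hmN)
    have e3 : b ≤ N := (Nat.le_mul_of_pos_left b hg0).trans (hng ▸ hnN)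
    have e4 : k ≤ N := (Nat.le_mul_of_pos_right k ha0).trans (hm'k ▸ hmN')
    have hab : a ≠ b := by
      intro hab
      apply hne
      rw [hmg, hng, hab]
    refine ⟨(a, b, g, k), ?_, ?_, ?_⟩
    · simp only [hU, Finset.mem_product, Finset.mem_Icc]
      exact ⟨⟨ha0, e2⟩, ⟨hb0, e3⟩, ⟨hg0, e1⟩, ⟨hk0, e4⟩⟩
    · simp only [Prod.mk.injEq]
      exact ⟨⟨hmg, hng⟩, ⟨hm'k, hn'k⟩⟩
    · have hga : g * a ≤ N := hmg ▸ hmN
      have hgb : g * b ≤ N := hng ▸ hnN
      have hka : k * a ≤ N := hm'k ▸ hmN'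
      have hkb : k * b ≤ N := hn'k ▸ hnN'
      have hsb : sb h m n = sb h a b := by
        have hg' : (g : ℝ) ≠ 0 := by positivity
        have ha' : (a : ℝ) ≠ 0 := by positivity
        have hb' : (b : ℝ) ≠ 0 := by positivity
        unfold sb
        have h1 : Real.log (m : ℝ) - Real.log (n : ℝ) = Real.log (a : ℝ) - Real.log (b : ℝ) := by
          rw [hmg, hng, Nat.cast_mul, Nat.cast_mul, Real.log_mul hg' ha', Real.log_mul hg' hb']
          ring
        rw [h1]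
      simp only [F, f, if_neg hab, if_pos hga, if_pos hgb, if_pos hka, if_pos hkb]
      rw [hsb, ← hmg, ← hng, ← hm'k, ← hn'k]
      ring
  choose! φ hφ using key
  have hinj : Set.InjOn φ (quad N : Set _) := by
    intro p hp p' hp' hpp
    rw [(hφ p hp).2.1, (hφ p' hp').2.1, hpp]
  have step1 : ∑ p ∈ quad N, v p.1.1 * v p.1.2 * (v p.2.1 * v p.2.2) * sb h p.1.1 p.1.2 ^ 2 =
      ∑ q ∈ (quad N).image φ, F q := by
    rw [Finset.sum_image hinj]
    exact Finset.sum_congr rfl (fun p hp => (hφ p hp).2.2)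
  rw [step1]
  have step2 : ∑ q ∈ (quad N).image φ, F q ≤ ∑ q ∈ U ×ˢ U ×ˢ U ×ˢ U, F q := by
    refine Finset.sum_le_sum_of_subset_of_nonneg ?_ (fun q _ _ => hF0 q)
    intro q hq
    obtain ⟨p, hp, rfl⟩ := Finset.mem_image.1 hq
    exact (hφ p hp).1
  refine step2.trans ?_
  have step3 : ∑ q ∈ U ×ˢ U ×ˢ U ×ˢ U, F q = ∑ a ∈ U, ∑ b ∈ U,
      (if a = b then 0 else sb h a b ^ 2) * (∑ j ∈ U, f a j * f b j) ^ 2 := by
    rw [Finset.sum_product]
    refine Finset.sum_congr rfl (fun a _ => ?_)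
    rw [Finset.sum_product]
    refine Finset.sum_congr rfl (fun b _ => ?_)
    rw [Finset.sum_product, sq (∑ j ∈ U, f a j * f b j), Finset.sum_mul_sum, Finset.mul_sum]
    refine Finset.sum_congr rfl (fun j _ => ?_)
    rw [Finset.mul_sum]
  rw [step3]
  refine Finset.sum_le_sum (fun a ha => ?_)
  have haU := Finset.mem_Icc.1 ha
  have hS : ∀ a ∈ U, ∑ j ∈ U, f a j ^ 2 = Smul v N a := by
    intro a ha
    have ha1 := (Finset.mem_Icc.1 ha).1
    unfold Smul
    have hsub : Finset.Icc 1 (N / a) ⊆ U := by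
      intro j hj
      rw [Finset.mem_Icc] at hj
      exact Finset.mem_Icc.2 ⟨hj.1, hj.2.trans (Nat.div_le_self _ _)⟩
    rw [← Finset.sum_subset hsub]
    · refine Finset.sum_congr rfl (fun j hj => ?_)
      rw [Finset.mem_Icc] at hj
      have h1 : j * a ≤ N := (Nat.le_div_iff_mul_le ha1).1 hj.2
      simp only [f, if_pos h1]
    · intro j hj hj'
      have h1 : ¬ j * a ≤ N := by
        intro h1
        apply hj'
        exact Finset.mem_Icc.2 ⟨(Finset.mem_Icc.1 hj).1, (Nat.le_div_iff_mul_le ha1).2 h1⟩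
      simp only [f, if_neg h1]
      norm_num
  calc ∑ b ∈ U, (if a = b then 0 else sb h a b ^ 2) * (∑ j ∈ U, f a j * f b j) ^ 2
      = ∑ b ∈ U.erase a, (if a = b then 0 else sb h a b ^ 2) * (∑ j ∈ U, f a j * f b j) ^ 2 := by
        rw [← Finset.add_sum_erase U _ ha]
        simp
    _ ≤ ∑ b ∈ U.erase a, sb h a b ^ 2 * (Smul v N a * Smul v N b) := by
        refine Finset.sum_le_sum (fun b hb => ?_)
        rw [Finset.mem_erase] at hb
        rw [if_neg (fun h => hb.1 h.symm)]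
        refine mul_le_mul_of_nonneg_left ?_ (sq_nonneg _)
        rw [← hS a ha, ← hS b hb.2]
        exact Finset.sum_mul_sq_le_sq_mul_sq U (f a) (f b)

end Pool.Agent.Helper242.KK
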