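import Pool.Agent.Helper242.KK.Defs

set_option autoImplicit false

namespace Pool.Agent.Helper242.KK

open Complex MeasureTheory Filter Topology

theorem sum_Icc_shift (f : ℕ → ℝ) (J : ℕ) :
    ∑ j ∈ Finset.Icc 1 J, f j = ∑ i ∈ Finset.range J, f (i + 1) := by
  induction J with
  | zero => simp
  | succ J ih => rw [Finset.sum_Icc_succ_top (by omega), ih, Finset.sum_range_succ]

theorem sum_blocks (φ : ℕ → ℝ) (a J : ℕ) :
    ∑ i ∈ Finset.range J, ∑ n ∈ Finset.Ioc (i * a) ((i + 1) * a), φ n =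
      ∑ n ∈ Finset.Ioc 0 (J * a), φ n := by
  induction J with
  | zero => simp
  | succ J ih =>
    rw [Finset.sum_range_succ, ih, Finset.sum_Ioc_consecutive φ (Nat.zero_le _)
      (Nat.mul_le_mul_right a (Nat.le_succ J))]

/-- TARGET 1 -/
theorem unimodal_sum {φ : ℕ → ℝ} {τ M : ℝ} {N a : ℕ} (ha : 1 ≤ a) (h0 : ∀ n, 0 ≤ φ n)
    (hup : ∀ m n : ℕ, 1 ≤ m → m ≤ n → (n : ℝ) ≤ τ → φ m ≤ φ n)
    (hdown : ∀ m n : ℕ, τ ≤ m → m ≤ n → φ n ≤ φ m) (hM : ∀ n, 1 ≤ n → φ n ≤ M) (hτ : τ ≤ N) :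
    (a : ℝ) * ∑ j ∈ Finset.Icc 1 (N / a), φ (j * a) ≤ ∑ n ∈ Finset.Icc 1 N, φ n + 3 * a * M := by
  classical
  obtain ⟨J, hJdef⟩ : ∃ J, J = N / a := ⟨_, rfl⟩
  have hJ : J * a ≤ N := by rw [hJdef]; exact Nat.div_mul_le_self N a
  have hJ' : ∀ i, (i + 1) * a ≤ N → i < J := by
    intro i hi
    rw [hJdef]
    exact (Nat.le_div_iff_mul_le (by omega)).2 hi
  rw [← hJdef]
  have ha0 : (0 : ℝ) ≤ a := Nat.cast_nonneg a
  have hM0 : 0 ≤ M := (h0 1).trans (hM 1 le_rfl)
  obtain ⟨T, hTdef⟩ : ∃ T : ℕ → ℝ, T = fun i => ∑ n ∈ Finset.Ioc (i * a) ((i + 1) * a), φ n :=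
    ⟨_, rfl⟩
  have hT0 : ∀ i, 0 ≤ T i := fun i => by
    rw [hTdef]
    exact Finset.sum_nonneg fun n _ => h0 n
  have hcard : ∀ i, (Finset.Ioc (i * a) ((i + 1) * a)).card = a := by
    intro i
    rw [Nat.card_Ioc, add_mul, one_mul, Nat.add_sub_cancel_left]
  have hlow : ∀ i (c : ℝ), (∀ n, i * a < n → n ≤ (i + 1) * a → c ≤ φ n) → (a : ℝ) * c ≤ T i := by
    intro i c hc
    rw [hTdef]
    have h1 := Finset.card_nsmul_le_sum (Finset.Ioc (i * a) ((i + 1) * a)) φ c (fun n hn => by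
      rw [Finset.mem_Ioc] at hn
      exact hc n hn.1 hn.2)
    rw [hcard, nsmul_eq_mul] at h1
    exact h1
  let A : Finset ℕ := (Finset.range J).filter (fun i => (((i + 2) * a : ℕ) : ℝ) ≤ τ)
  let B : Finset ℕ := (Finset.range J).filter (fun i => τ ≤ ((i * a : ℕ) : ℝ))
  let C : Finset ℕ := (Finset.range J).filter (fun i => ¬ (((i + 2) * a : ℕ) : ℝ) ≤ τ ∧
    ¬ τ ≤ ((i * a : ℕ) : ℝ))
  have hpt : ∀ i ∈ Finset.range J, (a : ℝ) * φ ((i + 1) * a) ≤
      (if (((i + 2) * a : ℕ) : ℝ) ≤ τ then T (i + 1) else 0) +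
      (if τ ≤ ((i * a : ℕ) : ℝ) then T i else 0) +
      (if ¬ (((i + 2) * a : ℕ) : ℝ) ≤ τ ∧ ¬ τ ≤ ((i * a : ℕ) : ℝ) then (a : ℝ) * M else 0) := by
    intro i hi
    by_cases hA : (((i + 2) * a : ℕ) : ℝ) ≤ τ
    · have h3 : (if ¬ (((i + 2) * a : ℕ) : ℝ) ≤ τ ∧ ¬ τ ≤ ((i * a : ℕ) : ℝ) then
          (a : ℝ) * M else 0) = 0 := if_neg (fun h => h.1 hA)
      rw [if_pos hA, h3, add_zero]
      have h1 : (a : ℝ) * φ ((i + 1) * a) ≤ T (i + 1) := by
        apply hlow
        intro n hn1 hn2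
        apply hup _ _ _ hn1.le
        · refine le_trans ?_ hA
          exact_mod_cast hn2
        · exact Nat.mul_pos (Nat.succ_pos i) (by omega)
      have h2 : 0 ≤ (if τ ≤ ((i * a : ℕ) : ℝ) then T i else 0) := by
        split_ifs
        · exact hT0 i
        · exact le_refl _
      linarith
    · rw [if_neg hA, zero_add]
      by_cases hB : τ ≤ ((i * a : ℕ) : ℝ)
      · rw [if_pos hB, if_neg (fun h => h.2 hB), add_zero]
        apply hlow
        intro n hn1 hn2
        apply hdown _ _ _ hn2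
        refine hB.trans ?_
        exact_mod_cast hn1.le
      · rw [if_neg hB, if_pos ⟨hA, hB⟩, zero_add]
        apply mul_le_mul_of_nonneg_left _ ha0
        apply hM
        exact Nat.mul_pos (Nat.succ_pos i) (by omega)
  have hCcard : (C.card : ℝ) ≤ 2 := by
    have h1 : C.card ≤ 2 := by
      by_cases hne : C.Nonempty
      · have hq := C.min'_mem hne
        set q := C.min' hne with hqdef
        have hsub : C ⊆ {q, q + 1} := by
          intro i hi
          have hqi : q ≤ i := C.min'_le i hi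
          rw [Finset.mem_filter] at hi hq
          obtain ⟨_, _, hi2⟩ := hi
          obtain ⟨_, hq1, _⟩ := hq
          push Not at hi2 hq1
          have h2 : ((i * a : ℕ) : ℝ) < (((q + 2) * a : ℕ) : ℝ) := hi2.trans hq1
          have h3 : i * a < (q + 2) * a := by exact_mod_cast h2
          have h4 : i < q + 2 := Nat.lt_of_mul_lt_mul_right h3
          rw [Finset.mem_insert, Finset.mem_singleton]
          omega
        exact (Finset.card_le_card hsub).trans Finset.card_le_two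
      · rw [Finset.not_nonempty_iff_eq_empty] at hne
        rw [hne, Finset.card_empty]
        omega
    exact_mod_cast h1
  have hAB : ∑ i ∈ A, T (i + 1) + ∑ i ∈ B, T i ≤ ∑ i ∈ Finset.range J, T i := by
    have h1 : ∑ i ∈ A, T (i + 1) = ∑ i ∈ A.image (fun i => i + 1), T i := by
      rw [Finset.sum_image (fun x _ y _ h => by
        have h' : x + 1 = y + 1 := h
        omega)]
    rw [h1, ← Finset.sum_union]
    · apply Finset.sum_le_sum_of_subset_of_nonneg
      · intro i hi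
        rw [Finset.mem_union] at hi
        rcases hi with hi | hi
        · obtain ⟨i', hi', rfl⟩ := Finset.mem_image.1 hi
          rw [Finset.mem_filter] at hi'
          rw [Finset.mem_range]
          apply hJ'
          have h2 := hi'.2.trans hτ
          exact_mod_cast h2
        · exact (Finset.mem_filter.1 hi).1
      · intro i _ _
        exact hT0 i
    · rw [Finset.disjoint_left]
      intro i hi1 hi2
      obtain ⟨i', hi', rfl⟩ := Finset.mem_image.1 hi1
      rw [Finset.mem_filter] at hi' hi2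
      have h2 := hi'.2.trans hi2.2
      have h3 : (i' + 2) * a ≤ (i' + 1) * a := by exact_mod_cast h2
      have h4 : i' + 2 ≤ i' + 1 := Nat.le_of_mul_le_mul_right h3 (by omega)
      omega
  have htot : ∑ i ∈ Finset.range J, T i ≤ ∑ n ∈ Finset.Icc 1 N, φ n := by
    rw [hTdef, sum_blocks]
    apply Finset.sum_le_sum_of_subset_of_nonneg
    · intro n hn
      rw [Finset.mem_Ioc] at hn
      rw [Finset.mem_Icc]
      omega
    · intro n _ _
      exact h0 n
  rw [sum_Icc_shift (fun j => φ (j * a)), Finset.mul_sum]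
  refine (Finset.sum_le_sum hpt).trans ?_
  rw [Finset.sum_add_distrib, Finset.sum_add_distrib, ← Finset.sum_filter, ← Finset.sum_filter,
    ← Finset.sum_filter, Finset.sum_const, nsmul_eq_mul]
  have h5 : (C.card : ℝ) * ((a : ℝ) * M) ≤ 2 * ((a : ℝ) * M) :=
    mul_le_mul_of_nonneg_right hCcard (mul_nonneg ha0 hM0)
  have h6 : 0 ≤ (a : ℝ) * M := mul_nonneg ha0 hM0
  show ∑ i ∈ A, T (i + 1) + ∑ i ∈ B, T i + (C.card : ℝ) * ((a : ℝ) * M) ≤ _
  linarith

theorem sum_inv_four (J : ℕ) : ∑ i ∈ Finset.range J, (((i : ℝ) + 1) ^ 4)⁻¹ ≤ 2 - 2 / ((J : ℝ) + 1) := by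
  induction J with
  | zero => simp
  | succ J ih =>
    rw [Finset.sum_range_succ]
    have h1 : (((J : ℝ) + 1) ^ 4)⁻¹ ≤ 2 / ((J : ℝ) + 1) - 2 / ((J : ℝ) + 1 + 1) := by
      have hJ : (0 : ℝ) ≤ J := Nat.cast_nonneg J
      rw [div_sub_div _ _ (by positivity) (by positivity), inv_eq_one_div,
        div_le_div_iff₀ (by positivity) (by positivity)]
      have h2 : 0 ≤ (J : ℝ) * (J + 1) := by positivity
      have h3 : 0 ≤ (J : ℝ) ^ 2 := by positivity
      have h4 : 0 ≤ (J : ℝ) ^ 3 := by positivity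
      have h5 : 0 ≤ (J : ℝ) ^ 4 := by positivity
      nlinarith
    push_cast
    linarith

/-- TARGET 2 -/
theorem weights_bounds {μ : ℝ} (hμ : 1 ≤ μ) : ∃ K : ℝ, 1 ≤ K ∧ ∀ b : ℝ, 1 ≤ b → ∀ N : ℕ,
    2 * Real.exp b ≤ N →
    Real.exp (-3 * b) ≤ K * ∑ n ∈ Finset.Icc 1 N, vw μ b n ^ 2 ∧
    (∀ a ∈ Finset.Icc 1 N, Smul (vw μ b) N a * a ≤ K * ∑ n ∈ Finset.Icc 1 N, vw μ b n ^ 2) ∧
    (∀ a ∈ Finset.Icc 1 N, K * a ≤ Real.exp b →
      Smul (vw μ b) N a * a ≤ 2 * ∑ n ∈ Finset.Icc 1 N, vw μ b n ^ 2) := by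
  have hμ0 : 0 < μ := by linarith
  obtain ⟨K₁, hK₁⟩ : ∃ K₁, K₁ = 2 * Real.exp (4 + 4 * μ) := ⟨_, rfl⟩
  have hK₁1 : 1 ≤ K₁ := by
    have := Real.add_one_le_exp (4 + 4 * μ)
    rw [hK₁]; linarith
  refine ⟨1 + 9 * K₁, by linarith, ?_⟩
  intro b hb N hN
  have hφ : ∀ n, vw μ b n ^ 2 = Real.exp (-4 * Real.log n - 4 * μ * (Real.log n - b) ^ 2) := by
    intro n
    unfold vw
    rw [← Real.exp_nat_mul]
    congr 1
    push_cast
    ring
  obtain ⟨φ, hφdef⟩ : ∃ φ : ℕ → ℝ, φ = fun n => vw μ b n ^ 2 := ⟨_, rfl⟩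
  have hφn : ∀ n, φ n = Real.exp (-4 * Real.log n - 4 * μ * (Real.log n - b) ^ 2) := by
    intro n; rw [hφdef]; exact hφ n
  have hφ0 : ∀ n, 0 ≤ φ n := fun n => by rw [hφn]; exact (Real.exp_pos _).le
  obtain ⟨V, hV⟩ : ∃ V, V = ∑ n ∈ Finset.Icc 1 N, φ n := ⟨_, rfl⟩
  have hV' : ∑ n ∈ Finset.Icc 1 N, vw μ b n ^ 2 = V := by rw [hV, hφdef]
  have hS : ∀ a, Smul (vw μ b) N a = ∑ j ∈ Finset.Icc 1 (N / a), φ (j * a) := by
    intro a; rw [hφdef]; rfl
  rw [hV']
  simp only [hS]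
  have hV0 : 0 ≤ V := by rw [hV]; exact Finset.sum_nonneg fun n _ => hφ0 n
  have heb : 2 < Real.exp b := by
    have := Real.add_one_lt_exp (show b ≠ 0 by linarith)
    linarith
  -- the lower bound of V
  have hVlow : Real.exp (-3 * b) ≤ K₁ * V := by
    obtain ⟨m, hm⟩ : ∃ m : ℕ, m = ⌈Real.exp b⌉₊ := ⟨_, rfl⟩
    have hm1 : Real.exp b ≤ m := by rw [hm]; exact Nat.le_ceil _
    have hm2 : (m : ℝ) < Real.exp b + 1 := by
      rw [hm]; exact Nat.ceil_lt_add_one (Real.exp_pos b).le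
    obtain ⟨k, hk⟩ : ∃ k : ℕ, k = ⌊2 * Real.exp b⌋₊ := ⟨_, rfl⟩
    have hk1 : (k : ℝ) ≤ 2 * Real.exp b := by
      rw [hk]; exact Nat.floor_le (by positivity)
    have hk2 : 2 * Real.exp b < k + 1 := by rw [hk]; exact Nat.lt_floor_add_one _
    have hsub : Finset.Icc m k ⊆ Finset.Icc 1 N := by
      intro n hn
      rw [Finset.mem_Icc] at hn ⊢
      have hm0 : (0 : ℝ) < m := by linarith
      have hm0' : 0 < m := by exact_mod_cast hm0
      have hkN : k ≤ N := by
        have : (k : ℝ) ≤ N := hk1.trans hN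
        exact_mod_cast this
      omega
    have hlow : ∀ n ∈ Finset.Icc m k, Real.exp (-4 * b - 4 - 4 * μ) ≤ φ n := by
      intro n hn
      rw [Finset.mem_Icc] at hn
      have hn1 : Real.exp b ≤ n := hm1.trans (by exact_mod_cast hn.1)
      have hn2 : (n : ℝ) ≤ 2 * Real.exp b := le_trans (by exact_mod_cast hn.2) hk1
      have hn0 : (0 : ℝ) < n := (Real.exp_pos b).trans_le hn1
      have hl1 : b ≤ Real.log n := by
        rw [Real.le_log_iff_exp_le hn0]; exact hn1
      have hl2 : Real.log n ≤ b + 1 := by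
        rw [Real.log_le_iff_le_exp hn0, Real.exp_add]
        refine hn2.trans ?_
        rw [mul_comm]
        apply mul_le_mul_of_nonneg_left _ (Real.exp_pos b).le
        have := Real.add_one_le_exp (1:ℝ)
        linarith
      rw [hφn]
      apply Real.exp_le_exp.2
      have h1 : (Real.log n - b) ^ 2 ≤ 1 := by
        have h2 : 0 ≤ Real.log n - b := by linarith
        have h3 : Real.log n - b ≤ 1 := by linarith
        nlinarith
      nlinarith
    have hcard : Real.exp b / 2 ≤ ((Finset.Icc m k).card : ℝ) := by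
      rw [Nat.card_Icc]
      have hmk : m ≤ k + 1 := by
        have : (m : ℝ) ≤ k + 1 := by linarith
        exact_mod_cast this
      rw [Nat.cast_sub hmk]
      push_cast
      linarith
    have h1 : ((Finset.Icc m k).card : ℝ) * Real.exp (-4 * b - 4 - 4 * μ) ≤ V := by
      have h2 := Finset.card_nsmul_le_sum _ φ _ hlow
      rw [nsmul_eq_mul] at h2
      refine h2.trans ?_
      rw [hV]
      exact Finset.sum_le_sum_of_subset_of_nonneg hsub fun n _ _ => hφ0 n
    have h3 : Real.exp b / 2 * Real.exp (-4 * b - 4 - 4 * μ) ≤ V :=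
      (mul_le_mul_of_nonneg_right hcard (Real.exp_pos _).le).trans h1
    have h4 : K₁ * (Real.exp b / 2 * Real.exp (-4 * b - 4 - 4 * μ)) = Real.exp (-3 * b) := by
      rw [hK₁]
      have e1 : 2 * Real.exp (4 + 4 * μ) * (Real.exp b / 2 * Real.exp (-4 * b - 4 - 4 * μ)) =
          Real.exp (4 + 4 * μ) * Real.exp b * Real.exp (-4 * b - 4 - 4 * μ) := by ring
      rw [e1, ← Real.exp_add, ← Real.exp_add]
      congr 1
      ring
    rw [← h4]
    exact mul_le_mul_of_nonneg_left h3 (by linarith)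
  -- the maximum
  have hM : ∀ n, 1 ≤ n → φ n ≤ Real.exp (1 - 4 * b) := by
    intro n _
    rw [hφn]
    apply Real.exp_le_exp.2
    have h1 : 0 ≤ 4 * μ * (Real.log n - b + 1 / (2 * μ)) ^ 2 := by positivity
    have h2 : 4 * μ * (Real.log n - b + 1 / (2 * μ)) ^ 2 =
        4 * μ * (Real.log n - b) ^ 2 + 4 * (Real.log n - b) + 1 / μ := by
      field_simp
      ring
    have h3 : 1 / μ ≤ 1 := by rw [div_le_one hμ0]; exact hμ
    linarith
  have hτN : Real.exp (b - 1 / (2 * μ)) ≤ N := by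
    have h1 : Real.exp (b - 1 / (2 * μ)) ≤ Real.exp b := by
      apply Real.exp_le_exp.2
      have : 0 < 1 / (2 * μ) := by positivity
      linarith
    have := Real.exp_pos b
    linarith
  have hfac : ∀ s t : ℝ, (-4 * t - 4 * μ * (t - b) ^ 2) - (-4 * s - 4 * μ * (s - b) ^ 2) =
      (t - s) * (-4 - 4 * μ * (t + s - 2 * b)) := by intro s t; ring
  have huni : ∀ a : ℕ, 1 ≤ a → (a : ℝ) * ∑ j ∈ Finset.Icc 1 (N / a), φ (j * a) ≤
      V + 3 * a * Real.exp (1 - 4 * b) := by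
    intro a ha
    rw [hV]
    refine unimodal_sum (τ := Real.exp (b - 1 / (2 * μ))) ha hφ0 ?_ ?_ hM hτN
    · intro m n hm hmn hn
      have hm0 : (0 : ℝ) < m := by exact_mod_cast hm
      have hn0 : (0 : ℝ) < n := lt_of_lt_of_le hm0 (by exact_mod_cast hmn)
      have hl1 : Real.log m ≤ Real.log n := Real.log_le_log hm0 (by exact_mod_cast hmn)
      have hl2 : Real.log n ≤ b - 1 / (2 * μ) := by
        rw [Real.log_le_iff_le_exp hn0]; exact hn
      rw [hφn, hφn]
      apply Real.exp_le_exp.2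
      have h1 := hfac (Real.log m) (Real.log n)
      have h2 : 0 ≤ -4 - 4 * μ * (Real.log n + Real.log m - 2 * b) := by
        have h3 : Real.log n + Real.log m - 2 * b ≤ -(1 / μ) := by
          have h4 : 1 / μ = 2 * (1 / (2 * μ)) := by field_simp
          linarith
        have h5 : μ * (Real.log n + Real.log m - 2 * b) ≤ μ * -(1 / μ) :=
          mul_le_mul_of_nonneg_left h3 hμ0.le
        have h6 : μ * -(1 / μ) = -1 := by field_simp
        rw [h6] at h5
        linarith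
      have h3 : 0 ≤ (Real.log n - Real.log m) * (-4 - 4 * μ * (Real.log n + Real.log m - 2 * b)) :=
        mul_nonneg (by linarith) h2
      linarith
    · intro m n hm hmn
      have hm0 : (0 : ℝ) < m := (Real.exp_pos _).trans_le hm
      have hl1 : Real.log m ≤ Real.log n := Real.log_le_log hm0 (by exact_mod_cast hmn)
      have hl2 : b - 1 / (2 * μ) ≤ Real.log m := by
        rw [Real.le_log_iff_exp_le hm0]; exact hm
      rw [hφn, hφn]
      apply Real.exp_le_exp.2
      have h1 := hfac (Real.log m) (Real.log n)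
      have h2 : -4 - 4 * μ * (Real.log n + Real.log m - 2 * b) ≤ 0 := by
        have h3 : -(1 / μ) ≤ Real.log n + Real.log m - 2 * b := by
          have h4 : 1 / μ = 2 * (1 / (2 * μ)) := by field_simp
          linarith
        have h5 : μ * -(1 / μ) ≤ μ * (Real.log n + Real.log m - 2 * b) :=
          mul_le_mul_of_nonneg_left h3 hμ0.le
        have h6 : μ * -(1 / μ) = -1 := by field_simp
        rw [h6] at h5
        linarith
      have h3 : (Real.log n - Real.log m) * (-4 - 4 * μ * (Real.log n + Real.log m - 2 * b)) ≤ 0 :=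
        mul_nonpos_of_nonneg_of_nonpos (by linarith) h2
      linarith
  have he3 : Real.exp 1 ≤ 3 := by linarith [Real.exp_one_lt_d9]
  have hMV : Real.exp (1 - 4 * b) * Real.exp b ≤ 3 * K₁ * V := by
    have h1 : Real.exp (1 - 4 * b) * Real.exp b = Real.exp 1 * Real.exp (-3 * b) := by
      rw [← Real.exp_add, ← Real.exp_add]
      congr 1
      ring
    rw [h1]
    calc Real.exp 1 * Real.exp (-3 * b) ≤ 3 * (K₁ * V) :=
          mul_le_mul he3 hVlow (Real.exp_pos _).le (by norm_num)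
      _ = 3 * K₁ * V := by ring
  have hKV : 0 ≤ K₁ * V := mul_nonneg (by linarith) hV0
  refine ⟨?_, ?_, ?_⟩
  · calc Real.exp (-3 * b) ≤ K₁ * V := hVlow
      _ ≤ (1 + 9 * K₁) * V := by nlinarith
  · intro a ha
    rw [Finset.mem_Icc] at ha
    have ha0 : (0 : ℝ) < a := by exact_mod_cast ha.1
    rw [mul_comm]
    by_cases hab : (a : ℝ) ≤ Real.exp b
    · refine (huni a ha.1).trans ?_
      have h1 : (a : ℝ) * Real.exp (1 - 4 * b) ≤ 3 * K₁ * V := by
        refine le_trans ?_ hMV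
        rw [mul_comm]
        exact mul_le_mul_of_nonneg_left hab (Real.exp_pos _).le
      nlinarith
    · push Not at hab
      have h1 : ∀ j, 1 ≤ j → φ (j * a) ≤ ((j : ℝ) ^ 4)⁻¹ * ((a : ℝ) ^ 4)⁻¹ := by
        intro j hj
        have hj0 : (0 : ℝ) < j := by exact_mod_cast hj
        have hja : (0 : ℝ) < ((j * a : ℕ) : ℝ) := by push_cast; positivity
        rw [hφn]
        have h2 : ((j : ℝ) ^ 4)⁻¹ * ((a : ℝ) ^ 4)⁻¹ =
            Real.exp (-4 * Real.log ((j * a : ℕ) : ℝ)) := by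
          have h3 : -4 * Real.log ((j * a : ℕ) : ℝ) = -(((4 : ℕ) : ℝ) * Real.log ((j * a : ℕ) : ℝ)) := by
            push_cast; ring
          rw [h3, Real.exp_neg, Real.exp_nat_mul, Real.exp_log hja, ← mul_inv, ← mul_pow]
          push_cast
          rfl
        rw [h2]
        apply Real.exp_le_exp.2
        have : 0 ≤ 4 * μ * (Real.log ((j * a : ℕ) : ℝ) - b) ^ 2 := by positivity
        linarith
      have h2 : ∑ j ∈ Finset.Icc 1 (N / a), φ (j * a) ≤ 2 * ((a : ℝ) ^ 4)⁻¹ := by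
        rw [sum_Icc_shift (fun j => φ (j * a))]
        calc ∑ i ∈ Finset.range (N / a), φ ((i + 1) * a)
            ≤ ∑ i ∈ Finset.range (N / a), (((i : ℝ) + 1) ^ 4)⁻¹ * ((a : ℝ) ^ 4)⁻¹ := by
              refine Finset.sum_le_sum fun i _ => ?_
              have := h1 (i + 1) (by omega)
              push_cast at this
              exact this
          _ = (∑ i ∈ Finset.range (N / a), (((i : ℝ) + 1) ^ 4)⁻¹) * ((a : ℝ) ^ 4)⁻¹ :=
              (Finset.sum_mul _ _ _).symm
          _ ≤ 2 * ((a : ℝ) ^ 4)⁻¹ := by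
              apply mul_le_mul_of_nonneg_right _ (by positivity)
              refine (sum_inv_four _).trans ?_
              have : 0 ≤ 2 / (((N / a : ℕ) : ℝ) + 1) := by positivity
              linarith
      have h3 : (a : ℝ) * (2 * ((a : ℝ) ^ 4)⁻¹) = 2 * ((a : ℝ) ^ 3)⁻¹ := by
        field_simp
      have h4 : ((a : ℝ) ^ 3)⁻¹ ≤ Real.exp (-3 * b) := by
        have h5 : Real.exp (-3 * b) = (Real.exp b ^ 3)⁻¹ := by
          rw [← Real.exp_nat_mul, ← Real.exp_neg]
          congr 1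
          push_cast
          ring
        rw [h5]
        apply inv_anti₀ (by positivity)
        exact pow_le_pow_left₀ (Real.exp_pos b).le hab.le 3
      calc (a : ℝ) * ∑ j ∈ Finset.Icc 1 (N / a), φ (j * a) ≤ (a : ℝ) * (2 * ((a : ℝ) ^ 4)⁻¹) :=
            mul_le_mul_of_nonneg_left h2 ha0.le
        _ = 2 * ((a : ℝ) ^ 3)⁻¹ := h3
        _ ≤ 2 * (K₁ * V) := by linarith [h4.trans hVlow]
        _ ≤ (1 + 9 * K₁) * V := by nlinarith
  · intro a ha hKa
    rw [Finset.mem_Icc] at ha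
    have ha0 : (0 : ℝ) < a := by exact_mod_cast ha.1
    rw [mul_comm]
    refine (huni a ha.1).trans ?_
    have h1 : (1 + 9 * K₁) * ((a : ℝ) * Real.exp (1 - 4 * b)) ≤ 3 * K₁ * V := by
      refine le_trans ?_ hMV
      calc (1 + 9 * K₁) * ((a : ℝ) * Real.exp (1 - 4 * b)) =
            Real.exp (1 - 4 * b) * ((1 + 9 * K₁) * a) := by ring
        _ ≤ Real.exp (1 - 4 * b) * Real.exp b :=
            mul_le_mul_of_nonneg_left hKa (Real.exp_pos _).le
    have h2 : 0 ≤ (a : ℝ) * Real.exp (1 - 4 * b) := by positivity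
    have h3 : 9 * K₁ * ((a : ℝ) * Real.exp (1 - 4 * b)) ≤ 3 * K₁ * V := by nlinarith
    have h4 : 3 * ((a : ℝ) * Real.exp (1 - 4 * b)) ≤ V := by
      have hK0 : 0 < 3 * K₁ := by linarith
      have h5 : 3 * K₁ * (3 * ((a : ℝ) * Real.exp (1 - 4 * b))) ≤ 3 * K₁ * V := by linarith
      exact le_of_mul_le_mul_left h5 hK0
    linarith

end Pool.Agent.Helper242.KK
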