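import Pool.Agent.Helper242.KK.BadM
import Pool.Agent.Helper242.KK.QuadS
import Pool.Agent.Helper242.KK.DblS
import Pool.Agent.Helper242.KK.Weights

set_option autoImplicit false

namespace Pool.Agent.Helper242.KK

open Complex MeasureTheory Filter Topology

lemma sum_inv_sq_succ (n : ℕ) : ∑ i ∈ Finset.range (n + 1), (1 / ((i : ℝ) + 1) ^ 2) ≤ 2 - 1 / ((n : ℝ) + 1) := by
  induction n with
  | zero => norm_num
  | succ n ih =>
    rw [Finset.sum_range_succ]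
    have h1 : (0 : ℝ) < (n : ℝ) + 1 := by positivity
    have h2 : (1 : ℝ) / (((n + 1 : ℕ) : ℝ) + 1) ^ 2 ≤ 1 / ((n : ℝ) + 1) - 1 / (((n + 1 : ℕ) : ℝ) + 1) := by
      push_cast
      rw [div_sub_div _ _ (by positivity) (by positivity), div_le_div_iff₀ (by positivity) (by positivity)]
      nlinarith [h1]
    linarith

lemma sum_inv_sq (n : ℕ) : ∑ i ∈ Finset.range n, (1 / ((i : ℝ) + 1) ^ 2) ≤ 2 := by
  cases n with
  | zero => simp
  | succ n =>
    have := sum_inv_sq_succ n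
    have h1 : (0 : ℝ) < 1 / ((n : ℝ) + 1) := by positivity
    linarith

lemma summable_inv_sq : Summable (fun i : ℕ => (1 / ((i : ℝ) + 1) ^ 2)) :=
  summable_of_sum_range_le (fun i => by positivity) sum_inv_sq

lemma tsum_inv_sq : ∑' i : ℕ, (1 / ((i : ℝ) + 1) ^ 2) ≤ 2 :=
  Summable.tsum_le_of_sum_range_le summable_inv_sq sum_inv_sq

lemma wt_pos (μ b : ℝ) (n : ℕ) : 0 < wt μ b n := Real.exp_pos _

lemma wt_le {μ : ℝ} (hμ : 1 ≤ μ) (b : ℝ) (n : ℕ) : wt μ b n ≤ 1 / ((n : ℝ) + 1) ^ 2 := by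
  have h1 : (0 : ℝ) < (n : ℝ) + 1 := by positivity
  have : (1 : ℝ) / ((n : ℝ) + 1) ^ 2 = Real.exp (-2 * Real.log (n + 1)) := by
    rw [show -2 * Real.log ((n : ℝ) + 1) = -(Real.log (n + 1) + Real.log (n + 1)) by ring,
      Real.exp_neg, Real.exp_add, Real.exp_log h1]
    field_simp
  rw [this]
  unfold wt
  apply Real.exp_le_exp.2
  have : 0 ≤ 2 * μ * (Real.log (n + 1) - b) ^ 2 := by positivity
  linarith

lemma wt_le_tail {μ : ℝ} (hμ : 1 ≤ μ) {b s : ℝ} (hs : 0 ≤ s) (n : ℕ) (h : b + 2 * s ≤ Real.log (n + 1)) :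
    wt μ b n ≤ Real.exp (-8 * s ^ 2) * (1 / ((n : ℝ) + 1) ^ 2) := by
  have h1 : (0 : ℝ) < (n : ℝ) + 1 := by positivity
  have : (1 : ℝ) / ((n : ℝ) + 1) ^ 2 = Real.exp (-2 * Real.log (n + 1)) := by
    rw [show -2 * Real.log ((n : ℝ) + 1) = -(Real.log (n + 1) + Real.log (n + 1)) by ring,
      Real.exp_neg, Real.exp_add, Real.exp_log h1]
    field_simp
  rw [this, ← Real.exp_add]
  unfold wt
  apply Real.exp_le_exp.2
  have h2 : 2 * s ≤ Real.log (n + 1) - b := by linarith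
  have h3 : (2 * s) ^ 2 ≤ (Real.log (n + 1) - b) ^ 2 := by
    apply pow_le_pow_left₀ (by linarith) h2
  nlinarith [sq_nonneg (Real.log (n + 1) - b)]

noncomputable def cc (μ b : ℝ) (n : ℕ) : ℝ := (-1) ^ (n + 1) * vw μ b n

lemma abs_cc (μ b : ℝ) (n : ℕ) : |cc μ b n| = vw μ b n := by
  unfold cc
  rw [abs_mul, abs_pow, abs_neg, abs_one, one_pow, one_mul, abs_of_pos]
  exact Real.exp_pos _

lemma sq_cc (μ b : ℝ) (n : ℕ) : cc μ b n ^ 2 = vw μ b n ^ 2 := by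
  rw [← sq_abs, abs_cc]

lemma vw_succ (μ b : ℝ) (n : ℕ) : vw μ b (n + 1) = wt μ b n := by
  unfold vw wt
  push_cast
  rfl

lemma sum_abs_cc {μ : ℝ} (hμ : 1 ≤ μ) (b : ℝ) (N : ℕ) : ∑ n ∈ Finset.Icc 1 N, |cc μ b n| ≤ 2 := by
  refine le_trans ?_ (sum_inv_sq N)
  induction N with
  | zero => simp
  | succ N ih =>
    rw [Finset.sum_Icc_succ_top (by omega), Finset.sum_range_succ]
    refine add_le_add ih ?_
    rw [abs_cc, vw_succ]
    exact wt_le hμ b N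

noncomputable def ff (μ b x : ℝ) (n : ℕ) : ℂ :=
  (((-1) ^ n * wt μ b n : ℝ) : ℂ) * cexp (-(I * x * Real.log (n + 1)))

lemma norm_ff (μ b x : ℝ) (n : ℕ) : ‖ff μ b x n‖ = wt μ b n := by
  unfold ff
  rw [norm_mul, Complex.norm_real, Real.norm_eq_abs, abs_mul, abs_pow, abs_neg, abs_one, one_pow,
    one_mul, abs_of_pos (wt_pos μ b n)]
  rw [show (-(I * (x : ℂ) * ((Real.log ((n : ℝ) + 1) : ℝ) : ℂ))) = ((-(x * Real.log ((n : ℝ) + 1)) : ℝ) : ℂ) * I by
    push_cast; ring]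
  rw [Complex.norm_exp_ofReal_mul_I, mul_one]

lemma psum_eq (μ b x : ℝ) (N : ℕ) : Psum (cc μ b) N x = ∑ i ∈ Finset.range N, ff μ b x i := by
  unfold Psum
  induction N with
  | zero => simp
  | succ N ih =>
    rw [Finset.sum_Icc_succ_top (by omega), Finset.sum_range_succ, ih]
    congr 1
    unfold ff cc
    rw [vw_succ]
    push_cast
    ring_nf

lemma summable_ff {μ : ℝ} (hμ : 1 ≤ μ) (b x : ℝ) : Summable (ff μ b x) := by
  apply Summable.of_norm_bounded summable_inv_sq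
  intro i
  rw [norm_ff]
  exact wt_le hμ b i

lemma tail_le {μ : ℝ} (hμ : 1 ≤ μ) (b x : ℝ) {s : ℝ} (hs : 0 ≤ s) (N : ℕ)
    (hN : Real.exp (b + 2 * s) ≤ N + 1) :
    ‖Dser μ b x - Psum (cc μ b) N x‖ ≤ 2 * Real.exp (-8 * s ^ 2) := by
  have h1 : Dser μ b x = ∑' n, ff μ b x n := rfl
  have h2 := (summable_ff hμ b x).sum_add_tsum_nat_add N
  rw [h1, ← h2, psum_eq, add_sub_cancel_left]
  have hb : ∀ i : ℕ, ‖ff μ b x (i + N)‖ ≤ Real.exp (-8 * s ^ 2) * (1 / ((i : ℝ) + 1) ^ 2) := by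
    intro i
    rw [norm_ff]
    have hl : b + 2 * s ≤ Real.log (((i + N : ℕ) : ℝ) + 1) := by
      rw [Real.le_log_iff_exp_le (by positivity)]
      refine hN.trans ?_
      push_cast
      have : (0 : ℝ) ≤ i := Nat.cast_nonneg i
      linarith
    refine (wt_le_tail hμ hs (i + N) hl).trans ?_
    apply mul_le_mul_of_nonneg_left _ (Real.exp_pos _).le
    apply one_div_le_one_div_of_le (by positivity)
    apply pow_le_pow_left₀ (by positivity)
    push_cast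
    have : (0 : ℝ) ≤ N := Nat.cast_nonneg N
    linarith
  have hsum : Summable (fun i : ℕ => Real.exp (-8 * s ^ 2) * (1 / ((i : ℝ) + 1) ^ 2)) :=
    summable_inv_sq.mul_left _
  calc ‖∑' i, ff μ b x (i + N)‖ ≤ ∑' i : ℕ, Real.exp (-8 * s ^ 2) * (1 / ((i : ℝ) + 1) ^ 2) :=
        tsum_of_norm_bounded hsum.hasSum hb
    _ = Real.exp (-8 * s ^ 2) * ∑' i : ℕ, (1 / ((i : ℝ) + 1) ^ 2) := tsum_mul_left
    _ ≤ Real.exp (-8 * s ^ 2) * 2 := mul_le_mul_of_nonneg_left tsum_inv_sq (Real.exp_pos _).le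
    _ = 2 * Real.exp (-8 * s ^ 2) := by ring

lemma exp_neg3 : 16 * Real.exp (-3) ≤ 1 := by
  rw [Real.exp_neg, ← div_eq_mul_inv, div_le_one (Real.exp_pos _)]
  have h4 : Real.exp 3 = Real.exp 1 ^ 3 := by
    rw [← Real.exp_nat_mul]; norm_num
  rw [h4]
  have h5 := Real.exp_one_gt_d9
  have h6 : (2.7182818283 : ℝ) ^ 3 ≤ Real.exp 1 ^ 3 := pow_le_pow_left₀ (by norm_num) h5.le 3
  refine le_trans ?_ h6
  norm_num

lemma exp_large {s : ℝ} (hs60 : 60 ≤ s) : 40 * s ^ 2 + 12 ≤ Real.exp s := by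
  have h5 := Real.quadratic_le_exp_of_nonneg (x := s / 2) (by linarith)
  have h6 : Real.exp s = Real.exp (s / 2) ^ 2 := by
    rw [← Real.exp_nat_mul]; congr 1; push_cast; ring
  rw [h6]
  have h7 : s ^ 2 / 8 ≤ Real.exp (s / 2) := by
    have : (s / 2) ^ 2 / 2 = s ^ 2 / 8 := by ring
    linarith
  have h8 : (s ^ 2 / 8) ^ 2 ≤ Real.exp (s / 2) ^ 2 := pow_le_pow_left₀ (by positivity) h7 2
  refine le_trans ?_ h8
  have h9 : (3600 : ℝ) ≤ s ^ 2 := by nlinarith only [hs60]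
  have h10 : (s ^ 2 / 8) ^ 2 = s ^ 2 * s ^ 2 / 64 := by ring
  rw [h10]
  nlinarith only [h9]

lemma subset_aux {K V l T b y : ℝ} (hTl : T = Real.exp l) (hl1 : 1 ≤ l) (hK : 1 ≤ K) (hVpos : 0 < V)
    (hVlow : Real.exp (-(3 / 2) * l) ≤ K * V) (hKl : 16 * K ≤ Real.exp l) {D P : ℂ}
    (h1 : ‖D‖ ≤ (T ^ 3)⁻¹) (h2 : ‖D - P‖ ≤ 2 * Real.exp (-8 * l)) : ‖P‖ ^ 2 ≤ V / 4 := by
  have h3 : ‖P‖ ≤ (T ^ 3)⁻¹ + 2 * Real.exp (-8 * l) := by
    calc ‖P‖ = ‖D - (D - P)‖ := by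
          congr 1; ring
      _ ≤ ‖D‖ + ‖D - P‖ := norm_sub_le _ _
      _ ≤ _ := add_le_add h1 h2
  have h4 : (T ^ 3)⁻¹ = Real.exp (-3 * l) := by
    rw [hTl, ← Real.exp_nat_mul, ← Real.exp_neg]
    congr 1; push_cast; ring
  have h5 : 2 * Real.exp (-8 * l) ≤ Real.exp (-3 * l) := by
    have : Real.exp (-3 * l) = Real.exp (-8 * l) * Real.exp (5 * l) := by
      rw [← Real.exp_add]; congr 1; ring
    rw [this]
    have h6 := Real.add_one_le_exp (5 * l)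
    have h7 := Real.exp_pos (-8 * l)
    have h8 : 2 ≤ Real.exp (5 * l) := by linarith
    nlinarith only [h7, h8]
  have h6 : ‖P‖ ≤ 2 * Real.exp (-3 * l) := by
    rw [h4] at h3; linarith
  have h7 : ‖P‖ ^ 2 ≤ (2 * Real.exp (-3 * l)) ^ 2 :=
    pow_le_pow_left₀ (norm_nonneg _) h6 2
  refine h7.trans ?_
  have h8 : (2 * Real.exp (-3 * l)) ^ 2 = 4 * (Real.exp (-(3 / 2) * l) * Real.exp (-(9 / 2) * l)) := by
    rw [← Real.exp_add, mul_pow, ← Real.exp_nat_mul]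
    norm_num
    ring_nf
  rw [h8]
  have h9 : Real.exp (-(9 / 2) * l) ≤ Real.exp (-l) := Real.exp_le_exp.2 (by linarith)
  have h10 : 16 * K * Real.exp (-l) ≤ 1 := by
    rw [Real.exp_neg, ← div_eq_mul_inv, div_le_one (Real.exp_pos _)]
    exact hKl
  have h11 := Real.exp_pos (-(9 / 2) * l)
  have h12 : Real.exp (-(3 / 2) * l) * Real.exp (-(9 / 2) * l) ≤ K * V * Real.exp (-l) := by
    apply mul_le_mul hVlow h9 h11.le
    positivity
  have h13 : 16 * (K * V * Real.exp (-l)) ≤ V := by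
    have : 16 * (K * V * Real.exp (-l)) = V * (16 * K * Real.exp (-l)) := by ring
    rw [this]
    have := mul_le_mul_of_nonneg_left h10 hVpos.le
    linarith
  linarith

lemma q_aux {μ b h V K2 l s : ℝ} {N : ℕ} (K : ℝ) (hs1 : 1 ≤ s) (hs2 : s ^ 2 = l)
    (hK2K : K ≤ K2) (hK22 : 2 ≤ K2) (hsM : K2 ^ 2 * (3 + Real.log (2 * K2)) ≤ s)
    (hexpb : 2 * K2 ≤ Real.exp b) (hbl : b ≤ l) (hNle : (N : ℝ) ≤ Real.exp (b + 2 * s))
    (h2N : 2 * Real.exp b ≤ N) (hlogNh : Real.log N ≤ h) (hlh1 : 1 ≤ h) (hVpos : 0 < V)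
    (hS2 : ∀ a ∈ Finset.Icc 1 N, Smul (vw μ b) N a * a ≤ K * V)
    (hS1 : ∀ a ∈ Finset.Icc 1 N, K * a ≤ Real.exp b → Smul (vw μ b) N a * a ≤ 2 * V) :
    ∑ p ∈ quad N, |cc μ b p.1.1| * |cc μ b p.1.2| * (|cc μ b p.2.1| * |cc μ b p.2.2|) * sb h p.1.1 p.1.2 ^ 2
      ≤ 400 * (V ^ 2 * l / h) := by
  have hhpos : 0 < h := by linarith
  have hK2pos : 0 < K2 := by linarith
  set L : ℝ := Real.log (2 * K2) with hL
  have hL0 : 0 ≤ L := Real.log_nonneg (by linarith)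
  set A : ℕ := ⌊Real.exp b / K2⌋₊ with hA
  have hAle : (A : ℝ) ≤ Real.exp b / K2 := Nat.floor_le (by positivity)
  have hAge : Real.exp b / K2 ≤ A + 1 := (Nat.lt_floor_add_one _).le
  have h2le : 2 ≤ Real.exp b / K2 := by
    rw [le_div_iff₀ hK2pos]; exact hexpb
  have hA1' : (1 : ℝ) ≤ A := by linarith
  have hA1 : 1 ≤ A := by exact_mod_cast hA1'
  have hN1 : 1 ≤ N := by
    have : (1 : ℝ) ≤ N := by linarith
    exact_mod_cast this
  have hNpos : (0 : ℝ) < N := by linarith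
  have hAhalf : Real.exp b / (2 * K2) ≤ A := by
    have : Real.exp b / (2 * K2) = (Real.exp b / K2) / 2 := by field_simp
    rw [this]; linarith
  have hAexp : (A : ℝ) ≤ Real.exp b := by
    refine hAle.trans ?_
    rw [div_le_iff₀ hK2pos]
    have := Real.exp_pos b
    nlinarith only [this, hK22]
  have hAN : A ≤ N := by
    have : (A : ℝ) ≤ N := by
      have := Real.exp_pos b
      linarith
    exact_mod_cast this
  have hQ := double_sum_le (S := Smul (vw μ b) N) (N := N) (A := A) (h := h) (V := V) (K₁ := 2) (K₂ := K2)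
    hlh1 hN1 hlogNh hA1 hAN hVpos.le (by norm_num) hK22
    (fun a _ => by unfold Smul; exact Finset.sum_nonneg (fun j _ => sq_nonneg _))
    (fun a ha => by
      rw [Finset.mem_Icc] at ha
      apply hS1 a (Finset.mem_Icc.2 ⟨ha.1, ha.2.trans hAN⟩)
      have h1 : (a : ℝ) ≤ A := by exact_mod_cast ha.2
      have h2 : (a : ℝ) ≤ Real.exp b / K2 := h1.trans hAle
      rw [le_div_iff₀ hK2pos] at h2
      have h3 : (0 : ℝ) ≤ a := Nat.cast_nonneg a
      nlinarith only [h2, h3, hK2K])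
    (fun a ha => (hS2 a ha).trans (mul_le_mul_of_nonneg_right hK2K hVpos.le))
  have hquad := quad_sum_le (vw μ b) (fun n => (Real.exp_pos _).le) N hhpos
  have hQ1 : ∑ p ∈ quad N, |cc μ b p.1.1| * |cc μ b p.1.2| * (|cc μ b p.2.1| * |cc μ b p.2.2|) * sb h p.1.1 p.1.2 ^ 2
      ≤ 40 * V ^ 2 / h * (2 ^ 2 * (1 + Real.log A) + K2 ^ 2 * (1 + Real.log (N / A))) := by
    refine le_trans (le_of_eq ?_) (hquad.trans hQ)
    apply Finset.sum_congr rfl
    intro p _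
    simp only [abs_cc]
  have hApos : (0 : ℝ) < A := by linarith
  have hlogA : Real.log A ≤ l := by
    rw [Real.log_le_iff_le_exp hApos]
    exact hAexp.trans (Real.exp_le_exp.2 hbl)
  have hlogNA : Real.log (N / A) ≤ 2 * s + L := by
    rw [Real.log_le_iff_le_exp (by positivity), Real.exp_add, hL, Real.exp_log (by positivity)]
    rw [div_le_iff₀ hApos]
    have h1 : Real.exp (b + 2 * s) = Real.exp b * Real.exp (2 * s) := Real.exp_add _ _
    rw [div_le_iff₀ (by positivity)] at hAhalf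
    have h2 := Real.exp_pos (2 * s)
    have h3 : Real.exp b * Real.exp (2 * s) ≤ (A * (2 * K2)) * Real.exp (2 * s) :=
      mul_le_mul_of_nonneg_right hAhalf h2.le
    calc (N : ℝ) ≤ Real.exp b * Real.exp (2 * s) := by rw [← h1]; exact hNle
      _ ≤ (A * (2 * K2)) * Real.exp (2 * s) := h3
      _ = _ := by ring
  have hbr : 2 ^ 2 * (1 + Real.log A) + K2 ^ 2 * (1 + Real.log (N / A)) ≤ 10 * l := by
    have h1 : K2 ^ 2 * (1 + Real.log (N / A)) ≤ K2 ^ 2 * (1 + (2 * s + L)) :=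
      mul_le_mul_of_nonneg_left (by linarith) (by positivity)
    have h2 : K2 ^ 2 * (1 + (2 * s + L)) ≤ K2 ^ 2 * ((3 + L) * s) := by
      apply mul_le_mul_of_nonneg_left _ (by positivity)
      nlinarith only [hs1, hL0]
    have h3 : K2 ^ 2 * ((3 + L) * s) ≤ s * s := by
      have : K2 ^ 2 * ((3 + L) * s) = (K2 ^ 2 * (3 + L)) * s := by ring
      rw [this]
      exact mul_le_mul_of_nonneg_right hsM (by linarith)
    have h4 : s * s = l := by rw [← hs2]; ring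
    have h5 : 1 ≤ l := by nlinarith only [hs1, h4]
    linarith
  refine hQ1.trans ?_
  refine (mul_le_mul_of_nonneg_left hbr (by positivity)).trans (le_of_eq ?_)
  ring

lemma e_aux {μ b δ T l s : ℝ} {N : ℕ} (hμ : 1 ≤ μ) (hTl : T = Real.exp l) (hs2 : s ^ 2 = l)
    (hs60 : 60 ≤ s) (hsδ : 9 ≤ δ * s) (hδ : δ * l = 2 * l - 4 * b) (hNpos : (0 : ℝ) < N)
    (hNle : (N : ℝ) ≤ Real.exp (b + 2 * s)) :
    (∑ n ∈ Finset.Icc 1 N, |cc μ b n|) ^ 4 * Real.exp (-T ^ 2 / (4 * (N : ℝ) ^ 4)) ≤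
      Real.exp (-10 * l) := by
  have hE1 : (∑ n ∈ Finset.Icc 1 N, |cc μ b n|) ^ 4 ≤ 16 := by
    have h1 := sum_abs_cc hμ b N
    have h0 : 0 ≤ ∑ n ∈ Finset.Icc 1 N, |cc μ b n| := Finset.sum_nonneg (fun n _ => abs_nonneg _)
    calc (∑ n ∈ Finset.Icc 1 N, |cc μ b n|) ^ 4 ≤ 2 ^ 4 := pow_le_pow_left₀ h0 h1 4
      _ = 16 := by norm_num
  have hE2 : 10 * l + 3 ≤ T ^ 2 / (4 * (N : ℝ) ^ 4) := by
    have hN4 : (N : ℝ) ^ 4 ≤ Real.exp (4 * b + 8 * s) := by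
      calc (N : ℝ) ^ 4 ≤ (Real.exp (b + 2 * s)) ^ 4 := pow_le_pow_left₀ hNpos.le hNle 4
        _ = Real.exp (4 * b + 8 * s) := by
          rw [← Real.exp_nat_mul]; congr 1; push_cast; ring
    have hT2 : T ^ 2 = Real.exp (2 * l) := by
      rw [hTl, ← Real.exp_nat_mul]; push_cast; rfl
    rw [le_div_iff₀ (by positivity), hT2]
    have h1 : Real.exp (2 * l) = Real.exp (4 * b + 8 * s) * Real.exp (δ * l - 8 * s) := by
      rw [← Real.exp_add, hδ]; congr 1; ring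
    rw [h1]
    have h2 : s ≤ δ * l - 8 * s := by
      rw [← hs2]
      have : δ * s ^ 2 = (δ * s) * s := by ring
      rw [this]
      have h0 : 0 ≤ s := by linarith
      have := mul_le_mul_of_nonneg_right hsδ h0
      linarith
    have h3 : Real.exp s ≤ Real.exp (δ * l - 8 * s) := Real.exp_le_exp.2 h2
    have h4 := exp_large hs60
    have h10 : (10 * l + 3) * 4 ≤ Real.exp (δ * l - 8 * s) := by
      rw [hs2] at h4
      linarith
    calc (10 * l + 3) * (4 * (N : ℝ) ^ 4) = ((10 * l + 3) * 4) * (N : ℝ) ^ 4 := by ring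
      _ ≤ Real.exp (δ * l - 8 * s) * Real.exp (4 * b + 8 * s) :=
        mul_le_mul h10 hN4 (by positivity) (Real.exp_pos _).le
      _ = _ := by ring
  have h1 : Real.exp (-T ^ 2 / (4 * (N : ℝ) ^ 4)) ≤ Real.exp (-(10 * l + 3)) := by
    apply Real.exp_le_exp.2
    rw [neg_div]
    linarith
  have h2 : Real.exp (-(10 * l + 3)) = Real.exp (-10 * l) * Real.exp (-3) := by
    rw [← Real.exp_add]; congr 1; ring
  calc (∑ n ∈ Finset.Icc 1 N, |cc μ b n|) ^ 4 * Real.exp (-T ^ 2 / (4 * (N : ℝ) ^ 4))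
      ≤ 16 * (Real.exp (-10 * l) * Real.exp (-3)) := by
        rw [← h2]
        exact mul_le_mul hE1 h1 (Real.exp_pos _).le (by norm_num)
    _ = Real.exp (-10 * l) * (16 * Real.exp (-3)) := by ring
    _ ≤ Real.exp (-10 * l) * 1 := mul_le_mul_of_nonneg_left exp_neg3 (Real.exp_pos _).le
    _ = _ := mul_one _

lemma e_aux2 {K V T l h : ℝ} (hTl : T = Real.exp l) (hhpos : 0 < h) (hhT : h ≤ T) (hl1 : 1 ≤ l)
    (hK : 1 ≤ K) (hKl : K ≤ Real.exp l) (hVlow : Real.exp (-(3 / 2) * l) ≤ K * V) :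
    Real.exp (-10 * l) ≤ V ^ 2 * l / h := by
  rw [le_div_iff₀ hhpos]
  have h1 : Real.exp (-3 * l) ≤ K ^ 2 * V ^ 2 := by
    have : Real.exp (-3 * l) = Real.exp (-(3 / 2) * l) ^ 2 := by
      rw [← Real.exp_nat_mul]; congr 1; push_cast; ring
    rw [this, ← mul_pow]
    exact pow_le_pow_left₀ (Real.exp_pos _).le hVlow 2
  have h2 : K ^ 2 ≤ Real.exp (2 * l) := by
    have : Real.exp (2 * l) = Real.exp l ^ 2 := by
      rw [← Real.exp_nat_mul]; congr 1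
    rw [this]
    exact pow_le_pow_left₀ (by linarith) hKl 2
  have h3 : Real.exp (-10 * l) * h ≤ Real.exp (-10 * l) * Real.exp l :=
    mul_le_mul_of_nonneg_left (by rw [← hTl]; exact hhT) (Real.exp_pos _).le
  have h4 : Real.exp (-10 * l) * Real.exp l ≤ Real.exp (-3 * l) * Real.exp (-2 * l) := by
    rw [← Real.exp_add, ← Real.exp_add]
    apply Real.exp_le_exp.2
    linarith
  have h5 : Real.exp (-3 * l) * Real.exp (-2 * l) ≤ (K ^ 2 * V ^ 2) * Real.exp (-2 * l) :=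
    mul_le_mul_of_nonneg_right h1 (Real.exp_pos _).le
  have h6 : K ^ 2 * Real.exp (-2 * l) ≤ 1 := by
    rw [show -2 * l = -(2 * l) by ring, Real.exp_neg, ← div_eq_mul_inv, div_le_one (Real.exp_pos _)]
    exact h2
  have h7 : (K ^ 2 * V ^ 2) * Real.exp (-2 * l) ≤ V ^ 2 := by
    have : (K ^ 2 * V ^ 2) * Real.exp (-2 * l) = V ^ 2 * (K ^ 2 * Real.exp (-2 * l)) := by ring
    rw [this]
    have := mul_le_mul_of_nonneg_left h6 (sq_nonneg V)
    linarith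
  have h8 : V ^ 2 ≤ V ^ 2 * l := le_mul_of_one_le_right (sq_nonneg V) hl1
  linarith

/-- TARGET -/
theorem stat_bound : ∃ C₀ : ℝ, 0 < C₀ ∧ ∀ μ β : ℝ, 1 ≤ μ → 0 < β → β < 1 / 2 →
    ∃ T₀ : ℝ, 1 ≤ T₀ ∧ ∀ T h : ℝ, T₀ ≤ T → Real.log T ≤ h → h ≤ T →
      (volume {x : ℝ | x ∈ Set.Icc T (2 * T) ∧ ∀ r : ℝ, |r| ≤ h →
        ‖Dser μ (β * Real.log T) (x + r)‖ ≤ (T ^ 3)⁻¹}).toReal ≤ C₀ * T * Real.log T / h := by
  refine ⟨802 * Real.exp 4 * Real.sqrt Real.pi, by positivity, ?_⟩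
  intro μ β hμ hβ hβ2
  obtain ⟨K, hK1, hK⟩ := weights_bounds hμ
  set K2 : ℝ := max K 2 with hK2def
  have hK2K : K ≤ K2 := le_max_left _ _
  have hK22 : 2 ≤ K2 := le_max_right _ _
  set δ : ℝ := 2 - 4 * β with hδ
  have hδpos : 0 < δ := by rw [hδ]; linarith
  set L : ℝ := Real.log (2 * K2) with hL
  have hL0 : 0 ≤ L := Real.log_nonneg (by linarith)
  set M' : ℝ := K2 ^ 2 * (3 + L) with hM'
  have hM'0 : 0 ≤ M' := by positivity
  set S : ℝ := 60 + 1 / β + 2 * K2 + M' + 9 / δ with hS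
  have h1β : 0 < 1 / β := by positivity
  have h9δ : 0 < 9 / δ := by positivity
  have hS60 : 60 ≤ S := by rw [hS]; linarith
  refine ⟨Real.exp (S ^ 2), Real.one_le_exp (by positivity), ?_⟩
  intro T h hT hlh hhT
  have hTpos : 0 < T := lt_of_lt_of_le (Real.exp_pos _) hT
  set l : ℝ := Real.log T with hl
  have hlS : S ^ 2 ≤ l := by
    rw [hl, Real.le_log_iff_exp_le hTpos]; exact hT
  have hTl : T = Real.exp l := (Real.exp_log hTpos).symm
  set s : ℝ := Real.sqrt l with hs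
  have hl0 : 0 ≤ l := le_trans (by positivity) hlS
  have hs2 : s ^ 2 = l := Real.sq_sqrt hl0
  have hsS : S ≤ s := by
    rw [hs]; exact Real.le_sqrt_of_sq_le hlS
  have hs60 : 60 ≤ s := le_trans hS60 hsS
  have hs0 : 0 ≤ s := by linarith
  have hsβ : 1 / β ≤ s := by rw [hS] at hsS; linarith
  have hsK : 2 * K2 ≤ s := by rw [hS] at hsS; linarith
  have hsM : M' ≤ s := by rw [hS] at hsS; linarith
  have hsδ : 9 / δ ≤ s := by rw [hS] at hsS; linarith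
  have hl60 : 60 * s ≤ l := by rw [← hs2]; nlinarith only [hs60]
  set b : ℝ := β * l with hb
  have hbs : s ≤ b := by
    rw [hb, ← hs2]
    have : 1 ≤ β * s := by
      rw [div_le_iff₀ hβ] at hsβ; linarith
    nlinarith only [this, hs0]
  have hb1 : 1 ≤ b := by linarith
  have hbl : b ≤ l / 2 := by rw [hb]; nlinarith only [hβ2, hl0]
  have hexpb : 2 * K2 ≤ Real.exp b := by
    have := Real.add_one_le_exp b
    linarith
  set N : ℕ := ⌊Real.exp (b + 2 * s)⌋₊ with hN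
  have hNle : (N : ℝ) ≤ Real.exp (b + 2 * s) := Nat.floor_le (Real.exp_pos _).le
  have hNge : Real.exp (b + 2 * s) ≤ N + 1 := (Nat.lt_floor_add_one _).le
  have hexp2s : 61 ≤ Real.exp (2 * s) := by
    have := Real.add_one_le_exp (2 * s)
    linarith
  have hexpb1 : 1 ≤ Real.exp b := Real.one_le_exp (by linarith)
  have h2N : 2 * Real.exp b ≤ N := by
    have : Real.exp (b + 2 * s) = Real.exp b * Real.exp (2 * s) := Real.exp_add _ _
    nlinarith only [this, hexp2s, hexpb1, hNge]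
  have hNpos : (0 : ℝ) < N := by linarith
  have hlogN : Real.log N ≤ b + 2 * s := by
    rw [Real.log_le_iff_le_exp hNpos]; exact hNle
  have hlogNh : Real.log N ≤ h := by linarith
  have hlh1 : 1 ≤ h := by linarith
  have hhpos : 0 < h := by linarith
  obtain ⟨hV1, hS2, hS1⟩ := hK b hb1 N h2N
  set V : ℝ := ∑ n ∈ Finset.Icc 1 N, vw μ b n ^ 2 with hV
  have hVc : ∑ n ∈ Finset.Icc 1 N, cc μ b n ^ 2 = V := by
    rw [hV]; exact Finset.sum_congr rfl (fun n _ => sq_cc μ b n)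
  have hKpos : 0 < K := by linarith
  have hVpos : 0 < V := by
    have h0 := Real.exp_pos (-3 * b)
    exact pos_of_mul_pos_right (lt_of_lt_of_le h0 hV1) hKpos.le
  -- lower bound of V
  have hVlow : Real.exp (-(3 / 2) * l) ≤ K * V := by
    refine le_trans (Real.exp_le_exp.2 ?_) hV1
    linarith
  have hKl : 16 * K ≤ Real.exp l := by
    have := Real.add_one_le_exp l
    linarith
  have hl1 : 1 ≤ l := by linarith
  -- subset
  have hsub : {x : ℝ | x ∈ Set.Icc T (2 * T) ∧ ∀ r : ℝ, |r| ≤ h →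
        ‖Dser μ b (x + r)‖ ≤ (T ^ 3)⁻¹} ⊆
      {x : ℝ | x ∈ Set.Icc T (2 * T) ∧ ∀ r : ℝ, |r| ≤ h →
        ‖Psum (cc μ b) N (x + r)‖ ^ 2 ≤ (∑ n ∈ Finset.Icc 1 N, cc μ b n ^ 2) / 4} := by
    rintro x ⟨hx, hr⟩
    refine ⟨hx, fun r hrh => ?_⟩
    have h1 := hr r hrh
    have h2 := tail_le hμ b (x + r) hs0 N hNge
    rw [hs2] at h2
    rw [hVc]
    exact subset_aux (b := b) (y := x) hTl hl1 hK1 hVpos hVlow hKl h1 h2
  have hfin : (volume {x : ℝ | x ∈ Set.Icc T (2 * T) ∧ ∀ r : ℝ, |r| ≤ h →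
        ‖Psum (cc μ b) N (x + r)‖ ^ 2 ≤ (∑ n ∈ Finset.Icc 1 N, cc μ b n ^ 2) / 4}) ≠ ⊤ := by
    refine ne_top_of_le_ne_top ?_ (measure_mono (fun x hx => hx.1) : _ ≤ volume (Set.Icc T (2 * T)))
    rw [Real.volume_Icc]
    exact ENNReal.ofReal_ne_top
  have hmono := ENNReal.toReal_mono hfin (measure_mono hsub)
  refine hmono.trans ?_
  have hbad := bad_measure (cc μ b) N hhpos hTpos (by rw [hVc]; exact hVpos)
  rw [hVc] at hbad
  rw [hVc]
  set mm : ℝ := (volume {x : ℝ | x ∈ Set.Icc T (2 * T) ∧ ∀ r : ℝ, |r| ≤ h →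
        ‖Psum (cc μ b) N (x + r)‖ ^ 2 ≤ V / 4}).toReal with hmm
  have hQ2 := q_aux (μ := μ) (b := b) (h := h) (V := V) (K2 := K2) (l := l) (s := s) (N := N) K
    (by linarith) hs2 hK2K hK22 hsM hexpb (by linarith) hNle h2N hlogNh hlh1 hVpos hS2 hS1
  have hE3 := e_aux (μ := μ) (b := b) (δ := δ) (T := T) (l := l) (s := s) (N := N) hμ hTl hs2 hs60
    (by rw [div_le_iff₀ hδpos] at hsδ; linarith) (by rw [hδ, hb]; ring) hNpos hNle
  have hE4 := e_aux2 (K := K) (V := V) hTl hhpos hhT hl1 hK1 (by linarith) hVlow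
  have hfinal : mm * V ^ 2 ≤ 2 * Real.exp 4 * Real.sqrt Real.pi * T * (401 * (V ^ 2 * l / h)) := by
    refine hbad.trans ?_
    apply mul_le_mul_of_nonneg_left _ (by positivity)
    linarith
  have hV2 : 0 < V ^ 2 := by positivity
  have : mm * V ^ 2 ≤ (802 * Real.exp 4 * Real.sqrt Real.pi * T * l / h) * V ^ 2 := by
    refine hfinal.trans (le_of_eq ?_)
    ring
  exact le_of_mul_le_mul_right this hV2

end Pool.Agent.Helper242.KK
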