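import Pool.Agent.Helper242.KK.Defs

set_option autoImplicit false

namespace Pool.Agent.Helper242.KK

open Complex MeasureTheory Filter Topology Metric

theorem aux_xpow {T x₀ : ℝ} (hT : 0 < T) (h0 : T ≤ x₀) (h1 : x₀ ≤ 3 * T) :
    x₀ ^ 4 ≤ 81 * Real.exp (4 * Real.log T) := by
  have h2 : x₀ ^ 4 ≤ (3 * T) ^ 4 := pow_le_pow_left₀ (by linarith) h1 4
  have h3 : Real.exp (4 * Real.log T) = T ^ 4 := by
    have : 4 * Real.log T = ((4 : ℕ) : ℝ) * Real.log T := by norm_num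
    rw [this, Real.exp_nat_mul, Real.exp_log hT]
  rw [h3]
  calc x₀ ^ 4 ≤ (3 * T) ^ 4 := h2
    _ = 81 * T ^ 4 := by ring

theorem aux_log {T x₀ : ℝ} (hT : 0 < T) (h0 : T ≤ x₀) (h1 : x₀ ≤ 3 * T) :
    Real.log T ≤ Real.log x₀ ∧ Real.log x₀ ≤ Real.log T + 2 := by
  constructor
  · exact Real.log_le_log hT h0
  · have h2 : Real.log x₀ ≤ Real.log (3 * T) := Real.log_le_log (by linarith) h1
    rw [Real.log_mul (by norm_num) hT.ne'] at h2
    have h3 := Real.log_le_sub_one_of_pos (show (0 : ℝ) < 3 by norm_num)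
    linarith

/-- TARGET 1 -/
theorem exists_good_universal {μ C X : ℝ} (hμ : 1 ≤ μ) {f : ℝ → ℂ} {D : ℝ → ℝ → ℂ}
    (hC : 0 < C) (hX : 1 ≤ X) (hD0 : ∀ x : ℝ, 1 / 4 ≤ ‖D 0 x‖)
    (hD : ∀ x₀ b ρ m : ℝ, X ≤ x₀ → 0 ≤ b → b ≤ Real.log x₀ → 0 ≤ ρ → 0 ≤ m →
      (∀ x : ℝ, |x - x₀| ≤ ρ → ‖f x‖ * Real.exp (Real.pi / 4 * |x|) ≤ m) →
      ‖D b x₀‖ ≤ C * x₀ ^ 4 * Real.exp (2 * μ * (1 + 1 / 20) * (Real.log x₀ / 2 - b) ^ 2) *
        (m + Real.exp (-(1 - 1 / 20) ^ 2 * ρ ^ 2 / (8 * μ)))) :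
    ∃ T₁ : ℝ, ∀ T x₀ : ℝ, T₁ ≤ T → T ≤ x₀ → x₀ ≤ 3 * T →
      ∃ x : ℝ, |x - x₀| ≤ 11 / 5 * μ * Real.log T ∧
        Real.exp (-(11 / 20) * μ * Real.log T ^ 2) < ‖f x‖ * Real.exp (Real.pi / 4 * |x|) := by
  refine ⟨max X (Real.exp (3000 + 648 * C)), fun T x₀ hT hx0 hx1 => ?_⟩
  by_contra hc
  push Not at hc
  have hTpos : 0 < T := (Real.exp_pos _).trans_le ((le_max_right _ _).trans hT)
  have hl := (Real.le_log_iff_exp_le hTpos).2 ((le_max_right _ _).trans hT)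
  have hX' : X ≤ x₀ := ((le_max_left _ _).trans hT).trans hx0
  have hx4 := aux_xpow hTpos hx0 hx1
  obtain ⟨hlg1, hlg2⟩ := aux_log hTpos hx0 hx1
  set l := Real.log T with hldef
  have hl0 : 3000 ≤ l := by linarith
  have h := hD x₀ 0 (11 / 5 * μ * l) (Real.exp (-(11 / 20) * μ * l ^ 2)) hX' le_rfl
    (by linarith) (by positivity) (Real.exp_pos _).le hc
  have hq := hD0 x₀
  have e2 : Real.exp (2 * μ * (1 + 1 / 20) * (Real.log x₀ / 2 - 0) ^ 2) ≤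
      Real.exp (21 / 40 * μ * (l + 2) ^ 2) := by
    apply Real.exp_le_exp.2
    have h1 : (Real.log x₀) ^ 2 ≤ (l + 2) ^ 2 := pow_le_pow_left₀ (by linarith) hlg2 2
    have h2 := mul_le_mul_of_nonneg_left h1 (show 0 ≤ 21 / 40 * μ by positivity)
    calc 2 * μ * (1 + 1 / 20) * (Real.log x₀ / 2 - 0) ^ 2 = 21 / 40 * μ * (Real.log x₀) ^ 2 := by
          ring
      _ ≤ _ := h2
  have e3 : Real.exp (-(11 / 20) * μ * l ^ 2) +
      Real.exp (-(1 - 1 / 20) ^ 2 * (11 / 5 * μ * l) ^ 2 / (8 * μ)) ≤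
      2 * Real.exp (-(546 / 1000) * μ * l ^ 2) := by
    have hml : 0 ≤ μ * l ^ 2 := by positivity
    have h1 : Real.exp (-(11 / 20) * μ * l ^ 2) ≤ Real.exp (-(546 / 1000) * μ * l ^ 2) := by
      apply Real.exp_le_exp.2
      nlinarith
    have h2 : Real.exp (-(1 - 1 / 20) ^ 2 * (11 / 5 * μ * l) ^ 2 / (8 * μ)) ≤
        Real.exp (-(546 / 1000) * μ * l ^ 2) := by
      apply Real.exp_le_exp.2
      have h3 : -(1 - 1 / 20) ^ 2 * (11 / 5 * μ * l) ^ 2 / (8 * μ) =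
          -(43681 / 80000) * (μ * l ^ 2) := by
        field_simp
        norm_num
      rw [h3]
      nlinarith
    linarith
  have hfin : ‖D 0 x₀‖ ≤ C * (81 * Real.exp (4 * l)) * Real.exp (21 / 40 * μ * (l + 2) ^ 2) *
      (2 * Real.exp (-(546 / 1000) * μ * l ^ 2)) := by
    refine h.trans ?_
    gcongr
  have h5 : C * (81 * Real.exp (4 * l)) * Real.exp (21 / 40 * μ * (l + 2) ^ 2) *
      (2 * Real.exp (-(546 / 1000) * μ * l ^ 2)) =
      162 * C * Real.exp (4 * l + 21 / 40 * μ * (l + 2) ^ 2 + -(546 / 1000) * μ * l ^ 2) := by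
    rw [Real.exp_add, Real.exp_add]
    ring
  rw [h5] at hfin
  have h6 : 4 * l + 21 / 40 * μ * (l + 2) ^ 2 + -(546 / 1000) * μ * l ^ 2 ≤ -(20 * l) := by
    have h7 : 21 / 40 * (l + 2) ^ 2 - 546 / 1000 * l ^ 2 ≤ -(2 / 100) * l ^ 2 := by nlinarith
    have h8 := mul_le_mul_of_nonneg_left h7 (show 0 ≤ μ by linarith)
    have h9 : (2 / 100) * l ^ 2 ≤ μ * ((2 / 100) * l ^ 2) :=
      le_mul_of_one_le_left (by positivity) hμ
    have h11 : 21 / 40 * μ * (l + 2) ^ 2 + -(546 / 1000) * μ * l ^ 2 =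
        μ * (21 / 40 * (l + 2) ^ 2 - 546 / 1000 * l ^ 2) := by ring
    have h12 : μ * (-(2 / 100) * l ^ 2) = -(μ * ((2 / 100) * l ^ 2)) := by ring
    have h13 : 3000 * l ≤ l ^ 2 := by nlinarith
    linarith
  have h7 := Real.exp_le_exp.2 h6
  have h8 : ‖D 0 x₀‖ ≤ 162 * C * Real.exp (-(20 * l)) :=
    hfin.trans (mul_le_mul_of_nonneg_left h7 (by positivity))
  have h9 : 20 * l + 1 ≤ Real.exp (20 * l) := Real.add_one_le_exp _
  have h10 : 648 * C < Real.exp (20 * l) := by linarith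
  rw [Real.exp_neg] at h8
  have h11 : 162 * C * (Real.exp (20 * l))⁻¹ < 1 / 4 := by
    rw [← div_eq_mul_inv, div_lt_iff₀ (Real.exp_pos _)]
    linarith
  linarith

/-- TARGET 2 -/
theorem small_of_bad {μ q C X : ℝ} (hμ : 1 ≤ μ) (hq : 0 < q) (hq1 : q ≤ 1 / 40) {f : ℝ → ℂ}
    {D : ℝ → ℝ → ℂ} (hC : 0 < C) (hX : 1 ≤ X)
    (hD : ∀ x₀ b ρ m : ℝ, X ≤ x₀ → 0 ≤ b → b ≤ Real.log x₀ → 0 ≤ ρ → 0 ≤ m →
      (∀ x : ℝ, |x - x₀| ≤ ρ → ‖f x‖ * Real.exp (Real.pi / 4 * |x|) ≤ m) →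
      ‖D b x₀‖ ≤ C * x₀ ^ 4 * Real.exp (2 * μ * (1 + 1 / 20) * (Real.log x₀ / 2 - b) ^ 2) *
        (m + Real.exp (-(1 - 1 / 20) ^ 2 * ρ ^ 2 / (8 * μ)))) :
    ∃ T₁ : ℝ, ∀ T x₀ : ℝ, T₁ ≤ T → T ≤ x₀ → x₀ ≤ 3 * T →
      (∀ x : ℝ, |x - x₀| ≤ 5 * q * μ * Real.log T →
        ‖f x‖ * Real.exp (Real.pi / 4 * |x|) ≤ Real.exp (-3 * q ^ 2 * μ * Real.log T ^ 2)) →
      ‖D ((1 / 2 - q) * Real.log T) x₀‖ ≤ (T ^ 3)⁻¹ := by
  refine ⟨max X (Real.exp (20 / q ^ 2 + 24 * C)), fun T x₀ hT hx0 hx1 hc => ?_⟩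
  have hTpos : 0 < T := (Real.exp_pos _).trans_le ((le_max_right _ _).trans hT)
  have hl := (Real.le_log_iff_exp_le hTpos).2 ((le_max_right _ _).trans hT)
  have hX' : X ≤ x₀ := ((le_max_left _ _).trans hT).trans hx0
  have hx4 := aux_xpow hTpos hx0 hx1
  obtain ⟨hlg1, hlg2⟩ := aux_log hTpos hx0 hx1
  have hT3 : (T ^ 3)⁻¹ = Real.exp (-(3 * Real.log T)) := by
    have : 3 * Real.log T = ((3 : ℕ) : ℝ) * Real.log T := by norm_num
    rw [this, Real.exp_neg, Real.exp_nat_mul, Real.exp_log hTpos]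
  rw [hT3]
  set l := Real.log T with hldef
  have hl1 : 20 / q ^ 2 ≤ l := by linarith
  have hl2 : 20 ≤ q ^ 2 * l := by
    rw [div_le_iff₀ (by positivity)] at hl1
    linarith
  have hlpos : 0 < l := lt_of_lt_of_le (by positivity) hl1
  have hql : 800 ≤ q * l := by
    have h1 : q ^ 2 * l ≤ 1 / 40 * (q * l) := by
      have := mul_le_mul_of_nonneg_right hq1 (show 0 ≤ q * l by positivity)
      calc q ^ 2 * l = q * (q * l) := by ring
        _ ≤ _ := this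
    linarith
  have hb0 : 0 ≤ (1 / 2 - q) * l := mul_nonneg (by linarith) hlpos.le
  have hb1 : (1 / 2 - q) * l ≤ Real.log x₀ := by nlinarith
  have h := hD x₀ ((1 / 2 - q) * l) (5 * q * μ * l) (Real.exp (-3 * q ^ 2 * μ * l ^ 2)) hX' hb0 hb1
    (by positivity) (Real.exp_pos _).le hc
  have e2 : Real.exp (2 * μ * (1 + 1 / 20) * (Real.log x₀ / 2 - (1 / 2 - q) * l) ^ 2) ≤
      Real.exp (21 / 10 * μ * (q * l + 1) ^ 2) := by
    apply Real.exp_le_exp.2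
    have h1 : (Real.log x₀ / 2 - (1 / 2 - q) * l) ^ 2 ≤ (q * l + 1) ^ 2 :=
      pow_le_pow_left₀ (by nlinarith) (by nlinarith) 2
    have h2 := mul_le_mul_of_nonneg_left h1 (show 0 ≤ 21 / 10 * μ by positivity)
    calc 2 * μ * (1 + 1 / 20) * (Real.log x₀ / 2 - (1 / 2 - q) * l) ^ 2 =
          21 / 10 * μ * (Real.log x₀ / 2 - (1 / 2 - q) * l) ^ 2 := by ring
      _ ≤ _ := h2
  have e3 : Real.exp (-3 * q ^ 2 * μ * l ^ 2) +
      Real.exp (-(1 - 1 / 20) ^ 2 * (5 * q * μ * l) ^ 2 / (8 * μ)) ≤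
      2 * Real.exp (-(282 / 100) * μ * (q * l) ^ 2) := by
    have hml : 0 ≤ μ * (q * l) ^ 2 := by positivity
    have h1 : Real.exp (-3 * q ^ 2 * μ * l ^ 2) ≤ Real.exp (-(282 / 100) * μ * (q * l) ^ 2) := by
      apply Real.exp_le_exp.2
      nlinarith
    have h2 : Real.exp (-(1 - 1 / 20) ^ 2 * (5 * q * μ * l) ^ 2 / (8 * μ)) ≤
        Real.exp (-(282 / 100) * μ * (q * l) ^ 2) := by
      apply Real.exp_le_exp.2
      have h3 : -(1 - 1 / 20) ^ 2 * (5 * q * μ * l) ^ 2 / (8 * μ) =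
          -(361 / 128) * (μ * (q * l) ^ 2) := by
        field_simp
        norm_num
      rw [h3]
      nlinarith
    linarith
  have hfin : ‖D ((1 / 2 - q) * l) x₀‖ ≤ C * (81 * Real.exp (4 * l)) *
      Real.exp (21 / 10 * μ * (q * l + 1) ^ 2) *
      (2 * Real.exp (-(282 / 100) * μ * (q * l) ^ 2)) := by
    refine h.trans ?_
    gcongr
  have h5 : C * (81 * Real.exp (4 * l)) * Real.exp (21 / 10 * μ * (q * l + 1) ^ 2) *
      (2 * Real.exp (-(282 / 100) * μ * (q * l) ^ 2)) =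
      162 * C * Real.exp (4 * l + 21 / 10 * μ * (q * l + 1) ^ 2 +
        -(282 / 100) * μ * (q * l) ^ 2) := by
    rw [Real.exp_add, Real.exp_add]
    ring
  rw [h5] at hfin
  have h6 : 4 * l + 21 / 10 * μ * (q * l + 1) ^ 2 + -(282 / 100) * μ * (q * l) ^ 2 ≤
      -(10 * l) := by
    have h7 : 21 / 10 * (q * l + 1) ^ 2 - 282 / 100 * (q * l) ^ 2 ≤ -(70 / 100) * (q * l) ^ 2 := by
      nlinarith
    have h8 := mul_le_mul_of_nonneg_left h7 (show 0 ≤ μ by linarith)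
    have h9 : (70 / 100) * (q * l) ^ 2 ≤ μ * ((70 / 100) * (q * l) ^ 2) :=
      le_mul_of_one_le_left (by positivity) hμ
    have h10 : 20 * l ≤ (q * l) ^ 2 := by
      have := mul_le_mul_of_nonneg_right hl2 hlpos.le
      calc 20 * l ≤ q ^ 2 * l * l := this
        _ = (q * l) ^ 2 := by ring
    have h11 : 21 / 10 * μ * (q * l + 1) ^ 2 + -(282 / 100) * μ * (q * l) ^ 2 =
        μ * (21 / 10 * (q * l + 1) ^ 2 - 282 / 100 * (q * l) ^ 2) := by ring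
    have h12 : μ * (-(70 / 100) * (q * l) ^ 2) = -(μ * ((70 / 100) * (q * l) ^ 2)) := by ring
    linarith
  have h7 := Real.exp_le_exp.2 h6
  have h8 : ‖D ((1 / 2 - q) * l) x₀‖ ≤ 162 * C * Real.exp (-(10 * l)) :=
    hfin.trans (mul_le_mul_of_nonneg_left h7 (by positivity))
  refine h8.trans ?_
  have h9 : 7 * l + 1 ≤ Real.exp (7 * l) := Real.add_one_le_exp _
  have hl3 : 24 * C ≤ l := by
    have : 0 < 20 / q ^ 2 := by positivity
    linarith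
  have h10 : 162 * C ≤ Real.exp (7 * l) := by linarith
  have h11 : Real.exp (-(3 * l)) = Real.exp (7 * l) * Real.exp (-(10 * l)) := by
    rw [← Real.exp_add]
    congr 1
    ring
  rw [h11]
  exact mul_le_mul_of_nonneg_right h10 (Real.exp_pos _).le

end Pool.Agent.Helper242.KK
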