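import Pool.Agent.Helper242.KK.Bound
import Pool.Agent.Helper242.KK.Stat
import Pool.Agent.Helper242.KK.Count
import Pool.Agent.Helper242.KK.RealC
import Pool.Agent.Helper242.KK.Many
import Pool.Agent.Helper242.KK.WinAsym
import Pool.Agent.Helper242.KK.Final2

set_option autoImplicit false

/-!
# Assembly
-/

namespace Pool.Agent.Helper242.KK

open Complex MeasureTheory Filter Topology Metric

theorem main_XiM {ε : ℝ} (hε : 0 < ε) (hε1 : ε ≤ 1) : ∃ L : ℝ, 0 < L ∧ ∀ μ : ℝ, L ≤ μ →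
    ∃ᶠ R : ℝ in atTop, zc (XiM μ) {z | z.im = 0 ∧ ‖z‖ ≤ R} <
      ENNReal.ofReal ε * zc (XiM μ) (closedBall 0 R) := by
  obtain ⟨C₀, hC₀, hstat⟩ := stat_bound
  set q : ℝ := ε / 4000000 with hq
  have hq0 : 0 < q := by positivity
  have hqs : q ≤ 1 / 4000000 := by rw [hq]; gcongr
  refine ⟨max (1 / q) (4 * C₀ / q ^ 3), by positivity, fun μ hμ => ?_⟩
  have hμ1 : 1 / q ≤ μ := (le_max_left _ _).trans hμ
  have hμ2 : 4 * C₀ / q ^ 3 ≤ μ := (le_max_right _ _).trans hμ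
  have hμ3 : 1 ≤ μ := by
    refine le_trans ?_ hμ1
    rw [le_div_iff₀ hq0]
    linarith
  have hμ0 : 0 < μ := by linarith
  have hf := differentiable_XiM hμ0.le
  obtain ⟨C, X, hC, hX, hD⟩ := Dser_window hμ0
  obtain ⟨Cs, hCs, hstrip⟩ := XiM_strip hμ0
  obtain ⟨C', hC', hJ⟩ := zc_real_centre hf hμ0 hstrip
  have h1 := exists_good_universal hμ3 hC hX (fun x => Dser_zero_lower hμ0.le x) hD
  have h2 := small_of_bad (q := q) hμ3 hq0 (by linarith) hC hX hD
  obtain ⟨T₁, hT₁, h3⟩ := hstat μ (1 / 2 - q) hμ3 (by linarith) (by linarith)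
  have hdy := count_dyadic (D := Dser μ) hq0 (by linarith) hμ1 hC₀ hμ2 hC' hJ h1 h2
    ⟨T₁, fun T h a b c => h3 T h a b c⟩
  obtain ⟨Cu, hCu, hup⟩ := XiM_upper hμ0.le
  obtain ⟨Cl, hCl, hlow⟩ := XiM_lower hμ0.le
  have hmany := many_zeros (C := max Cu Cl) hf (XiM_neg μ) (XiM_zero_ne hμ0.le)
    (fun z => (hup z).trans (Real.exp_le_exp.2 (by
      have : Cu * (1 + |z.im|) ≤ max Cu Cl * (1 + |z.im|) :=
        mul_le_mul_of_nonneg_right (le_max_left _ _) (by positivity)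
      linarith)))
    (fun y hy => le_trans (Real.exp_le_exp.2 (by
      have : Cl * y ≤ max Cu Cl * y :=
        mul_le_mul_of_nonneg_right (le_max_right _ _) (by linarith)
      linarith)) (hlow y hy))
  exact frequently_few_real hf (XiM_neg μ) (XiM_zero_ne hμ0.le) hq0 hε hq.le hmany hdy

/-- The count in a ball is finite. -/
theorem XiM_ball_lt_top {μ : ℝ} (hμ : 0 ≤ μ) (R : ℝ) : zc (XiM μ) (closedBall 0 R) < ⊤ :=
  zc_ball_lt_top (differentiable_XiM hμ) (XiM_zero_ne hμ) R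

end Pool.Agent.Helper242.KK
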