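import Pool.Agent.Helper242.KK.Defs
import Pool.Agent.Helper242.KK.Gam2

set_option autoImplicit false

namespace Pool.Agent.Helper242.KK

open Complex MeasureTheory Filter Topology

/-- TARGET 1 -/
theorem Efun_mul (s : ℂ) : Efun s * (s - 1) = 1 - (2 : ℂ) ^ (1 - s) := by
  have h := sub_smul_dslope (fun s : ℂ => -(2 : ℂ) ^ (1 - s)) 1 s
  simp only [smul_eq_mul, sub_self, cpow_zero] at h
  unfold Efun
  rw [mul_comm, h]
  ring

theorem hasDerivAt_negtwo (x : ℂ) : HasDerivAt (fun s : ℂ => -(2 : ℂ) ^ (1 - s))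
    (Complex.log 2 * (2 : ℂ) ^ (1 - x)) x := by
  have h1 : HasDerivAt (fun s : ℂ => 1 - s) (-1) x := (hasDerivAt_id' x).const_sub 1
  have h2 : HasDerivAt (fun s : ℂ => -(2 : ℂ) ^ (1 - s)) (-((2 : ℂ) ^ (1 - x) * Complex.log 2 * (-1))) x :=
    (h1.const_cpow (c := (2 : ℂ)) (Or.inl two_ne_zero)).neg
  have h3 : (-((2 : ℂ) ^ (1 - x) * Complex.log 2 * (-1))) = Complex.log 2 * (2 : ℂ) ^ (1 - x) := by ring
  rw [h3] at h2
  exact h2

/-- TARGET 2 -/
theorem differentiable_Efun : Differentiable ℂ Efun := by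
  have h : DifferentiableOn ℂ (dslope (fun s : ℂ => -(2 : ℂ) ^ (1 - s)) 1) Set.univ := by
    rw [Complex.differentiableOn_dslope Filter.univ_mem]
    intro x _
    exact (hasDerivAt_negtwo x).differentiableAt.differentiableWithinAt
  have h2 := differentiableOn_univ.1 h
  exact h2

/-- TARGET 3 -/
theorem norm_Efun_le (s : ℂ) : ‖Efun s‖ ≤ Real.exp |1 - s.re| := by
  have hlog2 : ‖Complex.log 2‖ ≤ 1 := by
    have : Complex.log 2 = ((Real.log 2 : ℝ) : ℂ) := by
      rw [Complex.ofReal_log (by norm_num)]; norm_num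
    rw [this, Complex.norm_real, Real.norm_of_nonneg (Real.log_nonneg (by norm_num))]
    linarith [Real.log_two_lt_d9]
  have hder : ∀ w : ℂ, |1 - w.re| ≤ |1 - s.re| → ‖Complex.log 2 * (2 : ℂ) ^ (1 - w)‖ ≤ Real.exp |1 - s.re| := by
    intro w hw
    rw [norm_mul]
    have h2 : ‖(2 : ℂ) ^ (1 - w)‖ = (2 : ℝ) ^ (1 - w.re) := by
      have := Complex.norm_cpow_eq_rpow_re_of_pos (show (0 : ℝ) < 2 by norm_num) (1 - w)
      simpa using this
    rw [h2]
    have h3 : (2 : ℝ) ^ (1 - w.re) ≤ Real.exp |1 - s.re| := by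
      rw [Real.rpow_def_of_pos (by norm_num : (0 : ℝ) < 2)]
      apply Real.exp_le_exp.2
      calc Real.log 2 * (1 - w.re) ≤ Real.log 2 * |1 - w.re| := by
            apply mul_le_mul_of_nonneg_left (le_abs_self _) (Real.log_nonneg (by norm_num))
        _ ≤ 1 * |1 - w.re| := by
            apply mul_le_mul_of_nonneg_right _ (abs_nonneg _)
            linarith [Real.log_two_lt_d9]
        _ ≤ |1 - s.re| := by rw [one_mul]; exact hw
    calc ‖Complex.log 2‖ * (2 : ℝ) ^ (1 - w.re) ≤ 1 * Real.exp |1 - s.re| :=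
          mul_le_mul hlog2 h3 (by positivity) zero_le_one
      _ = _ := one_mul _
  by_cases hs : s = 1
  · subst hs
    unfold Efun
    rw [dslope_same, (hasDerivAt_negtwo 1).deriv]
    exact hder 1 (by simp)
  · have hcv : Convex ℝ (Complex.re ⁻¹' (Set.Icc (1 - |1 - s.re|) (1 + |1 - s.re|))) :=
      (convex_Icc _ _).linear_preimage Complex.reLm
    have hmem : ∀ w ∈ (Complex.re ⁻¹' (Set.Icc (1 - |1 - s.re|) (1 + |1 - s.re|))),
        |1 - w.re| ≤ |1 - s.re| := by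
      intro w hw
      have h1 : 1 - |1 - s.re| ≤ w.re := hw.1
      have h2 : w.re ≤ 1 + |1 - s.re| := hw.2
      rw [abs_le]
      constructor <;> linarith
    have m1 : (1 : ℂ) ∈ (Complex.re ⁻¹' (Set.Icc (1 - |1 - s.re|) (1 + |1 - s.re|))) := by
      have h1 : 0 ≤ |1 - s.re| := abs_nonneg _
      refine ⟨?_, ?_⟩
      · show 1 - |1 - s.re| ≤ (1 : ℂ).re
        rw [Complex.one_re]; linarith
      · show (1 : ℂ).re ≤ 1 + |1 - s.re|
        rw [Complex.one_re]; linarith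
    have m2 : s ∈ (Complex.re ⁻¹' (Set.Icc (1 - |1 - s.re|) (1 + |1 - s.re|))) := by
      have h1 : 1 - s.re ≤ |1 - s.re| := le_abs_self _
      have h2 : -(1 - s.re) ≤ |1 - s.re| := neg_le_abs _
      refine ⟨?_, ?_⟩
      · show 1 - |1 - s.re| ≤ s.re
        linarith
      · show s.re ≤ 1 + |1 - s.re|
        linarith
    have h := hcv.norm_image_sub_le_of_norm_hasDerivWithin_le
      (f := fun s : ℂ => -(2 : ℂ) ^ (1 - s)) (f' := fun w => Complex.log 2 * (2 : ℂ) ^ (1 - w))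
      (fun x _ => (hasDerivAt_negtwo x).hasDerivWithinAt) (fun x hx => hder x (hmem x hx))
      (x := 1) (y := s) m1 m2
    have hne : 0 < ‖s - 1‖ := norm_pos_iff.2 (sub_ne_zero.2 hs)
    have h4 := Efun_mul s
    have h5 : ‖Efun s‖ * ‖s - 1‖ ≤ Real.exp |1 - s.re| * ‖s - 1‖ := by
      rw [← norm_mul, h4]
      refine le_trans (le_of_eq ?_) h
      congr 1
      simp only [sub_self, cpow_zero]
      ring
    exact le_of_mul_le_mul_right h5 hne

/-- TARGET 4 -/
theorem differentiable_qf : Differentiable ℂ qf := by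
  unfold qf
  have h1 : Differentiable ℂ (fun z : ℂ => 1 / 2 + I * z) := by fun_prop
  have h2 : Differentiable ℂ (fun z : ℂ => (1 / 2 + I * z) / 2) := by fun_prop
  have h3 : Differentiable ℂ (fun z : ℂ => 5 / 4 + I * z / 2) := by fun_prop
  refine ((differentiable_Efun.comp h1).mul ?_).mul (Complex.differentiable_one_div_Gamma.comp h3)
  intro z
  refine DifferentiableAt.const_cpow (h2 z) (Or.inl ?_)
  exact_mod_cast Real.pi_ne_zero

/-- TARGET 5 -/
theorem norm_qf_le {ε : ℝ} (hε : 0 < ε) : ∃ C : ℝ, 0 < C ∧ ∀ x r : ℝ,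
    ‖qf (x + r * I)‖ ≤
      C * Real.exp (ε * r ^ 2) * (1 + |x|) ^ (3 / 4 + r / 2) * Real.exp (Real.pi / 4 * |x|) := by
  obtain ⟨C, hC, hG⟩ := inv_Gamma_bound hε
  refine ⟨C * Real.exp (7 / 4 + 25 * ε / 8 + 25 / (8 * ε)), by positivity, ?_⟩
  intro x r
  unfold qf
  rw [norm_mul, norm_mul]
  have e1 : (1 / 2 + I * ((x : ℂ) + r * I)) = (((1 / 2 - r : ℝ) : ℂ) + x * I) := by
    push_cast
    linear_combination (r : ℂ) * I_mul_I
  have e2 : (5 / 4 + I * ((x : ℂ) + r * I) / 2) = (((5 / 4 - r / 2 : ℝ) : ℂ) + ((x / 2 : ℝ) : ℂ) * I) := by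
    push_cast
    linear_combination (r : ℂ) / 2 * I_mul_I
  have b1 : ‖Efun (1 / 2 + I * ((x : ℂ) + r * I))‖ ≤ Real.exp (1 / 2 + |r|) := by
    refine (norm_Efun_le _).trans ?_
    apply Real.exp_le_exp.2
    rw [e1]
    have : (((1 / 2 - r : ℝ) : ℂ) + x * I).re = 1 / 2 - r := by simp
    rw [this]
    have : (1 - (1 / 2 - r)) = 1 / 2 + r := by ring
    rw [this]
    refine (abs_add_le _ _).trans ?_
    norm_num
  have hlp0 : 0 ≤ Real.log Real.pi := Real.log_nonneg (by linarith [Real.pi_gt_three])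
  have hlp2 : Real.log Real.pi ≤ 2 := by
    rw [Real.log_le_iff_le_exp Real.pi_pos]
    have h1 : (2.7182818283 : ℝ) < Real.exp 1 := Real.exp_one_gt_d9
    have h2 : Real.exp 2 = Real.exp 1 * Real.exp 1 := by rw [← Real.exp_add]; norm_num
    rw [h2]
    nlinarith [Real.pi_lt_four, Real.pi_le_four]
  have b2 : ‖(Real.pi : ℂ) ^ ((1 / 2 + I * ((x : ℂ) + r * I)) / 2)‖ ≤ Real.exp (1 / 2 + |r|) := by
    rw [Complex.norm_cpow_eq_rpow_re_of_pos Real.pi_pos, e1]
    have : ((((1 / 2 - r : ℝ) : ℂ) + x * I) / 2).re = (1 / 2 - r) / 2 := by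
      have : ((((1 / 2 - r : ℝ) : ℂ) + x * I) / 2) = (((1 / 2 - r) / 2 : ℝ) : ℂ) + ((x / 2 : ℝ) : ℂ) * I := by
        push_cast; ring
      rw [this]; simp
    rw [this, Real.rpow_def_of_pos Real.pi_pos]
    apply Real.exp_le_exp.2
    have h1 : (1 / 2 - r) / 2 ≤ 1 / 4 + |r| / 2 := by linarith [neg_abs_le r]
    have h0 : 0 ≤ 1 / 4 + |r| / 2 := by positivity
    calc Real.log Real.pi * ((1 / 2 - r) / 2) ≤ Real.log Real.pi * (1 / 4 + |r| / 2) :=
          mul_le_mul_of_nonneg_left h1 hlp0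
      _ ≤ 2 * (1 / 4 + |r| / 2) := mul_le_mul_of_nonneg_right hlp2 h0
      _ = 1 / 2 + |r| := by ring
  have b3 : (1 + |x / 2|) ^ (2 - (5 / 4 - r / 2)) ≤
      Real.exp (3 / 4 + |r| / 2) * (1 + |x|) ^ (3 / 4 + r / 2) := by
    have hp : (2 - (5 / 4 - r / 2)) = 3 / 4 + r / 2 := by ring
    rw [hp]
    have hx0 : 0 ≤ |x| := abs_nonneg x
    have hx2 : |x / 2| = |x| / 2 := by rw [abs_div, abs_two]
    rw [hx2]
    by_cases h : 0 ≤ 3 / 4 + r / 2
    · have h1 : (1 + |x| / 2) ^ (3 / 4 + r / 2) ≤ (1 + |x|) ^ (3 / 4 + r / 2) :=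
        Real.rpow_le_rpow (by positivity) (by linarith) h
      refine h1.trans ?_
      have h2 : 1 ≤ Real.exp (3 / 4 + |r| / 2) := Real.one_le_exp (by positivity)
      exact le_mul_of_one_le_left (by positivity) h2
    · push Not at h
      have h1 : (1 + |x| / 2) ^ (3 / 4 + r / 2) ≤ ((1 / 2) * (1 + |x|)) ^ (3 / 4 + r / 2) :=
        Real.rpow_le_rpow_of_nonpos (by positivity) (by linarith) h.le
      refine h1.trans ?_
      rw [Real.mul_rpow (by norm_num) (by positivity)]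
      apply mul_le_mul_of_nonneg_right _ (by positivity)
      rw [Real.rpow_def_of_pos (by norm_num : (0 : ℝ) < 1 / 2)]
      apply Real.exp_le_exp.2
      have hl : Real.log (1 / 2) = - Real.log 2 := by rw [one_div, Real.log_inv]
      rw [hl]
      have h5 : Real.log 2 ≤ 1 := by linarith [Real.log_two_lt_d9]
      have h6 : - (3 / 4 + r / 2) ≤ 3 / 4 + |r| / 2 := by linarith [neg_abs_le r]
      calc - Real.log 2 * (3 / 4 + r / 2) = Real.log 2 * (-(3 / 4 + r / 2)) := by ring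
        _ ≤ 1 * (-(3 / 4 + r / 2)) := mul_le_mul_of_nonneg_right h5 (by linarith)
        _ ≤ _ := by linarith
  have b4 : ‖(Complex.Gamma (5 / 4 + I * ((x : ℂ) + r * I) / 2))⁻¹‖ ≤
      C * Real.exp (ε * (5 / 4 - r / 2) ^ 2) * (Real.exp (3 / 4 + |r| / 2) * (1 + |x|) ^ (3 / 4 + r / 2)) *
        Real.exp (Real.pi / 4 * |x|) := by
    rw [e2]
    refine (hG (5 / 4 - r / 2) (x / 2)).trans ?_
    have : Real.pi / 2 * |x / 2| = Real.pi / 4 * |x| := by rw [abs_div, abs_two]; ring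
    rw [this]
    apply mul_le_mul_of_nonneg_right _ (by positivity)
    exact mul_le_mul_of_nonneg_left b3 (by positivity)
  have hx1 : 0 < 1 + |x| := by positivity
  calc _ ≤ Real.exp (1 / 2 + |r|) * Real.exp (1 / 2 + |r|) *
        (C * Real.exp (ε * (5 / 4 - r / 2) ^ 2) * (Real.exp (3 / 4 + |r| / 2) * (1 + |x|) ^ (3 / 4 + r / 2)) *
        Real.exp (Real.pi / 4 * |x|)) := by
        apply mul_le_mul (mul_le_mul b1 b2 (norm_nonneg _) (by positivity)) b4 (norm_nonneg _) (by positivity)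
    _ = C * Real.exp ((1 / 2 + |r|) + (1 / 2 + |r|) + ε * (5 / 4 - r / 2) ^ 2 + (3 / 4 + |r| / 2)) *
        (1 + |x|) ^ (3 / 4 + r / 2) * Real.exp (Real.pi / 4 * |x|) := by
        rw [Real.exp_add _ (3 / 4 + |r| / 2), Real.exp_add _ (ε * (5 / 4 - r / 2) ^ 2), Real.exp_add (1 / 2 + |r|)]
        ring
    _ ≤ _ := by
        apply mul_le_mul_of_nonneg_right _ (by positivity)
        apply mul_le_mul_of_nonneg_right _ (by positivity)
        rw [mul_assoc, ← Real.exp_add]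
        apply mul_le_mul_of_nonneg_left _ hC.le
        apply Real.exp_le_exp.2
        have hsq : r ^ 2 = |r| ^ 2 := (sq_abs r).symm
        have h1 : (5 / 4 - r / 2) ^ 2 ≤ 25 / 8 + r ^ 2 / 2 := by nlinarith [sq_nonneg (5 / 4 + r / 2)]
        have h2 : ε * (5 / 4 - r / 2) ^ 2 ≤ ε * (25 / 8 + r ^ 2 / 2) := mul_le_mul_of_nonneg_left h1 hε.le
        have h3 : 5 / 2 * |r| ≤ ε * r ^ 2 / 2 + 25 / (8 * ε) := by
          have h4 : ε * r ^ 2 / 2 + 25 / (8 * ε) - 5 / 2 * |r| = (2 * ε * |r| - 5) ^ 2 / (8 * ε) := by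
            rw [hsq]; field_simp; ring
          have h5 : 0 ≤ (2 * ε * |r| - 5) ^ 2 / (8 * ε) := by positivity
          linarith
        nlinarith [h2, h3]

end Pool.Agent.Helper242.KK
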