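import Pool.Agent.Helper242.KK.Defs

set_option autoImplicit false

namespace Pool.Agent.Helper242.KK

open Complex MeasureTheory Filter Topology Metric

/-- TARGET 1 -/
theorem zc_mono (f : ℂ → ℂ) {S T : Set ℂ} (h : S ⊆ T) : zc f S ≤ zc f T :=
  ENNReal.tsum_mono_subtype (fun z => ((analyticOrderAt f (z : ℂ) : ℕ∞) : ENNReal)) h

/-- TARGET 2 -/
theorem zc_biUnion_le (f : ℂ → ℂ) {ι : Type*} (s : Finset ι) (S : ι → Set ℂ) :
    zc f (⋃ i ∈ s, S i) ≤ ∑ i ∈ s, zc f (S i) :=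
  ENNReal.tsum_biUnion_le (fun z => ((analyticOrderAt f (z : ℂ) : ℕ∞) : ENNReal)) s S

/-- TARGET 3 -/
theorem zc_union_le (f : ℂ → ℂ) (S T : Set ℂ) : zc f (S ∪ T) ≤ zc f S + zc f T :=
  ENNReal.tsum_union_le (fun z => ((analyticOrderAt f (z : ℂ) : ℕ∞) : ENNReal)) S T

/-- TARGET 4 -/
theorem zc_mul_exp {f : ℂ → ℂ} (hf : Differentiable ℂ f) (a : ℂ) (S : Set ℂ) :
    zc (fun z => f z * cexp (a * z)) S = zc f S := by
  unfold zc
  refine tsum_congr fun z => ?_
  congr 1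
  have h1 : AnalyticAt ℂ f (z : ℂ) := hf.analyticAt _
  have hd : Differentiable ℂ (fun w : ℂ => cexp (a * w)) := by fun_prop
  have h2 : AnalyticAt ℂ (fun w : ℂ => cexp (a * w)) (z : ℂ) := hd.analyticAt _
  have h3 := analyticOrderAt_mul h1 h2
  have h4 : analyticOrderAt (fun w : ℂ => cexp (a * w)) (z : ℂ) = 0 :=
    h2.analyticOrderAt_eq_zero.2 (Complex.exp_ne_zero _)
  rw [h4, add_zero] at h3
  exact h3

/-- TARGET 5 -/
theorem zc_neg {f : ℂ → ℂ} (hf : ∀ z, f (-z) = f z) (S : Set ℂ) :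
    zc f ((fun z => -z) '' S) = zc f S := by
  have key : ∀ z : ℂ, analyticOrderAt f (-z) = analyticOrderAt f z := by
    intro z
    have hg : AnalyticAt ℂ (fun w : ℂ => -w) z := by fun_prop
    have hg' : deriv (fun w : ℂ => -w) z ≠ 0 := by
      rw [deriv_neg]; norm_num
    have h := analyticOrderAt_comp_of_deriv_ne_zero (f := f) hg hg'
    have e : f ∘ (fun w : ℂ => -w) = f := by
      funext w; exact hf w
    rw [e] at h
    exact h.symm
  unfold zc
  have h := ((Equiv.neg ℂ).image S).symm.tsum_eq (fun z : S => ((analyticOrderAt f (z : ℂ) : ℕ∞) : ENNReal))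
  rw [← h]
  refine tsum_congr fun z => ?_
  obtain ⟨_, w, hw, rfl⟩ := z
  have e : (((Equiv.neg ℂ).image S).symm ⟨(fun z => -z) w, ⟨w, hw, rfl⟩⟩ : S) = ⟨w, hw⟩ := by
    rw [Equiv.symm_apply_eq]
    rfl
  show ((analyticOrderAt f (-w) : ℕ∞) : ENNReal) = ((analyticOrderAt f ((((Equiv.neg ℂ).image S).symm ⟨(fun z => -z) w, ⟨w, hw, rfl⟩⟩ : S) : ℂ) : ℕ∞) : ENNReal)
  rw [e, key]

theorem order_ne_top {f : ℂ → ℂ} (hf : Differentiable ℂ f) (h0 : ∃ z, f z ≠ 0) (z : ℂ) :
    analyticOrderAt f z ≠ ⊤ := by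
  intro h
  rw [analyticOrderAt_eq_top] at h
  obtain ⟨w, hw⟩ := h0
  apply hw
  have hA : AnalyticOnNhd ℂ f Set.univ := fun x _ => hf.analyticAt x
  have := hA.eqOn_zero_of_preconnected_of_eventuallyEq_zero isPreconnected_univ (Set.mem_univ z) h
  exact this (Set.mem_univ w)

/-- TARGET 6 -/
theorem zc_closedBall {f : ℂ → ℂ} (hf : Differentiable ℂ f) (h0 : ∃ z, f z ≠ 0) (c : ℂ) {r : ℝ}
    (hr : 0 < r) :
    zc f (closedBall c r) =
      ENNReal.ofReal (∑ᶠ u, (MeromorphicOn.divisor f (closedBall c r) u : ℝ)) := by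
  set D := MeromorphicOn.divisor f (closedBall c r) with hD
  have hA : AnalyticOnNhd ℂ f (closedBall c r) := fun x _ => hf.analyticAt x
  have hfin : (Function.support D).Finite := D.finiteSupport (isCompact_closedBall c r)
  have hD1 : ∀ z ∈ closedBall c r, ∃ k : ℕ, analyticOrderAt f z = k ∧ D z = k := by
    intro z hz
    obtain ⟨k, hk⟩ := ENat.ne_top_iff_exists.1 (order_ne_top hf h0 z)
    refine ⟨k, hk.symm, ?_⟩
    rw [hD, MeromorphicOn.AnalyticOnNhd.divisor_apply hA hz, ← hk]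
    rfl
  have hD2 : ∀ z ∉ closedBall c r, D z = 0 := by
    intro z hz
    exact Function.locallyFinsuppWithin.apply_eq_zero_of_notMem D hz
  have hnn : ∀ z, (0 : ℝ) ≤ (D z : ℝ) := by
    intro z
    by_cases hz : z ∈ closedBall c r
    · obtain ⟨k, -, h2⟩ := hD1 z hz
      rw [h2]; positivity
    · rw [hD2 z hz]; simp
  unfold zc
  rw [tsum_subtype (closedBall c r) (fun z => ((analyticOrderAt f (z : ℂ) : ℕ∞) : ENNReal))]
  have e1 : ∀ z, (closedBall c r).indicator (fun z => ((analyticOrderAt f (z : ℂ) : ℕ∞) : ENNReal)) z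
      = ENNReal.ofReal (D z : ℝ) := by
    intro z
    by_cases hz : z ∈ closedBall c r
    · rw [Set.indicator_of_mem hz]
      obtain ⟨k, h1, h2⟩ := hD1 z hz
      rw [h1, h2]
      simp
    · rw [Set.indicator_of_notMem hz, hD2 z hz]
      simp
  rw [tsum_congr e1]
  rw [tsum_eq_sum (s := hfin.toFinset)]
  · rw [← ENNReal.ofReal_sum_of_nonneg (fun z _ => hnn z)]
    congr 1
    symm
    apply finsum_eq_sum_of_support_subset
    intro z hz
    simp only [Function.mem_support, ne_eq] at hz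
    simp only [Set.Finite.coe_toFinset, Function.mem_support, ne_eq]
    exact fun h => hz (by rw [h]; simp)
  · intro z hz
    simp only [Set.Finite.mem_toFinset, Function.mem_support, ne_eq, not_not] at hz
    rw [hz]; simp

/-- TARGET 7 -/
theorem zc_ball_le {F : ℂ → ℂ} (hF : Differentiable ℂ F) {c : ℂ} {r R M : ℝ} (hr : 0 < r)
    (hrR : r < R) (hM : 1 ≤ M) (hFc : F c ≠ 0) (hb : ∀ z ∈ sphere c R, ‖F z‖ ≤ M) :
    zc F (closedBall c r) ≤ ENNReal.ofReal (Real.log (M / ‖F c‖) / Real.log (R / r)) := by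
  rw [zc_closedBall hF ⟨c, hFc⟩ c hr]
  apply ENNReal.ofReal_le_ofReal
  have hR : 0 < R := hr.trans hrR
  have h := AnalyticOnNhd.sum_divisor_le (c := c) (r := r) (R := R) (M := M) (f := F)
    (by rwa [abs_of_pos hr]) (by rwa [abs_of_pos hr, abs_of_pos hR]) hM
    (fun x _ => hF.analyticAt x) hFc (by rwa [abs_of_pos hR])
  rw [abs_of_pos hr] at h
  refine le_trans (le_of_eq ?_) h
  symm
  exact map_finsum (Int.castRingHom ℝ)
      ((MeromorphicOn.divisor _ _).finiteSupport <| isCompact_closedBall ..)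

end Pool.Agent.Helper242.KK
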